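import Pool.Agent.Lib_helper87.TreeDp
set_option autoImplicit false

/-! # Breadth first numbering of a tree -/

namespace Pool.Agent.Lib_helper87.UM
open Finset

/-- state of a breadth first search when the first `h` of the `T` elements of the queue have been
expanded -/
structure BInv {n : ℕ} (G : SimpleGraph (Fin n)) (h T : ℕ) (ord : ℕ → Fin n) (par F : ℕ → ℕ) :
    Prop where
  pos : 0 < T
  le : h ≤ T
  inj : ∀ i j, i < T → j < T → ord i = ord j → i = j
  zero : F 0 = 1
  last : F h = T
  mono : ∀ i < h, F i ≤ F (i + 1)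
  lt : ∀ i < h, i < F i
  par_eq : ∀ i < h, ∀ c ∈ Ico (F i) (F (i + 1)), par c = i
  adj : ∀ i < h, ∀ w, G.Adj (ord i) w ↔
    (0 < i ∧ w = ord (par i)) ∨ ∃ c ∈ Ico (F i) (F (i + 1)), w = ord c

namespace BInv
variable {n : ℕ} {G : SimpleGraph (Fin n)} {h T : ℕ} {ord : ℕ → Fin n} {par F : ℕ → ℕ}

lemma mono' (B : BInv G h T ord par F) {i j : ℕ} (hij : i ≤ j) (hj : j ≤ h) : F i ≤ F j := by
  induction j with
  | zero => have : i = 0 := by omega
            subst this; exact le_rfl
  | succ j ih =>
    rcases Nat.lt_or_ge i (j + 1) with h' | h'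
    · exact (ih (by omega) (by omega)).trans (B.mono j (by omega))
    · have : i = j + 1 := by omega
      subst this; exact le_rfl

lemma exists_par (B : BInv G h T ord par F) {c : ℕ} (hc0 : 0 < c) (hc : c < T) :
    par c < h ∧ c ∈ Ico (F (par c)) (F (par c + 1)) ∧ par c < c := by
  have hk : ∀ k, k ≤ h → c < F k → ∃ i < k, c ∈ Ico (F i) (F (i + 1)) := by
    intro k
    induction k with
    | zero => intro _ h'; rw [B.zero] at h'; omega
    | succ k ih =>
      intro hk hck
      rcases Nat.lt_or_ge c (F k) with h' | h'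
      · obtain ⟨i, hi, hci⟩ := ih (by omega) h'
        exact ⟨i, by omega, hci⟩
      · exact ⟨k, by omega, Finset.mem_Ico.mpr ⟨h', hck⟩⟩
  obtain ⟨i, hi, hci⟩ := hk h le_rfl (by rw [B.last]; exact hc)
  have h1 := B.par_eq i hi c hci
  rw [h1]
  have h2 := B.lt i hi
  rw [Finset.mem_Ico] at hci
  exact ⟨hi, Finset.mem_Ico.mpr hci, by omega⟩

lemma adj_par (B : BInv G h T ord par F) {c : ℕ} (hc0 : 0 < c) (hc : c < T) :
    G.Adj (ord (par c)) (ord c) := by
  obtain ⟨h1, h2, _⟩ := B.exists_par hc0 hc
  exact (B.adj _ h1 _).mpr (Or.inr ⟨c, h2, rfl⟩)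

lemma reach (B : BInv G h T ord par F) {u w : Fin n}
    (hne : ∀ c, 0 < c → c < T → s(ord (par c), ord c) ≠ s(u, w)) :
    ∀ j, j < T → (G.deleteEdges {s(u, w)}).Reachable (ord 0) (ord j) := by
  intro j
  induction j using Nat.strong_induction_on with
  | _ j ih =>
    intro hj
    rcases Nat.eq_zero_or_pos j with h0 | h0
    · rw [h0]
    · obtain ⟨h1, h2, h3⟩ := B.exists_par h0 hj
      have e1 := ih (par j) h3 (by omega)
      refine e1.trans (SimpleGraph.Adj.reachable ?_)
      rw [SimpleGraph.deleteEdges_adj]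
      exact ⟨B.adj_par h0 hj, by simpa using hne j h0 hj⟩

lemma fresh (B : BInv G h T ord par F) (hG : G.IsAcyclic) (hT : h < T) {w : Fin n}
    (hw : G.Adj (ord h) w) (hp : 0 < h → w ≠ ord (par h)) : ∀ j < T, ord j ≠ w := by
  intro j hj hjw
  subst hjw
  have hjh : j ≠ h := by
    rintro rfl
    exact G.loopless.irrefl _ hw
  have hb := SimpleGraph.isAcyclic_iff_forall_adj_isBridge.mp hG hw
  rw [SimpleGraph.isBridge_iff] at hb
  apply hb
  have hne : ∀ c, 0 < c → c < T → s(ord (par c), ord c) ≠ s(ord h, ord j) := by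
    intro c hc0 hc heq
    obtain ⟨h1, h2, h3⟩ := B.exists_par hc0 hc
    rw [Sym2.eq_iff] at heq
    rcases heq with ⟨e1, e2⟩ | ⟨e1, e2⟩
    · have := B.inj _ _ (by omega) hT e1
      omega
    · have e3 := B.inj _ _ hc hT e2
      have e4 := B.inj _ _ (by omega) hj e1
      rw [e3] at e4
      exact hp (by omega) (by rw [e4])
  exact (B.reach hne h hT).symm.trans (B.reach hne j hj)

lemma T_le (B : BInv G h T ord par F) : T ≤ n := by
  have : Function.Injective (fun i : Fin T => ord i) := fun i j hij =>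
    Fin.ext (B.inj i j i.2 j.2 hij)
  simpa using Fintype.card_le_of_injective _ this

lemma lt_T (B : BInv G h T ord par F) (hG : G.Connected) (hn : h < n) : h < T := by
  rcases Nat.lt_or_ge h T with h' | h'
  · exact h'
  exfalso
  have hhT : h = T := le_antisymm B.le h'
  have hcl : ∀ u v, G.Adj u v → (∃ j < T, ord j = u) → ∃ j < T, ord j = v := by
    rintro u v huv ⟨j, hj, rfl⟩
    rcases (B.adj j (by omega) v).mp huv with ⟨h1, h2⟩ | ⟨c, h1, h2⟩
    · obtain ⟨_, _, h4⟩ := B.exists_par h1 hj
      exact ⟨par j, by omega, h2.symm⟩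
    · rw [Finset.mem_Ico] at h1
      have := B.mono' (show j + 1 ≤ h by omega) le_rfl
      rw [B.last] at this
      exact ⟨c, by omega, h2.symm⟩
  have hall : ∀ v, ∃ j < T, ord j = v := by
    intro v
    obtain ⟨p⟩ := hG.preconnected (ord 0) v
    have : ∀ {a b : Fin n} (p : G.Walk a b), (∃ j < T, ord j = a) → ∃ j < T, ord j = b := by
      intro a b p
      induction p with
      | nil => exact id
      | cons hadj _ ih => exact fun ha => ih (hcl _ _ hadj ha)
    exact this p ⟨0, B.pos, rfl⟩
  have hs : Function.Surjective (fun i : Fin T => ord i) := fun v => by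
    obtain ⟨j, hj, hjv⟩ := hall v
    exact ⟨⟨j, hj⟩, hjv⟩
  have := Fintype.card_le_of_surjective _ hs
  simp at this
  omega

lemma step (B : BInv G h T ord par F) (hG : G.IsAcyclic) (hT : h < T) {ord' : ℕ → Fin n}
    {T' : ℕ} (hTT : T ≤ T') (hold : ∀ j < T, ord' j = ord j)
    (hinj : ∀ i j, T ≤ i → i < T' → T ≤ j → j < T' → ord' i = ord' j → i = j)
    (hnew : ∀ w, (∃ c ∈ Ico T T', ord' c = w) ↔ G.Adj (ord h) w ∧ (0 < h → w ≠ ord (par h))) :
    BInv G (h + 1) T' ord' (fun c => if T ≤ c then h else par c)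
      (fun i => if i ≤ h then F i else T') := by
  have hF : ∀ i < h, F (i + 1) ≤ T := by
    intro i hi
    have := B.mono' (show i + 1 ≤ h by omega) le_rfl
    rwa [B.last] at this
  have hpar : ∀ i, i < T → (if T ≤ i then h else par i) = par i := by
    intro i hi
    rw [if_neg (by omega)]
  constructor
  · have := B.pos; omega
  · omega
  · intro i j hi hj hij
    rcases Nat.lt_or_ge i T with h1 | h1 <;> rcases Nat.lt_or_ge j T with h2 | h2
    · rw [hold i h1, hold j h2] at hij
      exact B.inj i j h1 h2 hij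
    · exfalso
      rw [hold i h1] at hij
      obtain ⟨e1, e2⟩ := (hnew (ord' j)).mp ⟨j, Finset.mem_Ico.mpr ⟨h2, hj⟩, rfl⟩
      exact B.fresh hG hT e1 e2 i h1 hij
    · exfalso
      rw [hold j h2] at hij
      obtain ⟨e1, e2⟩ := (hnew (ord' i)).mp ⟨i, Finset.mem_Ico.mpr ⟨h1, hi⟩, rfl⟩
      exact B.fresh hG hT e1 e2 j h2 hij.symm
    · exact hinj i j h1 hi h2 hj hij
  · simp [B.zero]
  · simp
  · intro i hi
    rcases Nat.lt_or_ge i h with h1 | h1
    · rw [if_pos (by omega), if_pos (by omega)]
      exact B.mono i h1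
    · have : i = h := by omega
      subst this
      rw [if_pos le_rfl, if_neg (by omega), B.last]
      exact hTT
  · intro i hi
    rcases Nat.lt_or_ge i h with h1 | h1
    · rw [if_pos (by omega)]
      exact B.lt i h1
    · have : i = h := by omega
      subst this
      rw [if_pos le_rfl, B.last]
      exact hT
  · intro i hi c hc
    rcases Nat.lt_or_ge i h with h1 | h1
    · rw [if_pos (by omega), if_pos (by omega)] at hc
      have h2 := hF i h1
      rw [if_neg (by rw [Finset.mem_Ico] at hc; omega)]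
      exact B.par_eq i h1 c hc
    · have : i = h := by omega
      subst this
      rw [if_pos le_rfl, if_neg (by omega), B.last, Finset.mem_Ico] at hc
      rw [if_pos hc.1]
  · intro i hi w
    rcases Nat.lt_or_ge i h with h1 | h1
    · have h2 := hF i h1
      rw [hpar i (by omega), if_pos (show i ≤ h by omega), if_pos (show i + 1 ≤ h by omega),
        hold i (by omega), B.adj i h1 w]
      have e1 : (0 < i ∧ w = ord (par i)) ↔ (0 < i ∧ w = ord' (par i)) := by
        constructor
        · rintro ⟨h3, h4⟩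
          obtain ⟨_, _, h5⟩ := B.exists_par h3 (by omega)
          exact ⟨h3, by rw [h4, hold _ (by omega)]⟩
        · rintro ⟨h3, h4⟩
          obtain ⟨_, _, h5⟩ := B.exists_par h3 (by omega)
          exact ⟨h3, by rw [h4, hold _ (by omega)]⟩
      rw [e1]
      have e2 : (∃ c ∈ Ico (F i) (F (i + 1)), w = ord c) ↔
          (∃ c ∈ Ico (F i) (F (i + 1)), w = ord' c) := by
        constructor
        · rintro ⟨c, h3, h4⟩
          rw [Finset.mem_Ico] at h3
          exact ⟨c, Finset.mem_Ico.mpr h3, by rw [h4, hold _ (by omega)]⟩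
        · rintro ⟨c, h3, h4⟩
          rw [Finset.mem_Ico] at h3
          exact ⟨c, Finset.mem_Ico.mpr h3, by rw [h4, hold _ (by omega)]⟩
      rw [e2]
    · have : i = h := by omega
      subst this
      rw [hpar i hT, if_pos le_rfl, if_neg (show ¬ i + 1 ≤ i by omega), hold i hT, B.last]
      constructor
      · intro hw
        by_cases hp : 0 < i ∧ w = ord (par i)
        · left
          obtain ⟨h3, h4⟩ := hp
          obtain ⟨_, _, h5⟩ := B.exists_par h3 (by omega)
          exact ⟨h3, by rw [h4, hold _ (by omega)]⟩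
        · right
          obtain ⟨c, hc, hcw⟩ := (hnew w).mpr ⟨hw, fun h0 heq => hp ⟨h0, heq⟩⟩
          exact ⟨c, hc, hcw.symm⟩
      · rintro (⟨h3, h4⟩ | ⟨c, hc, hcw⟩)
        · obtain ⟨_, _, h5⟩ := B.exists_par h3 (by omega)
          rw [h4, hold _ (by omega)]
          exact (B.adj_par h3 (by omega)).symm
        · exact ((hnew w).mp ⟨c, hc, hcw.symm⟩).1

lemma init (v : Fin n) : BInv G 0 1 (fun _ => v) (fun _ => 0) (fun _ => 1) := by
  constructor
  · norm_num
  · norm_num
  · intro i j hi hj _
    omega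
  · rfl
  · rfl
  · intro i hi; omega
  · intro i hi; omega
  · intro i hi; omega
  · intro i hi; omega

lemma final (B : BInv G n T ord par F) : T = n ∧ Seq n F par := by
  have hT : T = n := le_antisymm B.T_le B.le
  subst hT
  exact ⟨rfl, B.pos, B.zero, B.last, B.mono, B.lt, B.par_eq⟩

end BInv

end Pool.Agent.Lib_helper87.UM
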