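import Pool.Agent.Lib_helper87.Comp
set_option autoImplicit false

/-! # Straight line code, and notation for expressions -/

namespace Pool.Agent.Lib_helper87.UM

instance : Add Expr := ⟨.add⟩
instance : Sub Expr := ⟨.sub⟩

@[simp] lemma ev_add (s : St) (a b : Expr) : (a + b).eval s = a.eval s + b.eval s := by
  change Expr.eval s (.add a b) = _
  simp only [Expr.eval]
@[simp] lemma ev_sub (s : St) (a b : Expr) : (a - b).eval s = a.eval s - b.eval s := by
  change Expr.eval s (.sub a b) = _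
  simp only [Expr.eval]
@[simp] lemma ev_var (s : St) (x : ℕ) : (Expr.var x).eval s = s.v x := by simp only [Expr.eval]
@[simp] lemma ev_cst (s : St) (k : ℤ) : (Expr.cst k).eval s = k := by simp only [Expr.eval]
@[simp] lemma ev_smul (s : St) (k : ℤ) (a : Expr) : (Expr.smul k a).eval s = k * a.eval s := by
  simp only [Expr.eval]
@[simp] lemma ev_div (s : St) (a b : Expr) : (Expr.div a b).eval s = a.eval s / b.eval s := by
  simp only [Expr.eval]
@[simp] lemma ev_mx (s : St) (a b : Expr) : (Expr.mx a b).eval s = max (a.eval s) (b.eval s) := by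
  simp only [Expr.eval]
@[simp] lemma ev_ld (s : St) (a : Fin 16) (i : Expr) : (Expr.ld a i).eval s = s.m a (i.eval s) := by
  simp only [Expr.eval]
@[simp] lemma ev_cond (s : St) (a b c d : Expr) :
    (Expr.cond a b c d).eval s = if a.eval s < b.eval s then c.eval s else d.eval s := by
  simp only [Expr.eval]

/-- effect of straight line code -/
def Cmd.exec : Cmd → St → St
  | .skip, s => s
  | .set x e, s => s.setv x (e.eval s)
  | .put a i e, s => s.setm a (i.eval s) (e.eval s)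
  | .seq c d, s => d.exec (c.exec s)
  | .ite a b c d, s => if a.eval s < b.eval s then c.exec s else d.exec s
  | .wh _ _ _, s => s

/-- boundedness of straight line code -/
def Cmd.bd (X : ℤ) : Cmd → St → Prop
  | .skip, _ => True
  | .set _ e, s => |e.eval s| ≤ X
  | .put _ _ e, s => |e.eval s| ≤ X
  | .seq c d, s => c.bd X s ∧ d.bd X (c.exec s)
  | .ite a b c d, s => (a.eval s < b.eval s → c.bd X s) ∧ (¬ a.eval s < b.eval s → d.bd X s)
  | .wh _ _ _, _ => False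

def Cmd.cost : Cmd → ℕ
  | .skip => 0
  | .set _ _ => 1
  | .put _ _ _ => 1
  | .seq c d => c.cost + d.cost
  | .ite _ _ c d => c.cost + d.cost + 1
  | .wh _ _ _ => 0

@[simp] lemma exec_skip (s : St) : Cmd.skip.exec s = s := by simp only [Cmd.exec]
@[simp] lemma exec_set (s : St) (x : ℕ) (e : Expr) : (Cmd.set x e).exec s = s.setv x (e.eval s) := by
  simp only [Cmd.exec]
@[simp] lemma exec_put (s : St) (a : Fin 16) (i e : Expr) :
    (Cmd.put a i e).exec s = s.setm a (i.eval s) (e.eval s) := by simp only [Cmd.exec]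
@[simp] lemma exec_seq (s : St) (c d : Cmd) : (Cmd.seq c d).exec s = d.exec (c.exec s) := by
  simp only [Cmd.exec]
@[simp] lemma exec_ite (s : St) (a b : Expr) (c d : Cmd) :
    (Cmd.ite a b c d).exec s = if a.eval s < b.eval s then c.exec s else d.exec s := by
  simp only [Cmd.exec]
@[simp] lemma bd_skip (X : ℤ) (s : St) : Cmd.skip.bd X s ↔ True := by simp only [Cmd.bd]
@[simp] lemma bd_set (X : ℤ) (s : St) (x : ℕ) (e : Expr) : (Cmd.set x e).bd X s ↔ |e.eval s| ≤ X := by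
  simp only [Cmd.bd]
@[simp] lemma bd_put (X : ℤ) (s : St) (a : Fin 16) (i e : Expr) :
    (Cmd.put a i e).bd X s ↔ |e.eval s| ≤ X := by simp only [Cmd.bd]
@[simp] lemma bd_seq (X : ℤ) (s : St) (c d : Cmd) :
    (Cmd.seq c d).bd X s ↔ c.bd X s ∧ d.bd X (c.exec s) := by simp only [Cmd.bd]
@[simp] lemma bd_ite (X : ℤ) (s : St) (a b : Expr) (c d : Cmd) :
    (Cmd.ite a b c d).bd X s ↔
      (a.eval s < b.eval s → c.bd X s) ∧ (¬ a.eval s < b.eval s → d.bd X s) := by
  simp only [Cmd.bd]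

theorem Cmd.run_exec {X : ℤ} (c : Cmd) : ∀ s, c.bd X s → ∃ t, Run X c s t (c.exec s) ∧ t ≤ c.cost := by
  induction c with
  | skip => intro s _; exact ⟨0, .skip s, le_rfl⟩
  | set x e => intro s h; exact ⟨1, .set s x e h, le_rfl⟩
  | put a i e => intro s h; exact ⟨1, .put s a i e h, le_rfl⟩
  | seq c d ihc ihd =>
    intro s h
    obtain ⟨t, h1, h2⟩ := ihc s h.1
    obtain ⟨t', h3, h4⟩ := ihd _ h.2
    exact ⟨t + t', .seq h1 h3, by simp only [Cmd.cost]; omega⟩
  | ite a b c d ihc ihd =>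
    intro s h
    by_cases hlt : a.eval s < b.eval s
    · obtain ⟨t, h1, h2⟩ := ihc s (h.1 hlt)
      refine ⟨t + 1, ?_, by simp only [Cmd.cost]; omega⟩
      rw [exec_ite, if_pos hlt]
      exact .iteT hlt h1
    · obtain ⟨t, h1, h2⟩ := ihd s (h.2 hlt)
      refine ⟨t + 1, ?_, by simp only [Cmd.cost]; omega⟩
      rw [exec_ite, if_neg hlt]
      exact .iteF hlt h1
  | wh a b c ih => intro s h; exact h.elim

theorem Tr.sl {X : ℤ} {c : Cmd} {s : St} {τ : ℕ} {Q : St → Prop} (hb : c.bd X s)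
    (hτ : c.cost ≤ τ) (hQ : Q (c.exec s)) : Tr X c s τ Q := by
  obtain ⟨t, h1, h2⟩ := c.run_exec s hb
  exact ⟨t, _, h1, h2.trans hτ, hQ⟩

/-- `if a ≠ b then c` -/
def Cmd.ine (a b : Expr) (c : Cmd) : Cmd := .ite a b c (.ite b a c .skip)

theorem Tr.ine {X : ℤ} {s : St} {a b : Expr} {c : Cmd} {τ τ1 : ℕ} {Q : St → Prop}
    (h1 : a.eval s ≠ b.eval s → Tr X c s τ1 Q) (h2 : a.eval s = b.eval s → Q s)
    (hτ : τ1 + 2 ≤ τ) : Tr X (Cmd.ine a b c) s τ Q := by
  refine Tr.ite (τ1 := τ1 + 1) (fun h => (h1 h.ne).mono (by omega) fun _ h => h) (fun h => ?_) (by omega)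
  refine Tr.ite (τ1 := τ1) (fun h => (h1 h.ne').mono (by omega) fun _ h => h) (fun h' => ?_) (by omega)
  exact Tr.skip (h2 (by omega))

/-- rule for counting loops with variable cost, with frame conditions relative to the initial
state -/
theorem Tr.forF {X : ℤ} {x y : ℕ} {c : Cmd} (hx : c.mv x = false) (hy : c.mv y = false)
    (hxy : x ≠ y) {s : St} (I : ℕ → St → Prop) (cost : ℕ → ℕ) (lo hi : ℕ) (hlohi : lo ≤ hi)
    (hhX : (hi : ℤ) ≤ X) (hsx : s.v x = lo) (hsy : s.v y = hi) (h0 : I lo s)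
    (hstep : ∀ (k : ℕ) (st : St), lo ≤ k → k < hi → st.v x = (k : ℤ) → st.v y = (hi : ℤ) →
      (∀ z, c.mv z = false → z ≠ x → st.v z = s.v z) → (∀ a, c.ma a = false → st.m a = s.m a) →
      I k st → Tr X c st (cost k) (fun s' => I (k + 1) (s'.setv x ((k + 1 : ℕ) : ℤ))))
    {τ : ℕ} (hτ : ∑ k ∈ Finset.Ico lo hi, (cost k + 2) + 1 ≤ τ) {Q : St → Prop}
    (hQ : ∀ s' : St, I hi s' → s'.v x = (hi : ℤ) →
      (∀ z, c.mv z = false → z ≠ x → s'.v z = s.v z) → (∀ a, c.ma a = false → s'.m a = s.m a) →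
      Q s') :
    Tr X (Cmd.for_ x y c) s τ Q := by
  refine Tr.for_ hx hy hxy (fun k st => I k st ∧
    (∀ z, c.mv z = false → z ≠ x → st.v z = s.v z) ∧ (∀ a, c.ma a = false → st.m a = s.m a))
    cost lo hi hlohi hhX hsx hsy ⟨h0, fun _ _ _ => rfl, fun _ _ => rfl⟩ ?_ hτ ?_
  · intro k st h1 h2 h3 h4 h5
    obtain ⟨i1, i2, i3⟩ := h5
    have := (hstep k st h1 h2 h3 h4 i2 i3 i1).frame
    refine this.mono le_rfl ?_
    rintro s' ⟨q1, q2, q3⟩
    refine ⟨q1, ?_, ?_⟩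
    · intro z hz hzx
      rw [St.setv_v, if_neg hzx, q2 z hz, i2 z hz hzx]
    · intro a ha
      rw [St.setv_m, q3 a ha, i3 a ha]
  · intro s' h1 h2 h3
    exact hQ s' h1.1 h2 h1.2.1 h1.2.2

/-- framed rule, constant cost -/
theorem Tr.forFc {X : ℤ} {x y : ℕ} {c : Cmd} (hx : c.mv x = false) (hy : c.mv y = false)
    (hxy : x ≠ y) {s : St} (I : ℕ → St → Prop) (cost : ℕ) (lo hi : ℕ) (hlohi : lo ≤ hi)
    (hhX : (hi : ℤ) ≤ X) (hsx : s.v x = lo) (hsy : s.v y = hi) (h0 : I lo s)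
    (hstep : ∀ (k : ℕ) (st : St), lo ≤ k → k < hi → st.v x = (k : ℤ) → st.v y = (hi : ℤ) →
      (∀ z, c.mv z = false → z ≠ x → st.v z = s.v z) → (∀ a, c.ma a = false → st.m a = s.m a) →
      I k st → Tr X c st cost (fun s' => I (k + 1) (s'.setv x ((k + 1 : ℕ) : ℤ))))
    {τ : ℕ} (hτ : (hi - lo) * (cost + 2) + 1 ≤ τ) {Q : St → Prop}
    (hQ : ∀ s' : St, I hi s' → s'.v x = (hi : ℤ) →
      (∀ z, c.mv z = false → z ≠ x → s'.v z = s.v z) → (∀ a, c.ma a = false → s'.m a = s.m a) →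
      Q s') :
    Tr X (Cmd.for_ x y c) s τ Q := by
  refine Tr.forF hx hy hxy I (fun _ => cost) lo hi hlohi hhX hsx hsy h0 hstep ?_ hQ
  simpa using hτ

/-- sequencing with frame information for the first part -/
theorem Tr.seqF {X : ℤ} {s : St} {c d : Cmd} {τ τ1 τ2 : ℕ} {R Q : St → Prop}
    (h : Tr X c s τ1 R)
    (h2 : ∀ s', R s' → (∀ y, c.mv y = false → s'.v y = s.v y) →
      (∀ y, c.ma y = false → s'.m y = s.m y) → Tr X d s' τ2 Q)
    (hτ : τ1 + τ2 ≤ τ) : Tr X (.seq c d) s τ Q := by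
  refine Tr.seq (h.frame.mono le_rfl ?_) hτ
  rintro s' ⟨q1, q2, q3⟩
  exact h2 s' q1 q2 q3

/-- `if-then-else` for straight line prefix: a single assignment -/
theorem Tr.setS {X : ℤ} {s : St} {x : ℕ} {e : Expr} {d : Cmd} {τ τ2 : ℕ} {Q : St → Prop}
    (hb : |e.eval s| ≤ X) (h : Tr X d (s.setv x (e.eval s)) τ2 Q) (hτ : 1 + τ2 ≤ τ) :
    Tr X (.seq (.set x e) d) s τ Q :=
  Tr.seq (Tr.set hb le_rfl h) hτ

end Pool.Agent.Lib_helper87.UM
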