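import Pool.Agent.Lib_helper87.Bfs
import Pool.Agent.Lib_helper87.Sl
set_option autoImplicit false

/-! # Breadth first search, the code -/

namespace Pool.Agent.Lib_helper87.UM
open Finset

/-- counting loops with a budget -/
theorem Tr.forA {X : ℤ} {x y : ℕ} {c : Cmd} (hx : c.mv x = false) (hy : c.mv y = false)
    (hxy : x ≠ y) {s : St} (I : ℕ → ℕ → St → Prop) (lo hi : ℕ) (hlohi : lo ≤ hi)
    (hhX : (hi : ℤ) ≤ X) (hsx : s.v x = lo) (hsy : s.v y = hi) {β0 : ℕ} (h0 : I lo β0 s)
    (hstep : ∀ (k β : ℕ) (st : St), lo ≤ k → k < hi → st.v x = (k : ℤ) → st.v y = (hi : ℤ) →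
      (∀ z, c.mv z = false → z ≠ x → st.v z = s.v z) → (∀ a, c.ma a = false → st.m a = s.m a) →
      I k β st → ∃ τ β', τ + 2 + β' ≤ β ∧
        Tr X c st τ (fun s' => I (k + 1) β' (s'.setv x ((k + 1 : ℕ) : ℤ))))
    {τ : ℕ} (hτ : β0 + 1 ≤ τ) {Q : St → Prop}
    (hQ : ∀ (β : ℕ) (s' : St), I hi β s' → s'.v x = (hi : ℤ) →
      (∀ z, c.mv z = false → z ≠ x → s'.v z = s.v z) → (∀ a, c.ma a = false → s'.m a = s.m a) →
      Q s') :
    Tr X (Cmd.for_ x y c) s τ Q := by
  have main : ∀ (m k β : ℕ) (st : St), lo ≤ k → k + m = hi → st.v x = (k : ℤ) →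
      st.v y = (hi : ℤ) → (∀ z, c.mv z = false → z ≠ x → st.v z = s.v z) →
      (∀ a, c.ma a = false → st.m a = s.m a) → I k β st →
      Tr X (Cmd.for_ x y c) st (β + 1)
        (fun s' => (∃ β', I hi β' s') ∧ s'.v x = (hi : ℤ) ∧
          (∀ z, c.mv z = false → z ≠ x → s'.v z = s.v z) ∧
          (∀ a, c.ma a = false → s'.m a = s.m a)) := by
    intro m
    induction m with
    | zero =>
      intro k β st hk hm hsx hsy hf1 hf2 hI
      have : k = hi := by omega
      subst this
      refine ⟨1, st, .whF ?_, by omega, ⟨β, hI⟩, hsx, hf1, hf2⟩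
      simp [Expr.eval, hsx, hsy]
    | succ m ih =>
      intro k β st hk hm hsx hsy hf1 hf2 hI
      obtain ⟨τ1, β', hb, t1, s1, r1, b1, q1⟩ := hstep k β st hk (by omega) hsx hsy hf1 hf2 hI
      have f1 := r1.frame_v x hx
      have f2 := r1.frame_v y hy
      have hev : (Expr.add (.var x) (.cst 1)).eval s1 = ((k + 1 : ℕ) : ℤ) := by
        simp [Expr.eval, f1, hsx]
      have r2 : Run X (.set x (.add (.var x) (.cst 1))) s1 1 (s1.setv x ((k + 1 : ℕ) : ℤ)) := by
        rw [← hev]
        refine .set _ _ _ ?_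
        rw [hev, abs_of_nonneg (by positivity)]
        have : ((k + 1 : ℕ) : ℤ) ≤ hi := by exact_mod_cast (by omega : k + 1 ≤ hi)
        omega
      obtain ⟨t2, s2, r3, b3, q3⟩ := ih (k + 1) β' (s1.setv x ((k + 1 : ℕ) : ℤ)) (by omega) (by omega)
        (by simp) (by rw [St.setv_v, if_neg (Ne.symm hxy), f2, hsy])
        (fun z hz hzx => by rw [St.setv_v, if_neg hzx, r1.frame_v z hz, hf1 z hz hzx])
        (fun a ha => by rw [St.setv_m, r1.frame_m a ha, hf2 a ha]) q1
      refine ⟨t1 + 1 + 1 + t2, s2, ?_, by omega, q3⟩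
      refine .whT ?_ (.seq r1 r2) r3
      simp only [Expr.eval, hsx, hsy]
      exact_mod_cast (by omega : k < hi)
  obtain ⟨m, hm⟩ : ∃ m, lo + m = hi := ⟨hi - lo, by omega⟩
  refine (main m lo β0 s le_rfl hm hsx hsy (fun _ _ _ => rfl) (fun _ _ => rfl) h0).mono hτ ?_
  rintro s' ⟨⟨β', h1⟩, h2, h3, h4⟩
  exact hQ β' s' h1 h2 h3 h4

def nbB : Cmd := .seq (.set 7 (.ld 0 (.smul 3 (.var 0) + .var 5)))
  (Cmd.ine (.var 7) (.var 4) (.seq (.put 1 (.var 1) (.var 7)) (.seq (.put 2 (.var 1) (.var 3))
    (.set 1 (.var 1 + .cst 1)))))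

def bfsB : Cmd := .seq (.put 3 (.var 2) (.var 1)) (.seq (.set 3 (.ld 1 (.var 2)))
  (.seq (.set 4 (.ld 2 (.var 2))) (.seq (.set 5 (.ld 0 (.smul 3 (.var 0) + .var 3)))
  (.seq (.set 6 (.ld 0 (.smul 3 (.var 0) + .var 3 + .cst 1))) (Cmd.for_ 5 6 nbB)))))

def bfsC : Cmd := .seq (.set 1 (.cst 1)) (.seq (.put 1 (.cst 0) (.cst 0))
  (.seq (.put 2 (.cst 0) (.var 0)) (.seq (.set 2 (.cst 0)) (.seq (Cmd.for_ 2 0 bfsB)
  (.put 3 (.var 0) (.var 1))))))

/-- the input is present in array 0 -/
structure InOK (n : ℕ) (adj : Fin n → List (Fin n)) (a : ℕ → ℕ) (m : ℤ → ℤ) : Prop where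
  ptr : ∀ v : ℕ, v ≤ n → m (3 * n + v) = a v
  nxt : ∀ v : Fin n, a (v + 1) = a v + (adj v).length
  nb : ∀ (v : Fin n) (t : ℕ) (ht : t < (adj v).length),
    m (3 * n + (a v + t : ℕ)) = ((adj v)[t] : ℕ)
  le : ∀ v, v ≤ n → a v ≤ 3 * n

/-- the inner loop collects the neighbours different from the parent -/
theorem nbLoop_spec {X : ℤ} {n : ℕ} {adj : Fin n → List (Fin n)} {a : ℕ → ℕ} {s : St}
    (hX : 100 * (n : ℤ) ≤ X) (hin : InOK n adj a (s.m 0)) (hnd : ∀ v, (adj v).Nodup)
    {u : Fin n} {T : ℕ} {p : ℤ} {ord : ℕ → Fin n} (hT : T ≤ n)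
    (h0 : s.v 0 = n) (h1 : s.v 1 = T) (h3 : s.v 3 = (u : ℕ)) (h4 : s.v 4 = p)
    (h5 : s.v 5 = a u) (h6 : s.v 6 = a (u + 1)) (hm1 : ∀ j < T, s.m 1 j = (ord j : ℕ)) :
    Tr X (Cmd.for_ 5 6 nbB) s (8 * (adj u).length + 1) (fun s' => ∃ (T' : ℕ) (ord' : ℕ → Fin n),
      T ≤ T' ∧ T' ≤ T + (adj u).length ∧ (∀ j < T, ord' j = ord j) ∧ s'.v 1 = (T' : ℕ) ∧
      (∀ j < T', s'.m 1 j = (ord' j : ℕ)) ∧ (∀ j : ℕ, j < T → s'.m 2 j = s.m 2 j) ∧
      (∀ j : ℕ, T ≤ j → j < T' → s'.m 2 j = (u : ℕ)) ∧
      (∀ i j, T ≤ i → i < T' → T ≤ j → j < T' → ord' i = ord' j → i = j) ∧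
      ∀ w, (∃ c ∈ Ico T T', ord' c = w) ↔ w ∈ adj u ∧ ((w : ℕ) : ℤ) ≠ p) := by
  have hlen : (adj u).length ≤ n := by simpa using (hnd u).length_le_card
  have hnx := hin.nxt u
  have hale := hin.le (u + 1) (by omega)
  have hleX : ((a (u + 1) : ℕ) : ℤ) ≤ X := by
    have : ((a (u + 1) : ℕ) : ℤ) ≤ ((3 * n : ℕ) : ℤ) := by exact_mod_cast hale
    push_cast at this ⊢
    linarith [show (0 : ℤ) ≤ n by positivity]
  refine Tr.forFc (by rfl) (by rfl) (by norm_num) (fun k st => ∃ (T' : ℕ) (ord' : ℕ → Fin n),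
      T ≤ T' ∧ T' ≤ T + (k - a u) ∧ (∀ j < T, ord' j = ord j) ∧ st.v 1 = (T' : ℕ) ∧
      (∀ j < T', st.m 1 j = (ord' j : ℕ)) ∧ (∀ j : ℕ, j < T → st.m 2 j = s.m 2 j) ∧
      (∀ j : ℕ, T ≤ j → j < T' → st.m 2 j = (u : ℕ)) ∧
      (∀ i j, T ≤ i → i < T' → T ≤ j → j < T' → ord' i = ord' j → i = j) ∧
      ∀ w, (∃ c ∈ Ico T T', ord' c = w) ↔ w ∈ (adj u).take (k - a u) ∧ ((w : ℕ) : ℤ) ≠ p) 6 (a u)
    (a (u + 1)) (by omega) hleX h5 h6 ?_ ?_ (by omega) ?_
  · refine ⟨T, ord, le_rfl, by omega, fun _ _ => rfl, h1, hm1, fun _ _ => rfl, ?_, ?_, ?_⟩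
    · intro j h1 h2; omega
    · intro i j h1 h2; omega
    · intro w
      simp
  · rintro k st hk1 hk hvk _ hfv hfm ⟨T', ord', e1, e2, e3, e4, e5, e6, e7, e8, e9⟩
    have f0 : st.v 0 = n := by rw [hfv 0 rfl (by norm_num), h0]
    have f3 : st.v 3 = (u : ℕ) := by rw [hfv 3 rfl (by norm_num), h3]
    have f4 : st.v 4 = p := by rw [hfv 4 rfl (by norm_num), h4]
    have fm0 : st.m 0 = s.m 0 := hfm 0 rfl
    obtain ⟨t, ht⟩ : ∃ t, k = a u + t := ⟨k - a u, by omega⟩
    subst ht
    have htl : t < (adj u).length := by omega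
    have hmem := hin.nb u t htl
    rw [show a u + t + 1 - a u = t + 1 by omega, List.take_succ_eq_append_getElem htl]
    rw [show a u + t - a u = t by omega] at e2 e9
    set w0 : Fin n := (adj u)[t] with hw0
    have hw0n : ((w0 : ℕ) : ℤ) < n := by exact_mod_cast w0.2
    have hw00 : (0 : ℤ) ≤ ((w0 : ℕ) : ℤ) := by positivity
    have hun : ((u : ℕ) : ℤ) < n := by exact_mod_cast u.2
    have hu0 : (0 : ℤ) ≤ ((u : ℕ) : ℤ) := by positivity
    have hfr : w0 ∉ (adj u).take t := by
      have h1 : ((adj u).take (t + 1)).Nodup := (hnd u).sublist (List.take_sublist _ _)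
      rw [List.take_succ_eq_append_getElem htl, List.nodup_append] at h1
      intro hmem
      exact h1.2.2 w0 hmem w0 (List.mem_singleton.mpr hw0) rfl
    refine Tr.setS (τ2 := 5) ?_ ?_ (by norm_num)
    · simp only [ev_ld, ev_add, ev_smul, ev_var, f0, hvk, fm0]
      rw [hmem, abs_le]
      constructor <;> linarith
    simp only [ev_ld, ev_add, ev_smul, ev_var, f0, hvk, fm0]
    rw [hmem]
    refine Tr.ine (τ1 := 3) (fun hne => ?_) (fun heq => ?_) (by norm_num)
    · simp only [ev_var, St.setv_v] at hne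
      simp only [Nat.reduceEqDiff, if_false, if_true, f4] at hne
      have hT'X : (T' : ℤ) + 1 ≤ X := by
        have : (T' : ℤ) ≤ n + n := by exact_mod_cast (by omega : T' ≤ n + n)
        have : (1 : ℤ) ≤ n := by linarith
        linarith
      have hT'0 : (0 : ℤ) ≤ T' := by positivity
      refine Tr.sl ?_ (by decide) ?_
      · simp only [bd_seq, bd_put, bd_set, exec_put, ev_var, ev_cst, ev_add, St.setv_v, St.setm_v]
        simp only [Nat.reduceEqDiff, if_false, if_true, f3, e4]
        refine ⟨?_, ?_, ?_⟩ <;> rw [abs_le] <;> constructor <;> linarith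
      · simp only [exec_seq, exec_put, exec_set, ev_var, ev_cst, ev_add, St.setv_v, St.setm_v,
          St.setv_m]
        simp only [Nat.reduceEqDiff, if_false, if_true, f3, e4]
        refine ⟨T' + 1, Function.update ord' T' w0, by omega, by omega, ?_, by push_cast; rfl, ?_, ?_,
          ?_, ?_, ?_⟩
        · intro j hj
          rw [Function.update_of_ne (by omega), e3 j hj]
        · intro j hj
          simp only [St.setm_m, St.setv_m]
          rw [if_neg (by simp)]
          rcases Nat.lt_or_ge j T' with h | h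
          · rw [if_neg (by rintro ⟨_, hh⟩; omega), Function.update_of_ne (by omega)]
            exact e5 j h
          · have : j = T' := by omega
            subst this
            rw [if_pos (by simp), Function.update_self]
        · intro j hj
          simp only [St.setm_m, St.setv_m]
          rw [if_neg (by rintro ⟨_, hh⟩; omega), if_neg (by simp)]
          exact e6 j hj
        · intro j hj1 hj2
          simp only [St.setm_m, St.setv_m]
          rcases Nat.lt_or_ge j T' with h | h
          · rw [if_neg (by rintro ⟨_, hh⟩; omega), if_neg (by simp)]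
            exact e7 j hj1 h
          · have : j = T' := by omega
            subst this
            rw [if_pos (by simp)]
        · intro i j hi1 hi2 hj1 hj2 hij
          rcases Nat.lt_or_ge i T' with h | h <;> rcases Nat.lt_or_ge j T' with h' | h'
          · rw [Function.update_of_ne (by omega), Function.update_of_ne (by omega)] at hij
            exact e8 i j hi1 h hj1 h' hij
          · exfalso
            have : j = T' := by omega
            subst this
            rw [Function.update_of_ne (by omega), Function.update_self] at hij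
            exact hfr ((e9 w0).mp ⟨i, Finset.mem_Ico.mpr ⟨hi1, h⟩, hij⟩).1
          · exfalso
            have : i = T' := by omega
            subst this
            rw [Function.update_of_ne (show j ≠ i by omega), Function.update_self] at hij
            exact hfr ((e9 w0).mp ⟨j, Finset.mem_Ico.mpr ⟨hj1, h'⟩, hij.symm⟩).1
          · omega
        · intro w
          rw [List.mem_append, List.mem_singleton]
          constructor
          · rintro ⟨c, hc, hcw⟩
            rw [Finset.mem_Ico] at hc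
            rcases Nat.lt_or_ge c T' with h | h
            · rw [Function.update_of_ne (by omega)] at hcw
              obtain ⟨g1, g2⟩ := (e9 w).mp ⟨c, Finset.mem_Ico.mpr ⟨hc.1, h⟩, hcw⟩
              exact ⟨Or.inl g1, g2⟩
            · have : c = T' := by omega
              subst this
              rw [Function.update_self] at hcw
              subst hcw
              exact ⟨Or.inr rfl, hne⟩
          · rintro ⟨g1 | g1, g2⟩
            · obtain ⟨c, hc, hcw⟩ := (e9 w).mpr ⟨g1, g2⟩
              rw [Finset.mem_Ico] at hc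
              refine ⟨c, Finset.mem_Ico.mpr ⟨hc.1, by omega⟩, ?_⟩
              rw [Function.update_of_ne (by omega)]
              exact hcw
            · refine ⟨T', Finset.mem_Ico.mpr ⟨e1, by omega⟩, ?_⟩
              rw [Function.update_self, g1]
    · simp only [ev_var, St.setv_v] at heq
      simp only [Nat.reduceEqDiff, if_false, if_true, f4] at heq
      refine ⟨T', ord', e1, by omega, e3, ?_, ?_, ?_, ?_, e8, ?_⟩
      · simpa using e4
      · simpa using e5
      · simpa using e6
      · simpa using e7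
      · intro w
        rw [e9 w, List.mem_append, List.mem_singleton]
        constructor
        · rintro ⟨g1, g2⟩
          exact ⟨Or.inl g1, g2⟩
        · rintro ⟨g1 | g1, g2⟩
          · exact ⟨g1, g2⟩
          · rw [g1] at g2
            exact absurd heq g2
  · rintro s' ⟨T', ord', e1, e2, e3, e4, e5, e6, e7, e8, e9⟩ _ _ _
    have hk : a (u + 1) - a u = (adj u).length := by omega
    rw [hk] at e2 e9
    rw [List.take_length] at e9
    exact ⟨T', ord', e1, e2, e3, e4, e5, e6, e7, e8, e9⟩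

theorem bfsC_spec {X : ℤ} {n : ℕ} {G : SimpleGraph (Fin n)} {adj : Fin n → List (Fin n)} {a : ℕ → ℕ}
    {s : St} (hn : 0 < n) (hX : 100 * (n : ℤ) ≤ X) (hin : InOK n adj a (s.m 0))
    (hnd : ∀ v, (adj v).Nodup) (hadj : ∀ v w, w ∈ adj v ↔ G.Adj v w) (hG : G.IsTree)
    (h0 : s.v 0 = n) (hsum : ∑ v, (adj v).length ≤ 2 * n) :
    Tr X bfsC s (24 * n + 6) (fun s' => ∃ (ord : ℕ → Fin n) (par F : ℕ → ℕ),
      BInv G n n ord par F ∧ ∀ j : ℕ, j ≤ n → s'.m 3 j = F j) := by
  have hnZ : (1 : ℤ) ≤ n := by exact_mod_cast hn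
  refine Tr.setS (τ2 := 24 * n + 5) (by simp; linarith) ?_ (by omega)
  simp only [ev_cst]
  refine Tr.seq (τ1 := 1) (τ2 := 24 * n + 4) ?_ (by omega)
  refine Tr.put (by simp; linarith) le_rfl ?_
  simp only [ev_cst]
  refine Tr.seq (τ1 := 1) (τ2 := 24 * n + 3) ?_ (by omega)
  have e0 : (Expr.var 0).eval ((s.setv 1 1).setm 1 0 0) = n := by simp [h0]
  refine Tr.put (by rw [e0, abs_of_nonneg (by linarith)]; linarith) le_rfl ?_
  rw [e0]
  simp only [ev_cst]
  refine Tr.setS (τ2 := 24 * n + 2) (by simp; linarith) ?_ (by omega)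
  simp only [ev_cst]
  set s1 := (((s.setv 1 1).setm 1 0 0).setm 2 0 (n : ℤ)).setv 2 0 with hs1
  have v1 (y : ℕ) (h1 : y ≠ 1) (h2 : y ≠ 2) : s1.v y = s.v y := by
    simp [hs1, h1, h2]
  have m1 (b : Fin 16) (hb1 : b ≠ 1) (hb2 : b ≠ 2) : s1.m b = s.m b := by
    ext p
    simp [hs1, hb1, hb2]
  set c : Fin n → ℕ := fun v => 8 * (adj v).length + 8 with hc
  have hcs : ∑ v, c v ≤ 24 * n := by
    simp only [hc, Finset.sum_add_distrib, ← Finset.mul_sum]
    simp
    omega
  refine Tr.seqF (τ1 := 24 * n + 1) (τ2 := 1) (R := fun s' => ∃ (ord : ℕ → Fin n) (par F : ℕ → ℕ),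
      BInv G n n ord par F ∧ (∀ j : ℕ, j < n → s'.m 3 j = F j) ∧ s'.v 1 = n) ?_ ?_ (by omega)
  · refine Tr.forA (by rfl) (by rfl) (by norm_num) (fun h β st => ∃ (T : ℕ) (ord : ℕ → Fin n)
      (par F : ℕ → ℕ), BInv G h T ord par F ∧ st.v 1 = T ∧ (∀ j < T, st.m 1 j = (ord j : ℕ)) ∧
      st.m 2 0 = n ∧ (∀ j : ℕ, 0 < j → j < T → st.m 2 j = (ord (par j) : ℕ)) ∧
      (∀ j : ℕ, j < h → st.m 3 j = F j) ∧
      ∑ i ∈ range h, c (ord i) + β = ∑ v, c v) 0 n (by omega) (by linarith) (by simp [hs1])
      (by simp [hs1, h0]) (β0 := ∑ v, c v) ?_ ?_ (by omega) ?_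
    · refine ⟨1, fun _ => ⟨0, hn⟩, fun _ => 0, fun _ => 1, BInv.init _, by simp [hs1], ?_, ?_, ?_, ?_,
        ?_⟩
      · intro j hj
        have : j = 0 := by omega
        subst this
        simp [hs1]
      · simp [hs1]
      · intro j h1 h2; omega
      · intro j h1; omega
      · simp
    · rintro h β st _ hh hvh hv0 hfv hfm ⟨T, ord, par, F, B, e1, e2, e3, e4, e5, e6⟩
      have hhT : h < T := B.lt_T hG.connected hh
      have hTn := B.T_le
      set u := ord h with hu
      have f0 : st.m 0 = s.m 0 := by rw [hfm 0 rfl, m1 0 (by decide) (by decide)]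
      have hbud : ∑ i ∈ range (h + 1), c (ord i) ≤ ∑ v, c v := by
        rw [← Finset.sum_image (f := c) (g := ord) (s := range (h + 1))]
        · exact Finset.sum_le_sum_of_subset (Finset.subset_univ _)
        · intro i hi j hj hij
          rw [Finset.coe_range, Set.mem_Iio] at hi hj
          exact B.inj i j (by omega) (by omega) hij
      rw [Finset.sum_range_succ] at hbud
      have hcu : c u = 8 * (adj u).length + 8 := rfl
      have hbud' : ∑ i ∈ range h, c (ord i) + c u ≤ ∑ v, c v := hbud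
      refine ⟨8 * (adj u).length + 6, β - c u, by omega, ?_⟩
      set p : ℤ := st.m 2 h with hp
      have hpX : -X ≤ p ∧ p ≤ X := by
        rcases Nat.eq_zero_or_pos h with h' | h'
        · subst h'
          rw [hp]
          simp only [Nat.cast_zero]
          rw [e3]
          constructor <;> linarith
        · rw [hp, e4 h h' hhT]
          have : ((ord (par h) : ℕ) : ℤ) < n := by exact_mod_cast (ord (par h)).2
          have : (0 : ℤ) ≤ ((ord (par h) : ℕ) : ℤ) := by positivity
          constructor <;> linarith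
      have huZ : ((u : ℕ) : ℤ) < n := by exact_mod_cast u.2
      have hu0 : (0 : ℤ) ≤ ((u : ℕ) : ℤ) := by positivity
      have hTZ : (T : ℤ) ≤ n := by exact_mod_cast hTn
      have hT0 : (0 : ℤ) ≤ T := by positivity
      have haX : ∀ v, v ≤ n → 0 ≤ ((a v : ℕ) : ℤ) ∧ ((a v : ℕ) : ℤ) ≤ X := by
        intro v hv
        have : ((a v : ℕ) : ℤ) ≤ ((3 * n : ℕ) : ℤ) := by exact_mod_cast hin.le v hv
        push_cast at this
        exact ⟨by positivity, by linarith⟩
      refine Tr.seq (τ1 := 1) (τ2 := 8 * (adj u).length + 5) ?_ (by omega)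
      refine Tr.put (by simp only [ev_var, e1]; rw [abs_le]; constructor <;> linarith) le_rfl ?_
      simp only [ev_var, e1, hvh]
      refine Tr.setS (τ2 := 8 * (adj u).length + 4) ?_ ?_ (by omega)
      · simp only [ev_ld, ev_var, St.setm_v, hvh, St.setm_m]
        rw [if_neg (by simp), e2 h hhT, abs_le]
        constructor <;> linarith
      have w3 : (Expr.ld 1 (.var 2)).eval (st.setm 3 (h : ℤ) (T : ℤ)) = (u : ℕ) := by
        simp only [ev_ld, ev_var, St.setm_v, hvh, St.setm_m]
        rw [if_neg (by simp), e2 h hhT]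
      rw [w3]
      have w4 : (Expr.ld 2 (.var 2)).eval ((st.setm 3 (h : ℤ) (T : ℤ)).setv 3 ((u : ℕ) : ℤ)) = p := by
        simp only [ev_ld, ev_var, St.setm_v, St.setv_v, St.setv_m]
        simp only [Nat.reduceEqDiff, if_false, hvh, St.setm_m]
        rw [if_neg (by simp)]
      refine Tr.setS (τ2 := 8 * (adj u).length + 3) ?_ ?_ (by omega)
      · rw [w4, abs_le]; exact hpX
      rw [w4]
      have w5 : (Expr.ld 0 (.smul 3 (.var 0) + .var 3)).eval
          (((st.setm 3 (h : ℤ) (T : ℤ)).setv 3 ((u : ℕ) : ℤ)).setv 4 p) = a u := by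
        simp only [ev_ld, ev_add, ev_smul, ev_var, St.setm_v, St.setv_v, St.setv_m]
        simp only [Nat.reduceEqDiff, if_false, if_true, hv0, St.setm_m]
        rw [if_neg (by simp), f0]
        exact hin.ptr u (by omega)
      refine Tr.setS (τ2 := 8 * (adj u).length + 2) ?_ ?_ (by omega)
      · rw [w5, abs_le]
        have := haX u (by omega)
        constructor <;> linarith
      rw [w5]
      have w6 : (Expr.ld 0 (.smul 3 (.var 0) + .var 3 + .cst 1)).eval
          ((((st.setm 3 (h : ℤ) (T : ℤ)).setv 3 ((u : ℕ) : ℤ)).setv 4 p).setv 5 ((a u : ℕ) : ℤ)) =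
          a (u + 1) := by
        simp only [ev_ld, ev_add, ev_smul, ev_var, ev_cst, St.setm_v, St.setv_v, St.setv_m]
        simp only [Nat.reduceEqDiff, if_false, if_true, hv0, St.setm_m]
        rw [if_neg (by simp), f0]
        have := hin.ptr (u + 1) (by omega)
        push_cast at this
        rw [← add_assoc] at this
        exact this
      refine Tr.setS (τ2 := 8 * (adj u).length + 1) ?_ ?_ (by omega)
      · rw [w6, abs_le]
        have := haX (u + 1) (by omega)
        constructor <;> linarith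
      rw [w6]
      set s2 := ((((st.setm 3 (h : ℤ) (T : ℤ)).setv 3 ((u : ℕ) : ℤ)).setv 4 p).setv 5
        ((a u : ℕ) : ℤ)).setv 6 ((a (u + 1) : ℕ) : ℤ) with hs2
      have m2 (b : Fin 16) (hb : b ≠ 3) : s2.m b = st.m b := by
        ext q
        simp [hs2, hb]
      refine (nbLoop_spec (X := X) (adj := adj) (a := a) (u := u) (T := T) (p := p) (ord := ord) hX
        (by rw [m2 0 (by decide), f0]; exact hin) hnd hTn (by simp [hs2, hv0]) (by simp [hs2, e1])
        (by simp [hs2]) (by simp [hs2]) (by simp [hs2]) (by simp [hs2])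
        (fun j hj => by rw [m2 1 (by decide)]; exact e2 j hj)).frame.mono le_rfl ?_
      rintro s' ⟨⟨T', ord', g1, g2, g3, g4, g5, g6, g7, g8, g9⟩, fv', fm'⟩
      have hm3 : s'.m 3 = s2.m 3 := fm' 3 rfl
      have B' := B.step hG.isAcyclic hhT g1 g3 g8 (by
        intro w
        rw [g9 w, hadj]
        apply and_congr_right
        intro _
        rcases Nat.eq_zero_or_pos h with h' | h'
        · subst h'
          have : p = n := by rw [hp]; simpa using e3
          rw [this]
          constructor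
          · intro _ h''; omega
          · intro _
            have : ((w : ℕ) : ℤ) < n := by exact_mod_cast w.2
            omega
        · have : p = ((ord (par h) : ℕ) : ℤ) := by rw [hp]; exact e4 h h' hhT
          rw [this]
          constructor
          · intro hne _ heq
            exact hne (by rw [heq])
          · intro hne heq
            exact hne h' (Fin.ext (by exact_mod_cast heq)))
      refine ⟨T', ord', _, _, B', ?_, ?_, ?_, ?_, ?_, ?_⟩
      · simpa using g4
      · simpa using g5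
      · simp only [St.setv_m]
        have := g6 0 (by omega)
        simp only [Nat.cast_zero] at this
        rw [this, m2 2 (by decide), e3]
      · intro j hj1 hj2
        simp only [St.setv_m]
        rcases Nat.lt_or_ge j T with h' | h'
        · rw [g6 j h', m2 2 (by decide), e4 j hj1 h', if_neg (by omega)]
          obtain ⟨_, _, h5⟩ := B.exists_par hj1 h'
          rw [g3 _ (by omega)]
        · rw [g7 j h' hj2, if_pos h', g3 h hhT]
      · intro j hj
        simp only [St.setv_m]
        rw [hm3, if_pos (by omega)]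
        simp only [hs2, St.setv_m, St.setm_m]
        rcases Nat.lt_or_ge j h with h' | h'
        · rw [if_neg (by rintro ⟨_, hh⟩; omega)]
          exact e5 j h'
        · have : j = h := by omega
          subst this
          rw [if_pos (by simp), B.last]
      · rw [Finset.sum_range_succ, g3 h hhT]
        have : ∑ i ∈ range h, c (ord' i) = ∑ i ∈ range h, c (ord i) := by
          apply Finset.sum_congr rfl
          intro i hi
          rw [Finset.mem_range] at hi
          rw [g3 i (by omega)]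
        rw [this]
        change ∑ i ∈ range h, c (ord i) + c u + (β - c u) = ∑ v, c v
        omega
    · rintro β s' ⟨T, ord, par, F, B, e1, e2, e3, e4, e5, e6⟩ _ _ _
      obtain ⟨hT, _⟩ := B.final
      subst hT
      exact ⟨ord, par, F, B, e5, e1⟩
  · rintro s2 ⟨ord, par, F, B, e5, e1⟩ fv2 fm2
    have g0 : s2.v 0 = n := by rw [fv2 0 rfl]; simp [hs1, h0]
    refine Tr.put (by simp only [ev_var, e1]; rw [abs_le]; constructor <;> linarith) le_rfl ?_
    simp only [ev_var, e1, g0]
    refine ⟨ord, par, F, B, ?_⟩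
    intro j hj
    simp only [St.setm_m]
    rcases Nat.lt_or_ge j n with h' | h'
    · rw [if_neg (by rintro ⟨_, hh⟩; omega)]
      exact e5 j h'
    · have : j = n := by omega
      subst this
      rw [if_pos (by simp), B.last]

end Pool.Agent.Lib_helper87.UM
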