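import Pool.Agent.Lib_helper87.Dp
set_option autoImplicit false

namespace Pool.Agent.Lib_helper87.UM
open Finset

/-- The tables `E`, `D` are locally optimal at vertex `i` with children `[lo, hi)`. -/
structure LocalOK (M : ℤ) (lo hi : ℕ) (E : ℕ → ℤ → ℤ → ℤ) (D : ℕ → ℤ → ℤ → ℤ → ℤ) (i : ℕ) :
    Prop where
  e_up : ∀ a b, -1 ≤ a → a ≤ 1 → -1 ≤ b → b ≤ 1 → ∀ x, Sel M lo hi (fun c y => D c y a 1) x →
    ∑ c ∈ Ico lo hi, x c = 1 - a - b → a + ∑ c ∈ Ico lo hi, D c (x c) a 1 ≤ E i a b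
  e_at : ∀ a b, -1 ≤ a → a ≤ 1 → -1 ≤ b → b ≤ 1 → -M < E i a b →
    ∃ x, Sel M lo hi (fun c y => D c y a 1) x ∧ ∑ c ∈ Ico lo hi, x c = 1 - a - b ∧
      E i a b = a + ∑ c ∈ Ico lo hi, D c (x c) a 1
  d_e : ∀ a b e, -1 ≤ a → a ≤ 1 → -1 ≤ b → b ≤ 1 → e = 0 ∨ e = 1 → E i a b ≤ D i a b e
  d_up0 : ∀ a b e, -1 ≤ a → a ≤ 1 → -1 ≤ b → b ≤ 1 → e = 0 ∨ e = 1 → a = -1 ∨ e = 1 →
    ∀ x, Sel M lo hi (fun c y => D c y a 0) x →
    1 - a - b ≤ ∑ c ∈ Ico lo hi, x c → a + ∑ c ∈ Ico lo hi, D c (x c) a 0 ≤ D i a b e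
  d_up1 : ∀ a b e, -1 ≤ a → a ≤ 1 → -1 ≤ b → b ≤ 1 → e = 0 ∨ e = 1 → ¬ (a = -1 ∨ e = 1) →
    ∀ c0 ∈ Ico lo hi,
    ∀ x, Sel M lo hi (gg (fun c y => D c y a 0) (fun c y => E c y a) c0) x →
    1 - a - b ≤ ∑ c ∈ Ico lo hi, x c →
    a + ∑ c ∈ Ico lo hi, gg (fun c y => D c y a 0) (fun c y => E c y a) c0 c (x c) ≤ D i a b e
  d_at : ∀ a b e, -1 ≤ a → a ≤ 1 → -1 ≤ b → b ≤ 1 → e = 0 ∨ e = 1 → -M < D i a b e →
    D i a b e = E i a b ∨
    ((a = -1 ∨ e = 1) ∧ ∃ x, Sel M lo hi (fun c y => D c y a 0) x ∧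
      1 - a - b ≤ ∑ c ∈ Ico lo hi, x c ∧ D i a b e = a + ∑ c ∈ Ico lo hi, D c (x c) a 0) ∨
    ∃ c0 ∈ Ico lo hi, ∃ x, Sel M lo hi (gg (fun c y => D c y a 0) (fun c y => E c y a) c0) x ∧
      1 - a - b ≤ ∑ c ∈ Ico lo hi, x c ∧
      D i a b e = a + ∑ c ∈ Ico lo hi, gg (fun c y => D c y a 0) (fun c y => E c y a) c0 c (x c)

lemma Sel.congr {M : ℤ} {lo hi : ℕ} {G G' : ℕ → ℤ → ℤ}
    (h : ∀ c ∈ Ico lo hi, ∀ y, -1 ≤ y → y ≤ 1 → G c y = G' c y) {x : ℕ → ℤ}
    (hx : Sel M lo hi G x) : Sel M lo hi G' x ∧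
      ∑ c ∈ Ico lo hi, G c (x c) = ∑ c ∈ Ico lo hi, G' c (x c) := by
  refine ⟨fun i hi' => ?_, Finset.sum_congr rfl fun i hi' => ?_⟩
  · obtain ⟨h1, h2, h3⟩ := hx i hi'
    exact ⟨h1, h2, by rw [← h i hi' _ h1 h2]; exact h3⟩
  · obtain ⟨h1, h2, h3⟩ := hx i hi'
    exact h i hi' _ h1 h2

/-- local optimality only depends on the entries at the vertex and its children -/
lemma LocalOK.congr {M : ℤ} {lo hi : ℕ} {E E' : ℕ → ℤ → ℤ → ℤ} {D D' : ℕ → ℤ → ℤ → ℤ → ℤ} {i : ℕ}
    (hL : LocalOK M lo hi E D i)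
    (hE : ∀ c, c = i ∨ c ∈ Ico lo hi → ∀ x a, -1 ≤ x → x ≤ 1 → -1 ≤ a → a ≤ 1 → E' c x a = E c x a)
    (hD : ∀ c, c = i ∨ c ∈ Ico lo hi → ∀ x a e, -1 ≤ x → x ≤ 1 → -1 ≤ a → a ≤ 1 →
      e = 0 ∨ e = 1 → D' c x a e = D c x a e) : LocalOK M lo hi E' D' i := by
  have gD : ∀ a e, -1 ≤ a → a ≤ 1 → e = 0 ∨ e = 1 → ∀ c ∈ Ico lo hi, ∀ y, -1 ≤ y → y ≤ 1 →
      (fun c y => D' c y a e) c y = (fun c y => D c y a e) c y :=
    fun a e h1 h2 h3 c hc y h4 h5 => hD c (Or.inr hc) y a e h4 h5 h1 h2 h3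
  have gG : ∀ a c0, -1 ≤ a → a ≤ 1 → ∀ c ∈ Ico lo hi, ∀ y, -1 ≤ y → y ≤ 1 →
      gg (fun c y => D' c y a 0) (fun c y => E' c y a) c0 c y =
      gg (fun c y => D c y a 0) (fun c y => E c y a) c0 c y := by
    intro a c0 h1 h2 c hc y h4 h5
    unfold gg
    split_ifs
    · exact hE c (Or.inr hc) y a h4 h5 h1 h2
    · exact hD c (Or.inr hc) y a 0 h4 h5 h1 h2 (Or.inl rfl)
  refine ⟨?_, ?_, ?_, ?_, ?_, ?_⟩
  · intro a b a1 a2 b1 b2 x hx hs
    obtain ⟨h1, h2⟩ := hx.congr (gD a 1 a1 a2 (Or.inr rfl))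
    rw [hE i (Or.inl rfl) a b a1 a2 b1 b2]
    have := hL.e_up a b a1 a2 b1 b2 x h1 hs
    rw [h2]; exact this
  · intro a b a1 a2 b1 b2 h
    rw [hE i (Or.inl rfl) a b a1 a2 b1 b2] at h ⊢
    obtain ⟨x, hx, hs, he⟩ := hL.e_at a b a1 a2 b1 b2 h
    obtain ⟨h1, h2⟩ := hx.congr (fun c hc y h4 h5 => (gD a 1 a1 a2 (Or.inr rfl) c hc y h4 h5).symm)
    exact ⟨x, h1, hs, by rw [he, h2]⟩
  · intro a b e a1 a2 b1 b2 he
    rw [hE i (Or.inl rfl) a b a1 a2 b1 b2, hD i (Or.inl rfl) a b e a1 a2 b1 b2 he]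
    exact hL.d_e a b e a1 a2 b1 b2 he
  · intro a b e a1 a2 b1 b2 he hae x hx hs
    obtain ⟨h1, h2⟩ := hx.congr (gD a 0 a1 a2 (Or.inl rfl))
    rw [hD i (Or.inl rfl) a b e a1 a2 b1 b2 he]
    have := hL.d_up0 a b e a1 a2 b1 b2 he hae x h1 hs
    rw [h2]; exact this
  · intro a b e a1 a2 b1 b2 he hae c0 hc0 x hx hs
    obtain ⟨h1, h2⟩ := hx.congr (gG a c0 a1 a2)
    rw [hD i (Or.inl rfl) a b e a1 a2 b1 b2 he, h2]
    exact hL.d_up1 a b e a1 a2 b1 b2 he hae c0 hc0 x h1 hs
  · intro a b e a1 a2 b1 b2 he h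
    rw [hD i (Or.inl rfl) a b e a1 a2 b1 b2 he] at h ⊢
    rw [hE i (Or.inl rfl) a b a1 a2 b1 b2]
    rcases hL.d_at a b e a1 a2 b1 b2 he h with h' | ⟨hae, x, hx, hs, h'⟩ | ⟨c0, hc0, x, hx, hs, h'⟩
    · exact Or.inl h'
    · right; left
      obtain ⟨h1, h2⟩ := hx.congr (fun c hc y h4 h5 => (gD a 0 a1 a2 (Or.inl rfl) c hc y h4 h5).symm)
      exact ⟨hae, x, h1, hs, by rw [h', h2]⟩
    · right; right
      obtain ⟨h1, h2⟩ := hx.congr (fun c hc y h4 h5 => (gG a c0 a1 a2 c hc y h4 h5).symm)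
      exact ⟨c0, hc0, x, h1, hs, by rw [h', h2]⟩

/-- child intervals of a tree numbered in breadth-first order -/
structure Seq (n : ℕ) (F par : ℕ → ℕ) : Prop where
  pos : 0 < n
  zero : F 0 = 1
  last : F n = n
  mono : ∀ i < n, F i ≤ F (i + 1)
  lt : ∀ i < n, i < F i
  par_eq : ∀ i < n, ∀ c ∈ Ico (F i) (F (i + 1)), par c = i

namespace Seq
variable {n : ℕ} {F par : ℕ → ℕ}

lemma mono' (S : Seq n F par) {i j : ℕ} (hij : i ≤ j) (hj : j ≤ n) : F i ≤ F j := by
  induction j with
  | zero => have : i = 0 := by omega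
            subst this; exact le_rfl
  | succ j ih =>
    rcases Nat.lt_or_ge i (j + 1) with h | h
    · exact (ih (by omega) (by omega)).trans (S.mono j (by omega))
    · have : i = j + 1 := by omega
      subst this; exact le_rfl

lemma le_n (S : Seq n F par) {i : ℕ} (hi : i ≤ n) : F i ≤ n := by
  have := S.mono' hi le_rfl
  rwa [S.last] at this

lemma child_lt (S : Seq n F par) {i c : ℕ} (hi : i < n) (hc : c ∈ Ico (F i) (F (i + 1))) :
    i < c ∧ c < n := by
  rw [Finset.mem_Ico] at hc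
  have h1 := S.lt i hi
  have h2 := S.le_n (show i + 1 ≤ n by omega)
  omega

lemma exists_par (S : Seq n F par) {c : ℕ} (hc0 : 0 < c) (hc : c < n) :
    par c < c ∧ c ∈ Ico (F (par c)) (F (par c + 1)) := by
  have h : ∀ k, k ≤ n → c < F k → ∃ i < k, c ∈ Ico (F i) (F (i + 1)) := by
    intro k
    induction k with
    | zero => intro _ h; rw [S.zero] at h; omega
    | succ k ih =>
      intro hk hck
      rcases Nat.lt_or_ge c (F k) with h | h
      · obtain ⟨i, hi, hci⟩ := ih (by omega) h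
        exact ⟨i, by omega, hci⟩
      · exact ⟨k, by omega, Finset.mem_Ico.mpr ⟨h, hck⟩⟩
  obtain ⟨i, hi, hci⟩ := h n le_rfl (by rw [S.last]; exact hc)
  have := S.par_eq i hi c hci
  rw [this]
  exact ⟨(S.child_lt hi hci).1, hci⟩

/-- subtree sums exist -/
lemma exists_sub (S : Seq n F par) (φ : ℕ → ℤ) :
    ∃ w : ℕ → ℤ, ∀ i < n, w i = φ i + ∑ c ∈ Ico (F i) (F (i + 1)), w c := by
  have h : ∀ k, k ≤ n → ∃ w : ℕ → ℤ, ∀ i, n - k ≤ i → i < n →
      w i = φ i + ∑ c ∈ Ico (F i) (F (i + 1)), w c := by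
    intro k
    induction k with
    | zero => intro _; exact ⟨fun _ => 0, fun i h1 h2 => by omega⟩
    | succ k ih =>
      intro hk
      obtain ⟨w, hw⟩ := ih (by omega)
      set j := n - (k + 1) with hj
      refine ⟨Function.update w j (φ j + ∑ c ∈ Ico (F j) (F (j + 1)), w c), ?_⟩
      have key : ∀ i, j ≤ i → i < n → ∑ c ∈ Ico (F i) (F (i + 1)),
          Function.update w j (φ j + ∑ c ∈ Ico (F j) (F (j + 1)), w c) c =
          ∑ c ∈ Ico (F i) (F (i + 1)), w c := by
        intro i h1 h2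
        apply Finset.sum_congr rfl
        intro c hc
        have := (S.child_lt h2 hc).1
        rw [Function.update_of_ne (by omega)]
      intro i h1 h2
      rw [key i h1 h2]
      rcases Nat.lt_or_ge j i with h | h
      · rw [Function.update_of_ne (by omega)]
        exact hw i (by omega) h2
      · have : i = j := by omega
        subst this
        rw [Function.update_self]
  obtain ⟨w, hw⟩ := h n le_rfl
  exact ⟨w, fun i hi => hw i (by omega) hi⟩

/-- telescoping -/
lemma telescope (S : Seq n F par) {φ w : ℕ → ℤ}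
    (hw : ∀ i < n, w i = φ i + ∑ c ∈ Ico (F i) (F (i + 1)), w c) (k : ℕ) (hk : k ≤ n) :
    ∑ j ∈ Ico k (F k), w j = ∑ j ∈ Ico k n, φ j := by
  obtain ⟨m, hm⟩ : ∃ m, n = k + m := ⟨n - k, by omega⟩
  induction m generalizing k with
  | zero =>
    have : k = n := by omega
    subst this
    rw [S.last]
    simp
  | succ m ih =>
    have hkn : k < n := by omega
    have e1 := ih (k + 1) (by omega) (by omega)
    have h1 := S.lt k hkn
    have h2 := S.mono k hkn
    rw [Finset.sum_eq_sum_Ico_succ_bot h1, Finset.sum_eq_sum_Ico_succ_bot hkn, hw k hkn, ← e1,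
      ← Finset.sum_Ico_consecutive w (show k + 1 ≤ F k by omega) h2]
    ring

lemma total (S : Seq n F par) {φ w : ℕ → ℤ}
    (hw : ∀ i < n, w i = φ i + ∑ c ∈ Ico (F i) (F (i + 1)), w c) :
    w 0 = ∑ j ∈ range n, φ j := by
  have := S.telescope hw 0 (by omega)
  rw [S.zero] at this
  simpa using this

lemma sub_pos (S : Seq n F par) {φ w : ℕ → ℤ} (hφ : ∀ i < n, 0 ≤ φ i)
    (hw : ∀ i < n, w i = φ i + ∑ c ∈ Ico (F i) (F (i + 1)), w c) : ∀ i < n, φ i ≤ w i := by
  have h : ∀ m i, i < n → n ≤ i + m → φ i ≤ w i := by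
    intro m
    induction m with
    | zero => intro i h1 h2; omega
    | succ m ih =>
      intro i h1 h2
      rw [hw i h1]
      have : 0 ≤ ∑ c ∈ Ico (F i) (F (i + 1)), w c := by
        apply Finset.sum_nonneg
        intro c hc
        have h3 := S.child_lt h1 hc
        exact (hφ c h3.2).trans (ih c h3.2 (by omega))
      omega
  intro i hi
  exact h n i hi (by omega)

lemma size_le (S : Seq n F par) {w : ℕ → ℤ}
    (hw : ∀ i < n, w i = 1 + ∑ c ∈ Ico (F i) (F (i + 1)), w c) {i : ℕ} (hi : i < n) :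
    1 ≤ w i ∧ w i ≤ n - i := by
  have h1 := S.sub_pos (φ := fun _ => 1) (fun _ _ => by norm_num) hw
  refine ⟨h1 i hi, ?_⟩
  have h2 := S.telescope (φ := fun _ => 1) hw i hi.le
  have h3 := S.lt i hi
  rw [Finset.sum_eq_sum_Ico_succ_bot h3] at h2
  have h4 : 0 ≤ ∑ k ∈ Ico (i + 1) (F i), w k := by
    apply Finset.sum_nonneg
    intro c hc
    rw [Finset.mem_Ico] at hc
    have := S.le_n hi.le
    have := h1 c (by omega)
    omega
  simp at h2
  have h5 : ((n - i : ℕ) : ℤ) = n - i := by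
    rw [Nat.cast_sub hi.le]
  omega

lemma abs_le_size (S : Seq n F par) {φ w z : ℕ → ℤ} (hφ : ∀ i < n, |φ i| ≤ 1)
    (hw : ∀ i < n, w i = φ i + ∑ c ∈ Ico (F i) (F (i + 1)), w c)
    (hz : ∀ i < n, z i = 1 + ∑ c ∈ Ico (F i) (F (i + 1)), z c) : ∀ i < n, |w i| ≤ z i := by
  have h : ∀ m i, i < n → n ≤ i + m → |w i| ≤ z i := by
    intro m
    induction m with
    | zero => intro i h1 h2; omega
    | succ m ih =>
      intro i h1 h2
      rw [hw i h1, hz i h1]
      refine (abs_add_le _ _).trans (add_le_add (hφ i h1) ?_)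
      refine (Finset.abs_sum_le_sum_abs _ _).trans (Finset.sum_le_sum fun c hc => ?_)
      have h3 := S.child_lt h1 hc
      exact ih c h3.2 (by omega)
  intro i hi
  exact h n i hi (by omega)

end Seq

/-- value of the parent -/
def pv (par : ℕ → ℕ) (f : ℕ → ℤ) (i : ℕ) : ℤ := if i = 0 then 0 else f (par i)

/-- closed neighbourhood sum -/
def nbs (F par : ℕ → ℕ) (f : ℕ → ℤ) (i : ℕ) : ℤ :=
  f i + pv par f i + ∑ c ∈ Ico (F i) (F (i + 1)), f c

/-- minimal minus dominating functions in terms of the numbering -/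
structure ValidF (n : ℕ) (F par : ℕ → ℕ) (f : ℕ → ℤ) : Prop where
  range : ∀ i < n, -1 ≤ f i ∧ f i ≤ 1
  dom : ∀ i < n, 1 ≤ nbs F par f i
  wit : ∀ i < n, 0 ≤ f i → nbs F par f i = 1 ∨ (0 < i ∧ nbs F par f (par i) = 1) ∨
    ∃ c ∈ Ico (F i) (F (i + 1)), nbs F par f c = 1

theorem dp_upper {n : ℕ} {F par : ℕ → ℕ} (S : Seq n F par) {M : ℤ} (hM : (n : ℤ) < M)
    {E : ℕ → ℤ → ℤ → ℤ} {D : ℕ → ℤ → ℤ → ℤ → ℤ}
    (hL : ∀ i < n, LocalOK M (F i) (F (i + 1)) E D i) {f : ℕ → ℤ} (hf : ValidF n F par f) :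
    ∑ i ∈ range n, f i ≤ D 0 (f 0) 0 0 := by
  obtain ⟨w, hw⟩ := S.exists_sub f
  obtain ⟨z, hz⟩ := S.exists_sub fun _ => 1
  have hwz := S.abs_le_size (fun i hi => abs_le.mpr (hf.range i hi)) hw hz
  have hwM : ∀ i < n, -M < w i := by
    intro i hi
    have h1 := hwz i hi
    have h2 := S.size_le hz hi
    rw [abs_le] at h1
    omega
  set ei : ℕ → ℤ := fun i => if 0 < i ∧ nbs F par f (par i) = 1 then 1 else 0 with hei
  have hpr : ∀ i < n, -1 ≤ pv par f i ∧ pv par f i ≤ 1 := by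
    intro i hi
    unfold pv
    split_ifs with h0
    · norm_num
    · have := S.exists_par (Nat.pos_of_ne_zero h0) hi
      exact hf.range (par i) (by omega)
  have hei01 : ∀ i, ei i = 0 ∨ ei i = 1 := by
    intro i; simp only [hei]; split_ifs <;> simp
  have main : ∀ m i, i < n → n ≤ i + m → w i ≤ D i (f i) (pv par f i) (ei i) ∧
      (nbs F par f i = 1 → w i ≤ E i (f i) (pv par f i)) := by
    intro m
    induction m with
    | zero => intro i h1 h2; omega
    | succ m ih =>
      intro i h1 h2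
      have hch : ∀ c ∈ Ico (F i) (F (i + 1)), c < n ∧ pv par f c = f i ∧
          (ei c = if nbs F par f i = 1 then 1 else 0) ∧
          w c ≤ D c (f c) (f i) (ei c) ∧ (nbs F par f c = 1 → w c ≤ E c (f c) (f i)) := by
        intro c hc
        have h3 := S.child_lt h1 hc
        have h4 := ih c h3.2 (by omega)
        have h5 := S.par_eq i h1 c hc
        have h6 : pv par f c = f i := by
          unfold pv; rw [if_neg (by omega), h5]
        rw [h6] at h4
        refine ⟨h3.2, h6, ?_, h4⟩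
        simp only [hei, h5]
        have : 0 < c := by omega
        simp [this]
      have hL' := hL i h1
      have hr := hf.range i h1
      have hp := hpr i h1
      by_cases hnb : nbs F par f i = 1
      · have hsel : Sel M (F i) (F (i + 1)) (fun c y => D c y (f i) 1) f := by
          intro c hc
          obtain ⟨c1, c2, c3, c4, c5⟩ := hch c hc
          rw [if_pos hnb] at c3
          rw [c3] at c4
          exact ⟨(hf.range c c1).1, (hf.range c c1).2, lt_of_lt_of_le (hwM c c1) c4⟩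
        have hsum : ∑ c ∈ Ico (F i) (F (i + 1)), f c = 1 - f i - pv par f i := by
          unfold nbs at hnb; linarith
        have e1 := hL'.e_up (f i) (pv par f i) hr.1 hr.2 hp.1 hp.2 f hsel hsum
        have e2 : w i ≤ E i (f i) (pv par f i) := by
          refine le_trans ?_ e1
          rw [hw i h1]
          gcongr with c hc
          obtain ⟨c1, c2, c3, c4, c5⟩ := hch c hc
          rw [if_pos hnb] at c3
          rwa [c3] at c4
        exact ⟨e2.trans (hL'.d_e _ _ _ hr.1 hr.2 hp.1 hp.2 (hei01 i)), fun _ => e2⟩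
      · refine ⟨?_, fun h => absurd h hnb⟩
        have hsel : Sel M (F i) (F (i + 1)) (fun c y => D c y (f i) 0) f := by
          intro c hc
          obtain ⟨c1, c2, c3, c4, c5⟩ := hch c hc
          rw [if_neg hnb] at c3
          rw [c3] at c4
          exact ⟨(hf.range c c1).1, (hf.range c c1).2, lt_of_lt_of_le (hwM c c1) c4⟩
        have hsum : 1 - f i - pv par f i ≤ ∑ c ∈ Ico (F i) (F (i + 1)), f c := by
          have := hf.dom i h1
          unfold nbs at this; linarith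
        have hle : ∀ c ∈ Ico (F i) (F (i + 1)), w c ≤ D c (f c) (f i) 0 := by
          intro c hc
          obtain ⟨c1, c2, c3, c4, c5⟩ := hch c hc
          rw [if_neg hnb] at c3
          rwa [c3] at c4
        by_cases hae : f i = -1 ∨ ei i = 1
        · refine le_trans ?_ (hL'.d_up0 (f i) (pv par f i) (ei i) hr.1 hr.2 hp.1 hp.2 (hei01 i) hae
            f hsel hsum)
          rw [hw i h1]
          gcongr with c hc
          exact hle c hc
        · have hae0 := hae
          push Not at hae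
          rcases hf.wit i h1 (by omega) with h | h | ⟨c0, hc0, h⟩
          · exact absurd h hnb
          · exfalso
            apply hae.2
            simp only [hei]
            rw [if_pos h]
          · have hsel1 : Sel M (F i) (F (i + 1))
                (gg (fun c y => D c y (f i) 0) (fun c y => E c y (f i)) c0) f := by
              intro c hc
              by_cases hcc : c = c0
              · subst hcc
                obtain ⟨c1, c2, c3, c4, c5⟩ := hch c hc
                refine ⟨(hf.range c c1).1, (hf.range c c1).2, ?_⟩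
                simp only [gg, if_true]
                exact lt_of_lt_of_le (hwM c c1) (c5 h)
              · have := hsel c hc
                simpa [gg, hcc] using this
            refine le_trans ?_ (hL'.d_up1 (f i) (pv par f i) (ei i) hr.1 hr.2 hp.1 hp.2 (hei01 i)
              hae0 c0 hc0 f hsel1 hsum)
            rw [hw i h1]
            gcongr with c hc
            by_cases hcc : c = c0
            · subst hcc
              obtain ⟨c1, c2, c3, c4, c5⟩ := hch c hc
              simp only [gg, if_true]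
              exact c5 h
            · simp only [gg, if_neg hcc]
              exact hle c hc
  have h0 := (main n 0 S.pos (by omega)).1
  rw [S.total hw] at h0
  simpa [pv, hei] using h0

/-- one expansion of an optimal state -/
lemma expand {M : ℤ} {lo hi i : ℕ} {E : ℕ → ℤ → ℤ → ℤ} {D : ℕ → ℤ → ℤ → ℤ → ℤ}
    (hL : LocalOK M lo hi E D i) {a b k : ℤ} (ha1 : -1 ≤ a) (ha2 : a ≤ 1) (hb1 : -1 ≤ b)
    (hb2 : b ≤ 1) (hk : k = 0 ∨ k = 1 ∨ k = 2)
    (hv : -M < if k = 2 then E i a b else D i a b k) :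
    ∃ x kx : ℕ → ℤ, (∀ c ∈ Ico lo hi, -1 ≤ x c ∧ x c ≤ 1 ∧ (kx c = 0 ∨ kx c = 1 ∨ kx c = 2) ∧
        -M < if kx c = 2 then E c (x c) a else D c (x c) a (kx c)) ∧
      1 - a - b ≤ ∑ c ∈ Ico lo hi, x c ∧
      (k = 2 → ∑ c ∈ Ico lo hi, x c = 1 - a - b) ∧
      (∀ c ∈ Ico lo hi, kx c = 1 → ∑ c ∈ Ico lo hi, x c = 1 - a - b) ∧
      (0 ≤ a → ∑ c ∈ Ico lo hi, x c = 1 - a - b ∨ k = 1 ∨ ∃ c ∈ Ico lo hi, kx c = 2) ∧
      (if k = 2 then E i a b else D i a b k) =
        a + ∑ c ∈ Ico lo hi, (if kx c = 2 then E c (x c) a else D c (x c) a (kx c)) := by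
  have hE : -M < E i a b → ∃ x kx : ℕ → ℤ, (∀ c ∈ Ico lo hi, -1 ≤ x c ∧ x c ≤ 1 ∧
      (kx c = 0 ∨ kx c = 1 ∨ kx c = 2) ∧
        -M < if kx c = 2 then E c (x c) a else D c (x c) a (kx c)) ∧
      ∑ c ∈ Ico lo hi, x c = 1 - a - b ∧
      E i a b = a + ∑ c ∈ Ico lo hi, (if kx c = 2 then E c (x c) a else D c (x c) a (kx c)) := by
    intro h
    obtain ⟨x, h1, h2, h3⟩ := hL.e_at a b ha1 ha2 hb1 hb2 h
    refine ⟨x, fun _ => 1, fun c hc => ?_, h2, ?_⟩
    · obtain ⟨c1, c2, c3⟩ := h1 c hc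
      exact ⟨c1, c2, by norm_num, by simpa using c3⟩
    · rw [h3]; simp
  by_cases hk2 : k = 2
  · rw [if_pos hk2] at hv ⊢
    obtain ⟨x, kx, h1, h2, h3⟩ := hE hv
    exact ⟨x, kx, h1, h2.ge, fun _ => h2, fun _ _ _ => h2, fun _ => Or.inl h2, h3⟩
  · rw [if_neg hk2] at hv ⊢
    have hk01 : k = 0 ∨ k = 1 := by
      rcases hk with h | h | h
      · exact Or.inl h
      · exact Or.inr h
      · exact absurd h hk2
    rcases hL.d_at a b k ha1 ha2 hb1 hb2 hk01 hv with h | ⟨hae, x, h1, h2, h3⟩ | ⟨c0, hc0, x, h1, h2, h3⟩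
    · rw [h] at hv ⊢
      obtain ⟨x, kx, h1, h2, h3⟩ := hE hv
      exact ⟨x, kx, h1, h2.ge, fun _ => h2, fun _ _ _ => h2, fun _ => Or.inl h2, h3⟩
    · refine ⟨x, fun _ => 0, fun c hc => ?_, h2, fun h => absurd h hk2, ?_, ?_, ?_⟩
      · obtain ⟨c1, c2, c3⟩ := h1 c hc
        exact ⟨c1, c2, by norm_num, by simpa using c3⟩
      · intro c _ h; norm_num at h
      · intro ha
        right; left
        rcases hae with h | h
        · omega
        · exact h
      · rw [h3]; simp
    · refine ⟨x, fun c => if c = c0 then 2 else 0, fun c hc => ?_, h2, fun h => absurd h hk2, ?_, ?_, ?_⟩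
      · obtain ⟨c1, c2, c3⟩ := h1 c hc
        refine ⟨c1, c2, ?_, ?_⟩
        · by_cases h : c = c0 <;> simp [h]
        · by_cases h : c = c0
          · simpa [h, gg] using c3
          · simpa [h, gg] using c3
      · intro c _ h
        by_cases hc : c = c0 <;> simp [hc] at h
      · intro _
        right; right
        exact ⟨c0, hc0, by simp⟩
      · rw [h3]
        congr 1
        apply Finset.sum_congr rfl
        intro c _
        by_cases h : c = c0 <;> simp [h, gg]

theorem dp_attained {n : ℕ} {F par : ℕ → ℕ} (S : Seq n F par) {M : ℤ}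
    {E : ℕ → ℤ → ℤ → ℤ} {D : ℕ → ℤ → ℤ → ℤ → ℤ}
    (hL : ∀ i < n, LocalOK M (F i) (F (i + 1)) E D i) {a : ℤ} (ha1 : -1 ≤ a) (ha2 : a ≤ 1)
    (hv : -M < D 0 a 0 0) :
    ∃ f, ValidF n F par f ∧ ∑ i ∈ range n, f i = D 0 a 0 0 := by
  set val : (ℕ → ℤ) → (ℕ → ℤ) → ℕ → ℤ := fun f kd j =>
    if kd j = 2 then E j (f j) (pv par f j) else D j (f j) (pv par f j) (kd j) with hval
  have main : ∀ k, k ≤ n → ∃ f kd : ℕ → ℤ, kd 0 = 0 ∧
      (∀ j < F k, -1 ≤ f j ∧ f j ≤ 1 ∧ (kd j = 0 ∨ kd j = 1 ∨ kd j = 2)) ∧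
      (∀ j, k ≤ j → j < F k → -M < val f kd j) ∧
      (∑ j ∈ range k, f j + ∑ j ∈ Ico k (F k), val f kd j = D 0 a 0 0) ∧
      (∀ i < k, 1 ≤ nbs F par f i ∧ (kd i = 2 → nbs F par f i = 1) ∧
        (∀ c ∈ Ico (F i) (F (i + 1)), kd c = 1 → nbs F par f i = 1) ∧
        (0 ≤ f i → nbs F par f i = 1 ∨ kd i = 1 ∨ ∃ c ∈ Ico (F i) (F (i + 1)), kd c = 2)) := by
    intro k
    induction k with
    | zero =>
      intro _
      refine ⟨fun _ => a, fun _ => 0, rfl, fun j _ => ⟨ha1, ha2, by norm_num⟩, ?_, ?_, ?_⟩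
      · intro j _ hj
        rw [S.zero] at hj
        have : j = 0 := by omega
        subst this
        simpa [hval, pv] using hv
      · rw [S.zero]
        simp [hval, pv]
      · intro i hi; omega
    | succ k ih =>
      intro hk
      obtain ⟨f, kd, h0, h1, h2, h3, h4⟩ := ih (by omega)
      have hkn : k < n := by omega
      have hkF := S.lt k hkn
      have hFF := S.mono k hkn
      have hparlt : ∀ j, j < n → j ≠ 0 → par j < j := fun j hj hj0 =>
        (S.exists_par (Nat.pos_of_ne_zero hj0) hj).1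
      have hFkn := S.le_n (show k ≤ n by omega)
      have hFk1n := S.le_n (show k + 1 ≤ n by omega)
      have hpvr : -1 ≤ pv par f k ∧ pv par f k ≤ 1 := by
        unfold pv
        split_ifs with h
        · norm_num
        · have := hparlt k hkn h
          have := h1 (par k) (by omega)
          exact ⟨this.1, this.2.1⟩
      obtain ⟨a1, a2, a3⟩ := h1 k hkF
      obtain ⟨x, kx, e1, e2, e3, e4, e5, e6⟩ := expand (hL k hkn) a1 a2 hpvr.1 hpvr.2 a3
        (h2 k le_rfl hkF)
      set f' : ℕ → ℤ := fun j => if j ∈ Ico (F k) (F (k + 1)) then x j else f j with hf'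
      set kd' : ℕ → ℤ := fun j => if j ∈ Ico (F k) (F (k + 1)) then kx j else kd j with hkd'
      have f'lt : ∀ j, j < F k → f' j = f j := by
        intro j hj
        simp only [hf']
        rw [if_neg (by rw [Finset.mem_Ico]; omega)]
      have kd'lt : ∀ j, j < F k → kd' j = kd j := by
        intro j hj
        simp only [hkd']
        rw [if_neg (by rw [Finset.mem_Ico]; omega)]
      have f'in : ∀ j ∈ Ico (F k) (F (k + 1)), f' j = x j := fun j hj => by simp only [hf', if_pos hj]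
      have kd'in : ∀ j ∈ Ico (F k) (F (k + 1)), kd' j = kx j := fun j hj => by
        simp only [hkd', if_pos hj]
      have pv'lt : ∀ j, j < F k → pv par f' j = pv par f j := by
        intro j hj
        unfold pv
        split_ifs with h
        · rfl
        · have := hparlt j (by omega) h
          exact f'lt _ (by omega)
      have pv'in : ∀ j ∈ Ico (F k) (F (k + 1)), pv par f' j = f k := by
        intro j hj
        have h5 := S.par_eq k hkn j hj
        rw [Finset.mem_Ico] at hj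
        unfold pv
        rw [if_neg (by omega), h5]
        exact f'lt k hkF
      have val'lt : ∀ j, j < F k → val f' kd' j = val f kd j := by
        intro j hj
        simp only [hval, kd'lt j hj, f'lt j hj, pv'lt j hj]
      have val'in : ∀ j ∈ Ico (F k) (F (k + 1)), val f' kd' j =
          if kx j = 2 then E j (x j) (f k) else D j (x j) (f k) (kx j) := by
        intro j hj
        simp only [hval, kd'in j hj, f'in j hj, pv'in j hj]
      have nb'lt : ∀ i, i < k → nbs F par f' i = nbs F par f i := by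
        intro i hi
        have hFi : F (i + 1) ≤ F k := S.mono' (by omega) (by omega)
        unfold nbs
        rw [f'lt i (by omega), pv'lt i (by omega)]
        congr 1
        apply Finset.sum_congr rfl
        intro c hc
        rw [Finset.mem_Ico] at hc
        exact f'lt c (by omega)
      have nb'k : nbs F par f' k = f k + pv par f k + ∑ c ∈ Ico (F k) (F (k + 1)), x c := by
        unfold nbs
        rw [f'lt k hkF, pv'lt k hkF]
        congr 1
        exact Finset.sum_congr rfl f'in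
      refine ⟨f', kd', ?_, ?_, ?_, ?_, ?_⟩
      · rw [kd'lt 0 (by omega)]; exact h0
      · intro j hj
        rcases Nat.lt_or_ge j (F k) with h | h
        · rw [f'lt j h, kd'lt j h]; exact h1 j h
        · have hj' : j ∈ Ico (F k) (F (k + 1)) := Finset.mem_Ico.mpr ⟨h, hj⟩
          rw [f'in j hj', kd'in j hj']
          obtain ⟨c1, c2, c3, c4⟩ := e1 j hj'
          exact ⟨c1, c2, c3⟩
      · intro j hj1 hj2
        rcases Nat.lt_or_ge j (F k) with h | h
        · rw [val'lt j h]; exact h2 j (by omega) h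
        · have hj' : j ∈ Ico (F k) (F (k + 1)) := Finset.mem_Ico.mpr ⟨h, hj2⟩
          rw [val'in j hj']
          exact (e1 j hj').2.2.2
      · have s1 : ∑ j ∈ range (k + 1), f' j = ∑ j ∈ range k, f j + f k := by
          rw [Finset.sum_range_succ, f'lt k hkF]
          congr 1
          apply Finset.sum_congr rfl
          intro j hj
          rw [Finset.mem_range] at hj
          exact f'lt j (by omega)
        have s2 : ∑ j ∈ Ico (k + 1) (F (k + 1)), val f' kd' j =
            ∑ j ∈ Ico (k + 1) (F k), val f kd j + ∑ j ∈ Ico (F k) (F (k + 1)),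
              (if kx j = 2 then E j (x j) (f k) else D j (x j) (f k) (kx j)) := by
          rw [← Finset.sum_Ico_consecutive _ (show k + 1 ≤ F k by omega) hFF]
          congr 1
          · apply Finset.sum_congr rfl
            intro j hj
            rw [Finset.mem_Ico] at hj
            exact val'lt j hj.2
          · exact Finset.sum_congr rfl val'in
        have s3 : ∑ j ∈ Ico k (F k), val f kd j = val f kd k + ∑ j ∈ Ico (k + 1) (F k), val f kd j :=
          Finset.sum_eq_sum_Ico_succ_bot hkF _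
        have s4 : val f kd k = f k + ∑ c ∈ Ico (F k) (F (k + 1)),
            (if kx c = 2 then E c (x c) (f k) else D c (x c) (f k) (kx c)) := e6
        rw [s1, s2]
        rw [s3, s4] at h3
        linarith
      · intro i hi
        rcases Nat.lt_or_ge i k with h | h
        · have hFi : F (i + 1) ≤ F k := S.mono' (by omega) (by omega)
          obtain ⟨b1, b2, b3, b4⟩ := h4 i h
          rw [nb'lt i h, kd'lt i (by omega), f'lt i (by omega)]
          refine ⟨b1, b2, ?_, ?_⟩
          · intro c hc hc1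
            rw [kd'lt c (by rw [Finset.mem_Ico] at hc; omega)] at hc1
            exact b3 c hc hc1
          · intro hfi
            rcases b4 hfi with h' | h' | ⟨c, hc, h'⟩
            · exact Or.inl h'
            · exact Or.inr (Or.inl h')
            · right; right
              refine ⟨c, hc, ?_⟩
              rw [kd'lt c (by rw [Finset.mem_Ico] at hc; omega)]
              exact h'
        · have : i = k := by omega
          subst this
          rw [nb'k, kd'lt i hkF, f'lt i hkF]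
          refine ⟨by linarith, fun h' => by linarith [e3 h'], ?_, ?_⟩
          · intro c hc hc1
            rw [kd'in c hc] at hc1
            linarith [e4 c hc hc1]
          · intro hfi
            rcases e5 hfi with h' | h' | ⟨c, hc, h'⟩
            · left; linarith
            · exact Or.inr (Or.inl h')
            · right; right
              exact ⟨c, hc, by rw [kd'in c hc]; exact h'⟩
  obtain ⟨f, kd, h0, h1, h2, h3, h4⟩ := main n le_rfl
  rw [S.last] at h1 h3
  refine ⟨f, ⟨fun i hi => ⟨(h1 i hi).1, (h1 i hi).2.1⟩, fun i hi => (h4 i hi).1, ?_⟩, ?_⟩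
  · intro i hi hfi
    rcases (h4 i hi).2.2.2 hfi with h | h | ⟨c, hc, h⟩
    · exact Or.inl h
    · right; left
      have hi0 : 0 < i := by
        rcases Nat.eq_zero_or_pos i with h' | h'
        · subst h'; rw [h0] at h; norm_num at h
        · exact h'
      obtain ⟨p1, p2⟩ := S.exists_par hi0 hi
      exact ⟨hi0, (h4 (par i) (by omega)).2.2.1 i p2 h⟩
    · right; right
      exact ⟨c, hc, (h4 c (S.child_lt hi hc).2).2.1 h⟩
  · simpa using h3

end Pool.Agent.Lib_helper87.UM
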