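import Pool.Agent.Lib_helper87.DpCode
import Pool.Agent.Lib_helper87.TreeDp
set_option autoImplicit false

namespace Pool.Agent.Lib_helper87.UM
open Finset

def coreC : Cmd := .seq selectC (.seq kapC (.seq slC (.seq dpInitC dpC)))

/-- static facts about the vertex being processed -/
structure VCtx (X M : ℤ) (n lo hi h R : ℕ) (S : ℤ) (sz : ℕ → ℤ) (s : St) : Prop where
  lohi : lo ≤ hi
  hin : hi ≤ n
  hX : 100 * (n : ℤ) ≤ X
  hn : 1 ≤ n
  hM : M = 16 * n
  v10 : s.v 10 = lo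
  v11 : s.v 11 = hi
  v16 : lo < hi → s.v 16 = h
  v15 : s.v 15 = S
  v18 : s.v 18 = R
  v19 : s.v 19 = (R : ℤ) * R
  v25 : s.v 25 = numFree lo hi h
  v50 : s.v 50 = -M
  hS0 : 0 ≤ S
  hSn : S < n
  hR : 1 ≤ R
  hRR : 8 * S + 3 < (R : ℤ) * R
  hRX : 2 * ((R : ℤ) * R) ≤ X
  sz0 : ∀ c ∈ Ico lo hi, 0 ≤ sz c
  szS : ∀ c ∈ Ico lo hi, c ≠ h → sz c ≤ S
  szn : ∑ c ∈ Ico lo hi, sz c < n

theorem core_spec {X M : ℤ} {n lo hi h R : ℕ} {S : ℤ} {sz : ℕ → ℤ} {s : St}
    (ctx : VCtx X M n lo hi h R S sz s) {σ a1 e : ℤ}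
    (h21 : s.v 21 = σ) (h47 : s.v 47 = a1) (h48 : s.v 48 = e) (ex : Bool)
    (hex : ex = true ↔ ¬ e < 1)
    (hg : ∀ c ∈ Ico lo hi, ∀ y, -1 ≤ y → y ≤ 1 → VB M (sz c) (gF (s.m 5) σ c y))
    (hw : ∀ c ∈ Ico lo hi, ∀ y, -1 ≤ y → y ≤ 1 → VB M (sz c) (wF (s.m 6) a1 c y)) :
    Tr X coreC s (306 * (hi - lo) + 30 * R + 182) (fun s' => ∃ κ b,
      BaseOK ex M κ lo hi h (gF (s.m 5) σ) b ∧ ∑ c ∈ Ico lo hi, b c = - s'.v 31 ∧
      Inv0 M lo hi (gF (s.m 5) σ) b (viewA M (s'.m 8)) ∧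
      Inv1 M lo hi (gF (s.m 5) σ) (wF (s.m 6) a1) b (viewA M (s'.m 9)) ∧
      PadOK M (s'.m 8) ∧ PadOK M (s'.m 9) ∧
      (∀ o, VB M (∑ c ∈ Ico lo hi, sz c) (viewA M (s'.m 8) o)) ∧
      (∀ o, VB M (∑ c ∈ Ico lo hi, sz c) (viewA M (s'.m 9) o)) ∧ |s'.v 31| ≤ 3 * n) := by
  obtain ⟨lohi, hin, hX, hn, hM, v10, v11, v16, v15, v18, v19, v25, v50, hS0, hSn, hR, hRR, hRX, sz0,
    szS, szn⟩ := ctx
  have hnZ : (1 : ℤ) ≤ n := by exact_mod_cast hn
  have hiZ : (hi : ℤ) ≤ n := by exact_mod_cast hin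
  have loZ : (lo : ℤ) ≤ hi := by exact_mod_cast lohi
  have lo0 : (0 : ℤ) ≤ lo := by positivity
  have hMX : 4 * M ≤ X := by omega
  have hM0 : 0 ≤ M := by omega
  have hszM : ∀ c ∈ Ico lo hi, sz c < M := by
    intro c hc
    have := Finset.single_le_sum (f := sz) (fun i hi' => sz0 i hi') hc
    omega
  have hT : TabB M (s.m 5) σ lo hi := by
    intro c hc
    have e1 := vb_abs (hszM c hc) hM0 (hg c hc (-1) (by norm_num) (by norm_num))
    have e2 := vb_abs (hszM c hc) hM0 (hg c hc 0 (by norm_num) (by norm_num))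
    have e3 := vb_abs (hszM c hc) hM0 (hg c hc 1 (by norm_num) (by norm_num))
    unfold gF at e1 e2 e3
    norm_num at e1 e2 e3
    exact ⟨e1, e2, e3⟩
  refine Tr.seqF (selectC_spec (X := X) (M := M) (lo := lo) (hi := hi) (h := h) (R := R) (S := S)
    (σ := σ) (RR := (R : ℤ) * R) lohi (by omega) (by omega) hMX v10 v11 v16 v15 v18 h21 hS0 hT hR
    v25 v19 rfl hRX hRR) (τ2 := 262 * (hi - lo) + 156) ?_ (by omega)
  intro s1 q1 fv1 fm1
  obtain ⟨k0, kRR, kN, kN2⟩ := q1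
  have hRR0 : 0 ≤ (R : ℤ) * R := by positivity
  -- price
  have g48 : s1.v 48 = e := by rw [fv1 48 rfl, h48]
  have g15 : s1.v 15 = S := by rw [fv1 15 rfl, v15]
  set κ : ℤ := if ex then s1.v 23 - (4 * S + 2) else min (s1.v 23 - (4 * S + 2)) 0 with hκ
  have hκe : (Expr.cond (.var 48) (.cst 1) (.cond (.cst 0) kapE (.cst 0) kapE) kapE).eval s1 = κ := by
    simp only [ev_cond, ev_var, ev_cst, kapE_eval, g48, g15, hκ]
    by_cases h1 : e < 1
    · have : ex = false := by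
        cases hx : ex with
        | false => rfl
        | true => exact absurd h1 (hex.mp hx)
      rw [if_pos h1, this]
      simp only [Bool.false_eq_true, if_false]
      split_ifs with h2
      · rw [min_eq_right h2.le]
      · rw [min_eq_left (not_lt.mp h2)]
    · rw [if_neg h1, hex.mpr h1]
      simp
  have hκX : |κ| ≤ X := by
    rw [hκ, abs_le]
    split_ifs
    · constructor <;> omega
    · rcases min_choice (s1.v 23 - (4 * S + 2)) 0 with h | h <;> rw [h] <;> constructor <;> omega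
  refine Tr.setS (τ2 := 262 * (hi - lo) + 155) (by rw [hκe]; exact hκX) ?_ (by omega)
  rw [hκe]
  set s2 := s1.setv 30 κ with hs2
  have ev2 (y : ℕ) (hy : y ≠ 30) : s2.v y = s1.v y := by simp [hs2, hy]
  have em2 : s2.m = s1.m := by simp [hs2]
  have e5 : s1.m 5 = s.m 5 := fm1 5 rfl
  have e6 : s1.m 6 = s.m 6 := fm1 6 rfl
  set L : ℕ → ℤ := fun c => xlo κ (gk1 (s.m 5) σ c) (gk2 (s.m 5) σ c) with hL
  set H : ℕ → ℤ := fun c => xhi κ (gk1 (s.m 5) σ c) (gk2 (s.m 5) σ c) with hH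
  refine Tr.seqF (slC_spec (X := X) (M := M) (s := s2) (lo := lo) (hi := hi) (h := h) (σ := σ)
    (κ := κ) lohi (by omega) hMX (by rw [ev2 10 (by norm_num), fv1 10 rfl, v10])
    (by rw [ev2 11 (by norm_num), fv1 11 rfl, v11])
    (fun hh => by rw [ev2 16 (by norm_num), fv1 16 rfl, v16 hh])
    (by rw [ev2 21 (by norm_num), fv1 21 rfl, h21]) (by simp [hs2])
    (by rw [em2, e5]; exact hT)) (τ2 := 250 * (hi - lo) + 152) ?_ (by omega)
  intro s3 q3 fv3 fm3
  rw [em2, e5] at q3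
  set n0 : ℤ := s3.v 31 with hn0
  have hn0' : n0 = -∑ c ∈ Ico lo hi, (if c = h then 0 else L c) := q3
  have hn0abs : |n0| ≤ (hi : ℤ) - lo := by
    rw [hn0', abs_neg]
    refine (Finset.abs_sum_le_sum_abs _ _).trans ?_
    have : ∑ i ∈ Ico lo hi, |if i = h then 0 else L i| ≤ ∑ i ∈ Ico lo hi, 1 := by
      apply Finset.sum_le_sum
      intro i _
      split_ifs
      · norm_num
      · rw [abs_le]; exact xlo_range _ _ _
    refine this.trans ?_
    simp only [Finset.sum_const, Nat.card_Ico]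
    rw [nsmul_eq_mul, mul_one, Nat.cast_sub lohi]
  have gv3 (y : ℕ) (h1 : selectC.mv y = false) (h2 : y ≠ 30) (h3 : slC.mv y = false) :
      s3.v y = s.v y := by rw [fv3 y h3, ev2 y h2, fv1 y h1]
  refine Tr.seqF (dpInitC_spec (X := X) (M := M) (s := s3) (by rw [gv3 50 rfl (by norm_num) rfl, v50])
    (by omega) (by omega) hM0) (τ2 := 250 * (hi - lo) + 2) ?_ (by omega)
  intro s4 q4 fv4 fm4
  obtain ⟨p8, p9, A0, A1⟩ := q4
  have gv4 (y : ℕ) (h1 : selectC.mv y = false) (h2 : y ≠ 30) (h3 : slC.mv y = false)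
      (h4 : dpInitC.mv y = false) : s4.v y = s.v y := by rw [fv4 y h4, gv3 y h1 h2 h3]
  have m5 : s4.m 5 = s.m 5 := by rw [fm4 5 rfl, fm3 5 rfl, em2, e5]
  have m6 : s4.m 6 = s.m 6 := by rw [fm4 6 rfl, fm3 6 rfl, em2, e6]
  have key := dpC_spec (X := X) (M := M) (s := s4) (lo := lo) (hi := hi) (h := h) (σ := σ) (κ := κ)
    (a1 := a1) (n0 := n0) (sz := sz) lohi (by omega) (by omega) hMX hM0
    (by rw [gv4 10 rfl (by norm_num) rfl rfl, v10]) (by rw [gv4 11 rfl (by norm_num) rfl rfl, v11])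
    (fun hh => by rw [gv4 16 rfl (by norm_num) rfl rfl, v16 hh])
    (by rw [gv4 21 rfl (by norm_num) rfl rfl, h21])
    (by rw [fv4 30 rfl, fv3 30 rfl]; simp [hs2]) (by rw [gv4 47 rfl (by norm_num) rfl rfl, h47])
    (by rw [gv4 50 rfl (by norm_num) rfl rfl, v50]) (by rw [fv4 31 rfl]) (by omega) sz0 (by omega)
    (by rw [m5]; exact hg) (by rw [m6]; exact hw) p8 p9 A0 A1 L H (by rw [m5]; exact fun _ => rfl)
    (by rw [m5]; exact fun _ => rfl)
  refine key.mono le_rfl ?_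
  intro s5 q5
  rw [m5, m6] at q5
  obtain ⟨r0, r1, r8, r9, rv8, rv9, r31⟩ := q5
  have hsum : ∑ c ∈ Ico lo hi, baseF h lo L H n0 c = - needF h lo L H n0 (hi - lo) := by
    have := needF_sum h lo L H n0 (hi - lo)
    rw [show lo + (hi - lo) = hi by omega] at this
    rw [this, hn0']; ring
  refine ⟨κ, baseF h lo L H n0, ?_, by rw [r31]; exact hsum, r0, r1, r8, r9, rv8, rv9, ?_⟩
  · exact baseOK_select ex M S (s1.v 23) ((R : ℤ) * R) lo hi h lohi (gF (s.m 5) σ) hS0 (by omega)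
      (fun c hc hne y h1 h2 => by
        have := hg c hc y h1 h2
        have h3 := szS c hc hne
        unfold VB at *
        omega) hRR (gk1 (s.m 5) σ) (gk2 (s.m 5) σ) (gk1_eq (s.m 5) σ) (gk2_eq (s.m 5) σ) kN k0 kRR kN2
      κ hκ L H (fun _ => rfl) (fun _ => rfl) n0 hn0'
  · rw [r31]
    have := needF_abs h lo L H n0 (hi - lo) (fun i => xlo_le_xhi _ _ _) (fun i => by
      have e1 := xlo_range κ (gk1 (s.m 5) σ i) (gk2 (s.m 5) σ i)
      have e2 := xhi_range κ (gk1 (s.m 5) σ i) (gk2 (s.m 5) σ i)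
      show xhi κ (gk1 (s.m 5) σ i) (gk2 (s.m 5) σ i) - xlo κ (gk1 (s.m 5) σ i) (gk2 (s.m 5) σ i) ≤ 2
      omega)
    have h2 : ((hi - lo : ℕ) : ℤ) = (hi : ℤ) - lo := by rw [Nat.cast_sub lohi]
    omega

/-- table entries: best value of the subtree of `c` with own value `x`, parent value `a`,
availability `e`; and best value with neighbourhood sum one -/
def tabD (m5 : ℤ → ℤ) (c : ℕ) (x a e : ℤ) : ℤ := m5 (18 * (c : ℤ) + 6 * (x + 1) + 2 * (a + 1) + e)
def tabE (m6 : ℤ → ℤ) (c : ℕ) (x a : ℤ) : ℤ := m6 (9 * (c : ℤ) + 3 * (x + 1) + (a + 1))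

lemma gF_eq_tabD (m5 : ℤ → ℤ) (a e : ℤ) :
    gF m5 (2 * (a + 1) + e) = fun c y => tabD m5 c y a e := by
  funext c y
  unfold gF tabD
  congr 1
  ring

lemma wF_eq_tabE (m6 : ℤ → ℤ) (a : ℤ) : wF m6 (a + 1) = fun c y => tabE m6 c y a := by
  funext c y
  rfl

def finE (v : Expr) : Expr := .cond (.var 50) v (v + .var 47 - .cst 1) (.var 50)
def fin (M a z : ℤ) : ℤ := if -M < z then z + a else -M

lemma finE_eval {s : St} {M a1 : ℤ} (h50 : s.v 50 = -M) (h47 : s.v 47 = a1) (v : Expr) :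
    (finE v).eval s = fin M (a1 - 1) (v.eval s) := by
  simp only [finE, ev_cond, ev_var, ev_sub, ev_add, ev_cst, h50, h47, fin]
  congr 1
  ring

lemma fin_vb {M Z a z : ℤ} (h : VB M Z z) (h1 : -1 ≤ a) (h2 : a ≤ 1) : VB M (Z + 1) (fin M a z) := by
  unfold fin VB at *
  split_ifs
  · omega
  · exact Or.inl rfl

/-- position in the table arrays -/
def tgtE : Expr := .cst 17 - .var 47 - .var 49 + .var 31

lemma tgtE_eval (s : St) : tgtE.eval s = 17 - s.v 47 - s.v 49 + s.v 31 := by simp [tgtE]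

lemma clampA {M : ℤ} {m : ℤ → ℤ} (hp : PadOK M m) (o : ℤ) :
    m (max 0 (min (o + 14) 28)) = viewA M m o := by
  rcases lt_or_ge o (-14) with h | h
  · rw [min_eq_left (by omega), max_eq_left (by omega), hp.1]
    unfold viewA
    rw [if_neg (by rw [abs_le]; omega)]
  · rcases le_or_gt o 14 with h' | h'
    · rw [min_eq_left (by omega), max_eq_right (by omega), viewA_eq hp h h']
    · rw [min_eq_right (by omega), max_eq_right (by omega), hp.2.2.2]
      unfold viewA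
      rw [if_neg (by rw [abs_le]; omega)]

def outEB : Cmd :=
  .put 6 (.smul 9 (.var 9) + .smul 3 (.var 47) + .var 49)
    (finE (.ld 8 (.mx (.cst 0) (.cond tgtE (.cst 28) tgtE (.cst 28)))))
def outEC : Cmd := .seq (.set 49 (.cst 0)) (.seq (.set 51 (.cst 3)) (Cmd.for_ 49 51 outEB))

theorem outEC_spec {X M Z a nd : ℤ} {i : ℕ} {s : St} (hX : 3 ≤ X) (hMX : M ≤ X) (hM0 : 0 ≤ M)
    (h9 : s.v 9 = i) (h47 : s.v 47 = a + 1) (h31 : s.v 31 = nd) (h50 : s.v 50 = -M)
    (ha1 : -1 ≤ a) (ha2 : a ≤ 1)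
    (hp : PadOK M (s.m 8)) (hZ : Z + 1 < M) (hv : ∀ o, VB M Z (viewA M (s.m 8) o)) :
    Tr X outEC s 12 (fun s' => (∀ b, -1 ≤ b → b ≤ 1 → tabE (s'.m 6) i a b =
        fin M a (viewA M (s.m 8) (1 - a - b + nd))) ∧
      ∀ p, (∀ b, -1 ≤ b → b ≤ 1 → p ≠ 9 * (i : ℤ) + 3 * (a + 1) + (b + 1)) → s'.m 6 p = s.m 6 p) := by
  refine Tr.setS (τ2 := 11) (by simp; omega) ?_ (by norm_num)
  refine Tr.setS (τ2 := 10) (by simp; omega) ?_ (by norm_num)
  simp only [ev_cst]
  refine Tr.forFc (by rfl) (by rfl) (by norm_num)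
    (fun k st => (∀ b : ℤ, -1 ≤ b → b + 1 < (k : ℤ) → tabE (st.m 6) i a b =
        fin M a (viewA M (s.m 8) (1 - a - b + nd))) ∧
      ∀ p, (∀ b, -1 ≤ b → b ≤ 1 → p ≠ 9 * (i : ℤ) + 3 * (a + 1) + (b + 1)) → st.m 6 p = s.m 6 p)
    1 0 3 (by norm_num) (by push_cast; omega) (by simp) (by simp) ?_ ?_ (by norm_num) ?_
  · refine ⟨fun b h1 h2 => ?_, fun p _ => by simp⟩
    push_cast at h2
    omega
  · intro k st _ hk hvk _ hfv hfm hI
    have fv (y : ℕ) (hy : outEB.mv y = false) (hy' : y ≠ 49) (h'' : y ≠ 51) : st.v y = s.v y := by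
      rw [hfv y hy hy']; simp [hy', h'']
    have f8 : st.m 8 = s.m 8 := by rw [hfm 8 rfl]; simp
    have f9 : st.v 9 = i := by rw [fv 9 rfl (by norm_num) (by norm_num), h9]
    have f47 : st.v 47 = a + 1 := by rw [fv 47 rfl (by norm_num) (by norm_num), h47]
    have f31 : st.v 31 = nd := by rw [fv 31 rfl (by norm_num) (by norm_num), h31]
    have f50 : st.v 50 = -M := by rw [fv 50 rfl (by norm_num) (by norm_num), h50]
    set b : ℤ := k - 1 with hb
    have hkb : (k : ℤ) = b + 1 := by omega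
    have hval : (finE (.ld 8 (.mx (.cst 0) (.cond tgtE (.cst 28) tgtE (.cst 28))))).eval st =
        fin M a (viewA M (s.m 8) (1 - a - b + nd)) := by
      rw [finE_eval f50 f47]
      simp only [ev_ld, ev_mx, ev_cst, ev_cond, tgtE_eval, f47, f31, hvk, hkb, f8]
      rw [ite_lt_eq_min, show 17 - (a + 1) - (b + 1) + nd = (1 - a - b + nd) + 14 by ring, clampA hp]
      congr 1
      ring
    refine Tr.sl ?_ (by decide) ?_
    · simp only [outEB, bd_put]
      rw [hval]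
      exact (vb_abs hZ hM0 (fin_vb (hv _) ha1 ha2)).trans hMX
    · simp only [outEB, exec_put, St.setv_m]
      rw [hval]
      simp only [ev_add, ev_smul, ev_var, f9, f47, hvk, hkb]
      constructor
      · intro b' h1 h2
        push_cast at h2
        unfold tabE
        rw [St.setm_m]
        rcases eq_or_ne b' b with h | h
        · rw [h, if_pos ⟨rfl, rfl⟩]
        · rw [if_neg (fun hh => h (by linarith [hh.2]))]
          exact hI.1 b' h1 (by omega)
      · intro p hp'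
        rw [St.setm_m, if_neg (fun hh => hp' b (by omega) (by omega) hh.2)]
        exact hI.2 p hp'
  · intro s' hI _ _ _
    exact ⟨fun b h1 h2 => hI.1 b h1 (by push_cast; omega), hI.2⟩

/-- inner maximum -/
def mxB : Cmd :=
  .ite (.var 43) (.var 52) .skip
    (.seq (.set 53 (.mx (.var 53) (.ld 8 (.var 43)))) (.set 54 (.mx (.var 54) (.ld 9 (.var 43)))))

theorem mxLoop_spec {X M Z : ℤ} {s : St} {t : ℤ} (hX : 29 ≤ X) (hMX : M ≤ X) (hM0 : 0 ≤ M)
    (hZ : Z < M) (h43 : s.v 43 = 2) (h44 : s.v 44 = 27) (h52 : s.v 52 = t + 14)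
    (h53 : s.v 53 = -M) (h54 : s.v 54 = -M)
    (hv0 : ∀ o, VB M Z (viewA M (s.m 8) o)) (hv1 : ∀ o, VB M Z (viewA M (s.m 9) o)) :
    Tr X (Cmd.for_ 43 44 mxB) s 151 (fun s' =>
      (VB M Z (s'.v 53) ∧ (∀ o, |o| ≤ 12 → t ≤ o → viewA M (s.m 8) o ≤ s'.v 53) ∧
        (-M < s'.v 53 → ∃ o, |o| ≤ 12 ∧ t ≤ o ∧ s'.v 53 = viewA M (s.m 8) o)) ∧
      (VB M Z (s'.v 54) ∧ (∀ o, |o| ≤ 12 → t ≤ o → viewA M (s.m 9) o ≤ s'.v 54) ∧
        (-M < s'.v 54 → ∃ o, |o| ≤ 12 ∧ t ≤ o ∧ s'.v 54 = viewA M (s.m 9) o))) := by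
  refine Tr.forFc (by rfl) (by rfl) (by norm_num)
    (fun k st =>
      (VB M Z (st.v 53) ∧ (∀ o, |o| ≤ 12 → t ≤ o → o + 14 < k → viewA M (s.m 8) o ≤ st.v 53) ∧
        (-M < st.v 53 → ∃ o, |o| ≤ 12 ∧ t ≤ o ∧ st.v 53 = viewA M (s.m 8) o)) ∧
      (VB M Z (st.v 54) ∧ (∀ o, |o| ≤ 12 → t ≤ o → o + 14 < k → viewA M (s.m 9) o ≤ st.v 54) ∧
        (-M < st.v 54 → ∃ o, |o| ≤ 12 ∧ t ≤ o ∧ st.v 54 = viewA M (s.m 9) o))) 4 2 27
    (by norm_num) (by push_cast; omega) (by simpa using h43) (by simpa using h44) ?_ ?_ (by norm_num) ?_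
  · rw [h53, h54]
    refine ⟨⟨Or.inl rfl, ?_, ?_⟩, Or.inl rfl, ?_, ?_⟩
    · intro o h1 _ h2
      rw [abs_le] at h1; push_cast at h2; omega
    · intro h; omega
    · intro o h1 _ h2
      rw [abs_le] at h1; push_cast at h2; omega
    · intro h; omega
  · intro k st hk1 hk hvk _ hfv hfm hI
    have f8 : st.m 8 = s.m 8 := hfm 8 rfl
    have f9 : st.m 9 = s.m 9 := hfm 9 rfl
    have f52 : st.v 52 = t + 14 := by rw [hfv 52 rfl (by norm_num), h52]
    set o : ℤ := k - 14 with ho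
    have hko : (k : ℤ) = o + 14 := by omega
    have habs : |o| ≤ 12 := by rw [abs_le]; constructor <;> omega
    have hv8 : st.m 8 (o + 14) = viewA M (s.m 8) o := by rw [f8]; unfold viewA; rw [if_pos habs]
    have hv9 : st.m 9 (o + 14) = viewA M (s.m 9) o := by rw [f9]; unfold viewA; rw [if_pos habs]
    obtain ⟨⟨i1, i2, i3⟩, i4, i5, i6⟩ := hI
    by_cases hlt : o < t
    · refine Tr.sl ?_ (by decide) ?_
      · simp only [mxB, bd_ite, ev_var, hvk, hko, f52, bd_skip]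
        exact ⟨fun _ => trivial, fun h => absurd (by omega) h⟩
      · simp only [mxB, exec_ite, ev_var, hvk, hko, f52, exec_skip]
        rw [if_pos (by omega)]
        simp only [St.setv_v]
        simp only [Nat.reduceEqDiff, if_false]
        push_cast
        refine ⟨⟨i1, fun o' h1 h2 h3 => i2 o' h1 h2 (by omega), i3⟩,
          i4, fun o' h1 h2 h3 => i5 o' h1 h2 (by omega), i6⟩
    · have b1 := max_vb i1 (hv0 o)
      have b2 := max_vb i4 (hv1 o)
      refine Tr.sl ?_ (by decide) ?_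
      · simp only [mxB, bd_ite, bd_seq, bd_set, exec_set, ev_mx, ev_ld, ev_var, hvk, hko, f52, bd_skip,
          St.setv_v, St.setv_m, hv8]
        simp only [Nat.reduceEqDiff, if_false, hv9]
        exact ⟨fun _ => trivial, fun _ => ⟨(vb_abs hZ hM0 b1).trans hMX, (vb_abs hZ hM0 b2).trans hMX⟩⟩
      · simp only [mxB, exec_ite, exec_seq, exec_set, ev_mx, ev_ld, ev_var, hvk, hko, f52, exec_skip]
        rw [if_neg (by omega)]
        simp only [St.setv_v, St.setv_m, hv8]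
        simp only [Nat.reduceEqDiff, if_false, if_true, hvk, hko, hv9]
        push_cast
        refine ⟨⟨b1, ?_, ?_⟩, b2, ?_, ?_⟩
        · intro o' h1 h2 h3
          rcases eq_or_ne o' o with h | h
          · rw [h]; exact le_max_right _ _
          · exact le_max_of_le_left (i2 o' h1 h2 (by omega))
        · intro h
          rcases max_cases (st.v 53) (viewA M (s.m 8) o) with ⟨e, _⟩ | ⟨e, _⟩
          · rw [e] at h ⊢; exact i3 h
          · rw [e] at h ⊢; exact ⟨o, habs, by omega, rfl⟩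
        · intro o' h1 h2 h3
          rcases eq_or_ne o' o with h | h
          · rw [h]; exact le_max_right _ _
          · exact le_max_of_le_left (i5 o' h1 h2 (by omega))
        · intro h
          rcases max_cases (st.v 54) (viewA M (s.m 9) o) with ⟨e, _⟩ | ⟨e, _⟩
          · rw [e] at h ⊢; exact i6 h
          · rw [e] at h ⊢; exact ⟨o, habs, by omega, rfl⟩
  · intro s' hI _ _ _
    obtain ⟨⟨i1, i2, i3⟩, i4, i5, i6⟩ := hI
    refine ⟨⟨i1, fun o h1 h2 => i2 o h1 h2 ?_, i3⟩, i4, fun o h1 h2 => i5 o h1 h2 ?_, i6⟩ <;>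
      (rw [abs_le] at h1; push_cast; omega)

/-- `V` is the maximum of `A` on the window from `t` on -/
def MxP (M : ℤ) (A : ℤ → ℤ) (t V : ℤ) : Prop :=
  (∀ o, |o| ≤ 12 → t ≤ o → A o ≤ V) ∧ (-M < V → ∃ o, |o| ≤ 12 ∧ t ≤ o ∧ V = A o)

def dIdx : Expr := .smul 18 (.var 9) + .smul 6 (.var 47) + .smul 2 (.var 49)
def outDB : Cmd :=
  .seq (.seq (.set 52 tgtE) (.seq (.set 53 (.var 50)) (.seq (.set 54 (.var 50))
    (.seq (.set 43 (.cst 2)) (.set 44 (.cst 27))))))
  (.seq (Cmd.for_ 43 44 mxB)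
    (.seq (.set 55 (.ld 6 (.smul 9 (.var 9) + .smul 3 (.var 47) + .var 49)))
    (.seq (.put 5 dIdx (.mx (.var 55) (finE (.cond (.var 47) (.cst 1) (.var 53) (.var 54)))))
      (.put 5 (dIdx + .cst 1) (.mx (.var 55) (finE (.var 53)))))))
def outDC : Cmd := .seq (.set 49 (.cst 0)) (.seq (.set 51 (.cst 3)) (Cmd.for_ 49 51 outDB))

lemma dIdx_eval (s : St) : dIdx.eval s = 18 * s.v 9 + 6 * s.v 47 + 2 * s.v 49 := by simp [dIdx]

theorem outDC_spec {X M Z a nd : ℤ} {i : ℕ} {s : St} (hX : 29 ≤ X) (hMX : M ≤ X) (hM0 : 0 ≤ M)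
    (h9 : s.v 9 = i) (h47 : s.v 47 = a + 1) (h31 : s.v 31 = nd) (h50 : s.v 50 = -M)
    (hndX : |nd| + 17 ≤ X)
    (ha1 : -1 ≤ a) (ha2 : a ≤ 1) (hZ0 : 0 ≤ Z) (hZ : Z + 1 < M)
    (hE : ∀ b, -1 ≤ b → b ≤ 1 → VB M (Z + 1) (tabE (s.m 6) i a b))
    (hv0 : ∀ o, VB M Z (viewA M (s.m 8) o)) (hv1 : ∀ o, VB M Z (viewA M (s.m 9) o)) :
    Tr X outDC s 540 (fun s' => (∀ b, -1 ≤ b → b ≤ 1 → ∃ V0 V1,
        MxP M (viewA M (s.m 8)) (1 - a - b + nd) V0 ∧ MxP M (viewA M (s.m 9)) (1 - a - b + nd) V1 ∧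
        tabD (s'.m 5) i a b 0 = max (tabE (s.m 6) i a b) (fin M a (if a < 0 then V0 else V1)) ∧
        tabD (s'.m 5) i a b 1 = max (tabE (s.m 6) i a b) (fin M a V0) ∧
        VB M (Z + 1) (tabD (s'.m 5) i a b 0) ∧ VB M (Z + 1) (tabD (s'.m 5) i a b 1)) ∧
      ∀ p, (∀ b e, -1 ≤ b → b ≤ 1 → e = 0 ∨ e = 1 →
        p ≠ 18 * (i : ℤ) + 6 * (a + 1) + 2 * (b + 1) + e) → s'.m 5 p = s.m 5 p) := by
  refine Tr.setS (τ2 := 539) (by simp; omega) ?_ (by norm_num)
  refine Tr.setS (τ2 := 538) (by simp; omega) ?_ (by norm_num)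
  simp only [ev_cst]
  refine Tr.forFc (by rfl) (by rfl) (by norm_num)
    (fun k st => (∀ b : ℤ, -1 ≤ b → b + 1 < (k : ℤ) → ∃ V0 V1,
        MxP M (viewA M (s.m 8)) (1 - a - b + nd) V0 ∧ MxP M (viewA M (s.m 9)) (1 - a - b + nd) V1 ∧
        tabD (st.m 5) i a b 0 = max (tabE (s.m 6) i a b) (fin M a (if a < 0 then V0 else V1)) ∧
        tabD (st.m 5) i a b 1 = max (tabE (s.m 6) i a b) (fin M a V0) ∧
        VB M (Z + 1) (tabD (st.m 5) i a b 0) ∧ VB M (Z + 1) (tabD (st.m 5) i a b 1)) ∧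
      ∀ p, (∀ b e, -1 ≤ b → b ≤ 1 → e = 0 ∨ e = 1 →
        p ≠ 18 * (i : ℤ) + 6 * (a + 1) + 2 * (b + 1) + e) → st.m 5 p = s.m 5 p)
    170 0 3 (by norm_num) (by push_cast; omega) (by simp) (by simp) ?_ ?_ (by norm_num) ?_
  · refine ⟨fun b h1 h2 => ?_, fun p _ => by simp⟩
    push_cast at h2
    omega
  · intro k st _ hk hvk _ hfv hfm hI
    have fv (y : ℕ) (hy : outDB.mv y = false) (hy' : y ≠ 49) (h'' : y ≠ 51) : st.v y = s.v y := by
      rw [hfv y hy hy']; simp [hy', h'']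
    have f8 : st.m 8 = s.m 8 := by rw [hfm 8 rfl]; simp
    have f9' : st.m 9 = s.m 9 := by rw [hfm 9 rfl]; simp
    have f6 : st.m 6 = s.m 6 := by rw [hfm 6 rfl]; simp
    have f9 : st.v 9 = i := by rw [fv 9 rfl (by norm_num) (by norm_num), h9]
    have f47 : st.v 47 = a + 1 := by rw [fv 47 rfl (by norm_num) (by norm_num), h47]
    have f31 : st.v 31 = nd := by rw [fv 31 rfl (by norm_num) (by norm_num), h31]
    have f50 : st.v 50 = -M := by rw [fv 50 rfl (by norm_num) (by norm_num), h50]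
    set b : ℤ := k - 1 with hb
    have hkb : (k : ℤ) = b + 1 := by omega
    have hb1 : -1 ≤ b := by omega
    have hb2 : b ≤ 1 := by omega
    set t : ℤ := 1 - a - b + nd with ht
    have htg : tgtE.eval st = t + 14 := by
      rw [tgtE_eval, f47, f31, hvk, hkb]; ring
    refine Tr.seq (τ1 := 5) (τ2 := 160) ?_ (by norm_num)
    refine Tr.sl ?_ (by decide) ?_
    · simp only [bd_seq, bd_set, exec_set, htg, ev_var, ev_cst, St.setv_v]
      simp only [Nat.reduceEqDiff, if_false, f50, abs_neg]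
      rw [abs_of_nonneg hM0]
      have h27 : |(27 : ℤ)| = 27 := rfl
      have h2' : |(2 : ℤ)| = 2 := rfl
      refine ⟨?_, hMX, hMX, by rw [h2']; omega, by rw [h27]; omega⟩
      have := abs_le.mp (show |nd| ≤ X - 17 by omega)
      rw [abs_le]; constructor <;> omega
    simp only [exec_seq, exec_set, htg, ev_var, ev_cst, St.setv_v]
    simp only [Nat.reduceEqDiff, if_false, f50]
    set s1 := ((((st.setv 52 (t + 14)).setv 53 (-M)).setv 54 (-M)).setv 43 2).setv 44 27 with hs1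
    have em1 : s1.m = st.m := by simp [hs1]
    have ev1 (y : ℕ) (h : y < 43 ∨ (44 < y ∧ y < 52) ∨ 54 < y) : s1.v y = st.v y := by
      simp only [hs1, St.setv_v]
      rw [if_neg (by omega), if_neg (by omega), if_neg (by omega), if_neg (by omega), if_neg (by omega)]
    refine Tr.seqF (mxLoop_spec (X := X) (M := M) (Z := Z) (s := s1) (t := t) hX hMX hM0 (by omega)
      (by simp [hs1]) (by simp [hs1]) (by simp [hs1]) (by simp [hs1]) (by simp [hs1])
      (by rw [em1, f8]; exact hv0) (by rw [em1, f9']; exact hv1)) (τ2 := 3) ?_ (by norm_num)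
    intro s2 q2 fv2 fm2
    rw [em1, f8, f9'] at q2
    obtain ⟨⟨v1, v2, v3⟩, w1, w2, w3⟩ := q2
    set V0 := s2.v 53 with hV0
    set V1 := s2.v 54 with hV1
    have g9 : s2.v 9 = i := by rw [fv2 9 rfl, ev1 9 (by norm_num), f9]
    have g47 : s2.v 47 = a + 1 := by rw [fv2 47 rfl, ev1 47 (by norm_num), f47]
    have g49 : s2.v 49 = b + 1 := by rw [fv2 49 rfl, ev1 49 (by norm_num), hvk, hkb]
    have g50 : s2.v 50 = -M := by rw [fv2 50 rfl, ev1 50 (by norm_num), f50]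
    have g6 : s2.m 6 = s.m 6 := by rw [fm2 6 rfl, em1, f6]
    have g5 : s2.m 5 = st.m 5 := by rw [fm2 5 rfl, em1]
    have h55 : s2.m 6 (9 * s2.v 9 + 3 * s2.v 47 + s2.v 49) = tabE (s.m 6) i a b := by
      rw [g6, g9, g47, g49]; rfl
    set Ev := tabE (s.m 6) i a b with hEv
    have hEvb : VB M (Z + 1) Ev := hE b hb1 hb2
    set s3 := s2.setv 55 Ev with hs3
    have ev3 (y : ℕ) (h : y ≠ 55) : s3.v y = s2.v y := by simp [hs3, h]
    have hcond : (Expr.cond (.var 47) (.cst 1) (.var 53) (.var 54)).eval s3 =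
        if a < 0 then V0 else V1 := by
      simp only [ev_cond, ev_var, ev_cst]
      rw [ev3 47 (by norm_num), ev3 53 (by norm_num), ev3 54 (by norm_num), g47]
      by_cases ha : a < 0
      · rw [if_pos ha, if_pos (by omega)]
      · rw [if_neg ha, if_neg (by omega)]
    have hfin0 : (finE (.cond (.var 47) (.cst 1) (.var 53) (.var 54))).eval s3 =
        fin M a (if a < 0 then V0 else V1) := by
      rw [finE_eval (M := M) (a1 := a + 1) (by rw [ev3 50 (by norm_num), g50])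
        (by rw [ev3 47 (by norm_num), g47]), hcond]
      congr 1; ring
    have hfin1 : ∀ s4 : St, s4.v = s3.v → (finE (.var 53)).eval s4 = fin M a V0 := by
      intro s4 h4
      rw [finE_eval (M := M) (a1 := a + 1) (by rw [h4, ev3 50 (by norm_num), g50])
        (by rw [h4, ev3 47 (by norm_num), g47]), ev_var, h4, ev3 53 (by norm_num)]
      congr 1; ring
    have vbA : VB M (Z + 1) (fin M a (if a < 0 then V0 else V1)) := by
      apply fin_vb _ ha1 ha2
      split_ifs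
      · exact v1
      · exact w1
    have vbB : VB M (Z + 1) (fin M a V0) := fin_vb v1 ha1 ha2
    have vb0 : VB M (Z + 1) (max Ev (fin M a (if a < 0 then V0 else V1))) := max_vb hEvb vbA
    have vb1 : VB M (Z + 1) (max Ev (fin M a V0)) := max_vb hEvb vbB
    set P : ℤ := 18 * (i : ℤ) + 6 * (a + 1) + 2 * (b + 1) with hP
    have hdi : dIdx.eval s3 = P := by
      rw [dIdx_eval, ev3 9 (by norm_num), ev3 47 (by norm_num), ev3 49 (by norm_num), g9, g47, g49]
    set W0 := max Ev (fin M a (if a < 0 then V0 else V1)) with hW0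
    set W1 := max Ev (fin M a V0) with hW1
    have hex1 : (Expr.mx (.var 55) (finE (.cond (.var 47) (.cst 1) (.var 53) (.var 54)))).eval s3 = W0 := by
      rw [ev_mx, hfin0, ev_var]; simp [hs3, hW0]
    set s4 := s3.setm 5 P W0 with hs4
    have hex2 : (Expr.mx (.var 55) (finE (.var 53))).eval s4 = W1 := by
      rw [ev_mx, hfin1 s4 (by rw [hs4, St.setm_v]), ev_var, hs4, St.setm_v]; simp [hs3, hW1]
    have hdi2 : (dIdx + .cst 1).eval s4 = P + 1 := by
      rw [ev_add, ev_cst, dIdx_eval, hs4, St.setm_v, ev3 9 (by norm_num), ev3 47 (by norm_num),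
        ev3 49 (by norm_num), g9, g47, g49]
    refine Tr.sl ?_ (by decide) ?_
    · simp only [bd_seq, bd_set, bd_put, exec_set, exec_put, ev_ld, ev_add, ev_smul, ev_var]
      rw [h55, ← hs3, hex1, hdi, ← hs4, hex2]
      exact ⟨(vb_abs hZ hM0 hEvb).trans hMX, (vb_abs hZ hM0 vb0).trans hMX,
        (vb_abs hZ hM0 vb1).trans hMX⟩
    · simp only [exec_seq, exec_set, exec_put, ev_ld, St.setv_m]
      rw [show (Expr.smul 9 (.var 9) + .smul 3 (.var 47) + .var 49).eval s2 =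
        9 * s2.v 9 + 3 * s2.v 47 + s2.v 49 by simp, h55, ← hs3, hex1, hdi, ← hs4, hex2, hdi2]
      have hmem5 : ∀ p, (s4.setm 5 (P + 1) W1).m 5 p = if p = P + 1 then W1 else if p = P then W0
          else st.m 5 p := by
        intro p
        rw [St.setm_m, hs4, St.setm_m]
        simp only [true_and]
        rw [show s3.m 5 p = st.m 5 p by rw [hs3, St.setv_m, g5]]
      constructor
      · intro b' h1 h2
        push_cast at h2
        rcases eq_or_ne b' b with h | h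
        · rw [h]
          have e0 : tabD ((s4.setm 5 (P + 1) W1).m 5) i a b 0 = W0 := by
            unfold tabD; rw [hmem5, if_neg (by omega), if_pos (by omega)]
          have e1 : tabD ((s4.setm 5 (P + 1) W1).m 5) i a b 1 = W1 := by
            unfold tabD; rw [hmem5, if_pos (by omega)]
          exact ⟨V0, V1, ⟨v2, v3⟩, ⟨w2, w3⟩, e0, e1, by rw [e0]; exact vb0, by rw [e1]; exact vb1⟩
        · obtain ⟨U0, U1, u1, u2, u3, u4, u5, u6⟩ := hI.1 b' h1 (by omega)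
          have e0 : tabD ((s4.setm 5 (P + 1) W1).m 5) i a b' 0 = tabD (st.m 5) i a b' 0 := by
            unfold tabD; rw [hmem5, if_neg (by omega), if_neg (by omega)]
          have e1 : tabD ((s4.setm 5 (P + 1) W1).m 5) i a b' 1 = tabD (st.m 5) i a b' 1 := by
            unfold tabD; rw [hmem5, if_neg (by omega), if_neg (by omega)]
          exact ⟨U0, U1, u1, u2, by rw [e0]; exact u3, by rw [e1]; exact u4, by rw [e0]; exact u5,
            by rw [e1]; exact u6⟩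
      · intro p hp'
        rw [hmem5, if_neg (hp' b 1 hb1 hb2 (Or.inr rfl)), if_neg]
        · exact hI.2 p hp'
        · have := hp' b 0 hb1 hb2 (Or.inl rfl)
          rwa [add_zero] at this
  · intro s' hI _ _ _
    exact ⟨fun b h1 h2 => hI.1 b h1 (by push_cast; omega), hI.2⟩

end Pool.Agent.Lib_helper87.UM
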