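import Pool.Agent.Lib_helper87.TreeDp
set_option autoImplicit false

/-! # The potential function behind the running time -/

namespace Pool.Agent.Lib_helper87.UM
open Finset

lemma sqrt_add_half {a b : ℝ} (hb : 0 ≤ b) (hab : b ≤ a) : √(a + b) ≤ √a + √b / 2 := by
  have ha : 0 ≤ a := hb.trans hab
  apply Real.sqrt_le_iff.mpr
  refine ⟨by positivity, ?_⟩
  have h1 : √a ^ 2 = a := Real.sq_sqrt ha
  have h2 : √b ^ 2 = b := Real.sq_sqrt hb
  have h3 : √b ≤ √a := Real.sqrt_le_sqrt hab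
  have h4 : 0 ≤ √b := Real.sqrt_nonneg b
  nlinarith [mul_le_mul_of_nonneg_right h3 h4]

lemma sqrt_add_le' {a b : ℝ} (ha : 0 ≤ a) (hb : 0 ≤ b) : √(a + b) ≤ √a + √b := by
  apply Real.sqrt_le_iff.mpr
  refine ⟨by positivity, ?_⟩
  have h1 : √a ^ 2 = a := Real.sq_sqrt ha
  have h2 : √b ^ 2 = b := Real.sq_sqrt hb
  nlinarith [mul_nonneg (Real.sqrt_nonneg a) (Real.sqrt_nonneg b)]

/-- invariant of the loop over the children: `t` is the sum of the sizes, `u` the sum of their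
roots, `m1 ≥ m2` the two largest sizes -/
def PotI (t m1 m2 : ℤ) (u : ℝ) : Prop :=
  0 ≤ m2 ∧ m2 ≤ m1 ∧ m1 ≤ t ∧ √(t : ℝ) + √(m2 : ℝ) / 2 ≤ u ∧ 0 ≤ u

lemma PotI.init : PotI 0 0 0 0 := by
  refine ⟨le_rfl, le_rfl, le_rfl, ?_, le_rfl⟩
  simp

lemma PotI.step1 {t m1 m2 z : ℤ} {u : ℝ} (h : PotI t m1 m2 u) (hz : m1 < z) :
    PotI (t + z) z m1 (u + √(z : ℝ)) := by
  obtain ⟨h1, h2, h3, h4, h5⟩ := h
  have t0 : (0 : ℝ) ≤ t := by exact_mod_cast (by omega : (0 : ℤ) ≤ t)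
  have z0 : (0 : ℝ) ≤ z := by exact_mod_cast (by omega : (0 : ℤ) ≤ z)
  have hm2 : 0 ≤ √(m2 : ℝ) := Real.sqrt_nonneg _
  have hm1t : √(m1 : ℝ) ≤ √(t : ℝ) := Real.sqrt_le_sqrt (by exact_mod_cast h3)
  have hm1z : √(m1 : ℝ) ≤ √(z : ℝ) := Real.sqrt_le_sqrt (by exact_mod_cast hz.le)
  refine ⟨by omega, by omega, by omega, ?_, by positivity⟩
  push_cast
  rcases le_total (z : ℝ) t with h | h
  · have := sqrt_add_half z0 h
    linarith
  · have := sqrt_add_half t0 h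
    rw [add_comm (z : ℝ) t] at this
    linarith

lemma PotI.step2 {t m1 m2 z : ℤ} {u : ℝ} (h : PotI t m1 m2 u) (hz : m2 < z) (hz' : z ≤ m1) :
    PotI (t + z) m1 z (u + √(z : ℝ)) := by
  obtain ⟨h1, h2, h3, h4, h5⟩ := h
  have t0 : (0 : ℝ) ≤ t := by exact_mod_cast (by omega : (0 : ℤ) ≤ t)
  have z0 : (0 : ℝ) ≤ z := by exact_mod_cast (by omega : (0 : ℤ) ≤ z)
  have hm2 : 0 ≤ √(m2 : ℝ) := Real.sqrt_nonneg _
  refine ⟨by omega, by omega, by omega, ?_, by positivity⟩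
  push_cast
  have hzt : (z : ℝ) ≤ t := by exact_mod_cast (by omega : z ≤ t)
  have := sqrt_add_half z0 hzt
  linarith

lemma PotI.step3 {t m1 m2 z : ℤ} {u : ℝ} (h : PotI t m1 m2 u) (hz0 : 0 ≤ z) :
    PotI (t + z) m1 m2 (u + √(z : ℝ)) := by
  obtain ⟨h1, h2, h3, h4, h5⟩ := h
  have t0 : (0 : ℝ) ≤ t := by exact_mod_cast (by omega : (0 : ℤ) ≤ t)
  have z0 : (0 : ℝ) ≤ z := by exact_mod_cast (by omega : (0 : ℤ) ≤ z)
  refine ⟨by omega, by omega, by omega, ?_, by positivity⟩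
  push_cast
  have := sqrt_add_le' t0 z0
  linarith

/-- the number of digits used by the selection at a vertex whose second largest child has size
`z` -/
def SqOK (R : ℕ) (z : ℤ) : Prop := 4 ≤ R ∧ 8 * z + 8 < (R : ℤ) * R ∧
  ((R : ℤ) - 1) * ((R : ℤ) - 1) ≤ 8 * z + 9

lemma SqOK.le {R : ℕ} {z : ℤ} (h : SqOK R z) (hz : 0 ≤ z) : (R : ℝ) ≤ 4 + 3 * √(z : ℝ) := by
  obtain ⟨h1, h2, h3⟩ := h
  have h1' : (4 : ℝ) ≤ R := by exact_mod_cast h1
  have h3' : ((R : ℝ) - 1) * ((R : ℝ) - 1) ≤ 8 * z + 9 := by exact_mod_cast h3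
  have z0 : (0 : ℝ) ≤ z := by exact_mod_cast hz
  have h4 : √(z : ℝ) ^ 2 = z := Real.sq_sqrt z0
  have h5 : 0 ≤ √(z : ℝ) := Real.sqrt_nonneg _
  have h6 : ((R : ℝ) - 1) ^ 2 ≤ (3 * √(z : ℝ) + 3) ^ 2 := by nlinarith
  have h7 := abs_le_of_sq_le_sq h6 (by positivity)
  linarith [le_abs_self ((R : ℝ) - 1)]

lemma SqOK.two_le {R : ℕ} {z : ℤ} (h : SqOK R z) {n : ℕ} (hz0 : 0 ≤ z) (hz : z < n) :
    2 * ((R : ℤ) * R) ≤ 100 * n := by
  obtain ⟨h1, h2, h3⟩ := h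
  have h1' : (4 : ℤ) ≤ R := by exact_mod_cast h1
  nlinarith

/-- bound for the number of digits at vertex `i` -/
noncomputable def Rb (F : ℕ → ℕ) (sz : ℕ → ℤ) (i : ℕ) : ℕ :=
  ⌊10 + 6 * (∑ c ∈ Ico (F i) (F (i + 1)), √(sz c : ℝ) - √(sz i : ℝ))⌋₊

lemma le_Rb {F : ℕ → ℕ} {sz : ℕ → ℤ} {i R : ℕ} {m1 m2 : ℤ}
    (hsz : sz i = 1 + ∑ c ∈ Ico (F i) (F (i + 1)), sz c)
    (hP : PotI (∑ c ∈ Ico (F i) (F (i + 1)), sz c) m1 m2 (∑ c ∈ Ico (F i) (F (i + 1)), √(sz c : ℝ)))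
    (hR : SqOK R m2) : R ≤ Rb F sz i := by
  obtain ⟨h1, h2, h3, h4, h5⟩ := hP
  have h6 := hR.le h1
  unfold Rb
  apply Nat.le_floor
  have h7 : √(sz i : ℝ) ≤ 1 + √((∑ c ∈ Ico (F i) (F (i + 1)), sz c : ℤ) : ℝ) := by
    rw [hsz]
    push_cast
    have h0 : (0 : ℝ) ≤ ∑ c ∈ Ico (F i) (F (i + 1)), (sz c : ℝ) := by
      exact_mod_cast (by omega : (0 : ℤ) ≤ ∑ c ∈ Ico (F i) (F (i + 1)), sz c)
    have := sqrt_add_le' zero_le_one h0
    rwa [Real.sqrt_one] at this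
  linarith

lemma Seq.sum_children {n : ℕ} {F par : ℕ → ℕ} (S : Seq n F par) (g : ℕ → ℝ) :
    ∀ k, k ≤ n → ∑ i ∈ range k, ∑ c ∈ Ico (F i) (F (i + 1)), g c = ∑ c ∈ Ico 1 (F k), g c := by
  intro k
  induction k with
  | zero => intro _; rw [S.zero]; simp
  | succ k ih =>
    intro hk
    rw [Finset.sum_range_succ, ih (by omega)]
    have h1 := S.mono' (Nat.zero_le k) (by omega)
    rw [S.zero] at h1
    exact Finset.sum_Ico_consecutive g h1 (S.mono k (by omega))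

lemma Seq.sum_Rb {n : ℕ} {F par : ℕ → ℕ} (S : Seq n F par) {sz : ℕ → ℤ}
    (hsz : ∀ i < n, sz i = 1 + ∑ c ∈ Ico (F i) (F (i + 1)), sz c) :
    ∑ i ∈ range n, Rb F sz i ≤ 10 * n := by
  have h0 : ∀ i < n, 0 ≤ 10 + 6 * (∑ c ∈ Ico (F i) (F (i + 1)), √(sz c : ℝ) - √(sz i : ℝ)) := by
    intro i hi
    have h1 : ∀ c ∈ Ico (F i) (F (i + 1)), 0 ≤ sz c := fun c hc =>
      (by norm_num : (0 : ℤ) ≤ 1).trans (S.size_le hsz (S.child_lt hi hc).2).1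
    have h2 : ∀ s : Finset ℕ, (∀ c ∈ s, 0 ≤ sz c) →
        √((∑ c ∈ s, sz c : ℤ) : ℝ) ≤ ∑ c ∈ s, √(sz c : ℝ) := by
      intro s
      induction s using Finset.induction_on with
      | empty => intro _; simp
      | insert a s ha ih =>
        intro hs
        rw [Finset.sum_insert ha, Finset.sum_insert ha]
        push_cast
        have e1 : (0 : ℝ) ≤ sz a := by exact_mod_cast hs a (Finset.mem_insert_self _ _)
        have e2 : (0 : ℝ) ≤ ∑ c ∈ s, (sz c : ℝ) := by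
          apply Finset.sum_nonneg
          intro c hc
          exact_mod_cast hs c (Finset.mem_insert_of_mem hc)
        have e3 := ih fun c hc => hs c (Finset.mem_insert_of_mem hc)
        push_cast at e3
        linarith [sqrt_add_le' e1 e2]
    have h3 := h2 _ h1
    have h4 : √(sz i : ℝ) ≤ 1 + √((∑ c ∈ Ico (F i) (F (i + 1)), sz c : ℤ) : ℝ) := by
      rw [hsz i hi]
      push_cast
      have h0 : (0 : ℝ) ≤ ∑ c ∈ Ico (F i) (F (i + 1)), (sz c : ℝ) := by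
        apply Finset.sum_nonneg
        intro c hc
        exact_mod_cast h1 c hc
      have := sqrt_add_le' zero_le_one h0
      rwa [Real.sqrt_one] at this
    linarith
  have h1 : (∑ i ∈ range n, (Rb F sz i : ℝ)) ≤
      ∑ i ∈ range n, (10 + 6 * (∑ c ∈ Ico (F i) (F (i + 1)), √(sz c : ℝ) - √(sz i : ℝ))) := by
    apply Finset.sum_le_sum
    intro i hi
    exact Nat.floor_le (h0 i (Finset.mem_range.mp hi))
  have h2 : ∑ i ∈ range n, (10 + 6 * (∑ c ∈ Ico (F i) (F (i + 1)), √(sz c : ℝ) - √(sz i : ℝ))) =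
      10 * n - 6 * √(sz 0 : ℝ) := by
    rw [Finset.sum_add_distrib, ← Finset.mul_sum, Finset.sum_sub_distrib,
      S.sum_children (fun c => √(sz c : ℝ)) n le_rfl, S.last]
    have e1 : ∑ i ∈ range n, √(sz i : ℝ) = √(sz 0 : ℝ) + ∑ c ∈ Ico 1 n, √(sz c : ℝ) := by
      rw [Finset.range_eq_Ico, Finset.sum_eq_sum_Ico_succ_bot S.pos]
    rw [e1]
    simp
    ring
  have h3 : (∑ i ∈ range n, (Rb F sz i : ℝ)) ≤ 10 * n := by
    rw [h2] at h1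
    linarith [Real.sqrt_nonneg (sz 0 : ℝ)]
  exact_mod_cast h3

end Pool.Agent.Lib_helper87.UM
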