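import Pool.Agent.Lib_helper87.Vertex
import Pool.Agent.Lib_helper87.Pot
set_option autoImplicit false

namespace Pool.Agent.Lib_helper87.UM
open Finset

def sqB : Cmd :=
  .seq (.ite (.var 19) (.smul 8 (.var 13) + .cst 9)
    (.seq (.set 19 (.var 19 + .smul 2 (.var 18) + .cst 1)) (.set 18 (.var 18 + .cst 1))) .skip)
    (.seq (.put 12 (.var 13) (.var 18)) (.put 13 (.var 13) (.var 19)))
def sqC : Cmd :=
  .seq (.set 18 (.cst 4)) (.seq (.set 19 (.cst 16)) (.seq (.set 13 (.cst 0)) (Cmd.for_ 13 0 sqB)))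

theorem sqB1_spec {X : ℤ} {n k R : ℕ} {st : St} (hX : 100 * (n : ℤ) ≤ X) (hkn : (k : ℤ) < n)
    (r1 : 4 ≤ R) (r2 : 8 * (k : ℤ) < (R : ℤ) * R)
    (r3 : ((R : ℤ) - 1) * ((R : ℤ) - 1) ≤ 8 * k + 9) (hvk : st.v 13 = k) (r4 : st.v 18 = R)
    (r5 : st.v 19 = (R : ℤ) * R) :
    Tr X (.ite (.var 19) (.smul 8 (.var 13) + .cst 9)
      (.seq (.set 19 (.var 19 + .smul 2 (.var 18) + .cst 1)) (.set 18 (.var 18 + .cst 1))) .skip) st 4
      (fun s' => ∃ R' : ℕ, SqOK R' k ∧ s'.v 18 = R' ∧ s'.v 19 = (R' : ℤ) * R') := by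
  have r1' : (4 : ℤ) ≤ R := by exact_mod_cast r1
  refine Tr.ite (τ1 := 2) (fun hlt => ?_) (fun hlt => ?_) (by norm_num)
  · simp only [ev_var, ev_add, ev_smul, ev_cst, hvk, r5] at hlt
    have hRR : (R : ℤ) ≤ (R : ℤ) * R := by nlinarith
    refine Tr.setS (τ2 := 1) ?_ ?_ (by norm_num)
    · simp only [ev_add, ev_var, ev_cst, ev_smul, r4, r5]
      rw [abs_le]
      constructor <;> nlinarith
    simp only [ev_add, ev_var, ev_cst, ev_smul, r4, r5]
    refine Tr.set ?_ le_rfl ?_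
    · simp only [ev_add, ev_var, ev_cst, St.setv_v]
      simp only [Nat.reduceEqDiff, if_false, r4]
      rw [abs_le]
      constructor <;> linarith
    simp only [ev_add, ev_var, ev_cst, St.setv_v]
    simp only [Nat.reduceEqDiff, if_false, if_true, r4]
    refine ⟨R + 1, ⟨by omega, ?_, ?_⟩, ?_, ?_⟩
    · push_cast
      nlinarith
    · push_cast
      nlinarith
    · push_cast
      rfl
    · push_cast
      ring
  · simp only [ev_var, ev_add, ev_smul, ev_cst, hvk, r5] at hlt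
    refine Tr.skip ⟨R, ⟨r1, by linarith, r3⟩, r4, r5⟩

theorem sqC_spec {X : ℤ} {n : ℕ} {s : St} (hX : 100 * (n : ℤ) ≤ X) (hn : 1 ≤ n) (h0 : s.v 0 = n) :
    Tr X sqC s (8 * n + 4) (fun s' => ∀ z : ℕ, z < n → ∃ R : ℕ, SqOK R z ∧ s'.m 12 z = R ∧
      s'.m 13 z = (R : ℤ) * R) := by
  have hnZ : (1 : ℤ) ≤ n := by exact_mod_cast hn
  refine Tr.setS (τ2 := 8 * n + 3) (by simp; omega) ?_ (by omega)
  refine Tr.setS (τ2 := 8 * n + 2) (by simp; omega) ?_ (by omega)
  refine Tr.setS (τ2 := 8 * n + 1) (by simp; omega) ?_ (by omega)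
  simp only [ev_cst]
  refine Tr.forFc (by rfl) (by rfl) (by norm_num) (fun k st =>
    (∃ R : ℕ, 4 ≤ R ∧ 8 * (k : ℤ) < (R : ℤ) * R ∧ ((R : ℤ) - 1) * ((R : ℤ) - 1) ≤ 8 * k + 9 ∧
      st.v 18 = R ∧ st.v 19 = (R : ℤ) * R) ∧
    ∀ z : ℕ, z < k → ∃ R : ℕ, SqOK R z ∧ st.m 12 z = R ∧ st.m 13 z = (R : ℤ) * R) 6 0 n
    (by omega) (by omega) (by simp) (by simp [h0]) ?_ ?_ (by omega) ?_
  · refine ⟨⟨4, by norm_num, by norm_num, by norm_num, by simp, by simp⟩, fun z hz => by omega⟩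
  · rintro k st _ hk hvk _ hfv hfm ⟨⟨R, r1, r2, r3, r4, r5⟩, r6⟩
    have hkn : (k : ℤ) < n := by exact_mod_cast hk
    have hk0 : (0 : ℤ) ≤ k := by positivity
    refine Tr.seqF (τ1 := 4) (τ2 := 2) (sqB1_spec (k := k) (n := n) hX hkn r1 r2 r3 hvk r4 r5) ?_
      (by norm_num)
    rintro s2 ⟨R', w1, w2, w3⟩ fv2 fm2
    have g13 : s2.v 13 = k := by rw [fv2 13 rfl, hvk]
    have g12 : s2.m 12 = st.m 12 := fm2 12 rfl
    have g13' : s2.m 13 = st.m 13 := fm2 13 rfl
    obtain ⟨u1, u2, u3⟩ := w1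
    have w4 := SqOK.two_le ⟨u1, u2, u3⟩ hk0 hkn
    have u1' : (4 : ℤ) ≤ R' := by exact_mod_cast u1
    have hRR : (R' : ℤ) ≤ (R' : ℤ) * R' := by nlinarith
    have hRR0 : 0 ≤ (R' : ℤ) * R' := by positivity
    refine Tr.sl ?_ (by decide) ?_
    · simp only [bd_seq, bd_put, exec_put, ev_var, St.setm_v, w2, w3]
      constructor <;> rw [abs_le] <;> constructor <;> linarith
    · simp only [exec_seq, exec_put, ev_var, St.setm_v, g13, w2, w3]
      have hk1 : ((k + 1 : ℕ) : ℤ) = (k : ℤ) + 1 := by push_cast; rfl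
      refine ⟨⟨R', u1, by rw [hk1]; linarith, by rw [hk1]; linarith, ?_, ?_⟩, ?_⟩
      · simp [w2]
      · simp [w3]
      · intro z hz
        rcases Nat.lt_or_ge z k with h | h
        · obtain ⟨R2, q1, q2, q3⟩ := r6 z h
          refine ⟨R2, q1, ?_, ?_⟩
          · simp only [St.setv_m, St.setm_m]
            rw [if_neg (by simp), if_neg (by rintro ⟨_, hh⟩; omega), g12, ← q2]
          · simp only [St.setv_m, St.setm_m]
            rw [if_neg (by rintro ⟨_, hh⟩; omega), if_neg (by simp), g13', ← q3]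
        · have : z = k := by omega
          subst this
          refine ⟨R', ⟨u1, u2, u3⟩, ?_, ?_⟩
          · simp
          · simp
  · intro s' hI _ _ _
    exact hI.2

def childB : Cmd := .seq (.set 13 (.ld 4 (.var 12))) (.seq (.set 17 (.var 17 + .var 13))
  (.ite (.var 14) (.var 13)
    (.seq (.set 15 (.var 14)) (.seq (.set 14 (.var 13)) (.set 16 (.var 12))))
    (.ite (.var 15) (.var 13) (.set 15 (.var 13)) .skip)))
def childC : Cmd := .seq (.set 17 (.cst 1)) (.seq (.set 14 (.cst 0)) (.seq (.set 15 (.cst 0))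
  (.seq (.set 12 (.var 10)) (Cmd.for_ 12 11 childB))))

def HI (sz : ℕ → ℤ) (lo c : ℕ) (m1 m2 hc : ℤ) : Prop :=
  (c = lo → m1 = 0) ∧ (lo < c → ∃ h ∈ Ico lo c, hc = (h : ℤ) ∧ sz h = m1 ∧
    ∀ c' ∈ Ico lo c, c' ≠ h → sz c' ≤ m2)

theorem childC_spec {X : ℤ} {lo hi : ℕ} {sz : ℕ → ℤ} {s : St} (hlohi : lo ≤ hi)
    (h10 : s.v 10 = lo) (h11 : s.v 11 = hi) (hX : (hi : ℤ) ≤ X) (h1X : 1 ≤ X)
    (h4 : ∀ c ∈ Ico lo hi, s.m 4 c = sz c) (hsz : ∀ c ∈ Ico lo hi, 1 ≤ sz c)
    (hT : ∑ c ∈ Ico lo hi, sz c + 1 ≤ X) :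
    Tr X childC s (10 * (hi - lo) + 5) (fun s' => s'.v 17 = 1 + ∑ c ∈ Ico lo hi, sz c ∧
      ∃ m1 m2 : ℤ, s'.v 15 = m2 ∧
        PotI (∑ c ∈ Ico lo hi, sz c) m1 m2 (∑ c ∈ Ico lo hi, √(sz c : ℝ)) ∧
        HI sz lo hi m1 m2 (s'.v 16)) := by
  have hps : ∀ c, lo ≤ c → c ≤ hi → ∑ i ∈ Ico lo c, sz i ≤ ∑ c ∈ Ico lo hi, sz c ∧
      0 ≤ ∑ i ∈ Ico lo c, sz i := by
    intro c hc1 hc2
    have hsub : Ico lo c ⊆ Ico lo hi := Finset.Ico_subset_Ico le_rfl hc2
    refine ⟨Finset.sum_le_sum_of_subset_of_nonneg hsub fun i hi' _ => ?_, Finset.sum_nonneg fun i hi' => ?_⟩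
    · have := hsz i hi'
      omega
    · have := hsz i (hsub hi')
      omega
  refine Tr.setS (τ2 := 10 * (hi - lo) + 4) (by simpa using h1X) ?_ (by omega)
  refine Tr.setS (τ2 := 10 * (hi - lo) + 3) (by simp; omega) ?_ (by omega)
  refine Tr.setS (τ2 := 10 * (hi - lo) + 2) (by simp; omega) ?_ (by omega)
  refine Tr.setS (τ2 := 10 * (hi - lo) + 1) (by simp [h10]; omega) ?_ (by omega)
  simp only [ev_cst, ev_var, St.setv_v]
  simp only [Nat.reduceEqDiff, if_false, h10]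
  refine Tr.forFc (by rfl) (by rfl) (by norm_num) (fun k st =>
    st.v 17 = 1 + ∑ c ∈ Ico lo k, sz c ∧
      ∃ m1 m2 : ℤ, st.v 14 = m1 ∧ st.v 15 = m2 ∧
        PotI (∑ c ∈ Ico lo k, sz c) m1 m2 (∑ c ∈ Ico lo k, √(sz c : ℝ)) ∧
        HI sz lo k m1 m2 (st.v 16)) 8 lo hi
    hlohi hX (by simp) (by simp [h11]) ?_ ?_ (by omega) ?_
  · refine ⟨by simp, 0, 0, by simp, by simp, ?_, ?_⟩
    · simpa using PotI.init
    · exact ⟨fun _ => rfl, fun h => absurd h (lt_irrefl _)⟩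
  · rintro k st hk1 hk hvk _ hfv hfm ⟨r1, m1, m2, r2, r3, r4, r5, r6⟩
    have f4 : st.m 4 = s.m 4 := by rw [hfm 4 rfl]; simp
    have hkm : k ∈ Ico lo hi := Finset.mem_Ico.mpr ⟨hk1, hk⟩
    have hz : st.m 4 k = sz k := by rw [f4, h4 k hkm]
    have hz1 := hsz k hkm
    have hsum : ∑ c ∈ Ico lo (k + 1), sz c = ∑ c ∈ Ico lo k, sz c + sz k :=
      Finset.sum_Ico_succ_top hk1 _
    have hsumR : ∑ c ∈ Ico lo (k + 1), √(sz c : ℝ) = ∑ c ∈ Ico lo k, √(sz c : ℝ) + √(sz k : ℝ) :=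
      Finset.sum_Ico_succ_top hk1 _
    obtain ⟨p1, p2⟩ := hps k hk1 hk.le
    obtain ⟨p3, p4⟩ := hps (k + 1) (by omega) hk
    rw [hsum] at p3 p4
    have r4' := r4
    obtain ⟨q1, q2, q3, _, _⟩ := r4'
    have hkX : (k : ℤ) ≤ X := by
      have : (k : ℤ) < hi := by exact_mod_cast hk
      omega
    have hk0 : (0 : ℤ) ≤ k := by positivity
    refine Tr.setS (τ2 := 7) ?_ ?_ (by norm_num)
    · simp only [ev_ld, ev_var, hvk, hz]
      rw [abs_le]; constructor <;> omega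
    simp only [ev_ld, ev_var, hvk, hz]
    refine Tr.setS (τ2 := 6) ?_ ?_ (by norm_num)
    · simp only [ev_add, ev_var, St.setv_v, r1]
      simp only [Nat.reduceEqDiff, if_false, if_true, r1]
      rw [abs_le]; constructor <;> omega
    simp only [ev_add, ev_var, St.setv_v, r1]
    simp only [Nat.reduceEqDiff, if_false, if_true, r1]
    refine Tr.ite (τ1 := 5) (fun hlt => ?_) (fun hlt => ?_) (by norm_num)
    · simp only [ev_var, St.setv_v] at hlt
      simp only [Nat.reduceEqDiff, if_false, if_true, r2] at hlt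
      refine Tr.sl ?_ (by decide) ?_
      · simp only [bd_seq, bd_set, exec_set, ev_var, St.setv_v]
        simp only [Nat.reduceEqDiff, if_false, if_true, r2, hvk]
        refine ⟨?_, ?_, ?_⟩ <;> rw [abs_le] <;> constructor <;> omega
      · simp only [exec_seq, exec_set, ev_var, St.setv_v]
        simp only [Nat.reduceEqDiff, if_false, if_true, r2, hvk, r1]
        refine ⟨by rw [hsum]; ring, sz k, m1, rfl, rfl, ?_, ?_⟩
        · rw [hsum, hsumR]; exact r4.step1 hlt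
        · refine ⟨fun h => by omega, fun _ => ⟨k, by rw [Finset.mem_Ico]; omega, rfl, rfl, ?_⟩⟩
          intro c' hc' hne
          rw [Finset.mem_Ico] at hc'
          obtain ⟨h, hh1, hh2, hh3, hh4⟩ := r6 (by omega)
          rcases eq_or_ne c' h with h' | h'
          · rw [h', hh3]
          · exact (hh4 c' (by rw [Finset.mem_Ico]; omega) h').trans q2
    · simp only [ev_var, St.setv_v] at hlt
      simp only [Nat.reduceEqDiff, if_false, if_true, r2] at hlt
      have hlok : lo < k := by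
        rcases Nat.lt_or_ge lo k with h | h
        · exact h
        · have : k = lo := by omega
          have := r5 this
          omega
      obtain ⟨h, hh1, hh2, hh3, hh4⟩ := r6 hlok
      refine Tr.ite (τ1 := 4) (fun hlt2 => ?_) (fun hlt2 => ?_) (by norm_num)
      · simp only [ev_var, St.setv_v] at hlt2
        simp only [Nat.reduceEqDiff, if_false, if_true, r3] at hlt2
        refine Tr.sl ?_ (by decide) ?_
        · simp only [bd_set, ev_var, St.setv_v]
          simp only [Nat.reduceEqDiff, if_false, if_true]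
          rw [abs_le]; constructor <;> omega
        · simp only [exec_set, ev_var, St.setv_v]
          simp only [Nat.reduceEqDiff, if_false, if_true, r2]
          refine ⟨by rw [hsum]; ring, m1, sz k, rfl, rfl, ?_, ?_⟩
          · rw [hsum, hsumR]; exact r4.step2 hlt2 (by omega)
          · refine ⟨fun h => by omega, fun _ => ⟨h, by rw [Finset.mem_Ico] at hh1 ⊢; omega, hh2, hh3, ?_⟩⟩
            intro c' hc' hne
            rw [Finset.mem_Ico] at hc'
            rcases Nat.lt_or_ge c' k with h' | h'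
            · exact (hh4 c' (by rw [Finset.mem_Ico]; omega) hne).trans hlt2.le
            · have : c' = k := by omega
              rw [this]
      · simp only [ev_var, St.setv_v] at hlt2
        simp only [Nat.reduceEqDiff, if_false, if_true, r3] at hlt2
        refine Tr.skip ?_
        simp only [St.setv_v]
        simp only [Nat.reduceEqDiff, if_false, if_true, r2, r3]
        refine ⟨by rw [hsum]; ring, m1, m2, rfl, rfl, ?_, ?_⟩
        · rw [hsum, hsumR]; exact r4.step3 (by omega)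
        · refine ⟨fun h => by omega, fun _ => ⟨h, by rw [Finset.mem_Ico] at hh1 ⊢; omega, hh2, hh3, ?_⟩⟩
          intro c' hc' hne
          rw [Finset.mem_Ico] at hc'
          rcases Nat.lt_or_ge c' k with h' | h'
          · exact hh4 c' (by rw [Finset.mem_Ico]; omega) hne
          · have : c' = k := by omega
            rw [this]; omega
  · rintro s' ⟨r1, m1, m2, r2, r3, r4, r5⟩ _ _ _
    exact ⟨r1, m1, m2, r3, r4, r5⟩

end Pool.Agent.Lib_helper87.UM
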