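import Pool.Agent.Lib_helper87.Lang
set_option autoImplicit false

/-! # Translation of the structured language to the word RAM -/

namespace Pool.Agent.Lib_helper87.UM

/-- growth factor of an expression -/
def Expr.nd : Expr → ℕ
  | .var _ => 1
  | .cst k => k.natAbs + 1
  | .add a b => a.nd + b.nd
  | .sub a b => a.nd + b.nd
  | .smul k a => (k.natAbs + 1) * a.nd
  | .div a b => a.nd + b.nd
  | .mx a b => a.nd + b.nd
  | .ld _ i => 16 * i.nd + 16
  | .cond a b c d => a.nd + b.nd + c.nd + d.nd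

/-- code length -/
def Expr.len : Expr → ℕ
  | .var _ => 1
  | .cst _ => 1
  | .add a b => a.len + b.len + 1
  | .sub a b => a.len + b.len + 1
  | .smul _ a => a.len + 2
  | .div a b => a.len + b.len + 1
  | .mx a b => a.len + b.len + 2
  | .ld _ i => i.len + 5
  | .cond a b c d => a.len + b.len + 1 + d.len + 1 + c.len

/-- Code for an expression, with result in register `2 * t + 1`. -/
def compE : Expr → ℕ → ℕ → List Instr
  | .var x, t, _ => [.mov (2 * t + 1) (2 * x)]
  | .cst k, t, _ => [.const (2 * t + 1) k]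
  | .add a b, t, pc => compE a t pc ++ compE b (t + 1) (pc + a.len) ++
      [.add (2 * t + 1) (2 * t + 1) (2 * (t + 1) + 1)]
  | .sub a b, t, pc => compE a t pc ++ compE b (t + 1) (pc + a.len) ++
      [.sub (2 * t + 1) (2 * t + 1) (2 * (t + 1) + 1)]
  | .smul k a, t, pc => compE a t pc ++
      [.const (2 * (t + 1) + 1) k, .mul (2 * t + 1) (2 * (t + 1) + 1) (2 * t + 1)]
  | .div a b, t, pc => compE a t pc ++ compE b (t + 1) (pc + a.len) ++
      [.div (2 * t + 1) (2 * t + 1) (2 * (t + 1) + 1)]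
  | .mx a b, t, pc => compE a t pc ++ compE b (t + 1) (pc + a.len) ++
      [.jlt (2 * (t + 1) + 1) (2 * t + 1) (pc + a.len + b.len + 2),
        .mov (2 * t + 1) (2 * (t + 1) + 1)]
  | .ld a i, t, pc => compE i t pc ++
      [.const (2 * (t + 1) + 1) 16, .mul (2 * t + 1) (2 * (t + 1) + 1) (2 * t + 1),
        .const (2 * (t + 1) + 1) ((a : ℕ) : ℤ), .add (2 * t + 1) (2 * t + 1) (2 * (t + 1) + 1),
        .load (2 * t + 1) (2 * t + 1)]
  | .cond a b c d, t, pc => compE a t pc ++ compE b (t + 1) (pc + a.len) ++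
      (.jlt (2 * t + 1) (2 * (t + 1) + 1) (pc + a.len + b.len + 1 + d.len + 1) ::
      (compE d t (pc + a.len + b.len + 1) ++
      (.jmp (pc + a.len + b.len + 1 + d.len + 1 + c.len) ::
      compE c t (pc + a.len + b.len + 1 + d.len + 1))))

lemma compE_length (e : Expr) : ∀ t pc, (compE e t pc).length = e.len := by
  induction e with
  | var x => intro t pc; rfl
  | cst k => intro t pc; rfl
  | add a b iha ihb => intro t pc; simp [compE, Expr.len, iha, ihb]; omega
  | sub a b iha ihb => intro t pc; simp [compE, Expr.len, iha, ihb]; omega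
  | smul k a iha => intro t pc; simp [compE, Expr.len, iha]
  | div a b iha ihb => intro t pc; simp [compE, Expr.len, iha, ihb]; omega
  | mx a b iha ihb => intro t pc; simp [compE, Expr.len, iha, ihb]; omega
  | ld a i ih => intro t pc; simp [compE, Expr.len, ih]
  | cond a b c d iha ihb ihc ihd => intro t pc; simp [compE, Expr.len, iha, ihb, ihc, ihd]; omega

/-- `c` occurs in `P` at position `pc` -/
def CodeAt (P : List Instr) (pc : ℕ) (l : List Instr) : Prop :=
  ∀ i, i < l.length → P[pc + i]? = l[i]?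

lemma CodeAt.left {P c d : List Instr} {pc : ℕ} (h : CodeAt P pc (c ++ d)) : CodeAt P pc c := by
  intro i hi
  rw [h i (by simp; omega), List.getElem?_append_left hi]

lemma CodeAt.right {P c d : List Instr} {pc : ℕ} (h : CodeAt P pc (c ++ d)) :
    CodeAt P (pc + c.length) d := by
  intro i hi
  have := h (c.length + i) (by simp; omega)
  rw [List.getElem?_append_right (by omega)] at this
  rw [Nat.add_assoc, this]
  congr 1
  omega

lemma CodeAt.head {P d : List Instr} {a : Instr} {pc : ℕ} (h : CodeAt P pc (a :: d)) :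
    P[pc]? = some a := by
  have := h 0 (by simp)
  simpa using this

lemma CodeAt.tail {P d : List Instr} {a : Instr} {pc : ℕ} (h : CodeAt P pc (a :: d)) :
    CodeAt P (pc + 1) d := by
  intro i hi
  have := h (i + 1) (by simp; omega)
  rw [List.getElem?_cons_succ] at this
  rw [← this]
  congr 1
  omega

/-- `c'` is reached from `c` in exactly `k` steps -/
def Reach (B : ℤ) (P : List Instr) (c : Config) (k : ℕ) (c' : Config) : Prop := run B P k c = some c'

lemma run_add (B : ℤ) (P : List Instr) (j k : ℕ) (c : Config) :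
    run B P (j + k) c = (run B P j c).bind (run B P k) := by
  induction j generalizing c with
  | zero => simp [run]
  | succ j ih =>
    rw [show j + 1 + k = (j + k) + 1 by omega]
    simp only [run]
    cases h : step B P c with
    | none => rfl
    | some c' => simp [ih]

lemma Reach.trans {B : ℤ} {P : List Instr} {c c' c'' : Config} {j k : ℕ} (h : Reach B P c j c')
    (h' : Reach B P c' k c'') : Reach B P c (j + k) c'' := by
  unfold Reach at *
  rw [run_add, h]
  exact h'

lemma Reach.refl {B : ℤ} {P : List Instr} (c : Config) : Reach B P c 0 c := rfl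

lemma Reach.one {B : ℤ} {P : List Instr} {c c' : Config} (h : step B P c = some c') :
    Reach B P c 1 c' := by
  unfold Reach
  simp [run, h]

lemma write_some {B : ℤ} {c : Config} {d : ℕ} {z : ℤ} (h : |z| ≤ B) :
    c.write B d z = some ⟨c.pc + 1, Function.update c.reg d z, c.mem⟩ := by
  unfold Config.write; rw [if_pos h]

/-- simulation relation -/
structure Rel (s : St) (c : Config) : Prop where
  reg : ∀ x, c.reg (2 * x) = s.v x
  mem : ∀ (a : Fin 16) (i : ℤ), c.mem (16 * i + ((a : ℕ) : ℤ)) = s.m a i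

/-- bounded states -/
def BV (X : ℤ) (s : St) : Prop := (∀ x, |s.v x| ≤ X) ∧ (∀ a i, |s.m a i| ≤ X)

lemma nd_pos (e : Expr) : 1 ≤ e.nd := by
  induction e with
  | var x => simp [Expr.nd]
  | cst k => simp [Expr.nd]
  | add a b iha ihb => simp [Expr.nd]; omega
  | sub a b iha ihb => simp [Expr.nd]; omega
  | smul k a iha => exact Nat.mul_pos (Nat.succ_pos _) iha
  | div a b iha ihb => simp [Expr.nd]; omega
  | mx a b iha ihb => simp [Expr.nd]; omega
  | ld a i ih => simp [Expr.nd]
  | cond a b c d iha ihb ihc ihd => simp [Expr.nd]; omega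

lemma eval_le {X : ℤ} (hX : 1 ≤ X) {s : St} (hs : BV X s) (e : Expr) : |e.eval s| ≤ e.nd * X := by
  induction e with
  | var x => simpa [Expr.nd, Expr.eval] using hs.1 x
  | cst k =>
    simp only [Expr.nd, Expr.eval]
    push_cast
    have := abs_nonneg k
    nlinarith
  | add a b iha ihb =>
    simp only [Expr.nd, Expr.eval]
    push_cast
    have := abs_add_le (a.eval s) (b.eval s)
    linarith
  | sub a b iha ihb =>
    simp only [Expr.nd, Expr.eval]
    push_cast
    have := abs_sub (a.eval s) (b.eval s)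
    linarith
  | smul k a iha =>
    simp only [Expr.nd, Expr.eval, abs_mul]
    push_cast
    have h1 := abs_nonneg k
    have h2 := abs_nonneg (a.eval s)
    nlinarith [mul_le_mul_of_nonneg_left iha h1]
  | div a b iha ihb =>
    simp only [Expr.nd, Expr.eval]
    push_cast
    have h1 : |a.eval s / b.eval s| ≤ |a.eval s| := Int.abs_ediv_le_abs _ _
    have h2 := (abs_nonneg (b.eval s)).trans ihb
    linarith
  | mx a b iha ihb =>
    simp only [Expr.nd, Expr.eval]
    push_cast
    have h1 := (abs_nonneg (a.eval s)).trans iha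
    have h2 := (abs_nonneg (b.eval s)).trans ihb
    rcases max_cases (a.eval s) (b.eval s) with ⟨e, _⟩ | ⟨e, _⟩ <;> rw [e] <;> linarith
  | ld a i ih =>
    simp only [Expr.nd, Expr.eval]
    push_cast
    have := hs.2 a (i.eval s)
    have h1 : (0 : ℤ) ≤ i.nd := by positivity
    nlinarith
  | cond a b c d iha ihb ihc ihd =>
    simp only [Expr.nd, Expr.eval]
    push_cast
    have h1 := (abs_nonneg (a.eval s)).trans iha
    have h2 := (abs_nonneg (b.eval s)).trans ihb
    have h3 := (abs_nonneg (c.eval s)).trans ihc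
    have h4 := (abs_nonneg (d.eval s)).trans ihd
    split_ifs <;> linarith

/-- result of running expression code -/
def EOut (B : ℤ) (P : List Instr) (s : St) (c : Config) (t pc len : ℕ) (z : ℤ) : Prop :=
  ∃ k c', k ≤ len ∧ Reach B P c k c' ∧ c'.pc = pc + len ∧ Rel s c' ∧ c'.reg (2 * t + 1) = z ∧
    (∀ t' < t, c'.reg (2 * t' + 1) = c.reg (2 * t' + 1)) ∧ c'.mem = c.mem

lemma Rel.wr {s : St} {c : Config} (h : Rel s c) (t : ℕ) (z : ℤ) (pc : ℕ) :
    Rel s ⟨pc, Function.update c.reg (2 * t + 1) z, c.mem⟩ := by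
  refine ⟨fun x => ?_, h.mem⟩
  simp only
  rw [Function.update_of_ne (by omega)]
  exact h.reg x

/-- finishing with a write to the target register -/
lemma EOut.fin {B : ℤ} {P : List Instr} {s : St} {c c' : Config} {t pc : ℕ} {z : ℤ} {k len : ℕ}
    (hk : k ≤ len)
    (h : Reach B P c k c') (hpc : c'.pc = pc + len) (hr : Rel s c')
    (hold : ∀ t' < t, c'.reg (2 * t' + 1) = c.reg (2 * t' + 1)) (hm : c'.mem = c.mem)
    (hstep : step B P c' = c'.write B (2 * t + 1) z) (hz : |z| ≤ B) :
    EOut B P s c t pc (len + 1) z := by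
  refine ⟨k + 1, _, by omega, h.trans (Reach.one (hstep.trans (write_some hz))), ?_, hr.wr t z _, ?_,
    ?_, hm⟩
  · simp only [hpc]; omega
  · simp
  · intro t' ht'
    simp only
    rw [Function.update_of_ne (by omega)]
    exact hold t' ht'

theorem compE_correct {B X : ℤ} {P : List Instr} (hX : 1 ≤ X) {s : St} (hs : BV X s) (e : Expr) :
    ∀ (t pc : ℕ) (c : Config), (e.nd : ℤ) * X ≤ B → CodeAt P pc (compE e t pc) → c.pc = pc →
      Rel s c → EOut B P s c t pc e.len (e.eval s) := by
  have hX0 : 0 ≤ X := by omega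
  -- two operands
  have two : ∀ (a b : Expr) (t pc : ℕ) (c : Config) (rest : List Instr),
      (∀ (t pc : ℕ) (c : Config), (a.nd : ℤ) * X ≤ B → CodeAt P pc (compE a t pc) → c.pc = pc →
        Rel s c → EOut B P s c t pc a.len (a.eval s)) →
      (∀ (t pc : ℕ) (c : Config), (b.nd : ℤ) * X ≤ B → CodeAt P pc (compE b t pc) → c.pc = pc →
        Rel s c → EOut B P s c t pc b.len (b.eval s)) →
      ((a.nd + b.nd : ℕ) : ℤ) * X ≤ B →
      CodeAt P pc (compE a t pc ++ compE b (t + 1) (pc + a.len) ++ rest) → c.pc = pc → Rel s c →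
      ∃ k c', k ≤ a.len + b.len ∧ Reach B P c k c' ∧ c'.pc = pc + (a.len + b.len) ∧ Rel s c' ∧
        c'.reg (2 * t + 1) = a.eval s ∧ c'.reg (2 * (t + 1) + 1) = b.eval s ∧
        (∀ t' < t, c'.reg (2 * t' + 1) = c.reg (2 * t' + 1)) ∧ c'.mem = c.mem ∧
        CodeAt P (pc + (a.len + b.len)) rest := by
    intro a b t pc c rest iha ihb hB hcode hpc hrel
    have ha : (a.nd : ℤ) * X ≤ B := by
      push_cast at hB
      have : (0 : ℤ) ≤ b.nd := by positivity
      nlinarith
    have hb : (b.nd : ℤ) * X ≤ B := by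
      push_cast at hB
      have : (0 : ℤ) ≤ a.nd := by positivity
      nlinarith
    obtain ⟨k1, c1, a1, a2, a3, a4, a5, a6, a7⟩ := iha t pc c ha hcode.left.left hpc hrel
    have hc2 := hcode.left.right
    rw [compE_length] at hc2
    obtain ⟨k2, c2, b1, b2, b3, b4, b5, b6, b7⟩ := ihb (t + 1) (pc + a.len) c1 hb hc2 a3 a4
    have hc3 := hcode.right
    rw [List.length_append, compE_length, compE_length] at hc3
    refine ⟨k1 + k2, c2, by omega, a2.trans b2, by rw [b3]; omega, b4, ?_, b5, ?_, b7.trans a7, hc3⟩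
    · rw [b6 t (by omega), a5]
    · intro t' ht'
      rw [b6 t' (by omega), a6 t' ht']
  induction e with
  | var x =>
    intro t pc c hB hcode hpc hrel
    have hP := hcode.head
    have hz : |s.v x| ≤ B := (hs.1 x).trans (by simpa [Expr.nd] using hB)
    refine EOut.fin (len := 0) le_rfl (Reach.refl c) hpc hrel (fun _ _ => rfl) rfl ?_ hz
    simp [step, hpc, hP, hrel.reg, Expr.eval]
  | cst k =>
    intro t pc c hB hcode hpc hrel
    have hP := hcode.head
    have hz : |k| ≤ B := by
      simp only [Expr.nd] at hB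
      push_cast at hB
      have := abs_nonneg k
      nlinarith
    refine EOut.fin (len := 0) le_rfl (Reach.refl c) hpc hrel (fun _ _ => rfl) rfl ?_ hz
    simp [step, hpc, hP, Expr.eval]
  | add a b iha ihb =>
    intro t pc c hB hcode hpc hrel
    obtain ⟨k, c', h1, h2, h3, h4, h5, h6, h7, h8, h9⟩ := two a b t pc c _ iha ihb hB hcode hpc hrel
    refine EOut.fin h1 h2 h3 h4 h7 h8 ?_ ((eval_le hX hs (.add a b)).trans hB)
    simp [step, h3, h9.head, h5, h6, Expr.eval]
  | sub a b iha ihb =>
    intro t pc c hB hcode hpc hrel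
    obtain ⟨k, c', h1, h2, h3, h4, h5, h6, h7, h8, h9⟩ := two a b t pc c _ iha ihb hB hcode hpc hrel
    refine EOut.fin h1 h2 h3 h4 h7 h8 ?_ ((eval_le hX hs (.sub a b)).trans hB)
    simp [step, h3, h9.head, h5, h6, Expr.eval]
  | div a b iha ihb =>
    intro t pc c hB hcode hpc hrel
    obtain ⟨k, c', h1, h2, h3, h4, h5, h6, h7, h8, h9⟩ := two a b t pc c _ iha ihb hB hcode hpc hrel
    refine EOut.fin h1 h2 h3 h4 h7 h8 ?_ ((eval_le hX hs (.div a b)).trans hB)
    simp [step, h3, h9.head, h5, h6, Expr.eval]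
  | smul k a iha =>
    intro t pc c hB hcode hpc hrel
    have hfin := (eval_le hX hs (.smul k a)).trans hB
    have hB' : (a.nd : ℤ) * X ≤ B := by
      simp only [Expr.nd] at hB
      push_cast at hB
      have h1 := abs_nonneg k
      have : (0 : ℤ) ≤ a.nd := by positivity
      have := mul_nonneg (mul_nonneg h1 this) hX0
      nlinarith
    have hk : |k| ≤ B := by
      simp only [Expr.nd] at hB
      push_cast at hB
      have h1 := abs_nonneg k
      have : (1 : ℤ) ≤ a.nd := by exact_mod_cast nd_pos a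
      have e1 : (|k| + 1) * 1 ≤ (|k| + 1) * (a.nd : ℤ) := by gcongr
      have e2 : (|k| + 1) * (a.nd : ℤ) * 1 ≤ (|k| + 1) * (a.nd : ℤ) * X := by gcongr
      linarith
    obtain ⟨k1, c1, a1, a2, a3, a4, a5, a6, a7⟩ := iha t pc c hB' hcode.left hpc hrel
    have hc := hcode.right
    rw [compE_length] at hc
    have st1 : step B P c1 = some ⟨c1.pc + 1, Function.update c1.reg (2 * (t + 1) + 1) k, c1.mem⟩ := by
      simp [step, a3, hc.head, write_some hk]
    refine EOut.fin (len := a.len + 1) (k := k1 + 1) (by omega) (a2.trans (Reach.one st1)) ?_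
      (a4.wr _ _ _) ?_ a7 ?_ hfin
    · simp only [a3]; omega
    · intro t' ht'
      simp only
      rw [Function.update_of_ne (by omega)]
      exact a6 t' ht'
    · have := hc.tail.head
      simp only [step, a3, this, Expr.eval]
      rw [Function.update_self, Function.update_of_ne (by omega), a5]
  | mx a b iha ihb =>
    intro t pc c hB hcode hpc hrel
    obtain ⟨k, c', h1, h2, h3, h4, h5, h6, h7, h8, h9⟩ := two a b t pc c _ iha ihb hB hcode hpc hrel
    have hfin := (eval_le hX hs (.mx a b)).trans hB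
    by_cases hlt : b.eval s < a.eval s
    · refine ⟨k + 1, ⟨pc + a.len + b.len + 2, c'.reg, c'.mem⟩, by simp only [Expr.len]; omega,
        h2.trans (Reach.one ?_), by simp only [Expr.len]; omega, ⟨h4.reg, h4.mem⟩, ?_, h7, h8⟩
      · simp [step, h3, h9.head, h5, h6, hlt]
      · simp [h5, Expr.eval, max_eq_left hlt.le]
    · have st1 : step B P c' = some ⟨c'.pc + 1, c'.reg, c'.mem⟩ := by
        simp [step, h3, h9.head, h5, h6, hlt]
      refine EOut.fin (len := a.len + b.len + 1) (k := k + 1) (by omega) (h2.trans (Reach.one st1))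
        ?_ ⟨h4.reg, h4.mem⟩ h7 h8 ?_ hfin
      · simp only [h3]; omega
      · have := h9.tail.head
        simp only [step, h3, this, Expr.eval, h6]
        rw [max_eq_right (not_lt.mp hlt)]
  | ld a i ih =>
    intro t pc c hB hcode hpc hrel
    have hi : (0 : ℤ) ≤ i.nd := by positivity
    have hB' : (i.nd : ℤ) * X ≤ B := by
      simp only [Expr.nd] at hB
      push_cast at hB
      nlinarith [mul_nonneg hi hX0]
    have hiX := mul_nonneg hi hX0
    have hB16 : 16 * ((i.nd : ℤ) * X) + 16 ≤ B := by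
      simp only [Expr.nd] at hB
      push_cast at hB
      nlinarith
    have ha16 : ((a : ℕ) : ℤ) < 16 := by exact_mod_cast a.isLt
    have ha0 : (0 : ℤ) ≤ ((a : ℕ) : ℤ) := by positivity
    have hev := eval_le hX hs i
    rw [abs_le] at hev
    obtain ⟨k1, c1, a1, a2, a3, a4, a5, a6, a7⟩ := ih t pc c hB' hcode.left hpc hrel
    have hc := hcode.right
    rw [compE_length] at hc
    have st1 : step B P c1 = some ⟨c1.pc + 1, Function.update c1.reg (2 * (t + 1) + 1) 16, c1.mem⟩ := by
      simp [step, a3, hc.head, write_some (show |(16 : ℤ)| ≤ B by rw [abs_of_pos (by norm_num)]; omega)]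
    set c2 : Config := ⟨c1.pc + 1, Function.update c1.reg (2 * (t + 1) + 1) 16, c1.mem⟩ with hc2
    have c2pc : c2.pc = pc + i.len + 1 := by simp only [hc2, a3]
    have st2 : step B P c2 = some ⟨c2.pc + 1, Function.update c2.reg (2 * t + 1) (16 * i.eval s), c2.mem⟩ := by
      have e1 : c2.reg (2 * (t + 1) + 1) = 16 := by simp [hc2]
      have e2 : c2.reg (2 * t + 1) = i.eval s := by
        simp only [hc2]; rw [Function.update_of_ne (by omega), a5]
      simp only [step, c2pc, hc.tail.head, e1, e2]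
      rw [write_some (show |16 * i.eval s| ≤ B by rw [abs_le]; constructor <;> linarith), c2pc]
    set c3 : Config := ⟨c2.pc + 1, Function.update c2.reg (2 * t + 1) (16 * i.eval s), c2.mem⟩ with hc3
    have c3pc : c3.pc = pc + i.len + 1 + 1 := by simp only [hc3, c2pc]
    have st3 : step B P c3 = some ⟨c3.pc + 1, Function.update c3.reg (2 * (t + 1) + 1) ((a : ℕ) : ℤ), c3.mem⟩ := by
      simp only [step, c3pc, hc.tail.tail.head]
      rw [write_some (show |((a : ℕ) : ℤ)| ≤ B by rw [abs_of_nonneg ha0]; omega), c3pc]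
    set c4 : Config := ⟨c3.pc + 1, Function.update c3.reg (2 * (t + 1) + 1) ((a : ℕ) : ℤ), c3.mem⟩ with hc4
    have c4pc : c4.pc = pc + i.len + 1 + 1 + 1 := by simp only [hc4, c3pc]
    have st4 : step B P c4 = some ⟨c4.pc + 1, Function.update c4.reg (2 * t + 1)
        (16 * i.eval s + ((a : ℕ) : ℤ)), c4.mem⟩ := by
      have e1 : c4.reg (2 * (t + 1) + 1) = ((a : ℕ) : ℤ) := by simp [hc4]
      have e2 : c4.reg (2 * t + 1) = 16 * i.eval s := by
        simp only [hc4]; rw [Function.update_of_ne (by omega)]; simp [hc3]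
      simp only [step, c4pc, hc.tail.tail.tail.head, e1, e2]
      rw [write_some (show |16 * i.eval s + ((a : ℕ) : ℤ)| ≤ B by
        rw [abs_le]; constructor <;> linarith), c4pc]
    set c5 : Config := ⟨c4.pc + 1, Function.update c4.reg (2 * t + 1)
        (16 * i.eval s + ((a : ℕ) : ℤ)), c4.mem⟩ with hc5
    have c5pc : c5.pc = pc + i.len + 1 + 1 + 1 + 1 := by simp only [hc5, c4pc]
    have hr5 : Rel s c5 := (((a4.wr _ _ _).wr _ _ _).wr _ _ _).wr _ _ _
    have hfin := (eval_le hX hs (.ld a i)).trans hB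
    refine EOut.fin (len := i.len + 4) (k := k1 + 1 + 1 + 1 + 1) (by omega)
      ((((a2.trans (Reach.one st1)).trans (Reach.one st2)).trans (Reach.one st3)).trans
        (Reach.one st4)) ?_ hr5 ?_ ?_ ?_ hfin
    · rw [c5pc]; omega
    · intro t' ht'
      simp only [hc5, hc4, hc3, hc2]
      rw [Function.update_of_ne (by omega), Function.update_of_ne (by omega),
        Function.update_of_ne (by omega), Function.update_of_ne (by omega)]
      exact a6 t' ht'
    · exact a7
    · have e1 : c5.reg (2 * t + 1) = 16 * i.eval s + ((a : ℕ) : ℤ) := by simp [hc5]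
      simp only [step, c5pc, hc.tail.tail.tail.tail.head, e1, Expr.eval, hr5.mem]
  | cond a b c' d iha ihb ihc ihd =>
    intro t pc c hB hcode hpc hrel
    have n1 : (0 : ℤ) ≤ a.nd := by positivity
    have n2 : (0 : ℤ) ≤ b.nd := by positivity
    have n3 : (0 : ℤ) ≤ c'.nd := by positivity
    have n4 : (0 : ℤ) ≤ d.nd := by positivity
    have m1 := mul_nonneg n1 hX0
    have m2 := mul_nonneg n2 hX0
    have m3 := mul_nonneg n3 hX0
    have m4 := mul_nonneg n4 hX0
    have hBs : (a.nd : ℤ) * X + (b.nd : ℤ) * X + (c'.nd : ℤ) * X + (d.nd : ℤ) * X ≤ B := by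
      simp only [Expr.nd] at hB
      push_cast at hB
      linarith
    have hB2 : ((a.nd + b.nd : ℕ) : ℤ) * X ≤ B := by push_cast; linarith
    obtain ⟨k, c1, h1, h2, h3, h4, h5, h6, h7, h8, h9⟩ := two a b t pc c _ iha ihb hB2 hcode hpc hrel
    by_cases hlt : a.eval s < b.eval s
    · have hc2 := h9.tail.right.tail
      rw [compE_length] at hc2
      have hpos : pc + (a.len + b.len) + 1 + d.len + 1 = pc + a.len + b.len + 1 + d.len + 1 := by omega
      rw [hpos] at hc2
      obtain ⟨k2, c2, b1, b2, b3, b4, b5, b6, b7⟩ := ihc t (pc + a.len + b.len + 1 + d.len + 1)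
        ⟨pc + a.len + b.len + 1 + d.len + 1, c1.reg, c1.mem⟩ (by linarith) hc2 rfl ⟨h4.reg, h4.mem⟩
      refine ⟨k + 1 + k2, c2, by simp only [Expr.len]; omega, (h2.trans (Reach.one ?_)).trans b2, ?_,
        b4, ?_, ?_, ?_⟩
      · simp [step, h3, h9.head, h5, h6, hlt]
      · rw [b3]; simp only [Expr.len]; omega
      · simp [b5, Expr.eval, hlt]
      · intro t' ht'
        rw [b6 t' ht']
        exact h7 t' ht'
      · rw [b7]; exact h8
    · have hc2 := h9.tail.left
      have hc3 := h9.tail.right.head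
      rw [compE_length] at hc3
      have hpos : pc + (a.len + b.len) + 1 = pc + a.len + b.len + 1 := by omega
      rw [hpos] at hc2 hc3
      obtain ⟨k2, c2, b1, b2, b3, b4, b5, b6, b7⟩ := ihd t (pc + a.len + b.len + 1)
        ⟨c1.pc + 1, c1.reg, c1.mem⟩ (by linarith) hc2 (by simp only [h3]; omega) ⟨h4.reg, h4.mem⟩
      refine ⟨k + 1 + k2 + 1, ⟨pc + a.len + b.len + 1 + d.len + 1 + c'.len, c2.reg, c2.mem⟩,
        by simp only [Expr.len]; omega, ((h2.trans (Reach.one ?_)).trans b2).trans (Reach.one ?_), ?_,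
        ⟨b4.reg, b4.mem⟩, ?_, ?_, ?_⟩
      · simp [step, h3, h9.head, h5, h6, hlt]
      · simp [step, b3, hc3]
      · simp only [Expr.len]; omega
      · simp [b5, Expr.eval, hlt]
      · intro t' ht'
        simp only
        rw [b6 t' ht']
        exact h7 t' ht'
      · simp only
        rw [b7]; exact h8

def Cmd.len : Cmd → ℕ
  | .skip => 0
  | .set _ e => e.len + 1
  | .put _ i e => i.len + e.len + 5
  | .seq c d => c.len + d.len
  | .ite a b c d => a.len + b.len + (1 + (d.len + (1 + c.len)))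
  | .wh a b c => a.len + b.len + (1 + (1 + (c.len + 1)))

def Cmd.nd : Cmd → ℕ
  | .skip => 0
  | .set _ e => e.nd
  | .put _ i e => 16 * i.nd + 16 + e.nd
  | .seq c d => c.nd + d.nd
  | .ite a b c d => a.nd + b.nd + c.nd + d.nd
  | .wh a b c => a.nd + b.nd + c.nd

/-- Code for a command. -/
def compC : Cmd → ℕ → List Instr
  | .skip, _ => []
  | .set x e, pc => compE e 0 pc ++ [.mov (2 * x) 1]
  | .put a i e, pc => compE i 0 pc ++ compE e 1 (pc + i.len) ++
      [.const 5 16, .mul 1 5 1, .const 5 ((a : ℕ) : ℤ), .add 1 1 5, .store 1 3]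
  | .seq c d, pc => compC c pc ++ compC d (pc + c.len)
  | .ite a b c d, pc => compE a 0 pc ++ compE b 1 (pc + a.len) ++
      (.jlt 1 3 (pc + a.len + b.len + 1 + d.len + 1) ::
      (compC d (pc + a.len + b.len + 1) ++
      (.jmp (pc + a.len + b.len + 1 + d.len + 1 + c.len) ::
      compC c (pc + a.len + b.len + 1 + d.len + 1))))
  | .wh a b c, pc => compE a 0 pc ++ compE b 1 (pc + a.len) ++
      (.jlt 1 3 (pc + a.len + b.len + 2) ::
      (.jmp (pc + a.len + b.len + 2 + c.len + 1) ::
      (compC c (pc + a.len + b.len + 2) ++ [.jmp pc])))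

lemma compC_length (c : Cmd) : ∀ pc, (compC c pc).length = c.len := by
  induction c with
  | skip => intro pc; rfl
  | set x e => intro pc; simp [compC, Cmd.len, compE_length]
  | put a i e => intro pc; simp [compC, Cmd.len, compE_length]; omega
  | seq c d ihc ihd => intro pc; simp [compC, Cmd.len, ihc, ihd]
  | ite a b c d ihc ihd => intro pc; simp [compC, Cmd.len, ihc, ihd, compE_length]; omega
  | wh a b c ih => intro pc; simp [compC, Cmd.len, ih, compE_length]; omega

/-- two operands in registers 1 and 3 -/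
lemma two_correct {B X : ℤ} {P : List Instr} (hX : 1 ≤ X) {s : St} (hs : BV X s) (a b : Expr)
    (pc : ℕ) (c : Config) (rest : List Instr) (hB : ((a.nd + b.nd : ℕ) : ℤ) * X ≤ B)
    (hcode : CodeAt P pc (compE a 0 pc ++ compE b 1 (pc + a.len) ++ rest)) (hpc : c.pc = pc)
    (hrel : Rel s c) :
      ∃ k c', k ≤ a.len + b.len ∧ Reach B P c k c' ∧ c'.pc = pc + (a.len + b.len) ∧ Rel s c' ∧
        c'.reg 1 = a.eval s ∧ c'.reg 3 = b.eval s ∧
        CodeAt P (pc + (a.len + b.len)) rest := by
  have hX0 : 0 ≤ X := by omega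
  have ha : (a.nd : ℤ) * X ≤ B := by
    push_cast at hB
    have : (0 : ℤ) ≤ b.nd := by positivity
    nlinarith
  have hb : (b.nd : ℤ) * X ≤ B := by
    push_cast at hB
    have : (0 : ℤ) ≤ a.nd := by positivity
    nlinarith
  obtain ⟨k1, c1, a1, a2, a3, a4, a5, a6, a7⟩ := compE_correct hX hs a 0 pc c ha hcode.left.left hpc hrel
  have hc2 := hcode.left.right
  rw [compE_length] at hc2
  obtain ⟨k2, c2, b1, b2, b3, b4, b5, b6, b7⟩ := compE_correct hX hs b 1 (pc + a.len) c1 hb hc2 a3 a4
  have hc3 := hcode.right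
  rw [List.length_append, compE_length, compE_length] at hc3
  refine ⟨k1 + k2, c2, by omega, a2.trans b2, by rw [b3]; omega, b4, ?_, b5, hc3⟩
  rw [b6 0 (by omega), a5]

lemma Rel.setv {s : St} {c : Config} (h : Rel s c) (x : ℕ) (z : ℤ) (pc : ℕ) :
    Rel (s.setv x z) ⟨pc, Function.update c.reg (2 * x) z, c.mem⟩ := by
  refine ⟨fun y => ?_, h.mem⟩
  simp only [St.setv_v]
  by_cases hxy : y = x
  · subst hxy; simp
  · rw [Function.update_of_ne (by omega), if_neg hxy]
    exact h.reg y

lemma Rel.setm {s : St} {c : Config} (h : Rel s c) (a : Fin 16) (i z : ℤ) (pc : ℕ) :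
    Rel (s.setm a i z) ⟨pc, c.reg, Function.update c.mem (16 * i + ((a : ℕ) : ℤ)) z⟩ := by
  refine ⟨h.reg, fun a' i' => ?_⟩
  simp only [St.setm_m, Function.update_apply]
  have ha := a.isLt
  have ha' := a'.isLt
  by_cases hc : a' = a ∧ i' = i
  · rw [if_pos hc, hc.1, hc.2, if_pos rfl]
  · rw [if_neg hc, if_neg]
    · exact h.mem a' i'
    · intro heq
      apply hc
      have h1 : ((a' : ℕ) : ℤ) = ((a : ℕ) : ℤ) := by omega
      have h2 : (a' : ℕ) = (a : ℕ) := by exact_mod_cast h1
      exact ⟨Fin.ext h2, by omega⟩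

lemma BV.setv {X : ℤ} {s : St} (h : BV X s) {x : ℕ} {z : ℤ} (hz : |z| ≤ X) : BV X (s.setv x z) := by
  refine ⟨fun y => ?_, h.2⟩
  rw [St.setv_v]
  split_ifs
  · exact hz
  · exact h.1 y

lemma BV.setm {X : ℤ} {s : St} (h : BV X s) {a : Fin 16} {i z : ℤ} (hz : |z| ≤ X) :
    BV X (s.setm a i z) := by
  refine ⟨h.1, fun a' i' => ?_⟩
  rw [St.setm_m]
  split_ifs
  · exact hz
  · exact h.2 a' i'

theorem Run.bv {X : ℤ} {c : Cmd} {s s' : St} {t : ℕ} (h : Run X c s t s') (hs : BV X s) : BV X s' := by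
  induction h with
  | skip s => exact hs
  | set s x e h => exact hs.setv h
  | put s a i e h => exact hs.setm h
  | seq h h' ih ih' => exact ih' (ih hs)
  | iteT h h' ih => exact ih hs
  | iteF h h' ih => exact ih hs
  | whT h h' h'' ih ih' => exact ih' (ih hs)
  | whF h => exact hs

lemma jlt_step {B : ℤ} {P : List Instr} {c : Config} {a b l : ℕ}
    (h : P[c.pc]? = some (.jlt a b l)) : step B P c =
      some (if c.reg a < c.reg b then ⟨l, c.reg, c.mem⟩ else ⟨c.pc + 1, c.reg, c.mem⟩) := by
  simp [step, h]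

lemma jmp_step {B : ℤ} {P : List Instr} {c : Config} {l : ℕ}
    (h : P[c.pc]? = some (.jmp l)) : step B P c = some ⟨l, c.reg, c.mem⟩ := by
  simp [step, h]

/-- correctness of the translation -/
theorem compC_correct {B X : ℤ} {P : List Instr} (hX : 1 ≤ X) {c : Cmd} {s s' : St} {t : ℕ}
    (h : Run X c s t s') (hs : BV X s) (K : ℕ) (hK : c.len ≤ K) (hB : (c.nd : ℤ) * X ≤ B) :
    ∀ (pc : ℕ) (cf : Config), CodeAt P pc (compC c pc) → cf.pc = pc → Rel s cf →
      ∃ k cf', k ≤ K * t ∧ Reach B P cf k cf' ∧ cf'.pc = pc + c.len ∧ Rel s' cf' := by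
  have hX0 : 0 ≤ X := by omega
  induction h with
  | skip s =>
    intro pc cf hcode hpc hrel
    exact ⟨0, cf, by omega, Reach.refl cf, by simp [Cmd.len, hpc], hrel⟩
  | set s x e h =>
    intro pc cf hcode hpc hrel
    obtain ⟨k1, c1, a1, a2, a3, a4, a5, a6, a7⟩ := compE_correct hX hs e 0 pc cf hB hcode.left hpc hrel
    have hc := hcode.right
    rw [compE_length] at hc
    have hz : |e.eval s| ≤ B := (eval_le hX hs e).trans hB
    have st : step B P c1 = some ⟨c1.pc + 1, Function.update c1.reg (2 * x) (e.eval s), c1.mem⟩ := by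
      have e1 : c1.reg 1 = e.eval s := a5
      simp [step, a3, hc.head, e1, write_some hz]
    refine ⟨k1 + 1, _, ?_, a2.trans (Reach.one st), ?_, a4.setv x _ _⟩
    · simp only [Cmd.len] at hK; omega
    · simp only [a3, Cmd.len]; omega
  | put s a i e h =>
    intro pc cf hcode hpc hrel
    simp only [Cmd.nd] at hB
    push_cast at hB
    have n1 : (0 : ℤ) ≤ i.nd := by positivity
    have n2 : (0 : ℤ) ≤ e.nd := by positivity
    have m1 := mul_nonneg n1 hX0
    have m2 := mul_nonneg n2 hX0
    have hB2 : ((i.nd + e.nd : ℕ) : ℤ) * X ≤ B := by push_cast; nlinarith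
    have hB16 : 16 * ((i.nd : ℤ) * X) + 16 ≤ B := by nlinarith
    have ha16 : ((a : ℕ) : ℤ) < 16 := by exact_mod_cast a.isLt
    have ha0 : (0 : ℤ) ≤ ((a : ℕ) : ℤ) := by positivity
    have hev := eval_le hX hs i
    rw [abs_le] at hev
    obtain ⟨k, c1, h1, h2, h3, h4, h5, h6, h7⟩ := two_correct hX hs i e pc cf _ hB2 hcode hpc hrel
    have st1 : step B P c1 = some ⟨c1.pc + 1, Function.update c1.reg 5 16, c1.mem⟩ := by
      simp [step, h3, h7.head, write_some (show |(16 : ℤ)| ≤ B by rw [abs_of_pos (by norm_num)]; omega)]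
    set c2 : Config := ⟨c1.pc + 1, Function.update c1.reg 5 16, c1.mem⟩ with hc2
    have c2pc : c2.pc = pc + (i.len + e.len) + 1 := by simp only [hc2, h3]
    have st2 : step B P c2 = some ⟨c2.pc + 1, Function.update c2.reg 1 (16 * i.eval s), c2.mem⟩ := by
      have e1 : c2.reg 5 = 16 := by simp [hc2]
      have e2 : c2.reg 1 = i.eval s := by
        simp only [hc2]; rw [Function.update_of_ne (by omega), h5]
      simp only [step, c2pc, h7.tail.head, e1, e2]
      rw [write_some (show |16 * i.eval s| ≤ B by rw [abs_le]; constructor <;> linarith), c2pc]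
    set c3 : Config := ⟨c2.pc + 1, Function.update c2.reg 1 (16 * i.eval s), c2.mem⟩ with hc3
    have c3pc : c3.pc = pc + (i.len + e.len) + 1 + 1 := by simp only [hc3, c2pc]
    have st3 : step B P c3 = some ⟨c3.pc + 1, Function.update c3.reg 5 ((a : ℕ) : ℤ), c3.mem⟩ := by
      simp only [step, c3pc, h7.tail.tail.head]
      rw [write_some (show |((a : ℕ) : ℤ)| ≤ B by rw [abs_of_nonneg ha0]; omega), c3pc]
    set c4 : Config := ⟨c3.pc + 1, Function.update c3.reg 5 ((a : ℕ) : ℤ), c3.mem⟩ with hc4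
    have c4pc : c4.pc = pc + (i.len + e.len) + 1 + 1 + 1 := by simp only [hc4, c3pc]
    have st4 : step B P c4 = some ⟨c4.pc + 1, Function.update c4.reg 1
        (16 * i.eval s + ((a : ℕ) : ℤ)), c4.mem⟩ := by
      have e1 : c4.reg 5 = ((a : ℕ) : ℤ) := by simp [hc4]
      have e2 : c4.reg 1 = 16 * i.eval s := by
        simp only [hc4]; rw [Function.update_of_ne (by omega)]; simp [hc3]
      simp only [step, c4pc, h7.tail.tail.tail.head, e1, e2]
      rw [write_some (show |16 * i.eval s + ((a : ℕ) : ℤ)| ≤ B by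
        rw [abs_le]; constructor <;> linarith), c4pc]
    set c5 : Config := ⟨c4.pc + 1, Function.update c4.reg 1
        (16 * i.eval s + ((a : ℕ) : ℤ)), c4.mem⟩ with hc5
    have c5pc : c5.pc = pc + (i.len + e.len) + 1 + 1 + 1 + 1 := by simp only [hc5, c4pc]
    have hr5 : Rel s c5 := (((h4.wr 2 _ _).wr 0 _ _).wr 2 _ _).wr 0 _ _
    have st5 : step B P c5 = some ⟨c5.pc + 1, c5.reg,
        Function.update c5.mem (16 * i.eval s + ((a : ℕ) : ℤ)) (e.eval s)⟩ := by
      have e1 : c5.reg 1 = 16 * i.eval s + ((a : ℕ) : ℤ) := by simp [hc5]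
      have e2 : c5.reg 3 = e.eval s := by
        simp only [hc5, hc4, hc3, hc2]
        rw [Function.update_of_ne (by omega), Function.update_of_ne (by omega),
          Function.update_of_ne (by omega), Function.update_of_ne (by omega)]
        exact h6
      simp only [step, c5pc, h7.tail.tail.tail.tail.head, e1, e2]
    refine ⟨k + 1 + 1 + 1 + 1 + 1, _, ?_, ((((h2.trans (Reach.one st1)).trans (Reach.one st2)).trans
      (Reach.one st3)).trans (Reach.one st4)).trans (Reach.one st5), ?_, hr5.setm a _ _ _⟩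
    · simp only [Cmd.len] at hK; omega
    · simp only [c5pc, Cmd.len]; omega
  | @seq c d s s' s'' t t' h h' ih ih' =>
    intro pc cf hcode hpc hrel
    simp only [Cmd.nd] at hB
    push_cast at hB
    have n1 : (0 : ℤ) ≤ c.nd := by positivity
    have n2 : (0 : ℤ) ≤ d.nd := by positivity
    have m1 := mul_nonneg n1 hX0
    have m2 := mul_nonneg n2 hX0
    simp only [Cmd.len] at hK
    obtain ⟨k1, c1, a1, a2, a3, a4⟩ := ih hs (by omega) (by linarith) pc cf hcode.left hpc hrel
    have hc := hcode.right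
    rw [compC_length] at hc
    obtain ⟨k2, c2, b1, b2, b3, b4⟩ := ih' (h.bv hs) (by omega) (by linarith) (pc + c.len) c1 hc a3 a4
    exact ⟨k1 + k2, c2, by rw [Nat.mul_add]; omega, a2.trans b2, by rw [b3]; simp only [Cmd.len]; omega, b4⟩
  | @iteT a b c d s s' t h h' ih =>
    intro pc cf hcode hpc hrel
    simp only [Cmd.nd] at hB
    push_cast at hB
    have n1 : (0 : ℤ) ≤ c.nd := by positivity
    have n2 : (0 : ℤ) ≤ d.nd := by positivity
    have n3 : (0 : ℤ) ≤ a.nd := by positivity
    have n4 : (0 : ℤ) ≤ b.nd := by positivity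
    have m1 := mul_nonneg n1 hX0
    have m2 := mul_nonneg n2 hX0
    have m3 := mul_nonneg n3 hX0
    have m4 := mul_nonneg n4 hX0
    simp only [Cmd.len] at hK
    obtain ⟨k, c1, h1, h2, h3, h4, h5, h6, h7⟩ := two_correct hX hs a b pc cf _
      (by push_cast; linarith) hcode hpc hrel
    have hpos : pc + (a.len + b.len) + 1 + d.len + 1 = pc + a.len + b.len + 1 + d.len + 1 := by omega
    have hc2 := h7.tail.right.tail
    rw [compC_length, hpos] at hc2
    have st : step B P c1 = some ⟨pc + a.len + b.len + 1 + d.len + 1, c1.reg, c1.mem⟩ := by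
      rw [jlt_step (by rw [h3]; exact h7.head), h5, h6, if_pos h]
    obtain ⟨k2, c2, b1, b2, b3, b4⟩ := ih hs (by omega) (by linarith) _
      ⟨pc + a.len + b.len + 1 + d.len + 1, c1.reg, c1.mem⟩ hc2 rfl ⟨h4.reg, h4.mem⟩
    refine ⟨k + 1 + k2, c2, ?_, (h2.trans (Reach.one st)).trans b2, ?_, b4⟩
    · rw [Nat.mul_add]; omega
    · rw [b3]; simp only [Cmd.len]; omega
  | @iteF a b c d s s' t h h' ih =>
    intro pc cf hcode hpc hrel
    simp only [Cmd.nd] at hB
    push_cast at hB
    have n1 : (0 : ℤ) ≤ c.nd := by positivity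
    have n2 : (0 : ℤ) ≤ d.nd := by positivity
    have n3 : (0 : ℤ) ≤ a.nd := by positivity
    have n4 : (0 : ℤ) ≤ b.nd := by positivity
    have m1 := mul_nonneg n1 hX0
    have m2 := mul_nonneg n2 hX0
    have m3 := mul_nonneg n3 hX0
    have m4 := mul_nonneg n4 hX0
    simp only [Cmd.len] at hK
    obtain ⟨k, c1, h1, h2, h3, h4, h5, h6, h7⟩ := two_correct hX hs a b pc cf _
      (by push_cast; linarith) hcode hpc hrel
    have hpos : pc + (a.len + b.len) + 1 = pc + a.len + b.len + 1 := by omega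
    have hc2 := h7.tail.left
    have hc3 := h7.tail.right.head
    rw [compC_length] at hc3
    rw [hpos] at hc2 hc3
    have st : step B P c1 = some ⟨c1.pc + 1, c1.reg, c1.mem⟩ := by
      rw [jlt_step (by rw [h3]; exact h7.head), h5, h6, if_neg h]
    obtain ⟨k2, c2, b1, b2, b3, b4⟩ := ih hs (by omega) (by linarith) _
      ⟨c1.pc + 1, c1.reg, c1.mem⟩ hc2 (by simp only [h3]; omega) ⟨h4.reg, h4.mem⟩
    have st2 : step B P c2 = some ⟨pc + a.len + b.len + 1 + d.len + 1 + c.len, c2.reg, c2.mem⟩ :=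
      jmp_step (by rw [b3]; exact hc3)
    refine ⟨k + 1 + k2 + 1, _, ?_, ((h2.trans (Reach.one st)).trans b2).trans (Reach.one st2), ?_,
      ⟨b4.reg, b4.mem⟩⟩
    · rw [Nat.mul_add]; omega
    · simp only [Cmd.len]; omega
  | @whT a b c s s' s'' t t' h h' h'' ih ih' =>
    intro pc cf hcode hpc hrel
    have hBo := hB
    simp only [Cmd.nd] at hB
    push_cast at hB
    have n1 : (0 : ℤ) ≤ c.nd := by positivity
    have n3 : (0 : ℤ) ≤ a.nd := by positivity
    have n4 : (0 : ℤ) ≤ b.nd := by positivity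
    have m1 := mul_nonneg n1 hX0
    have m3 := mul_nonneg n3 hX0
    have m4 := mul_nonneg n4 hX0
    have hKo := hK
    simp only [Cmd.len] at hK
    obtain ⟨k, c1, h1, h2, h3, h4, h5, h6, h7⟩ := two_correct hX hs a b pc cf _
      (by push_cast; linarith) hcode hpc hrel
    have hpos : pc + (a.len + b.len) + 1 + 1 = pc + a.len + b.len + 2 := by omega
    have hc2 := h7.tail.tail.left
    have hc3 := h7.tail.tail.right.head
    rw [compC_length] at hc3
    rw [hpos] at hc2 hc3
    have st : step B P c1 = some ⟨pc + a.len + b.len + 2, c1.reg, c1.mem⟩ := by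
      rw [jlt_step (by rw [h3]; exact h7.head), h5, h6, if_pos h]
    obtain ⟨k2, c2, b1, b2, b3, b4⟩ := ih hs (by omega) (by linarith) _
      ⟨pc + a.len + b.len + 2, c1.reg, c1.mem⟩ hc2 rfl ⟨h4.reg, h4.mem⟩
    have st2 : step B P c2 = some ⟨pc, c2.reg, c2.mem⟩ := jmp_step (by rw [b3]; exact hc3)
    obtain ⟨k3, c3, d1, d2, d3, d4⟩ := ih' (h'.bv hs) hKo hBo pc ⟨pc, c2.reg, c2.mem⟩ hcode rfl
      ⟨b4.reg, b4.mem⟩
    refine ⟨k + 1 + k2 + 1 + k3, c3, ?_, (((h2.trans (Reach.one st)).trans b2).trans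
      (Reach.one st2)).trans d2, d3, d4⟩
    rw [Nat.mul_add, Nat.mul_add]; omega
  | @whF a b c s h =>
    intro pc cf hcode hpc hrel
    simp only [Cmd.nd] at hB
    push_cast at hB
    have n1 : (0 : ℤ) ≤ c.nd := by positivity
    have m1 := mul_nonneg n1 hX0
    simp only [Cmd.len] at hK
    obtain ⟨k, c1, h1, h2, h3, h4, h5, h6, h7⟩ := two_correct hX hs a b pc cf _
      (by push_cast; linarith) hcode hpc hrel
    have hc3 := h7.tail.head
    have st : step B P c1 = some ⟨c1.pc + 1, c1.reg, c1.mem⟩ := by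
      rw [jlt_step (by rw [h3]; exact h7.head), h5, h6, if_neg h]
    have st2 : step B P ⟨c1.pc + 1, c1.reg, c1.mem⟩ =
        some ⟨pc + a.len + b.len + 2 + c.len + 1, c1.reg, c1.mem⟩ :=
      jmp_step (by simp only [h3]; exact hc3)
    refine ⟨k + 1 + 1, _, by omega, (h2.trans (Reach.one st)).trans (Reach.one st2), ?_,
      ⟨h4.reg, h4.mem⟩⟩
    simp only [Cmd.len]; omega

end Pool.Agent.Lib_helper87.UM
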