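import Pool.Agent.Lib_helper87.BfsCode
set_option autoImplicit false

/-! # Moving the input out of the way -/

namespace Pool.Agent.Lib_helper87.UM
open Finset

def copyK : ℕ → Cmd
  | 0 => .skip
  | a + 1 => .seq (copyK a)
      (.put 0 (.smul 3 (.var 0) + .smul 16 (.var 2) + .cst a) (.ld (Fin.ofNat 16 a) (.var 2)))

lemma copyK_mv : ∀ (A y : ℕ), (copyK A).mv y = false := by
  intro A y
  induction A with
  | zero => rfl
  | succ A ih =>
    simp only [copyK, Cmd.mv, ih]
    rfl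

lemma copyK_ma (b : Fin 16) (hb : b ≠ 0) : ∀ A : ℕ, (copyK A).ma b = false := by
  intro A
  induction A with
  | zero => rfl
  | succ A ih =>
    simp only [copyK, Cmd.ma, ih, Bool.false_or, decide_eq_false_iff_not]
    exact Ne.symm hb

theorem copyK_spec {X : ℤ} {n k : ℕ} {st : St} (hn : 1 ≤ n) (h0 : st.v 0 = n) (h2 : st.v 2 = k)
    (hb : ∀ b, |st.m b k| ≤ X) : ∀ A, A ≤ 16 → Tr X (copyK A) st A (fun s' =>
      (∀ q, q < 3 * (n : ℤ) + 16 * k → s'.m 0 q = st.m 0 q) ∧
      ∀ a : ℕ, a < A → s'.m 0 (3 * (n : ℤ) + 16 * k + a) = st.m (Fin.ofNat 16 a) k) := by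
  intro A
  induction A with
  | zero =>
    intro _
    exact Tr.skip ⟨fun _ _ => rfl, fun a ha => by omega⟩
  | succ A ih =>
    intro hA
    have hnZ : (1 : ℤ) ≤ n := by exact_mod_cast hn
    have hk : (0 : ℤ) ≤ k := by positivity
    refine Tr.seqF (ih (by omega)) (τ2 := 1) ?_ le_rfl
    rintro s' ⟨q2, q3⟩ fv fm
    have g0 : s'.v 0 = n := by rw [fv 0 (copyK_mv _ _), h0]
    have g2 : s'.v 2 = k := by rw [fv 2 (copyK_mv _ _), h2]
    have hr : s'.m (Fin.ofNat 16 A) k = st.m (Fin.ofNat 16 A) k := by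
      by_cases hA0 : (Fin.ofNat 16 A) = 0
      · rw [hA0]
        apply q2
        linarith
      · rw [fm _ (copyK_ma _ hA0 _)]
    refine Tr.put ?_ le_rfl ?_
    · simp only [ev_ld, ev_var, g2, hr]
      exact hb _
    simp only [ev_ld, ev_var, ev_add, ev_smul, ev_cst, g0, g2, hr]
    constructor
    · intro q hq
      rw [St.setm_m, if_neg (by rintro ⟨_, hh⟩; have : (0 : ℤ) ≤ A := by positivity
                                linarith)]
      exact q2 q hq
    · intro a ha
      rw [St.setm_m]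
      rcases Nat.lt_or_ge a A with h | h
      · rw [if_neg (by rintro ⟨_, hh⟩; have : (a : ℤ) < A := by exact_mod_cast h
                       linarith)]
        exact q3 a h
      · have : a = A := by omega
        subst this
        rw [if_pos ⟨rfl, rfl⟩]

def copyC : Cmd := .seq (.set 3 (.div (.smul 3 (.var 0)) (.cst 16) + .cst 1)) (.seq (.set 2 (.cst 0))
  (Cmd.for_ 2 3 (copyK 16)))

theorem copyC_spec {X : ℤ} {n : ℕ} {s : St} {mem : ℤ → ℤ} (hn : 1 ≤ n) (hX : 100 * (n : ℤ) ≤ X)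
    (h0 : s.v 0 = n) (hmem : ∀ a i, s.m a i = mem (16 * i + (a : ℕ))) (hb : ∀ p, |mem p| ≤ X) :
    Tr X copyC s (18 * (3 * n / 16 + 1) + 3) (fun s' => ∀ p : ℕ, p ≤ 3 * n →
      s'.m 0 (3 * (n : ℤ) + p) = mem p) := by
  have hnZ : (1 : ℤ) ≤ n := by exact_mod_cast hn
  have hK : (3 * (n : ℤ)) / 16 + 1 = ((3 * n / 16 + 1 : ℕ) : ℤ) := by push_cast; rfl
  refine Tr.setS (τ2 := 18 * (3 * n / 16 + 1) + 2) ?_ ?_ (by omega)
  · simp only [ev_add, ev_div, ev_smul, ev_var, ev_cst, h0]
    rw [abs_le]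
    constructor <;> omega
  simp only [ev_add, ev_div, ev_smul, ev_var, ev_cst, h0]
  refine Tr.setS (τ2 := 18 * (3 * n / 16 + 1) + 1) ?_ ?_ (by omega)
  · simp; linarith
  simp only [ev_cst]
  set s1 := (s.setv 3 (3 * (n : ℤ) / 16 + 1)).setv 2 0 with hs1
  have em : s1.m = s.m := by simp [hs1]
  refine Tr.forFc (copyK_mv _ _) (copyK_mv _ _) (by norm_num) (fun k st =>
    (∀ q, q < 3 * (n : ℤ) → st.m 0 q = s.m 0 q) ∧
    ∀ p : ℕ, p < 16 * k → st.m 0 (3 * (n : ℤ) + p) = mem p) 16 0 (3 * n / 16 + 1) (by omega)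
    (by omega) (by simp [hs1]) (by simp [hs1]) ?_ ?_ (by omega) ?_
  · exact ⟨fun q _ => by rw [em], fun p hp => by omega⟩
  · rintro k st _ hk hvk _ hfv hfm ⟨i1, i2⟩
    have f0 : st.v 0 = n := by
      rw [hfv 0 (copyK_mv _ _) (by norm_num)]
      simp [hs1, h0]
    have hk3 : (k : ℤ) < 3 * n := by omega
    have hrd : ∀ b : Fin 16, st.m b k = mem (16 * k + (b : ℕ)) := by
      intro b
      rw [← hmem]
      by_cases hb0 : b = 0
      · subst hb0
        exact i1 _ hk3
      · rw [hfm b (copyK_ma b hb0 _), em]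
    refine (copyK_spec (X := X) hn f0 hvk (fun b => by rw [hrd]; exact hb _) 16 le_rfl).mono le_rfl ?_
    rintro s' ⟨q1, q2⟩
    simp only [St.setv_m]
    constructor
    · intro q hq
      have : (0 : ℤ) ≤ k := by positivity
      rw [q1 q (by linarith)]
      exact i1 q hq
    · intro p hp
      rcases Nat.lt_or_ge p (16 * k) with h | h
      · have : (p : ℤ) < 16 * k := by exact_mod_cast h
        rw [q1 _ (by linarith)]
        exact i2 p h
      · obtain ⟨a, ha⟩ : ∃ a, p = 16 * k + a := ⟨p - 16 * k, by omega⟩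
        subst ha
        have h1 := q2 a (by omega)
        rw [hrd] at h1
        rw [show 3 * (n : ℤ) + ((16 * k + a : ℕ) : ℤ) = 3 * (n : ℤ) + 16 * k + a by push_cast; ring, h1]
        have : ((Fin.ofNat 16 a : Fin 16) : ℕ) = a := by
          rw [Fin.val_ofNat]
          omega
        rw [this]
        push_cast
        rfl
  · intro s' hI _ _ _
    intro p hp
    exact hI.2 p (by omega)

end Pool.Agent.Lib_helper87.UM
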