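import Pool.Agent.Lib_helper87.Select
set_option autoImplicit false

namespace Pool.Agent.Lib_helper87.UM
open Finset

def Win (lo c : ℕ) (b x : ℕ → ℤ) : Prop := ∀ c', c' ≤ c → |∑ i ∈ Ico lo c', (x i - b i)| ≤ 12

def Att (M : ℤ) (lo c : ℕ) (G : ℕ → ℤ → ℤ) (b : ℕ → ℤ) (v o : ℤ) : Prop :=
  ∃ x : ℕ → ℤ, Sel M lo c G x ∧ ∑ i ∈ Ico lo c, (x i - b i) = o ∧ ∑ i ∈ Ico lo c, G i (x i) = v

def Upp (M : ℤ) (lo c : ℕ) (G : ℕ → ℤ → ℤ) (b : ℕ → ℤ) (A : ℤ → ℤ) : Prop :=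
  ∀ x : ℕ → ℤ, Sel M lo c G x → Win lo c b x →
    ∑ i ∈ Ico lo c, G i (x i) ≤ A (∑ i ∈ Ico lo c, (x i - b i))

def Inv0 (M : ℤ) (lo c : ℕ) (g : ℕ → ℤ → ℤ) (b : ℕ → ℤ) (A : ℤ → ℤ) : Prop :=
  (∀ o, -M < A o → Att M lo c g b (A o) o) ∧ Upp M lo c g b A

def Inv1 (M : ℤ) (lo c : ℕ) (g w : ℕ → ℤ → ℤ) (b : ℕ → ℤ) (A : ℤ → ℤ) : Prop :=
  (∀ o, -M < A o → ∃ c0, lo ≤ c0 ∧ c0 < c ∧ Att M lo c (gg g w c0) b (A o) o) ∧
  ∀ c0, lo ≤ c0 → c0 < c → Upp M lo c (gg g w c0) b A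

/-- sum of two table entries, `-M` playing the role of minus infinity -/
def cand (M a v : ℤ) : ℤ := if -M < a then (if -M < v then a + v else -M) else -M

lemma cand_le {M a v t : ℤ} (h1 : -M < a) (h2 : -M < v) (h : t ≤ a + v) : t ≤ cand M a v := by
  unfold cand; rw [if_pos h1, if_pos h2]; exact h

lemma cand_att {M a v : ℤ} (h : -M < cand M a v) : -M < a ∧ -M < v ∧ cand M a v = a + v := by
  unfold cand at h ⊢
  split_ifs at h ⊢ with h1 h2
  · exact ⟨h1, h2, rfl⟩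
  · omega
  · omega

/-- maximum of the candidate values of a child with base `b` -/
def st0 (M : ℤ) (A : ℤ → ℤ) (v : ℤ → ℤ) (b o : ℤ) : ℤ :=
  max (cand M (A (o + b + 1)) (v (-1))) (max (cand M (A (o + b)) (v 0)) (cand M (A (o + b - 1)) (v 1)))

lemma le_st0 {M : ℤ} {A v : ℤ → ℤ} {b o y t : ℤ} (hy1 : -1 ≤ y) (hy2 : y ≤ 1)
    (hA : -M < A (o + b - y)) (hv : -M < v y) (ht : t ≤ A (o + b - y) + v y) :
    t ≤ st0 M A v b o := by
  unfold st0
  have : y = -1 ∨ y = 0 ∨ y = 1 := by omega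
  rcases this with rfl | rfl | rfl
  · rw [sub_neg_eq_add] at hA ht
    exact le_max_of_le_left (cand_le hA hv ht)
  · rw [sub_zero] at hA ht
    exact le_max_of_le_right (le_max_of_le_left (cand_le hA hv ht))
  · exact le_max_of_le_right (le_max_of_le_right (cand_le hA hv ht))

lemma st0_att {M : ℤ} {A v : ℤ → ℤ} {b o : ℤ} (h : -M < st0 M A v b o) :
    ∃ y, -1 ≤ y ∧ y ≤ 1 ∧ -M < A (o + b - y) ∧ -M < v y ∧ st0 M A v b o = A (o + b - y) + v y := by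
  unfold st0 at h ⊢
  rcases max_cases (cand M (A (o + b + 1)) (v (-1))) (max (cand M (A (o + b)) (v 0))
    (cand M (A (o + b - 1)) (v 1))) with ⟨e, _⟩ | ⟨e, _⟩
  · rw [e] at h ⊢
    obtain ⟨h1, h2, h3⟩ := cand_att h
    exact ⟨-1, by norm_num, by norm_num, by rwa [sub_neg_eq_add], h2, by rw [sub_neg_eq_add, h3]⟩
  · rw [e] at h ⊢
    rcases max_cases (cand M (A (o + b)) (v 0)) (cand M (A (o + b - 1)) (v 1)) with ⟨e, _⟩ | ⟨e, _⟩
    · rw [e] at h ⊢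
      obtain ⟨h1, h2, h3⟩ := cand_att h
      exact ⟨0, by norm_num, by norm_num, by rwa [sub_zero], h2, by rw [sub_zero, h3]⟩
    · rw [e] at h ⊢
      obtain ⟨h1, h2, h3⟩ := cand_att h
      exact ⟨1, by norm_num, by norm_num, h1, h2, h3⟩

lemma sel_update {M : ℤ} {lo c : ℕ} {G : ℕ → ℤ → ℤ} {x : ℕ → ℤ} {y : ℤ} (hlo : lo ≤ c)
    (h : Sel M lo c G x) (hy1 : -1 ≤ y) (hy2 : y ≤ 1) (hG : -M < G c y) :
    Sel M lo (c + 1) G (Function.update x c y) := by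
  intro i hi
  simp only [Finset.mem_Ico] at hi
  by_cases hic : i = c
  · subst hic; simp [hy1, hy2, hG]
  · rw [Function.update_of_ne hic]
    exact h i (by simp only [Finset.mem_Ico]; omega)

lemma sum_update_Ico {lo c : ℕ} (hlo : lo ≤ c) (F : ℕ → ℤ → ℤ) (x : ℕ → ℤ) (y : ℤ) :
    ∑ i ∈ Ico lo (c + 1), F i (Function.update x c y i) = ∑ i ∈ Ico lo c, F i (x i) + F c y := by
  rw [Finset.sum_Ico_succ_top hlo]
  congr 1
  · apply Finset.sum_congr rfl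
    intro i hi
    simp only [Finset.mem_Ico] at hi
    rw [Function.update_of_ne (by omega)]
  · rw [Function.update_self]

lemma att_step {M : ℤ} {lo c : ℕ} {G : ℕ → ℤ → ℤ} {b : ℕ → ℤ} {v o y : ℤ} (hlo : lo ≤ c)
    (h : Att M lo c G b v o) (hy1 : -1 ≤ y) (hy2 : y ≤ 1) (hG : -M < G c y) :
    Att M lo (c + 1) G b (v + G c y) (o + (y - b c)) := by
  obtain ⟨x, h1, h2, h3⟩ := h
  refine ⟨Function.update x c y, sel_update hlo h1 hy1 hy2 hG, ?_, ?_⟩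
  · rw [sum_update_Ico hlo (fun i z => z - b i), h2]
  · rw [sum_update_Ico hlo G, h3]

lemma sel_succ {M : ℤ} {lo c : ℕ} {G : ℕ → ℤ → ℤ} {x : ℕ → ℤ} (hlo : lo ≤ c)
    (h : Sel M lo (c + 1) G x) : Sel M lo c G x ∧ -1 ≤ x c ∧ x c ≤ 1 ∧ -M < G c (x c) := by
  refine ⟨fun i hi => h i ?_, h c ?_⟩
  · simp only [Finset.mem_Ico] at hi ⊢; omega
  · simp only [Finset.mem_Ico]; omega

lemma att_congr {M : ℤ} {lo c : ℕ} {G G' : ℕ → ℤ → ℤ} {b : ℕ → ℤ} {v o : ℤ}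
    (hG : ∀ i ∈ Ico lo c, G i = G' i) (h : Att M lo c G b v o) : Att M lo c G' b v o := by
  obtain ⟨x, h1, h2, h3⟩ := h
  refine ⟨x, fun i hi => ?_, h2, ?_⟩
  · rw [← hG i hi]; exact h1 i hi
  · rw [← h3]; exact Finset.sum_congr rfl fun i hi => by rw [hG i hi]

lemma gg_lt {g w : ℕ → ℤ → ℤ} {c0 lo : ℕ} : ∀ i ∈ Ico lo c0, g i = gg g w c0 i := by
  intro i hi
  simp only [Finset.mem_Ico] at hi
  funext y
  simp [gg, (show i ≠ c0 by omega)]

/-- one step of the unflagged table -/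
theorem inv0_step {M : ℤ} {lo c : ℕ} {g : ℕ → ℤ → ℤ} {b : ℕ → ℤ} {A A' : ℤ → ℤ} (hlo : lo ≤ c)
    (hfin : ∀ x, Sel M lo c g x → -M < ∑ i ∈ Ico lo c, g i (x i))
    (h : Inv0 M lo c g b A)
    (hA' : ∀ o, A' o = if |o| ≤ 12 then st0 M A (g c) (b c) o else -M) :
    Inv0 M lo (c + 1) g b A' := by
  refine ⟨fun o ho => ?_, fun x hx hw => ?_⟩
  · rw [hA' o] at ho ⊢
    split_ifs at ho ⊢ with hoo
    · obtain ⟨y, hy1, hy2, hAo, hv, he⟩ := st0_att ho
      rw [he]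
      have := att_step (y := y) hlo (h.1 _ hAo) hy1 hy2 hv
      convert this using 1
      ring
    · omega
  · obtain ⟨hs, hx1, hx2, hx3⟩ := sel_succ hlo hx
    have hw' : Win lo c b x := fun c' hc' => hw c' (by omega)
    have e1 := h.2 x hs hw'
    have e2 := hfin x hs
    have e3 := hw (c + 1) le_rfl
    rw [hA', if_pos e3]
    refine le_st0 (y := x c) hx1 hx2 ?_ hx3 ?_
    · rw [Finset.sum_Ico_succ_top hlo]
      ring_nf
      ring_nf at e1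
      omega
    · rw [Finset.sum_Ico_succ_top hlo, Finset.sum_Ico_succ_top hlo]
      have : ∑ i ∈ Ico lo c, (x i - b i) + (x c - b c) + b c - x c = ∑ i ∈ Ico lo c, (x i - b i) := by
        ring
      rw [this]
      omega

/-- one step of the flagged table -/
theorem inv1_step {M : ℤ} {lo c : ℕ} {g w : ℕ → ℤ → ℤ} {b : ℕ → ℤ} {A0 A1 A' : ℤ → ℤ}
    (hlo : lo ≤ c)
    (hfin : ∀ x, Sel M lo c g x → -M < ∑ i ∈ Ico lo c, g i (x i))
    (hfin1 : ∀ c0 x, Sel M lo c (gg g w c0) x → -M < ∑ i ∈ Ico lo c, gg g w c0 i (x i))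
    (h0 : Inv0 M lo c g b A0) (h1 : Inv1 M lo c g w b A1)
    (hA' : ∀ o, A' o = if |o| ≤ 12 then max (st0 M A1 (g c) (b c) o) (st0 M A0 (w c) (b c) o)
      else -M) :
    Inv1 M lo (c + 1) g w b A' := by
  refine ⟨fun o ho => ?_, fun c0 hc0 hc0' x hx hw => ?_⟩
  · rw [hA' o] at ho ⊢
    split_ifs at ho ⊢ with hoo
    · rcases max_cases (st0 M A1 (g c) (b c) o) (st0 M A0 (w c) (b c) o) with ⟨e, _⟩ | ⟨e, _⟩
      · rw [e] at ho ⊢
        obtain ⟨y, hy1, hy2, hAo, hv, he⟩ := st0_att ho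
        rw [he]
        obtain ⟨c0, hc0, hc0', hatt⟩ := h1.1 _ hAo
        refine ⟨c0, hc0, by omega, ?_⟩
        have hgg : gg g w c0 c y = g c y := by simp [gg, (show c ≠ c0 by omega)]
        have := att_step (y := y) hlo hatt hy1 hy2 (by rw [hgg]; exact hv)
        rw [hgg] at this
        convert this using 1
        ring
      · rw [e] at ho ⊢
        obtain ⟨y, hy1, hy2, hAo, hv, he⟩ := st0_att ho
        rw [he]
        refine ⟨c, hlo, by omega, ?_⟩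
        have hgg : gg g w c c y = w c y := by simp [gg]
        have hatt : Att M lo c (gg g w c) b _ _ := att_congr gg_lt (h0.1 _ hAo)
        have := att_step (y := y) hlo hatt hy1 hy2 (by rw [hgg]; exact hv)
        rw [hgg] at this
        convert this using 1
        ring
    · omega
  · obtain ⟨hs, hx1, hx2, hx3⟩ := sel_succ hlo hx
    have hw' : Win lo c b x := fun c' hc' => hw c' (by omega)
    have e3 := hw (c + 1) le_rfl
    rw [hA', if_pos e3]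
    have hre : ∑ i ∈ Ico lo c, (x i - b i) + (x c - b c) + b c - x c = ∑ i ∈ Ico lo c, (x i - b i) := by
      ring
    rcases Nat.lt_or_ge c0 c with hlt | hge
    · have e1 := h1.2 c0 hc0 hlt x hs hw'
      have e2 := hfin1 c0 x hs
      have hgg : gg g w c0 c (x c) = g c (x c) := by simp [gg, (show c ≠ c0 by omega)]
      rw [hgg] at hx3
      apply le_max_of_le_left
      refine le_st0 (y := x c) hx1 hx2 ?_ hx3 ?_
      · rw [Finset.sum_Ico_succ_top hlo, hre]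
        omega
      · rw [Finset.sum_Ico_succ_top hlo, Finset.sum_Ico_succ_top hlo, hre, hgg]
        omega
    · have hcc : c0 = c := by omega
      subst hcc
      have hs0 : Sel M lo c0 g x := fun i hi => by
        have := hs i hi
        rwa [← gg_lt i hi] at this
      have hsum : ∑ i ∈ Ico lo c0, gg g w c0 i (x i) = ∑ i ∈ Ico lo c0, g i (x i) :=
        Finset.sum_congr rfl fun i hi => by rw [← gg_lt i hi]
      have e1 := h0.2 x hs0 hw'
      have e2 := hfin x hs0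
      have hgg : gg g w c0 c0 (x c0) = w c0 (x c0) := by simp [gg]
      rw [hgg] at hx3
      apply le_max_of_le_right
      refine le_st0 (y := x c0) hx1 hx2 ?_ hx3 ?_
      · rw [Finset.sum_Ico_succ_top hlo, hre]
        omega
      · rw [Finset.sum_Ico_succ_top hlo, Finset.sum_Ico_succ_top hlo, hre, hgg, hsum]
        omega

lemma inv0_init {M : ℤ} {lo : ℕ} {g : ℕ → ℤ → ℤ} {b : ℕ → ℤ} {A : ℤ → ℤ}
    (hA : ∀ o, A o = if o = 0 then 0 else -M) : Inv0 M lo lo g b A := by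
  refine ⟨fun o ho => ?_, fun x hx hw => ?_⟩
  · rw [hA] at ho ⊢
    split_ifs at ho ⊢ with h
    · exact ⟨fun _ => 0, fun i hi => by simp at hi, by simp [h], by simp⟩
    · omega
  · rw [hA]; simp

lemma inv1_init {M : ℤ} {lo : ℕ} {g w : ℕ → ℤ → ℤ} {b : ℕ → ℤ} {A : ℤ → ℤ}
    (hA : ∀ o, A o = -M) : Inv1 M lo lo g w b A := by
  refine ⟨fun o ho => ?_, fun c0 h1 h2 => ?_⟩
  · rw [hA] at ho; omega
  · omega

/-- reading off, exact mode -/
theorem read_exact {M κ k : ℤ} {lo hi h : ℕ} {g : ℕ → ℤ → ℤ} {b : ℕ → ℤ} {A : ℤ → ℤ}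
    (_hlohi : lo ≤ hi)
    (hb : BaseOK true M κ lo hi h g b) (hA : Inv0 M lo hi g b A) (hk : -1 ≤ k ∧ k ≤ 3) :
    (∀ x, Sel M lo hi g x → ∑ c ∈ Ico lo hi, x c = k →
      ∑ c ∈ Ico lo hi, g c (x c) ≤ A (k - ∑ c ∈ Ico lo hi, b c)) ∧
    (-M < A (k - ∑ c ∈ Ico lo hi, b c) → ∃ x, Sel M lo hi g x ∧ ∑ c ∈ Ico lo hi, x c = k ∧
      ∑ c ∈ Ico lo hi, g c (x c) = A (k - ∑ c ∈ Ico lo hi, b c)) := by
  constructor
  · intro x hx hsum
    have hsel : Sel M lo hi (gg g g hi) x := fun i hi' => by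
      rw [← gg_lt i hi']; exact hx i hi'
    obtain ⟨x', h1, h2, h3, h4⟩ := window true M κ k lo hi h hi g g b x hb hk hsel
      (by simpa [Cnd] using hsum)
    have hsel' : Sel M lo hi g x' := fun i hi' => by
      have := h1 i hi'
      rwa [← gg_lt i hi'] at this
    have e1 := hA.2 x' hsel' h4
    have e2 : ∑ i ∈ Ico lo hi, (x' i - b i) = k - ∑ c ∈ Ico lo hi, b c := by
      rw [Finset.sum_sub_distrib]
      simp only [Cnd, if_true] at h2
      rw [h2]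
    rw [e2] at e1
    refine le_trans ?_ e1
    refine le_trans (le_of_eq ?_) (h3.trans (le_of_eq ?_))
    · exact Finset.sum_congr rfl fun i hi' => by rw [← gg_lt i hi']
    · exact Finset.sum_congr rfl fun i hi' => by rw [← gg_lt i hi']
  · intro hlt
    obtain ⟨x, h1, h2, h3⟩ := hA.1 _ hlt
    refine ⟨x, h1, ?_, h3⟩
    rw [Finset.sum_sub_distrib] at h2
    linarith

/-- reading off, inequality mode, no witness needed -/
theorem read_ge0 {M κ k : ℤ} {lo hi h : ℕ} {g : ℕ → ℤ → ℤ} {b : ℕ → ℤ} {A : ℤ → ℤ}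
    (_hlohi : lo ≤ hi)
    (hb : BaseOK false M κ lo hi h g b) (hA : Inv0 M lo hi g b A) (hk : -1 ≤ k ∧ k ≤ 3) :
    (∀ x, Sel M lo hi g x → k ≤ ∑ c ∈ Ico lo hi, x c → ∃ o, |o| ≤ 12 ∧
      k - ∑ c ∈ Ico lo hi, b c ≤ o ∧ ∑ c ∈ Ico lo hi, g c (x c) ≤ A o) ∧
    (∀ o, k - ∑ c ∈ Ico lo hi, b c ≤ o → -M < A o → ∃ x, Sel M lo hi g x ∧
      k ≤ ∑ c ∈ Ico lo hi, x c ∧ ∑ c ∈ Ico lo hi, g c (x c) = A o) := by
  constructor
  · intro x hx hsum
    have hsel : Sel M lo hi (gg g g hi) x := fun i hi' => by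
      rw [← gg_lt i hi']; exact hx i hi'
    obtain ⟨x', h1, h2, h3, h4⟩ := window false M κ k lo hi h hi g g b x hb hk hsel
      (by simpa [Cnd] using hsum)
    have hsel' : Sel M lo hi g x' := fun i hi' => by
      have := h1 i hi'
      rwa [← gg_lt i hi'] at this
    have e1 := hA.2 x' hsel' h4
    refine ⟨∑ i ∈ Ico lo hi, (x' i - b i), h4 hi le_rfl, ?_, ?_⟩
    · rw [Finset.sum_sub_distrib]
      simp only [Cnd, Bool.false_eq_true, if_false] at h2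
      linarith
    · refine le_trans ?_ e1
      refine le_trans (le_of_eq ?_) (h3.trans (le_of_eq ?_))
      · exact Finset.sum_congr rfl fun i hi' => by rw [← gg_lt i hi']
      · exact Finset.sum_congr rfl fun i hi' => by rw [← gg_lt i hi']
  · intro o ho hlt
    obtain ⟨x, h1, h2, h3⟩ := hA.1 _ hlt
    refine ⟨x, h1, ?_, h3⟩
    rw [Finset.sum_sub_distrib] at h2
    linarith

/-- reading off, inequality mode, with a witness -/
theorem read_ge1 {M κ k : ℤ} {lo hi h : ℕ} {g w : ℕ → ℤ → ℤ} {b : ℕ → ℤ} {A : ℤ → ℤ}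
    (hb : BaseOK false M κ lo hi h g b) (hA : Inv1 M lo hi g w b A) (hk : -1 ≤ k ∧ k ≤ 3) :
    (∀ c0 ∈ Ico lo hi, ∀ x, Sel M lo hi (gg g w c0) x → k ≤ ∑ c ∈ Ico lo hi, x c → ∃ o, |o| ≤ 12 ∧
      k - ∑ c ∈ Ico lo hi, b c ≤ o ∧ ∑ c ∈ Ico lo hi, gg g w c0 c (x c) ≤ A o) ∧
    (∀ o, k - ∑ c ∈ Ico lo hi, b c ≤ o → -M < A o → ∃ c0 ∈ Ico lo hi, ∃ x,
      Sel M lo hi (gg g w c0) x ∧
      k ≤ ∑ c ∈ Ico lo hi, x c ∧ ∑ c ∈ Ico lo hi, gg g w c0 c (x c) = A o) := by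
  constructor
  · intro c0 hc0 x hx hsum
    obtain ⟨x', h1, h2, h3, h4⟩ := window false M κ k lo hi h c0 g w b x hb hk hx
      (by simpa [Cnd] using hsum)
    rw [Finset.mem_Ico] at hc0
    have e1 := hA.2 c0 hc0.1 hc0.2 x' h1 h4
    refine ⟨∑ i ∈ Ico lo hi, (x' i - b i), h4 hi le_rfl, ?_, h3.trans e1⟩
    rw [Finset.sum_sub_distrib]
    simp only [Cnd, Bool.false_eq_true, if_false] at h2
    linarith
  · intro o ho hlt
    obtain ⟨c0, hc0, hc0', x, h1, h2, h3⟩ := hA.1 _ hlt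
    refine ⟨c0, Finset.mem_Ico.mpr ⟨hc0, hc0'⟩, x, h1, ?_, h3⟩
    rw [Finset.sum_sub_distrib] at h2
    linarith

end Pool.Agent.Lib_helper87.UM
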