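import Pool.Agent.Lib_helper87.Level
import Pool.Agent.Lib_helper87.Dp
set_option autoImplicit false

namespace Pool.Agent.Lib_helper87.UM
open Finset

def kapE : Expr := .var 23 - (.smul 4 (.var 15) + .cst 2)
def kapC : Cmd := .set 30 (.cond (.var 48) (.cst 1) (.cond (.cst 0) kapE (.cst 0) kapE) kapE)
def xloE : Expr :=
  .cst (-1) + .cond (.var 30) (.var 35) (.cst 1) (.cst 0) + .cond (.var 30) (.var 36) (.cst 1) (.cst 0)
def xhiE : Expr :=
  .cst (-1) + .cond (.var 30 - .cst 1) (.var 35) (.cst 1) (.cst 0) +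
    .cond (.var 30 - .cst 1) (.var 36) (.cst 1) (.cst 0)

lemma xloE_eval (s : St) : xloE.eval s = xlo (s.v 30) (s.v 35) (s.v 36) := by
  simp [xloE, xlo]
lemma xhiE_eval (s : St) : xhiE.eval s = xhi (s.v 30) (s.v 35) (s.v 36) := by
  simp [xhiE, xhi]

lemma kapE_eval (s : St) : kapE.eval s = s.v 23 - (4 * s.v 15 + 2) := by simp [kapE]

/-- effect of `keysC` -/
lemma keysC_v (s : St) {y : ℕ} (h : y < 32 ∨ 36 < y) : (keysC.exec s).v y = s.v y := by
  rw [keysC_exec]
  simp only [St.setv_v]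
  rw [if_neg (by omega), if_neg (by omega), if_neg (by omega), if_neg (by omega), if_neg (by omega)]
lemma keysC_m (s : St) : (keysC.exec s).m = s.m := by rw [keysC_exec]; simp

def slB : Cmd := .ine (.var 12) (.var 16) (.seq keysC (.set 31 (.var 31 - xloE)))
def slC : Cmd := .seq (.set 31 (.cst 0)) (.seq (.set 12 (.var 10)) (Cmd.for_ 12 11 slB))

theorem slC_spec {X M : ℤ} {s : St} {lo hi h : ℕ} {σ κ : ℤ} (hlohi : lo ≤ hi)
    (hX : (hi : ℤ) ≤ X) (hMX : 4 * M ≤ X)
    (h10 : s.v 10 = lo) (h11 : s.v 11 = hi) (h16 : lo < hi → s.v 16 = h)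
    (h21 : s.v 21 = σ) (h30 : s.v 30 = κ)
    (hT : TabB M (s.m 5) σ lo hi) :
    Tr X slC s (12 * (hi - lo) + 3) (fun s' => s'.v 31 =
      - ∑ c ∈ Ico lo hi, (if c = h then 0 else xlo κ (gk1 (s.m 5) σ c) (gk2 (s.m 5) σ c))) := by
  have hloX : |(lo : ℤ)| ≤ X := by
    rw [abs_of_nonneg (by positivity)]
    have : (lo : ℤ) ≤ hi := by exact_mod_cast hlohi
    omega
  have hX0 : 0 ≤ X := (abs_nonneg _).trans hloX
  refine Tr.setS (τ2 := 12 * (hi - lo) + 2) (by simpa using hX0) ?_ (by omega)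
  refine Tr.setS (τ2 := 12 * (hi - lo) + 1) (by simpa [h10] using hloX) ?_ (by omega)
  refine Tr.forFc (by rfl) (by rfl) (by norm_num) (fun c st => st.v 31 =
    - ∑ c ∈ Ico lo c, (if c = h then 0 else xlo κ (gk1 (s.m 5) σ c) (gk2 (s.m 5) σ c)))
    10 lo hi hlohi hX (by simp [h10]) (by simp [h11]) (by simp) ?_ (by omega) ?_
  · intro c st hc1 hc2 hvc hvh hfv hfm hI
    have f16 : st.v 16 = h := by rw [hfv 16 rfl (by norm_num)]; simp [h16 (by omega)]
    have f21 : st.v 21 = σ := by rw [hfv 21 rfl (by norm_num)]; simp [h21]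
    have f30 : st.v 30 = κ := by rw [hfv 30 rfl (by norm_num)]; simp [h30]
    have f5 : st.m 5 = s.m 5 := by rw [hfm 5 rfl]; simp
    obtain ⟨t1, t2, t3⟩ := hT c (Finset.mem_Ico.mpr ⟨hc1, hc2⟩)
    refine Tr.ine (τ1 := 8) ?_ ?_ (by norm_num)
    · intro hne
      have hch : c ≠ h := by
        intro heq
        apply hne
        simp [hvc, f16, heq]
      have hkb : keysC.bd X st := by
        refine keysC_bd hMX ?_ ?_ ?_ <;> rw [f5, hvc, f21]
        · exact t1
        · exact t2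
        · exact t3
      have e35 : (keysC.exec st).v 35 = gk1 (s.m 5) σ c := by
        rw [keysC_exec]; simp [f5, hvc, f21, gk1]
      have e36 : (keysC.exec st).v 36 = gk2 (s.m 5) σ c := by
        rw [keysC_exec]; simp [f5, hvc, f21, gk2]
      have e30 : (keysC.exec st).v 30 = κ := by rw [keysC_v _ (by norm_num), f30]
      have e31 : (keysC.exec st).v 31 = st.v 31 := keysC_v _ (by norm_num)
      have hnew : (keysC.exec st).v 31 - xlo κ (gk1 (s.m 5) σ c) (gk2 (s.m 5) σ c) =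
          - ∑ c ∈ Ico lo (c + 1), (if c = h then 0 else xlo κ (gk1 (s.m 5) σ c) (gk2 (s.m 5) σ c)) := by
        rw [e31, hI, Finset.sum_Ico_succ_top hc1, if_neg hch]; ring
      refine Tr.sl ?_ (by decide) ?_
      · simp only [bd_seq, bd_set, ev_sub, ev_var, xloE_eval, e35, e36, e30]
        refine ⟨hkb, ?_⟩
        rw [hnew, abs_neg]
        refine (Finset.abs_sum_le_sum_abs _ _).trans ?_
        have : ∑ i ∈ Ico lo (c + 1), |if i = h then 0 else xlo κ (gk1 (s.m 5) σ i) (gk2 (s.m 5) σ i)| ≤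
            ∑ i ∈ Ico lo (c + 1), 1 := by
          apply Finset.sum_le_sum
          intro i _
          split_ifs
          · norm_num
          · rw [abs_le]; exact xlo_range _ _ _
        refine this.trans ?_
        simp only [Finset.sum_const, Nat.card_Ico]
        rw [nsmul_eq_mul, mul_one]
        have : ((c + 1 - lo : ℕ) : ℤ) ≤ hi := by
          exact_mod_cast (by omega : c + 1 - lo ≤ hi)
        omega
      · simp only [exec_seq, exec_set, ev_sub, ev_var, xloE_eval, e35, e36, e30, St.setv_v]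
        simp only [Nat.reduceEqDiff, if_false, if_true]
        exact hnew
    · intro heq
      have hch : c = h := by
        simp only [ev_var, hvc, f16] at heq
        exact_mod_cast heq
      simp only [St.setv_v]
      simp only [Nat.reduceEqDiff, if_false]
      rw [hI, Finset.sum_Ico_succ_top hc1, if_pos hch]; ring
  · intro s' hI _ _ _
    exact hI

/-- values of a child read off table 5, and off table 6 -/
def gF (m5 : ℤ → ℤ) (σ : ℤ) (c : ℕ) (y : ℤ) : ℤ := m5 (18 * (c : ℤ) + 6 * (y + 1) + σ)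
def wF (m6 : ℤ → ℤ) (a1 : ℤ) (c : ℕ) (y : ℤ) : ℤ := m6 (9 * (c : ℤ) + 3 * (y + 1) + a1)

lemma gk1_eq (m5 : ℤ → ℤ) (σ : ℤ) (c : ℕ) :
    gk1 m5 σ c = K1 (gF m5 σ c (-1)) (gF m5 σ c 0) (gF m5 σ c 1) := by
  unfold gk1 gF
  norm_num
lemma gk2_eq (m5 : ℤ → ℤ) (σ : ℤ) (c : ℕ) :
    gk2 m5 σ c = K2 (gF m5 σ c (-1)) (gF m5 σ c 0) (gF m5 σ c 1) := by
  unfold gk2 gF
  norm_num

def candE (a g : Expr) : Expr :=
  .cond (.var 50) a (.cond (.var 50) g (a + g) (.var 50)) (.var 50)

lemma candE_eval {s : St} {M : ℤ} (h : s.v 50 = -M) (a g : Expr) :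
    (candE a g).eval s = cand M (a.eval s) (g.eval s) := by
  simp only [candE, ev_cond, ev_var, ev_add, h, cand]

def st0E (A : Fin 16) (x y z : ℕ) : Expr :=
  .mx (candE (.ld A (.var 43 + .var 40 + .cst 1)) (.var x))
    (.mx (candE (.ld A (.var 43 + .var 40)) (.var y)) (candE (.ld A (.var 43 + .var 40 - .cst 1)) (.var z)))

/-- array view with offset 14 -/
def viewA (M : ℤ) (m : ℤ → ℤ) (o : ℤ) : ℤ := if |o| ≤ 12 then m (o + 14) else -M

def PadOK (M : ℤ) (m : ℤ → ℤ) : Prop := m 0 = -M ∧ m 1 = -M ∧ m 27 = -M ∧ m 28 = -M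

lemma viewA_eq {M : ℤ} {m : ℤ → ℤ} (h : PadOK M m) {o : ℤ} (h1 : -14 ≤ o) (h2 : o ≤ 14) :
    m (o + 14) = viewA M m o := by
  unfold viewA
  split_ifs with ho
  · rfl
  · rw [abs_le] at ho
    have : o = -14 ∨ o = -13 ∨ o = 13 ∨ o = 14 := by omega
    obtain ⟨p0, p1, p27, p28⟩ := h
    rcases this with rfl | rfl | rfl | rfl
    · exact p0
    · exact p1
    · exact p27
    · exact p28

lemma st0E_eval {s : St} {M : ℤ} (h50 : s.v 50 = -M) {A : Fin 16} {x y z : ℕ}
    (hpad : PadOK M (s.m A)) {o b : ℤ} (h43 : s.v 43 = o + 14) (h40 : s.v 40 = b) (ho : |o| ≤ 12)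
    (hb1 : -1 ≤ b) (hb2 : b ≤ 1) {v : ℤ → ℤ} (hx : s.v x = v (-1)) (hy : s.v y = v 0)
    (hz : s.v z = v 1) :
    (st0E A x y z).eval s = st0 M (viewA M (s.m A)) v b o := by
  rw [abs_le] at ho
  unfold st0E st0
  simp only [ev_mx, candE_eval h50, ev_ld, ev_add, ev_sub, ev_var, ev_cst, h43, h40, hx, hy, hz]
  rw [show o + 14 + b + 1 = (o + b + 1) + 14 by ring, show o + 14 + b = (o + b) + 14 by ring,
    show o + b + 14 - 1 = (o + b - 1) + 14 by ring,
    viewA_eq hpad (by omega) (by omega), viewA_eq hpad (by omega) (by omega),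
    viewA_eq hpad (by omega) (by omega)]

lemma cand_vb {M Z z a v : ℤ} (ha : VB M Z a) (hv : VB M z v) : VB M (Z + z) (cand M a v) := by
  unfold cand VB at *
  split_ifs
  · omega
  · exact Or.inl rfl
  · exact Or.inl rfl

lemma max_vb {M Z a b : ℤ} (ha : VB M Z a) (hb : VB M Z b) : VB M Z (max a b) := by
  unfold VB at *
  rcases max_cases a b with ⟨e, _⟩ | ⟨e, _⟩ <;> rw [e] <;> assumption

lemma st0_vb {M Z z b o : ℤ} {A v : ℤ → ℤ} (hA : ∀ o, VB M Z (A o))
    (hv : ∀ y, -1 ≤ y → y ≤ 1 → VB M z (v y)) : VB M (Z + z) (st0 M A v b o) := by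
  unfold st0
  exact max_vb (cand_vb (hA _) (hv _ (by norm_num) (by norm_num)))
    (max_vb (cand_vb (hA _) (hv _ (by norm_num) (by norm_num)))
      (cand_vb (hA _) (hv _ (by norm_num) (by norm_num))))

lemma vb_abs {M Z z : ℤ} (hZ : Z < M) (hM : 0 ≤ M) (h : VB M Z z) : |z| ≤ M := by
  unfold VB at h
  rw [abs_le]
  rcases h with h | h <;> constructor <;> omega

def dpInitC : Cmd :=
  .seq (.set 43 (.cst 0)) (.seq (.set 44 (.cst 29))
  (.seq (Cmd.for_ 43 44 (.seq (.put 8 (.var 43) (.var 50)) (.put 9 (.var 43) (.var 50))))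
    (.put 8 (.cst 14) (.cst 0))))

theorem dpInitC_spec {X M : ℤ} {s : St} (h50 : s.v 50 = -M) (hMX : M ≤ X) (hM : 29 ≤ X)
    (hM0 : 0 ≤ M) :
    Tr X dpInitC s 150 (fun s' => PadOK M (s'.m 8) ∧ PadOK M (s'.m 9) ∧
      (∀ o, viewA M (s'.m 8) o = if o = 0 then 0 else -M) ∧
      (∀ o, viewA M (s'.m 9) o = -M)) := by
  refine Tr.setS (τ2 := 149) (by simp; omega) ?_ (by norm_num)
  refine Tr.setS (τ2 := 148) (by simp; omega) ?_ (by norm_num)
  refine Tr.seq (τ1 := 147) (τ2 := 1) ?_ (by norm_num)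
  refine Tr.forFc (by rfl) (by rfl) (by norm_num)
    (fun k st => ∀ p : ℤ, 0 ≤ p → p < k → st.m 8 p = -M ∧ st.m 9 p = -M) 3 0 29 (by norm_num)
    (by exact_mod_cast hM) (by simp) (by simp) ?_ ?_ (by norm_num) ?_
  · intro p h1 h2
    simp at h2
    omega
  · intro k st _ hk hvk _ hfv hfm hI
    have f50 : st.v 50 = -M := by rw [hfv 50 rfl (by norm_num)]; simp [h50]
    refine Tr.sl ?_ (by decide) ?_
    · simp only [bd_seq, bd_put, ev_var, exec_put, St.setm_v, f50, abs_neg]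
      rw [abs_of_nonneg hM0]
      exact ⟨hMX, hMX⟩
    · intro p hp1 hp2
      simp only [exec_seq, exec_put, ev_var, St.setm_v, f50, hvk, St.setv_m, St.setm_m]
      push_cast at hp2
      rcases eq_or_ne p (k : ℤ) with h | h
      · simp [h]
      · have h3 := hI p hp1 (by omega)
        simp [h, h3]
  · intro s1 hI _ hfv hfm
    refine Tr.put (by simp; omega) le_rfl ?_
    simp only [ev_cst]
    have hp : ∀ p : ℤ, 0 ≤ p → p < 29 → p ≠ 14 → (s1.setm 8 14 0).m 8 p = -M := by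
      intro p h1 h2 h3
      rw [St.setm_m, if_neg (by rintro ⟨_, h⟩; exact h3 h)]
      exact (hI p h1 (by exact_mod_cast h2)).1
    have hq : ∀ p : ℤ, 0 ≤ p → p < 29 → (s1.setm 8 14 0).m 9 p = -M := by
      intro p h1 h2
      rw [St.setm_m, if_neg (by rintro ⟨h, _⟩; exact absurd h (by decide))]
      exact (hI p h1 (by exact_mod_cast h2)).2
    refine ⟨⟨?_, ?_, ?_, ?_⟩, ⟨?_, ?_, ?_, ?_⟩, ?_, ?_⟩
    · exact hp 0 (by norm_num) (by norm_num) (by norm_num)
    · exact hp 1 (by norm_num) (by norm_num) (by norm_num)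
    · exact hp 27 (by norm_num) (by norm_num) (by norm_num)
    · exact hp 28 (by norm_num) (by norm_num) (by norm_num)
    · exact hq 0 (by norm_num) (by norm_num)
    · exact hq 1 (by norm_num) (by norm_num)
    · exact hq 27 (by norm_num) (by norm_num)
    · exact hq 28 (by norm_num) (by norm_num)
    · intro o
      unfold viewA
      split_ifs with h1 h2 h2
      · subst h2; simp
      · rw [abs_le] at h1
        exact hp _ (by omega) (by omega) (by omega)
      · subst h2; simp at h1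
      · rfl
    · intro o
      unfold viewA
      split_ifs with h1
      · rw [abs_le] at h1
        exact hq _ (by omega) (by omega)
      · rfl

def loadwC : Cmd :=
  .seq (.set 37 (.ld 6 (.smul 9 (.var 12) + .var 47)))
  (.seq (.set 38 (.ld 6 (.smul 9 (.var 12) + .cst 3 + .var 47)))
    (.set 39 (.ld 6 (.smul 9 (.var 12) + .cst 6 + .var 47))))

def setbC : Cmd :=
  .seq (.set 40 (.cst 0)) (.ine (.var 12) (.var 16) (.seq (.set 41 xloE) (.seq (.set 42 xhiE)
    (.ite (.cst 0) (.var 31) (.seq (.set 40 (.var 42)) (.set 31 (.var 31 - (.var 42 - .var 41))))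
      (.set 40 (.var 41))))))

def oB : Cmd :=
  .seq (.put 10 (.var 43) (st0E 8 32 33 34))
    (.put 11 (.var 43) (.mx (st0E 9 32 33 34) (st0E 8 37 38 39)))
def cpB : Cmd := .seq (.put 8 (.var 43) (.ld 10 (.var 43))) (.put 9 (.var 43) (.ld 11 (.var 43)))

theorem oLoop_spec {X M Z z b : ℤ} {s : St} {v w : ℤ → ℤ} (hX : 29 ≤ X) (hMX : M ≤ X)
    (hM0 : 0 ≤ M)
    (h43 : s.v 43 = 2) (h44 : s.v 44 = 27) (h50 : s.v 50 = -M) (h40 : s.v 40 = b)
    (hb1 : -1 ≤ b) (hb2 : b ≤ 1)
    (hp8 : PadOK M (s.m 8)) (hp9 : PadOK M (s.m 9))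
    (h32 : s.v 32 = v (-1)) (h33 : s.v 33 = v 0) (h34 : s.v 34 = v 1)
    (h37 : s.v 37 = w (-1)) (h38 : s.v 38 = w 0) (h39 : s.v 39 = w 1)
    (hZ : Z + z < M) (hA0 : ∀ o, VB M Z (viewA M (s.m 8) o)) (hA1 : ∀ o, VB M Z (viewA M (s.m 9) o))
    (hv : ∀ y, -1 ≤ y → y ≤ 1 → VB M z (v y)) (hw : ∀ y, -1 ≤ y → y ≤ 1 → VB M z (w y)) :
    Tr X (Cmd.for_ 43 44 oB) s 101 (fun s' => ∀ o : ℤ, |o| ≤ 12 →
      s'.m 10 (o + 14) = st0 M (viewA M (s.m 8)) v b o ∧
      s'.m 11 (o + 14) = max (st0 M (viewA M (s.m 9)) v b o) (st0 M (viewA M (s.m 8)) w b o)) := by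
  refine Tr.forFc (by rfl) (by rfl) (by norm_num)
    (fun k st => ∀ o : ℤ, |o| ≤ 12 → o + 14 < k →
      st.m 10 (o + 14) = st0 M (viewA M (s.m 8)) v b o ∧
      st.m 11 (o + 14) = max (st0 M (viewA M (s.m 9)) v b o) (st0 M (viewA M (s.m 8)) w b o)) 2 2 27
    (by norm_num) (by push_cast; omega) (by simpa using h43) (by simpa using h44) ?_ ?_ (by norm_num) ?_
  · intro o ho h2
    rw [abs_le] at ho
    push_cast at h2
    omega
  · intro k st hk1 hk hvk _ hfv hfm hI
    have f (y : ℕ) (h : oB.mv y = false) (h' : y ≠ 43) : st.v y = s.v y := hfv y h h'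
    have f8 : st.m 8 = s.m 8 := hfm 8 rfl
    have f9 : st.m 9 = s.m 9 := hfm 9 rfl
    set o : ℤ := k - 14 with ho
    have hko : (k : ℤ) = o + 14 := by omega
    have habs : |o| ≤ 12 := by rw [abs_le]; constructor <;> omega
    have e1 : (st0E 8 32 33 34).eval st = st0 M (viewA M (s.m 8)) v b o := by
      rw [← f8]
      exact st0E_eval (by rw [f 50 rfl (by norm_num), h50]) (by rw [f8]; exact hp8)
        (by rw [hvk, hko]) (by rw [f 40 rfl (by norm_num), h40]) habs hb1 hb2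
        (by rw [f 32 rfl (by norm_num), h32]) (by rw [f 33 rfl (by norm_num), h33])
        (by rw [f 34 rfl (by norm_num), h34])
    have e2 : ∀ st' : St, st'.v = st.v → st'.m 8 = st.m 8 → st'.m 9 = st.m 9 →
        (st0E 9 32 33 34).eval st' = st0 M (viewA M (s.m 9)) v b o ∧
        (st0E 8 37 38 39).eval st' = st0 M (viewA M (s.m 8)) w b o := by
      intro st' g1 g2 g3
      constructor
      · rw [← f9, ← g3]
        exact st0E_eval (by rw [g1, f 50 rfl (by norm_num), h50]) (by rw [g3, f9]; exact hp9)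
          (by rw [g1, hvk, hko]) (by rw [g1, f 40 rfl (by norm_num), h40]) habs hb1 hb2
          (by rw [g1, f 32 rfl (by norm_num), h32]) (by rw [g1, f 33 rfl (by norm_num), h33])
          (by rw [g1, f 34 rfl (by norm_num), h34])
      · rw [← f8, ← g2]
        exact st0E_eval (by rw [g1, f 50 rfl (by norm_num), h50]) (by rw [g2, f8]; exact hp8)
          (by rw [g1, hvk, hko]) (by rw [g1, f 40 rfl (by norm_num), h40]) habs hb1 hb2
          (by rw [g1, f 37 rfl (by norm_num), h37]) (by rw [g1, f 38 rfl (by norm_num), h38])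
          (by rw [g1, f 39 rfl (by norm_num), h39])
    set r0 := st0 M (viewA M (s.m 8)) v b o with hr0
    set st1 : St := st.setm 10 (o + 14) r0 with hst1
    have g8 : st1.m 8 = st.m 8 := by
      funext i; rw [hst1, St.setm_m, if_neg (by rintro ⟨h, _⟩; exact absurd h (by decide))]
    have g9 : st1.m 9 = st.m 9 := by
      funext i; rw [hst1, St.setm_m, if_neg (by rintro ⟨h, _⟩; exact absurd h (by decide))]
    obtain ⟨e3, e4⟩ := e2 st1 (by rw [hst1, St.setm_v]) g8 g9
    have hb0 : VB M (Z + z) r0 := st0_vb hA0 hv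
    have hb3 : VB M (Z + z) (st0 M (viewA M (s.m 9)) v b o) := st0_vb hA1 hv
    have hb4 : VB M (Z + z) (st0 M (viewA M (s.m 8)) w b o) := st0_vb hA0 hw
    refine Tr.sl ?_ (by decide) ?_
    · simp only [oB, bd_seq, bd_put, exec_put, ev_var, hvk, hko, e1, ev_mx]
      rw [← hst1, e3, e4]
      exact ⟨(vb_abs hZ hM0 hb0).trans hMX, (vb_abs hZ hM0 (max_vb hb3 hb4)).trans hMX⟩
    · intro o' ho' hlt
      have hv43 : st1.v 43 = o + 14 := by rw [hst1, St.setm_v, hvk, hko]
      simp only [oB, exec_seq, exec_put, ev_var, hvk, hko, e1, ev_mx, St.setv_m]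
      rw [← hst1, e3, e4, hv43]
      simp only [St.setm_m]
      push_cast at hlt
      have d1 : (10 : Fin 16) ≠ 11 := by decide
      have d2 : (11 : Fin 16) ≠ 10 := by decide
      rcases eq_or_ne o' o with h | h
      · subst h
        constructor
        · rw [if_neg (fun h => d1 h.1), hst1, St.setm_m, if_pos ⟨rfl, rfl⟩]
        · rw [if_pos ⟨trivial, rfl⟩]
      · have h3 := hI o' ho' (by omega)
        have hne : o' + 14 ≠ o + 14 := by omega
        constructor
        · rw [if_neg (fun h => d1 h.1), hst1, St.setm_m, if_neg (fun h => hne h.2)]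
          exact h3.1
        · rw [if_neg (fun h => hne h.2), hst1, St.setm_m, if_neg (fun h => d2 h.1)]
          exact h3.2
  · intro s' hI _ _ _ o ho
    refine hI o ho ?_
    rw [abs_le] at ho
    push_cast
    omega

theorem cpLoop_spec {X : ℤ} {s : St} (hX : 29 ≤ X)
    (h43 : s.v 43 = 2) (h44 : s.v 44 = 27)
    (hb : ∀ o : ℤ, |o| ≤ 12 → |s.m 10 (o + 14)| ≤ X ∧ |s.m 11 (o + 14)| ≤ X) :
    Tr X (Cmd.for_ 43 44 cpB) s 101 (fun s' =>
      (∀ o : ℤ, |o| ≤ 12 → s'.m 8 (o + 14) = s.m 10 (o + 14) ∧ s'.m 9 (o + 14) = s.m 11 (o + 14)) ∧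
      (∀ p : ℤ, p < 2 ∨ 27 ≤ p → s'.m 8 p = s.m 8 p ∧ s'.m 9 p = s.m 9 p)) := by
  refine Tr.forFc (by rfl) (by rfl) (by norm_num)
    (fun k st => (∀ o : ℤ, |o| ≤ 12 → o + 14 < k → st.m 8 (o + 14) = s.m 10 (o + 14) ∧
      st.m 9 (o + 14) = s.m 11 (o + 14)) ∧
      (∀ p : ℤ, p < 2 ∨ 27 ≤ p → st.m 8 p = s.m 8 p ∧ st.m 9 p = s.m 9 p)) 2 2 27
    (by norm_num) (by push_cast; omega) (by simpa using h43) (by simpa using h44) ?_ ?_ (by norm_num) ?_
  · refine ⟨fun o ho h2 => ?_, fun p _ => ⟨rfl, rfl⟩⟩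
    rw [abs_le] at ho
    push_cast at h2
    omega
  · intro k st hk1 hk hvk _ hfv hfm hI
    have f10 : st.m 10 = s.m 10 := hfm 10 rfl
    have f11 : st.m 11 = s.m 11 := hfm 11 rfl
    set o : ℤ := k - 14 with ho
    have hko : (k : ℤ) = o + 14 := by omega
    have habs : |o| ≤ 12 := by rw [abs_le]; constructor <;> omega
    have d1 : (8 : Fin 16) ≠ 9 := by decide
    have d2 : (9 : Fin 16) ≠ 8 := by decide
    have d3 : (11 : Fin 16) ≠ 8 := by decide
    have hm11 : (st.setm 8 (o + 14) (s.m 10 (o + 14))).m 11 (o + 14) = s.m 11 (o + 14) := by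
      rw [St.setm_m, if_neg (fun h => d3 h.1), f11]
    refine Tr.sl ?_ (by decide) ?_
    · simp only [cpB, bd_seq, bd_put, ev_ld, ev_var, exec_put, hvk, hko, f10, St.setm_v, hm11]
      exact hb o habs
    · simp only [cpB, exec_seq, exec_put, ev_ld, ev_var, hvk, hko, f10, St.setm_v, hm11, St.setv_m]
      constructor
      · intro o' ho' hlt
        push_cast at hlt
        rcases eq_or_ne o' o with h | h
        · subst h
          constructor
          · rw [St.setm_m, if_neg (fun h => d1 h.1), St.setm_m, if_pos ⟨rfl, rfl⟩]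
          · rw [St.setm_m, if_pos ⟨rfl, rfl⟩]
        · have h3 := hI.1 o' ho' (by omega)
          have hne : o' + 14 ≠ o + 14 := by omega
          constructor
          · rw [St.setm_m, if_neg (fun h => d1 h.1), St.setm_m, if_neg (fun h => hne h.2)]
            exact h3.1
          · rw [St.setm_m, if_neg (fun h => hne h.2), St.setm_m, if_neg (fun h => hne h.2)]
            exact h3.2
      · intro p hp
        have h3 := hI.2 p hp
        have hne : p ≠ o + 14 := by omega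
        constructor
        · rw [St.setm_m, if_neg (fun h => hne h.2), St.setm_m, if_neg (fun h => hne h.2)]
          exact h3.1
        · rw [St.setm_m, if_neg (fun h => hne h.2), St.setm_m, if_neg (fun h => hne h.2)]
          exact h3.2
  · intro s' hI _ _ _
    refine ⟨fun o ho => hI.1 o ho ?_, hI.2⟩
    rw [abs_le] at ho
    push_cast
    omega

def dpB : Cmd :=
  .seq (.seq keysC (.seq loadwC setbC)) (.seq (.seq (.set 43 (.cst 2)) (.set 44 (.cst 27)))
    (.seq (Cmd.for_ 43 44 oB) (.seq (.set 43 (.cst 2)) (Cmd.for_ 43 44 cpB))))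
def dpC : Cmd := .seq (.set 12 (.var 10)) (Cmd.for_ 12 11 dpB)

/-- the straight line part of the child step -/
lemma prep_spec {X M : ℤ} {s : St} {c h : ℕ} {σ κ a1 nd : ℤ} (h12 : s.v 12 = c)
    (h16 : s.v 16 = h) (h21 : s.v 21 = σ) (h30 : s.v 30 = κ) (h47 : s.v 47 = a1)
    (h31 : s.v 31 = nd) (hMX : 4 * M ≤ X) (hX1 : 1 ≤ X) (hnd : |nd| + 2 ≤ X)
    (hg : ∀ y, -1 ≤ y → y ≤ 1 → |gF (s.m 5) σ c y| ≤ M)
    (hw : ∀ y, -1 ≤ y → y ≤ 1 → |wF (s.m 6) a1 c y| ≤ M) :
    Tr X (.seq keysC (.seq loadwC setbC)) s 30 (fun s' =>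
      s'.v 32 = gF (s.m 5) σ c (-1) ∧ s'.v 33 = gF (s.m 5) σ c 0 ∧ s'.v 34 = gF (s.m 5) σ c 1 ∧
      s'.v 37 = wF (s.m 6) a1 c (-1) ∧ s'.v 38 = wF (s.m 6) a1 c 0 ∧ s'.v 39 = wF (s.m 6) a1 c 1 ∧
      s'.v 40 = (if c = h then 0 else if 0 < nd then xhi κ (gk1 (s.m 5) σ c) (gk2 (s.m 5) σ c)
        else xlo κ (gk1 (s.m 5) σ c) (gk2 (s.m 5) σ c)) ∧
      s'.v 31 = (if c = h then nd else if 0 < nd then nd - (xhi κ (gk1 (s.m 5) σ c) (gk2 (s.m 5) σ c)
        - xlo κ (gk1 (s.m 5) σ c) (gk2 (s.m 5) σ c)) else nd)) := by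
  have a1' := hg (-1) (by norm_num) (by norm_num)
  have a2' := hg 0 (by norm_num) (by norm_num)
  have a3' := hg 1 (by norm_num) (by norm_num)
  have b1' := hw (-1) (by norm_num) (by norm_num)
  have b2' := hw 0 (by norm_num) (by norm_num)
  have b3' := hw 1 (by norm_num) (by norm_num)
  have hM0 : 0 ≤ M := (abs_nonneg _).trans a1'
  have g1 : gF (s.m 5) σ c (-1) = s.m 5 (18 * c + σ) := by unfold gF; norm_num
  have g2 : gF (s.m 5) σ c 0 = s.m 5 (18 * c + 6 + σ) := by unfold gF; norm_num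
  have g3 : gF (s.m 5) σ c 1 = s.m 5 (18 * c + 12 + σ) := by unfold gF; norm_num
  have w1 : wF (s.m 6) a1 c (-1) = s.m 6 (9 * c + a1) := by unfold wF; norm_num
  have w2 : wF (s.m 6) a1 c 0 = s.m 6 (9 * c + 3 + a1) := by unfold wF; norm_num
  have w3 : wF (s.m 6) a1 c 1 = s.m 6 (9 * c + 6 + a1) := by unfold wF; norm_num
  rw [g1] at a1'
  rw [g2] at a2'
  rw [g3] at a3'
  rw [w1] at b1'
  rw [w2] at b2'
  rw [w3] at b3'
  have hkb : keysC.bd X s := by
    refine keysC_bd hMX ?_ ?_ ?_ <;> rw [h12, h21]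
    · exact a1'
    · exact a2'
    · exact a3'
  set s1 := keysC.exec s with hs1
  have e32 : s1.v 32 = s.m 5 (18 * c + σ) := by rw [hs1, keysC_exec]; simp [h12, h21]
  have e33 : s1.v 33 = s.m 5 (18 * c + 6 + σ) := by rw [hs1, keysC_exec]; simp [h12, h21]
  have e34 : s1.v 34 = s.m 5 (18 * c + 12 + σ) := by rw [hs1, keysC_exec]; simp [h12, h21]
  have e35 : s1.v 35 = gk1 (s.m 5) σ c := by rw [hs1, keysC_exec]; simp [h12, h21, gk1]
  have e36 : s1.v 36 = gk2 (s.m 5) σ c := by rw [hs1, keysC_exec]; simp [h12, h21, gk2]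
  have e12 : s1.v 12 = c := by rw [hs1, keysC_v _ (by norm_num), h12]
  have e16 : s1.v 16 = h := by rw [hs1, keysC_v _ (by norm_num), h16]
  have e47 : s1.v 47 = a1 := by rw [hs1, keysC_v _ (by norm_num), h47]
  have e30 : s1.v 30 = κ := by rw [hs1, keysC_v _ (by norm_num), h30]
  have e31 : s1.v 31 = nd := by rw [hs1, keysC_v _ (by norm_num), h31]
  have em : s1.m = s.m := keysC_m s
  have hlw : loadwC.exec s1 = ((s1.setv 37 (s.m 6 (9 * c + a1))).setv 38 (s.m 6 (9 * c + 3 + a1))).setv 39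
      (s.m 6 (9 * c + 6 + a1)) := by
    simp [loadwC, e12, e47, em]
  set s2 := loadwC.exec s1 with hs2
  have f (y : ℕ) (h : y < 37 ∨ 39 < y) : s2.v y = s1.v y := by
    rw [hlw]
    simp only [St.setv_v]
    rw [if_neg (by omega), if_neg (by omega), if_neg (by omega)]
  have r1 := xlo_range κ (gk1 (s.m 5) σ c) (gk2 (s.m 5) σ c)
  have r2 := xhi_range κ (gk1 (s.m 5) σ c) (gk2 (s.m 5) σ c)
  have p12 : s2.v 12 = c := by rw [f 12 (by norm_num), e12]
  have p16 : s2.v 16 = h := by rw [f 16 (by norm_num), e16]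
  have p30 : s2.v 30 = κ := by rw [f 30 (by norm_num), e30]
  have p31 : s2.v 31 = nd := by rw [f 31 (by norm_num), e31]
  have p35 : s2.v 35 = gk1 (s.m 5) σ c := by rw [f 35 (by norm_num), e35]
  have p36 : s2.v 36 = gk2 (s.m 5) σ c := by rw [f 36 (by norm_num), e36]
  have p32 : s2.v 32 = gF (s.m 5) σ c (-1) := by rw [f 32 (by norm_num), e32, g1]
  have p33 : s2.v 33 = gF (s.m 5) σ c 0 := by rw [f 33 (by norm_num), e33, g2]
  have p34 : s2.v 34 = gF (s.m 5) σ c 1 := by rw [f 34 (by norm_num), e34, g3]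
  have p37 : s2.v 37 = wF (s.m 6) a1 c (-1) := by rw [hlw, w1]; simp
  have p38 : s2.v 38 = wF (s.m 6) a1 c 0 := by rw [hlw, w2]; simp
  have p39 : s2.v 39 = wF (s.m 6) a1 c 1 := by rw [hlw, w3]; simp
  refine Tr.seq (τ1 := 5) (τ2 := 20) ?_ (by norm_num)
  have hcost : keysC.cost = 5 := rfl
  refine Tr.sl hkb (by rw [hcost]) ?_
  refine Tr.seq (τ1 := 3) (τ2 := 15) ?_ (by norm_num)
  refine Tr.sl ?_ (by decide) ?_
  · rw [← hs1]
    simp only [loadwC, bd_seq, bd_set, ev_ld, ev_add, ev_smul, ev_var, ev_cst, exec_set, St.setv_v,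
      St.setv_m]
    simp only [Nat.reduceEqDiff, if_false, e12, e47, em]
    refine ⟨b1'.trans (by linarith), b2'.trans (by linarith), b3'.trans (by linarith)⟩
  · rw [← hs1, ← hs2]
    refine Tr.setS (τ2 := 14) (by simp; omega) ?_ (by norm_num)
    set s3 := s2.setv 40 0 with hs3
    have q (y : ℕ) (h : y ≠ 40) : s3.v y = s2.v y := by rw [hs3, St.setv_v, if_neg h]
    refine Tr.ine (τ1 := 10) ?_ ?_ (by norm_num)
    · intro hne
      have hch : c ≠ h := by
        intro heq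
        apply hne
        simp only [ev_var]
        rw [show ((s2.setv 40 ((Expr.cst 0).eval s2)).v 12) = s2.v 12 by simp,
          show ((s2.setv 40 ((Expr.cst 0).eval s2)).v 16) = s2.v 16 by simp, p12, p16, heq]
      simp only [ev_cst]
      rw [← hs3]
      have hlo : xloE.eval s3 = xlo κ (gk1 (s.m 5) σ c) (gk2 (s.m 5) σ c) := by
        rw [xloE_eval, q 30 (by norm_num), q 35 (by norm_num), q 36 (by norm_num), p30, p35, p36]
      refine Tr.setS (τ2 := 9) (by rw [hlo, abs_le]; constructor <;> omega) ?_ (by norm_num)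
      rw [hlo]
      set L := xlo κ (gk1 (s.m 5) σ c) (gk2 (s.m 5) σ c) with hL
      set H := xhi κ (gk1 (s.m 5) σ c) (gk2 (s.m 5) σ c) with hH
      have hhi : xhiE.eval (s3.setv 41 L) = H := by
        rw [xhiE_eval]
        simp only [St.setv_v]
        simp only [Nat.reduceEqDiff, if_false]
        rw [q 30 (by norm_num), q 35 (by norm_num), q 36 (by norm_num), p30, p35, p36]
      refine Tr.setS (τ2 := 8) (by rw [hhi, abs_le]; constructor <;> omega) ?_ (by norm_num)
      rw [hhi]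
      have hv31 : ((s3.setv 41 L).setv 42 H).v 31 = nd := by
        simp only [St.setv_v]
        simp only [Nat.reduceEqDiff, if_false]
        rw [q 31 (by norm_num), p31]
      refine Tr.ite (τ1 := 5) ?_ ?_ (by norm_num)
      · intro hpos
        simp only [ev_cst, ev_var, hv31] at hpos
        refine Tr.sl ?_ (by decide) ?_
        · simp only [bd_seq, bd_set, ev_var, ev_sub, exec_set, St.setv_v]
          simp only [Nat.reduceEqDiff, if_false, if_true]
          rw [q 31 (by norm_num), p31]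
          rw [abs_of_pos hpos] at hnd
          refine ⟨by rw [abs_le]; constructor <;> omega, by rw [abs_le]; constructor <;> omega⟩
        · simp only [exec_seq, exec_set, ev_var, ev_sub, St.setv_v]
          simp only [Nat.reduceEqDiff, if_false, if_true]
          rw [q 32 (by norm_num), q 33 (by norm_num), q 34 (by norm_num), q 37 (by norm_num),
            q 38 (by norm_num), q 39 (by norm_num), q 31 (by norm_num), p31, if_neg hch,
            if_neg hch, if_pos hpos, if_pos hpos]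
          exact ⟨p32, p33, p34, p37, p38, p39, rfl, rfl⟩
      · intro hpos
        simp only [ev_cst, ev_var, hv31] at hpos
        refine Tr.sl ?_ (by decide) ?_
        · simp only [bd_set, ev_var, St.setv_v]
          simp only [Nat.reduceEqDiff, if_false, if_true]
          rw [abs_le]; constructor <;> omega
        · simp only [exec_set, ev_var, St.setv_v]
          simp only [Nat.reduceEqDiff, if_false, if_true]
          rw [q 32 (by norm_num), q 33 (by norm_num), q 34 (by norm_num), q 37 (by norm_num),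
            q 38 (by norm_num), q 39 (by norm_num), q 31 (by norm_num), p31, if_neg hch,
            if_neg hch, if_neg hpos, if_neg hpos]
          exact ⟨p32, p33, p34, p37, p38, p39, rfl, rfl⟩
    · intro heq
      simp only [ev_cst] at heq ⊢
      rw [← hs3] at heq ⊢
      simp only [ev_var] at heq
      rw [q 12 (by norm_num), q 16 (by norm_num), p12, p16] at heq
      have hch : c = h := by exact_mod_cast heq
      rw [q 32 (by norm_num), q 33 (by norm_num), q 34 (by norm_num), q 37 (by norm_num),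
            q 38 (by norm_num), q 39 (by norm_num), q 31 (by norm_num), p31, if_pos hch,
            if_pos hch]
      exact ⟨p32, p33, p34, p37, p38, p39, by simp [hs3], rfl⟩

lemma sel_sum_bound {M : ℤ} {lo c : ℕ} {G : ℕ → ℤ → ℤ} {sz : ℕ → ℤ}
    (hG : ∀ i ∈ Ico lo c, ∀ y, -1 ≤ y → y ≤ 1 → VB M (sz i) (G i y))
    {x : ℕ → ℤ} (hx : Sel M lo c G x) :
    |∑ i ∈ Ico lo c, G i (x i)| ≤ ∑ i ∈ Ico lo c, sz i := by
  refine (Finset.abs_sum_le_sum_abs _ _).trans (Finset.sum_le_sum fun i hi => ?_)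
  obtain ⟨h1, h2, h3⟩ := hx i hi
  have := hG i hi (x i) h1 h2
  unfold VB at this
  rw [abs_le]
  omega

lemma gg_vb {M : ℤ} {lo c : ℕ} {g w : ℕ → ℤ → ℤ} {sz : ℕ → ℤ}
    (hg : ∀ i ∈ Ico lo c, ∀ y, -1 ≤ y → y ≤ 1 → VB M (sz i) (g i y))
    (hw : ∀ i ∈ Ico lo c, ∀ y, -1 ≤ y → y ≤ 1 → VB M (sz i) (w i y)) (c0 : ℕ) :
    ∀ i ∈ Ico lo c, ∀ y, -1 ≤ y → y ≤ 1 → VB M (sz i) (gg g w c0 i y) := by
  intro i hi y h1 h2
  unfold gg
  split_ifs
  · exact hw i hi y h1 h2
  · exact hg i hi y h1 h2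

lemma needF_abs (h lo : ℕ) (L H : ℕ → ℤ) (n0 : ℤ) (j : ℕ)
    (h1 : ∀ i, L i ≤ H i) (h2 : ∀ i, H i - L i ≤ 2) : |needF h lo L H n0 j| ≤ |n0| + 2 * j := by
  induction j with
  | zero => simp [needF]
  | succ j ih =>
    have e1 := h1 (lo + j)
    have e2 := h2 (lo + j)
    simp only [needF]
    push_cast
    split_ifs
    · linarith
    · have : |needF h lo L H n0 j - (H (lo + j) - L (lo + j))| ≤
        |needF h lo L H n0 j| + |H (lo + j) - L (lo + j)| := abs_sub _ _
      have e3 : |H (lo + j) - L (lo + j)| ≤ 2 := by rw [abs_le]; constructor <;> omega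
      linarith
    · linarith

theorem dpC_spec {X M : ℤ} {s : St} {lo hi h : ℕ} {σ κ a1 n0 : ℤ} {sz : ℕ → ℤ} (hlohi : lo ≤ hi)
    (hX : (hi : ℤ) ≤ X) (hX29 : 29 ≤ X) (hMX : 4 * M ≤ X) (hM0 : 0 ≤ M)
    (h10 : s.v 10 = lo) (h11 : s.v 11 = hi) (h16 : lo < hi → s.v 16 = h)
    (h21 : s.v 21 = σ) (h30 : s.v 30 = κ) (h47 : s.v 47 = a1) (h50 : s.v 50 = -M)
    (h31 : s.v 31 = n0) (hn0 : |n0| + 2 * ((hi : ℤ) - lo) + 2 ≤ X)
    (hsz : ∀ c ∈ Ico lo hi, 0 ≤ sz c) (hZ : ∑ c ∈ Ico lo hi, sz c < M)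
    (hg : ∀ c ∈ Ico lo hi, ∀ y, -1 ≤ y → y ≤ 1 → VB M (sz c) (gF (s.m 5) σ c y))
    (hw : ∀ c ∈ Ico lo hi, ∀ y, -1 ≤ y → y ≤ 1 → VB M (sz c) (wF (s.m 6) a1 c y))
    (hp8 : PadOK M (s.m 8)) (hp9 : PadOK M (s.m 9))
    (hA0 : ∀ o, viewA M (s.m 8) o = if o = 0 then 0 else -M)
    (hA1 : ∀ o, viewA M (s.m 9) o = -M)
    (L H : ℕ → ℤ) (hL : ∀ c, L c = xlo κ (gk1 (s.m 5) σ c) (gk2 (s.m 5) σ c))
    (hH : ∀ c, H c = xhi κ (gk1 (s.m 5) σ c) (gk2 (s.m 5) σ c)) :
    Tr X dpC s (250 * (hi - lo) + 2) (fun s' =>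
      Inv0 M lo hi (gF (s.m 5) σ) (baseF h lo L H n0) (viewA M (s'.m 8)) ∧
      Inv1 M lo hi (gF (s.m 5) σ) (wF (s.m 6) a1) (baseF h lo L H n0) (viewA M (s'.m 9)) ∧
      PadOK M (s'.m 8) ∧ PadOK M (s'.m 9) ∧
      (∀ o, VB M (∑ c ∈ Ico lo hi, sz c) (viewA M (s'.m 8) o)) ∧
      (∀ o, VB M (∑ c ∈ Ico lo hi, sz c) (viewA M (s'.m 9) o)) ∧
      s'.v 31 = needF h lo L H n0 (hi - lo)) := by
  have hloX : |(lo : ℤ)| ≤ X := by
    rw [abs_of_nonneg (by positivity)]
    have : (lo : ℤ) ≤ hi := by exact_mod_cast hlohi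
    omega
  refine Tr.setS (τ2 := 250 * (hi - lo) + 1) (by simpa [h10] using hloX) ?_ (by omega)
  simp only [ev_var, h10]
  set g := gF (s.m 5) σ with hgdef
  set w := wF (s.m 6) a1 with hwdef
  set b := baseF h lo L H n0 with hbdef
  have hLH : ∀ i, L i ≤ H i := fun i => by rw [hL, hH]; exact xlo_le_xhi _ _ _
  have hLH2 : ∀ i, H i - L i ≤ 2 := fun i => by
    rw [hL, hH]
    have e1 := xlo_range κ (gk1 (s.m 5) σ i) (gk2 (s.m 5) σ i)
    have e2 := xhi_range κ (gk1 (s.m 5) σ i) (gk2 (s.m 5) σ i)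
    omega
  have hsub : ∀ c, c ≤ hi → ∀ i ∈ Ico lo c, i ∈ Ico lo hi := by
    intro c hc i hi'
    rw [Finset.mem_Ico] at hi' ⊢
    omega
  have hZc : ∀ c, c ≤ hi → ∑ i ∈ Ico lo c, sz i < M := by
    intro c hc
    refine lt_of_le_of_lt ?_ hZ
    exact Finset.sum_le_sum_of_subset_of_nonneg (Finset.Ico_subset_Ico_right hc)
      fun i hi' _ => hsz i hi'
  refine Tr.forFc (by rfl) (by rfl) (by norm_num) (fun c st =>
      Inv0 M lo c g b (viewA M (st.m 8)) ∧
      Inv1 M lo c g w b (viewA M (st.m 9)) ∧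
      PadOK M (st.m 8) ∧ PadOK M (st.m 9) ∧
      (∀ o, VB M (∑ i ∈ Ico lo c, sz i) (viewA M (st.m 8) o)) ∧
      (∀ o, VB M (∑ i ∈ Ico lo c, sz i) (viewA M (st.m 9) o)) ∧
      st.v 31 = needF h lo L H n0 (c - lo)) 240 lo hi hlohi hX
    (by simp) (by simp [h11]) ?_ ?_ (by omega) ?_
  · refine ⟨inv0_init (by simpa using hA0), inv1_init (by simpa using hA1), by simpa using hp8,
      by simpa using hp9, ?_, ?_, by simp [h31, needF]⟩
    · intro o
      simp only [Finset.Ico_self, Finset.sum_empty, St.setv_m, hA0 o]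
      unfold VB
      split_ifs <;> simp
    · intro o
      simp only [St.setv_m, hA1 o]
      exact Or.inl rfl
  · intro c st hc1 hc2 hvc hvh hfv hfm hI
    obtain ⟨i0, i1, i8, i9, iv8, iv9, i31⟩ := hI
    have fv (y : ℕ) (hy : dpB.mv y = false) (hy' : y ≠ 12) : st.v y = s.v y := by
      rw [hfv y hy hy']; simp [hy']
    have f5 : st.m 5 = s.m 5 := by rw [hfm 5 rfl]; simp
    have f6 : st.m 6 = s.m 6 := by rw [hfm 6 rfl]; simp
    have f16 : st.v 16 = h := by rw [fv 16 rfl (by norm_num), h16 (by omega)]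
    have f21 : st.v 21 = σ := by rw [fv 21 rfl (by norm_num), h21]
    have f30 : st.v 30 = κ := by rw [fv 30 rfl (by norm_num), h30]
    have f47 : st.v 47 = a1 := by rw [fv 47 rfl (by norm_num), h47]
    have f50 : st.v 50 = -M := by rw [fv 50 rfl (by norm_num), h50]
    have hcmem : c ∈ Ico lo hi := Finset.mem_Ico.mpr ⟨hc1, hc2⟩
    have hszc := hsz c hcmem
    have hszM : sz c < M := by
      refine lt_of_le_of_lt ?_ hZ
      exact Finset.single_le_sum (f := sz) (fun i hi' => hsz i hi') hcmem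
    have hnd := needF_abs h lo L H n0 (c - lo) hLH hLH2
    have hcl : ((c - lo : ℕ) : ℤ) ≤ (hi : ℤ) - lo := by
      rw [Nat.cast_sub hc1]
      have : (c : ℤ) ≤ hi := by exact_mod_cast hc2.le
      omega
    have hZ' := hZc (c + 1) hc2
    rw [Finset.sum_Ico_succ_top hc1] at hZ'
    have hZ0 : 0 ≤ ∑ i ∈ Ico lo c, sz i := Finset.sum_nonneg fun i hi' => hsz i (hsub c hc2.le i hi')
    -- straight line part
    refine Tr.seqF (prep_spec (X := X) (M := M) (c := c) (h := h) (σ := σ) (κ := κ) (a1 := a1)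
      (nd := needF h lo L H n0 (c - lo)) hvc f16 f21 f30 f47 i31 hMX (by omega) (by omega)
      (fun y hy1 hy2 => by rw [f5]; exact vb_abs hszM hM0 (hg c hcmem y hy1 hy2))
      (fun y hy1 hy2 => by rw [f6]; exact vb_abs hszM hM0 (hw c hcmem y hy1 hy2)))
      (τ2 := 210) ?_ (by norm_num)
    intro s1 q1 fv1 fm1
    rw [f5, f6] at q1
    obtain ⟨q32, q33, q34, q37, q38, q39, q40, q31⟩ := q1
    have hbc : b c = s1.v 40 := by
      rw [q40, hbdef]
      unfold baseF
      rw [hL, hH]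
    have hneed : s1.v 31 = needF h lo L H n0 (c + 1 - lo) := by
      rw [q31, show c + 1 - lo = (c - lo) + 1 by omega]
      simp only [needF]
      rw [show lo + (c - lo) = c by omega, hL, hH]
    have hbr : -1 ≤ b c ∧ b c ≤ 1 := by
      rw [hbc, q40]
      have e1 := xlo_range κ (gk1 (s.m 5) σ c) (gk2 (s.m 5) σ c)
      have e2 := xhi_range κ (gk1 (s.m 5) σ c) (gk2 (s.m 5) σ c)
      split_ifs <;> omega
    refine Tr.seq (τ1 := 2) (τ2 := 204) ?_ (by norm_num)
    refine Tr.sl (by simp; omega) (by decide) ?_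
    simp only [exec_seq, exec_set, ev_cst]
    set s2 := (s1.setv 43 2).setv 44 27 with hs2
    have e8 : s2.m 8 = st.m 8 := by
      have : s2.m = s1.m := by simp [hs2]
      rw [this, fm1 8 rfl]
    have e9 : s2.m 9 = st.m 9 := by
      have : s2.m = s1.m := by simp [hs2]
      rw [this, fm1 9 rfl]
    have ev (y : ℕ) (hy1 : y ≠ 43) (hy2 : y ≠ 44) : s2.v y = s1.v y := by
      simp [hs2, hy1, hy2]
    refine Tr.seqF (oLoop_spec (X := X) (M := M) (Z := ∑ i ∈ Ico lo c, sz i) (z := sz c)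
      (b := b c) (s := s2) (v := g c) (w := w c) hX29 (by omega) hM0 (by simp [hs2]) (by simp [hs2])
      (by rw [ev 50 (by norm_num) (by norm_num), fv1 50 rfl, f50])
      (by rw [ev 40 (by norm_num) (by norm_num), hbc]) hbr.1 hbr.2
      (by rw [e8]; exact i8) (by rw [e9]; exact i9)
      (by rw [ev 32 (by norm_num) (by norm_num), q32]) (by rw [ev 33 (by norm_num) (by norm_num), q33])
      (by rw [ev 34 (by norm_num) (by norm_num), q34]) (by rw [ev 37 (by norm_num) (by norm_num), q37])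
      (by rw [ev 38 (by norm_num) (by norm_num), q38]) (by rw [ev 39 (by norm_num) (by norm_num), q39])
      hZ' (by rw [e8]; exact iv8) (by rw [e9]; exact iv9)
      (fun y hy1 hy2 => hg c hcmem y hy1 hy2) (fun y hy1 hy2 => hw c hcmem y hy1 hy2))
      (τ2 := 102) ?_ (by norm_num)
    intro s3 q3 fv3 fm3
    rw [e8, e9] at q3
    refine Tr.setS (τ2 := 101) (by simp; omega) ?_ (by norm_num)
    simp only [ev_cst]
    set s4 := s3.setv 43 2 with hs4
    have hm4 : s4.m = s3.m := by simp [hs4]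
    have vb0 : ∀ o, VB M (∑ i ∈ Ico lo c, sz i + sz c) (st0 M (viewA M (st.m 8)) (g c) (b c) o) :=
      fun o => st0_vb iv8 (fun y h1 h2 => hg c hcmem y h1 h2)
    have vb1 : ∀ o, VB M (∑ i ∈ Ico lo c, sz i + sz c)
        (max (st0 M (viewA M (st.m 9)) (g c) (b c) o) (st0 M (viewA M (st.m 8)) (w c) (b c) o)) :=
      fun o => max_vb (st0_vb iv9 (fun y h1 h2 => hg c hcmem y h1 h2))
        (st0_vb iv8 (fun y h1 h2 => hw c hcmem y h1 h2))
    refine (cpLoop_spec (X := X) (s := s4) hX29 (by simp [hs4])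
      (by simp only [hs4, St.setv_v]; simp only [Nat.reduceEqDiff, if_false]
          rw [fv3 44 rfl]; simp [hs2]) ?_).frame.mono le_rfl ?_
    · intro o ho
      rw [hm4, (q3 o ho).1, (q3 o ho).2]
      have a1 := vb_abs hZ' hM0 (vb0 o)
      have a2 := vb_abs hZ' hM0 (vb1 o)
      constructor <;> omega
    · rintro s5 ⟨⟨c1, c2⟩, fv5, fm5⟩
      rw [hm4] at c1 c2
      have hv8 : ∀ o, viewA M (s5.m 8) o = if |o| ≤ 12 then st0 M (viewA M (st.m 8)) (g c) (b c) o
          else -M := by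
        intro o
        unfold viewA
        split_ifs with ho
        · rw [(c1 o ho).1, (q3 o ho).1]; rfl
        · rfl
      have hv9 : ∀ o, viewA M (s5.m 9) o = if |o| ≤ 12 then
          max (st0 M (viewA M (st.m 9)) (g c) (b c) o) (st0 M (viewA M (st.m 8)) (w c) (b c) o)
          else -M := by
        intro o
        unfold viewA
        split_ifs with ho
        · rw [(c1 o ho).2, (q3 o ho).2]; rfl
        · rfl
      have hold8 : ∀ p : ℤ, p < 2 ∨ 27 ≤ p → s5.m 8 p = st.m 8 p := by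
        intro p hp
        rw [(c2 p hp).1, fm3 8 rfl, e8]
      have hold9 : ∀ p : ℤ, p < 2 ∨ 27 ≤ p → s5.m 9 p = st.m 9 p := by
        intro p hp
        rw [(c2 p hp).2, fm3 9 rfl, e9]
      have hgc : ∀ i ∈ Ico lo c, ∀ y, -1 ≤ y → y ≤ 1 → VB M (sz i) (g i y) :=
        fun i hi' => hg i (hsub c hc2.le i hi')
      have hwc : ∀ i ∈ Ico lo c, ∀ y, -1 ≤ y → y ≤ 1 → VB M (sz i) (w i y) :=
        fun i hi' => hw i (hsub c hc2.le i hi')
      refine ⟨?_, ?_, ?_, ?_, ?_, ?_, ?_⟩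
      · simp only [St.setv_m]
        refine inv0_step hc1 ?_ i0 hv8
        intro x hx
        have := sel_sum_bound hgc hx
        rw [abs_le] at this
        have := hZc c hc2.le
        omega
      · simp only [St.setv_m]
        refine inv1_step hc1 ?_ ?_ i0 i1 hv9
        · intro x hx
          have := sel_sum_bound hgc hx
          rw [abs_le] at this
          have := hZc c hc2.le
          omega
        · intro c0 x hx
          have := sel_sum_bound (gg_vb hgc hwc c0) hx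
          rw [abs_le] at this
          have := hZc c hc2.le
          omega
      · simp only [St.setv_m]
        obtain ⟨p0, p1, p2, p3⟩ := i8
        exact ⟨by rw [hold8 0 (by norm_num)]; exact p0, by rw [hold8 1 (by norm_num)]; exact p1,
          by rw [hold8 27 (by norm_num)]; exact p2, by rw [hold8 28 (by norm_num)]; exact p3⟩
      · simp only [St.setv_m]
        obtain ⟨p0, p1, p2, p3⟩ := i9
        exact ⟨by rw [hold9 0 (by norm_num)]; exact p0, by rw [hold9 1 (by norm_num)]; exact p1,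
          by rw [hold9 27 (by norm_num)]; exact p2, by rw [hold9 28 (by norm_num)]; exact p3⟩
      · intro o
        simp only [St.setv_m]
        rw [hv8 o, Finset.sum_Ico_succ_top hc1]
        split_ifs
        · exact vb0 o
        · exact Or.inl rfl
      · intro o
        simp only [St.setv_m]
        rw [hv9 o, Finset.sum_Ico_succ_top hc1]
        split_ifs
        · exact vb1 o
        · exact Or.inl rfl
      · simp only [St.setv_v]
        simp only [Nat.reduceEqDiff, if_false]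
        rw [fv5 31 rfl]
        simp only [hs4, St.setv_v]
        simp only [Nat.reduceEqDiff, if_false]
        rw [fv3 31 rfl, ev 31 (by norm_num) (by norm_num), hneed]
  · intro s' hI _ _ _
    exact hI

end Pool.Agent.Lib_helper87.UM
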