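import Mathlib
set_option autoImplicit false

/-! # The word RAM, its input, and minus dominating functions -/

namespace Pool.Agent.Lib_helper87.UM

/-- Instructions of the word RAM. There are registers numbered by natural numbers, and a memory
whose cells are addressed by integer words. -/
inductive Instr
  /-- `r_d := k` -/
  | const (d : ℕ) (k : ℤ)
  /-- `r_d := r_a` -/
  | mov (d a : ℕ)
  /-- `r_d := r_a + r_b` -/
  | add (d a b : ℕ)
  /-- `r_d := r_a - r_b` -/
  | sub (d a b : ℕ)
  /-- `r_d := r_a * r_b` -/
  | mul (d a b : ℕ)
  /-- `r_d := r_a / r_b` (integer division, rounded down for positive `r_b`) -/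
  | div (d a b : ℕ)
  /-- `r_d := mem[r_a]` -/
  | load (d a : ℕ)
  /-- `mem[r_a] := r_b` -/
  | store (a b : ℕ)
  /-- `if r_a < r_b then goto l` -/
  | jlt (a b l : ℕ)
  /-- `goto l` -/
  | jmp (l : ℕ)

/-- A configuration: program counter, registers, memory. -/
structure Config where
  pc : ℕ
  reg : ℕ → ℤ
  mem : ℤ → ℤ

/-- Write `z` to register `d` and go to the next instruction; this is only possible when `z` fits
in a machine word, that is `|z| ≤ B`. -/
def Config.write (B : ℤ) (c : Config) (d : ℕ) (z : ℤ) : Option Config :=
  if |z| ≤ B then some ⟨c.pc + 1, Function.update c.reg d z, c.mem⟩ else none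

/-- One step of the program `P` on a machine whose words hold the integers `z` with `|z| ≤ B`.
The result is `none` if the program counter is outside of the program (the machine has halted) or
if a value does not fit in a word. -/
def step (B : ℤ) (P : List Instr) (c : Config) : Option Config :=
  match P[c.pc]? with
  | none => none
  | some (.const d k) => c.write B d k
  | some (.mov d a) => c.write B d (c.reg a)
  | some (.add d a b) => c.write B d (c.reg a + c.reg b)
  | some (.sub d a b) => c.write B d (c.reg a - c.reg b)
  | some (.mul d a b) => c.write B d (c.reg a * c.reg b)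
  | some (.div d a b) => c.write B d (c.reg a / c.reg b)
  | some (.load d a) => c.write B d (c.mem (c.reg a))
  | some (.store a b) => some ⟨c.pc + 1, c.reg, Function.update c.mem (c.reg a) (c.reg b)⟩
  | some (.jlt a b l) => some (if c.reg a < c.reg b then ⟨l, c.reg, c.mem⟩
      else ⟨c.pc + 1, c.reg, c.mem⟩)
  | some (.jmp l) => some ⟨l, c.reg, c.mem⟩

/-- The configuration after exactly `t` steps (if no step fails). -/
def run (B : ℤ) (P : List Instr) : ℕ → Config → Option Config
  | 0, c => some c
  | t + 1, c => (step B P c).bind (run B P t)

/-- The memory cells `0, 1, 2, ...` of the input. Cells `0, ..., n` contain the addresses at which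
the adjacency lists of the vertices `0, ..., n - 1` begin (cell `n`: the address after the end of
the last list); the adjacency lists follow one after the other, starting with cell `n + 1`. -/
def inputCells {n : ℕ} (adj : Fin n → List (Fin n)) : List ℕ :=
  (List.range (n + 1)).map (fun v => n + 1 + ((List.ofFn adj).take v).flatten.length) ++
    (List.ofFn adj).flatten.map Fin.val

/-- The initial configuration: register 0 contains `n`, the memory contains the adjacency lists,
everything else is `0`. -/
def start {n : ℕ} (adj : Fin n → List (Fin n)) : Config where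
  pc := 0
  reg := fun r => if r = 0 then (n : ℤ) else 0
  mem := fun p => if 0 ≤ p then (((inputCells adj).getD p.toNat 0 : ℕ) : ℤ) else 0

open Classical in
/-- `f[v]`, the sum of `f` over the closed neighbourhood of `v` -/
noncomputable def nbSum {V : Type} [Fintype V] (G : SimpleGraph V) (f : V → ℤ) (v : V) : ℤ :=
  ∑ u : V, if u = v ∨ G.Adj v u then f u else 0

/-- `f` is a minus dominating function of `G` -/
def IsMinusDom {V : Type} [Fintype V] (G : SimpleGraph V) (f : V → ℤ) : Prop :=
  (∀ v, f v = -1 ∨ f v = 0 ∨ f v = 1) ∧ ∀ v, 1 ≤ nbSum G f v

/-- `f` is a minimal minus dominating function of `G` -/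
def IsMinimalMinusDom {V : Type} [Fintype V] (G : SimpleGraph V) (f : V → ℤ) : Prop :=
  IsMinusDom G f ∧ ∀ g : V → ℤ, IsMinusDom G g → (∀ v, g v ≤ f v) → g = f

end Pool.Agent.Lib_helper87.UM
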