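import Pool.Agent.Lib_helper87.Bfs
import Pool.Agent.Lib_helper87.Model
set_option autoImplicit false

/-! # Minimal minus dominating functions -/

namespace Pool.Agent.Lib_helper87.UM
open Finset

section
variable {V : Type} [Fintype V] {G : SimpleGraph V}

lemma nbSum_mono {f g : V → ℤ} (h : ∀ v, g v ≤ f v) (v : V) : nbSum G g v ≤ nbSum G f v := by
  unfold nbSum
  apply Finset.sum_le_sum
  intro u _
  split_ifs
  · exact h u
  · exact le_rfl

lemma nbSum_lt {f g : V → ℤ} (h : ∀ v, g v ≤ f v) {u v : V} (hv : g v < f v)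
    (huv : v = u ∨ G.Adj u v) : nbSum G g u < nbSum G f u := by
  unfold nbSum
  apply Finset.sum_lt_sum
  · intro u _
    split_ifs
    · exact h u
    · exact le_rfl
  · exact ⟨v, Finset.mem_univ _, by rw [if_pos huv, if_pos huv]; exact hv⟩

theorem isMinimal_iff {f : V → ℤ} : IsMinimalMinusDom G f ↔ IsMinusDom G f ∧
    ∀ v, 0 ≤ f v → ∃ u, (u = v ∨ G.Adj v u) ∧ nbSum G f u = 1 := by
  classical
  constructor
  · rintro ⟨h1, h2⟩
    refine ⟨h1, fun v hv => ?_⟩
    by_contra hcon
    push Not at hcon
    set g : V → ℤ := Function.update f v (f v - 1) with hg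
    have hgf : ∀ w, g w ≤ f w := by
      intro w
      by_cases h : w = v
      · subst h; simp [hg]
      · simp [hg, h]
    have hgd : IsMinusDom G g := by
      constructor
      · intro w
        by_cases h : w = v
        · subst h
          have := h1.1 w
          simp only [hg, Function.update_self]
          omega
        · simp only [hg, Function.update_of_ne h]
          exact h1.1 w
      · intro u
        have e1 : nbSum G f u - nbSum G g u = if v = u ∨ G.Adj u v then 1 else 0 := by
          unfold nbSum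
          rw [← Finset.sum_sub_distrib]
          rw [Finset.sum_eq_single v]
          · simp only [hg, Function.update_self]
            split_ifs <;> ring
          · intro w _ hw
            simp only [hg, Function.update_of_ne hw]
            ring
          · intro h; exact absurd (Finset.mem_univ _) h
        have e2 := h1.2 u
        by_cases h : v = u ∨ G.Adj u v
        · rw [if_pos h] at e1
          have e3 : nbSum G f u ≠ 1 := by
            apply hcon
            rcases h with h | h
            · exact Or.inl h.symm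
            · exact Or.inr h.symm
          omega
        · rw [if_neg h] at e1
          omega
    have := congrFun (h2 g hgd hgf) v
    simp [hg] at this
  · rintro ⟨h1, h2⟩
    refine ⟨h1, fun g hg hgf => ?_⟩
    by_contra hne
    obtain ⟨v, hv⟩ : ∃ v, g v ≠ f v := by
      by_contra hcon
      push Not at hcon
      exact hne (funext hcon)
    have hlt : g v < f v := lt_of_le_of_ne (hgf v) hv
    have hfv : 0 ≤ f v := by
      have := hg.1 v
      omega
    obtain ⟨u, hu, hu1⟩ := h2 v hfv
    have e1 := nbSum_lt (G := G) hgf hlt (u := u) (by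
      rcases hu with h | h
      · exact Or.inl h.symm
      · exact Or.inr h.symm)
    have e2 := hg.2 u
    omega

theorem exists_minimal (G : SimpleGraph V) : ∃ f : V → ℤ, IsMinimalMinusDom G f := by
  classical
  have hone : IsMinusDom G (fun _ => 1) := by
    refine ⟨fun _ => Or.inr (Or.inr rfl), fun v => ?_⟩
    unfold nbSum
    have : ∑ u : V, (if u = v then (1 : ℤ) else 0) ≤
        ∑ u : V, if u = v ∨ G.Adj v u then (1 : ℤ) else 0 := by
      apply Finset.sum_le_sum
      intro u _
      split_ifs with h h'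
      · exact le_rfl
      · exact absurd (Or.inl h) h'
      · norm_num
      · exact le_rfl
    simpa using this
  set μ : (V → ℤ) → ℕ := fun f => (∑ v, (f v + 1)).toNat with hμ
  obtain ⟨f, hf, hmin⟩ := WellFounded.has_min (measure μ).wf {f | IsMinusDom G f} ⟨_, hone⟩
  refine ⟨f, hf, fun g hg hgf => ?_⟩
  by_contra hne
  obtain ⟨v, hv⟩ : ∃ v, g v ≠ f v := by
    by_contra hcon
    push Not at hcon
    exact hne (funext hcon)
  apply hmin g hg
  have hlt : ∑ v, (g v + 1) < ∑ v, (f v + 1) := by
    apply Finset.sum_lt_sum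
    · intro v _
      linarith [hgf v]
    · exact ⟨v, Finset.mem_univ _, by linarith [lt_of_le_of_ne (hgf v) hv]⟩
  have h0 : 0 ≤ ∑ v, (g v + 1) := by
    apply Finset.sum_nonneg
    intro v _
    have := hg.1 v
    omega
  change (∑ v, (g v + 1)).toNat < (∑ v, (f v + 1)).toNat
  omega

end

section
variable {n : ℕ} {G : SimpleGraph (Fin n)} {ord : ℕ → Fin n} {par F : ℕ → ℕ}

lemma BInv.bij (B : BInv G n n ord par F) : Function.Bijective (fun i : Fin n => ord i) := by
  have h1 : Function.Injective (fun i : Fin n => ord i) := fun i j hij =>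
    Fin.ext (B.inj i j i.2 j.2 hij)
  exact ⟨h1, Finite.surjective_of_injective h1⟩

lemma BInv.sum_ord (B : BInv G n n ord par F) (g : Fin n → ℤ) :
    ∑ v, g v = ∑ i ∈ range n, g (ord i) := by
  rw [← (Equiv.ofBijective _ B.bij).sum_comp, Finset.sum_range]
  rfl

lemma BInv.nbSum_ord (B : BInv G n n ord par F) (f : Fin n → ℤ) {i : ℕ} (hi : i < n) :
    nbSum G f (ord i) = nbs F par (fun j => f (ord j)) i := by
  classical
  have S := B.final.2
  unfold nbSum
  rw [B.sum_ord]
  refine (Finset.sum_congr rfl (g := fun j => (if j = i then f (ord j) else 0) +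
      (if 0 < i ∧ j = par i then f (ord j) else 0) +
      (if j ∈ Ico (F i) (F (i + 1)) then f (ord j) else 0)) ?_).trans ?_
  · intro j hj
    rw [Finset.mem_range] at hj
    have h1 : ord j = ord i ↔ j = i := ⟨B.inj j i hj hi, fun h => by rw [h]⟩
    have h2 : G.Adj (ord i) (ord j) ↔ (0 < i ∧ j = par i) ∨ j ∈ Ico (F i) (F (i + 1)) := by
      rw [B.adj i hi]
      constructor
      · rintro (⟨h3, h4⟩ | ⟨c, h3, h4⟩)
        · left
          have := (S.exists_par h3 hi).1
          exact ⟨h3, B.inj _ _ hj (by omega) h4⟩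
        · right
          have := B.inj _ _ hj (S.child_lt hi h3).2 h4
          rw [this]
          exact h3
      · rintro (⟨h3, h4⟩ | h3)
        · left; exact ⟨h3, by rw [h4]⟩
        · right; exact ⟨j, h3, rfl⟩
    have h12 : (ord j = ord i ∨ G.Adj (ord i) (ord j)) ↔
        (j = i ∨ (0 < i ∧ j = par i) ∨ j ∈ Ico (F i) (F (i + 1))) := by rw [h1, h2]
    by_cases c1 : j = i
    · subst c1
      have c2 : ¬ (0 < j ∧ j = par j) := by
        rintro ⟨h3, h4⟩
        have := (S.exists_par h3 hi).1
        omega
      have c3 : j ∉ Ico (F j) (F (j + 1)) := by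
        intro h3
        have := (S.child_lt hi h3).1
        omega
      rw [if_pos (h12.mpr (Or.inl rfl)), if_pos rfl, if_neg c2, if_neg c3]
      ring
    · by_cases c2 : 0 < i ∧ j = par i
      · have c3 : j ∉ Ico (F i) (F (i + 1)) := by
          intro h3
          have := (S.child_lt hi h3).1
          have := (S.exists_par c2.1 hi).1
          omega
        rw [if_pos (h12.mpr (Or.inr (Or.inl c2))), if_neg c1, if_pos c2, if_neg c3]
        ring
      · by_cases c3 : j ∈ Ico (F i) (F (i + 1))
        · rw [if_pos (h12.mpr (Or.inr (Or.inr c3))), if_neg c1, if_neg c2, if_pos c3]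
          ring
        · rw [if_neg (fun h => by rcases h12.mp h with h | h | h <;> tauto), if_neg c1, if_neg c2,
            if_neg c3]
          ring
  rw [Finset.sum_add_distrib, Finset.sum_add_distrib]
  unfold nbs pv
  congr 1
  · congr 1
    · rw [Finset.sum_ite_eq' (range n) i, if_pos (Finset.mem_range.mpr hi)]
    · by_cases h : i = 0
      · rw [if_pos h]
        apply Finset.sum_eq_zero
        intro j _
        rw [if_neg (by rintro ⟨h1, _⟩; omega)]
      · rw [if_neg h]
        have h1 := (S.exists_par (Nat.pos_of_ne_zero h) hi).1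
        have : ∀ j ∈ range n, (if 0 < i ∧ j = par i then f (ord j) else 0) =
            if j = par i then f (ord j) else 0 := by
          intro j _
          have : (0 < i ∧ j = par i) ↔ j = par i := ⟨fun h => h.2, fun h' => ⟨by omega, h'⟩⟩
          simp only [this]
        rw [Finset.sum_congr rfl this, Finset.sum_ite_eq' (range n) (par i),
          if_pos (Finset.mem_range.mpr (by omega))]
  · rw [← Finset.sum_filter]
    apply Finset.sum_congr _ fun _ _ => rfl
    ext j
    rw [Finset.mem_filter]
    constructor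
    · exact fun h => h.2
    · intro h
      exact ⟨Finset.mem_range.mpr (S.child_lt hi h).2, h⟩

lemma ValidF.congr {f g : ℕ → ℤ} (S : Seq n F par) (h : ∀ i < n, f i = g i)
    (hf : ValidF n F par f) : ValidF n F par g := by
  have hnb : ∀ i < n, nbs F par f i = nbs F par g i := by
    intro i hi
    unfold nbs pv
    rw [h i hi]
    congr 1
    · congr 1
      split_ifs with h0
      · rfl
      · exact h _ ((S.exists_par (Nat.pos_of_ne_zero h0) hi).1.trans hi)
    · apply Finset.sum_congr rfl
      intro c hc
      exact h c (S.child_lt hi hc).2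
  refine ⟨fun i hi => by rw [← h i hi]; exact hf.range i hi,
    fun i hi => by rw [← hnb i hi]; exact hf.dom i hi, fun i hi hgi => ?_⟩
  rw [← h i hi] at hgi
  rcases hf.wit i hi hgi with h1 | ⟨h1, h2⟩ | ⟨c, h1, h2⟩
  · left; rw [← hnb i hi]; exact h1
  · right; left
    exact ⟨h1, by rw [← hnb _ ((S.exists_par h1 hi).1.trans hi)]; exact h2⟩
  · right; right
    exact ⟨c, h1, by rw [← hnb _ (S.child_lt hi h1).2]; exact h2⟩

theorem BInv.valid_iff (B : BInv G n n ord par F) (f : Fin n → ℤ) :
    IsMinimalMinusDom G f ↔ ValidF n F par (fun j => f (ord j)) := by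
  have S := B.final.2
  have hsurj : ∀ v, ∃ i, i < n ∧ ord i = v := by
    intro v
    obtain ⟨i, hi⟩ := B.bij.2 v
    exact ⟨i, i.2, hi⟩
  rw [isMinimal_iff]
  constructor
  · rintro ⟨⟨h1, h2⟩, h3⟩
    refine ⟨fun i hi => ?_, fun i hi => ?_, fun i hi hfi => ?_⟩
    · have := h1 (ord i)
      omega
    · rw [← B.nbSum_ord f hi]
      exact h2 _
    · obtain ⟨u, hu, hu1⟩ := h3 (ord i) hfi
      rcases hu with hu | hu
      · left
        rw [← B.nbSum_ord f hi, ← hu]
        exact hu1
      · rcases (B.adj i hi u).mp hu with ⟨g1, g2⟩ | ⟨c, g1, g2⟩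
        · right; left
          refine ⟨g1, ?_⟩
          rw [← B.nbSum_ord f ((S.exists_par g1 hi).1.trans hi), ← g2]
          exact hu1
        · right; right
          refine ⟨c, g1, ?_⟩
          rw [← B.nbSum_ord f (S.child_lt hi g1).2, ← g2]
          exact hu1
  · intro hf
    refine ⟨⟨fun v => ?_, fun v => ?_⟩, fun v hv => ?_⟩
    · obtain ⟨i, hi, rfl⟩ := hsurj v
      have := hf.range i hi
      omega
    · obtain ⟨i, hi, rfl⟩ := hsurj v
      rw [B.nbSum_ord f hi]
      exact hf.dom i hi
    · obtain ⟨i, hi, rfl⟩ := hsurj v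
      rcases hf.wit i hi hv with h1 | ⟨h1, h2⟩ | ⟨c, h1, h2⟩
      · exact ⟨ord i, Or.inl rfl, by rw [B.nbSum_ord f hi]; exact h1⟩
      · refine ⟨ord (par i), Or.inr ((B.adj i hi _).mpr (Or.inl ⟨h1, rfl⟩)), ?_⟩
        rw [B.nbSum_ord f ((S.exists_par h1 hi).1.trans hi)]
        exact h2
      · refine ⟨ord c, Or.inr ((B.adj i hi _).mpr (Or.inr ⟨c, h1, rfl⟩)), ?_⟩
        rw [B.nbSum_ord f (S.child_lt hi h1).2]
        exact h2

theorem BInv.exists_valid (B : BInv G n n ord par F) : ∃ f, ValidF n F par f := by
  obtain ⟨f, hf⟩ := exists_minimal G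
  exact ⟨_, (B.valid_iff f).mp hf⟩

theorem BInv.set_eq (B : BInv G n n ord par F) :
    {w : ℤ | ∃ f, ValidF n F par f ∧ w = ∑ i ∈ range n, f i} =
    {w : ℤ | ∃ f : Fin n → ℤ, IsMinimalMinusDom G f ∧ w = ∑ v, f v} := by
  have S := B.final.2
  ext w
  constructor
  · rintro ⟨f, hf, rfl⟩
    set e := Equiv.ofBijective _ B.bij with he
    have hval : ∀ i < n, f i = f ((e.symm (ord i) : Fin n) : ℕ) := by
      intro i hi
      have : e.symm (ord i) = ⟨i, hi⟩ := by
        rw [Equiv.symm_apply_eq]
        rfl
      rw [this]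
    refine ⟨fun v => f (e.symm v : Fin n), (B.valid_iff _).mpr (ValidF.congr S hval hf), ?_⟩
    rw [B.sum_ord]
    apply Finset.sum_congr rfl
    intro i hi
    exact hval i (Finset.mem_range.mp hi)
  · rintro ⟨f, hf, rfl⟩
    exact ⟨_, (B.valid_iff f).mp hf, B.sum_ord f⟩

end

end Pool.Agent.Lib_helper87.UM
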