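import Pool.Agent.Lib_helper87.Model
set_option autoImplicit false

/-! # The input of the word RAM -/

namespace Pool.Agent.Lib_helper87.UM

section
variable {n : ℕ} (adj : Fin n → List (Fin n))

/-- start address of the adjacency list of a vertex -/
def adr (v : ℕ) : ℕ := n + 1 + ((List.ofFn adj).take v).flatten.length

lemma adr_succ (v : Fin n) : adr adj (v + 1) = adr adj v + (adj v).length := by
  unfold adr
  have h : (v : ℕ) < (List.ofFn adj).length := by simp
  rw [List.take_succ_eq_append_getElem h]
  simp
  omega

lemma adr_last : adr adj n = n + 1 + ∑ v, (adj v).length := by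
  unfold adr
  have h : (List.ofFn adj).take n = List.ofFn adj := by
    apply List.take_of_length_le
    simp
  rw [h, List.length_flatten, List.map_ofFn, List.sum_ofFn]
  rfl

lemma adr_mono {v w : ℕ} (h : v ≤ w) (hw : w ≤ n) : adr adj v ≤ adr adj w := by
  induction w with
  | zero =>
    have : v = 0 := by omega
    rw [this]
  | succ w ih =>
    rcases Nat.lt_or_ge v (w + 1) with h' | h'
    · have := adr_succ adj ⟨w, hw⟩
      simp only at this
      have := ih (by omega) (by omega)
      omega
    · have : v = w + 1 := by omega
      rw [this]

lemma cells_ptr {v : ℕ} (hv : v ≤ n) : (inputCells adj).getD v 0 = adr adj v := by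
  unfold inputCells adr
  rw [List.getD_eq_getElem?_getD, List.getElem?_append_left (by simp; omega), List.getElem?_map,
    List.getElem?_range (by omega)]
  rfl

lemma flatten_getElem? {α : Type} (L : List (List α)) {v t : ℕ} (hv : v < L.length)
    (ht : t < L[v].length) : L.flatten[(L.take v).flatten.length + t]? = some L[v][t] := by
  have h1 : L.flatten = (L.take v).flatten ++ (L[v] ++ (L.drop (v + 1)).flatten) := by
    rw [← List.flatten_cons, List.getElem_cons_drop, ← List.flatten_append, List.take_append_drop]
  rw [h1, List.getElem?_append_right (by omega), List.getElem?_append_left (by omega)]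
  rw [show (L.take v).flatten.length + t - (L.take v).flatten.length = t by omega]
  exact List.getElem?_eq_getElem ht

lemma cells_nb (v : Fin n) {t : ℕ} (ht : t < (adj v).length) :
    (inputCells adj).getD (adr adj v + t) 0 = ((adj v)[t] : ℕ) := by
  unfold inputCells adr
  rw [List.getD_eq_getElem?_getD, List.getElem?_append_right (by simp; omega), List.getElem?_map]
  have h : (v : ℕ) < (List.ofFn adj).length := by simp
  have h2 : (List.ofFn adj)[(v : ℕ)] = adj v := by simp
  have h3 : t < ((List.ofFn adj)[(v : ℕ)]).length := by rw [h2]; exact ht
  have e1 : n + 1 + ((List.ofFn adj).take v).flatten.length + t -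
      ((List.range (n + 1)).map (fun v => n + 1 + ((List.ofFn adj).take v).flatten.length)).length =
      ((List.ofFn adj).take v).flatten.length + t := by
    simp
    omega
  rw [e1, flatten_getElem? _ h h3]
  simp

lemma cells_le {B : ℕ} (hB : ∀ v, v ≤ n → adr adj v ≤ B) (p : ℕ) : (inputCells adj).getD p 0 ≤ B := by
  rw [List.getD_eq_getElem?_getD]
  rcases h : (inputCells adj)[p]? with _ | x
  · simp
  · simp only [Option.getD_some]
    have hx := List.mem_of_getElem? h
    unfold inputCells at hx
    rw [List.mem_append, List.mem_map, List.mem_map] at hx
    rcases hx with ⟨v, hv, rfl⟩ | ⟨w, _, rfl⟩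
    · rw [List.mem_range] at hv
      exact hB v (by omega)
    · have := hB 0 (by omega)
      unfold adr at this
      have := w.2
      omega

end

end Pool.Agent.Lib_helper87.UM
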