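import Pool.Agent.Lib_helper87.Main
import Pool.Agent.Lib_helper87.Copy
import Pool.Agent.Lib_helper87.Graph
import Pool.Agent.Lib_helper87.Input
set_option autoImplicit false

/-! # The algorithm -/

namespace Pool.Agent.Lib_helper87.UM
open Finset

def progC : Cmd := .seq copyC (.seq bfsC mainC)

/-- the initial state of the structured program -/
def st0' {n : ℕ} (adj : Fin n → List (Fin n)) : St where
  v := fun x => if x = 0 then (n : ℤ) else 0
  m := fun a i => (start adj).mem (16 * i + ((a : ℕ) : ℤ))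

lemma rel_start {n : ℕ} (adj : Fin n → List (Fin n)) : Rel (st0' adj) (start adj) := by
  constructor
  · intro x
    simp [start, st0']
  · intro a i
    rfl

lemma sum_len {n : ℕ} {G : SimpleGraph (Fin n)} (hG : G.IsTree) {adj : Fin n → List (Fin n)}
    (hnd : ∀ v, (adj v).Nodup) (hadj : ∀ v w, w ∈ adj v ↔ G.Adj v w) :
    ∑ v, (adj v).length + 2 = 2 * n := by
  classical
  have h1 : ∀ v, (adj v).length = G.degree v := by
    intro v
    rw [← SimpleGraph.card_neighborFinset_eq_degree, ← List.toFinset_card_of_nodup (hnd v)]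
    congr 1
    ext w
    simp [hadj]
  rw [Finset.sum_congr rfl fun v _ => h1 v, G.sum_degrees_eq_twice_card_edges]
  have := hG.card_edgeFinset
  simp only [Fintype.card_fin] at this
  omega

theorem progC_spec {n : ℕ} {G : SimpleGraph (Fin n)} (hG : G.IsTree) {adj : Fin n → List (Fin n)}
    (hnd : ∀ v, (adj v).Nodup) (hadj : ∀ v w, w ∈ adj v ↔ G.Adj v w) :
    BV (100 * (n : ℤ)) (st0' adj) ∧ Tr (100 * (n : ℤ)) progC (st0' adj) (8300 * n) (fun s' =>
      IsGreatest {w : ℤ | ∃ f : Fin n → ℤ, IsMinimalMinusDom G f ∧ w = ∑ v, f v} (s'.v 0)) := by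
  have hn : 1 ≤ n := by
    obtain ⟨v⟩ := hG.connected.nonempty
    have := v.2
    omega
  have hnZ : (1 : ℤ) ≤ n := by exact_mod_cast hn
  have hsum := sum_len hG hnd hadj
  have hadr : ∀ v, v ≤ n → adr adj v ≤ 3 * n := by
    intro v hv
    have h1 := adr_mono adj hv le_rfl
    have h2 := adr_last adj
    omega
  have hcell : ∀ p, 0 ≤ (start adj).mem p ∧ (start adj).mem p ≤ 3 * n := by
    intro p
    simp only [start]
    split_ifs with h
    · have := cells_le adj hadr p.toNat
      constructor
      · positivity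
      · exact_mod_cast this
    · constructor
      · exact le_rfl
      · positivity
  have hmb : ∀ p, |(start adj).mem p| ≤ 100 * (n : ℤ) := by
    intro p
    obtain ⟨h1, h2⟩ := hcell p
    rw [abs_of_nonneg h1]
    linarith
  refine ⟨⟨fun x => ?_, fun a i => hmb _⟩, ?_⟩
  · simp only [st0']
    split_ifs
    · rw [abs_of_nonneg (by positivity)]
      linarith
    · simp
  refine Tr.seqF (copyC_spec (s := st0' adj) (mem := (start adj).mem) hn le_rfl rfl (fun _ _ => rfl)
    hmb) (τ2 := 8230 * n) ?_ (by omega)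
  intro s1 q1 fv1 fm1
  have g0 : s1.v 0 = n := by
    rw [fv1 0 (by rw [copyC]; simp only [Cmd.mv, Cmd.for_, copyK_mv]; rfl)]
    rfl
  have hin : InOK n adj (adr adj) (s1.m 0) := by
    have hmem : ∀ p : ℕ, (start adj).mem p = (((inputCells adj).getD p 0 : ℕ) : ℤ) := by
      intro p
      simp only [start]
      rw [if_pos (by positivity)]
      simp
    constructor
    · intro v hv
      rw [q1 v (by omega), hmem, cells_ptr adj hv]
    · exact adr_succ adj
    · intro v t ht
      have h1 := adr_succ adj v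
      have h2 := hadr (v + 1) (by omega)
      rw [q1 (adr adj v + t) (by omega), hmem, cells_nb adj v ht]
    · exact hadr
  refine Tr.seqF (bfsC_spec (G := G) (adj := adj) hn le_rfl hin hnd hadj hG g0 (by omega))
    (τ2 := 8200 * n) ?_ (by omega)
  rintro s2 ⟨ord, par, F, B, hF⟩ fv2 fm2
  have g0' : s2.v 0 = n := by rw [fv2 0 rfl, g0]
  refine (mainC_spec B.final.2 le_rfl g0' hF B.exists_valid).mono le_rfl ?_
  intro s' hs'
  rw [← B.set_eq]
  exact hs'

/-- A program for the word RAM computes the upper minus domination number of trees in linear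
time. -/
theorem linear_time : ∃ (P : List Instr) (C : ℕ), ∀ (n : ℕ) (T : SimpleGraph (Fin n)), T.IsTree →
    ∀ adj : Fin n → List (Fin n), (∀ v, (adj v).Nodup) → (∀ v w, w ∈ adj v ↔ T.Adj v w) →
    ∃ (t : ℕ) (c : Config), t ≤ C * n ∧ run (C * n) P t (start adj) = some c ∧ c.pc = P.length ∧
      IsGreatest {w : ℤ | ∃ f : Fin n → ℤ, IsMinimalMinusDom T f ∧ w = ∑ v, f v} (c.reg 0) := by
  refine ⟨compC progC 0, progC.len * 8300 + progC.nd * 100, ?_⟩
  intro n T hT adj hnd hadj
  have hn : 1 ≤ n := by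
    obtain ⟨v⟩ := hT.connected.nonempty
    have := v.2
    omega
  have hnZ : (1 : ℤ) ≤ n := by exact_mod_cast hn
  obtain ⟨hbv, t, s', hrun, ht, hres⟩ := progC_spec hT hnd hadj
  have hB : (progC.nd : ℤ) * (100 * (n : ℤ)) ≤
      ((progC.len * 8300 + progC.nd * 100 : ℕ) : ℤ) * n := by
    push_cast
    have : (0 : ℤ) ≤ (progC.len : ℤ) * 8300 * n := by positivity
    linarith
  obtain ⟨k, cf, h1, h2, h3, h4⟩ := compC_correct (P := compC progC 0) (by linarith) hrun hbv
    progC.len le_rfl hB 0 (start adj) (fun i _ => by rw [Nat.zero_add]) rfl (rel_start adj)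
  refine ⟨k, cf, ?_, h2, ?_, ?_⟩
  · refine h1.trans ((Nat.mul_le_mul_left _ ht).trans ?_)
    rw [add_mul, mul_assoc]
    exact Nat.le_add_right _ _
  · rw [h3, compC_length, Nat.zero_add]
  · have := h4.reg 0
    rw [Nat.mul_zero] at this
    rw [this]
    exact hres

end Pool.Agent.Lib_helper87.UM
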