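import Pool.Agent.Lib_helper87.Model
set_option autoImplicit false

/-! # A small structured language -/

namespace Pool.Agent.Lib_helper87.UM

/-- Expressions. -/
inductive Expr
  | var (x : ℕ)
  | cst (k : ℤ)
  | add (a b : Expr)
  | sub (a b : Expr)
  | smul (k : ℤ) (a : Expr)
  | div (a b : Expr)
  | mx (a b : Expr)
  | ld (a : Fin 16) (i : Expr)
  | cond (a b c d : Expr)

/-- States: variables and sixteen arrays. -/
structure St where
  v : ℕ → ℤ
  m : Fin 16 → ℤ → ℤ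

def St.setv (s : St) (x : ℕ) (z : ℤ) : St := ⟨Function.update s.v x z, s.m⟩
def St.setm (s : St) (a : Fin 16) (i z : ℤ) : St :=
  ⟨s.v, Function.update s.m a (Function.update (s.m a) i z)⟩

@[simp] lemma St.setv_v (s : St) (x : ℕ) (z : ℤ) (y : ℕ) :
    (s.setv x z).v y = if y = x then z else s.v y := by
  simp [St.setv, Function.update_apply]
@[simp] lemma St.setv_m (s : St) (x : ℕ) (z : ℤ) : (s.setv x z).m = s.m := by
  simp only [St.setv]
@[simp] lemma St.setm_v (s : St) (a : Fin 16) (i z : ℤ) : (s.setm a i z).v = s.v := by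
  simp only [St.setm]
@[simp] lemma St.setm_m (s : St) (a : Fin 16) (i z : ℤ) (a' : Fin 16) (i' : ℤ) :
    (s.setm a i z).m a' i' = if a' = a ∧ i' = i then z else s.m a' i' := by
  unfold St.setm
  simp only [Function.update_apply]
  by_cases h : a' = a
  · subst h; by_cases h' : i' = i <;> simp [h']
  · simp [h]

def Expr.eval (s : St) : Expr → ℤ
  | .var x => s.v x
  | .cst k => k
  | .add a b => a.eval s + b.eval s
  | .sub a b => a.eval s - b.eval s
  | .smul k a => k * a.eval s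
  | .div a b => a.eval s / b.eval s
  | .mx a b => max (a.eval s) (b.eval s)
  | .ld a i => s.m a (i.eval s)
  | .cond a b c d => if a.eval s < b.eval s then c.eval s else d.eval s

/-- Commands. -/
inductive Cmd
  | skip
  | set (x : ℕ) (e : Expr)
  | put (a : Fin 16) (i e : Expr)
  | seq (c d : Cmd)
  | ite (a b : Expr) (c d : Cmd)
  | wh (a b : Expr) (c : Cmd)

/-- Big step semantics with time; all assigned values must be bounded by `X`. -/
inductive Run (X : ℤ) : Cmd → St → ℕ → St → Prop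
  | skip (s : St) : Run X .skip s 0 s
  | set (s : St) (x : ℕ) (e : Expr) (h : |e.eval s| ≤ X) : Run X (.set x e) s 1 (s.setv x (e.eval s))
  | put (s : St) (a : Fin 16) (i e : Expr) (h : |e.eval s| ≤ X) :
      Run X (.put a i e) s 1 (s.setm a (i.eval s) (e.eval s))
  | seq {c d : Cmd} {s s' s'' : St} {t t' : ℕ} (h : Run X c s t s') (h' : Run X d s' t' s'') :
      Run X (.seq c d) s (t + t') s''
  | iteT {a b : Expr} {c d : Cmd} {s s' : St} {t : ℕ} (h : a.eval s < b.eval s)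
      (h' : Run X c s t s') : Run X (.ite a b c d) s (t + 1) s'
  | iteF {a b : Expr} {c d : Cmd} {s s' : St} {t : ℕ} (h : ¬ a.eval s < b.eval s)
      (h' : Run X d s t s') : Run X (.ite a b c d) s (t + 1) s'
  | whT {a b : Expr} {c : Cmd} {s s' s'' : St} {t t' : ℕ} (h : a.eval s < b.eval s)
      (h' : Run X c s t s') (h'' : Run X (.wh a b c) s' t' s'') :
      Run X (.wh a b c) s (t + 1 + t') s''
  | whF {a b : Expr} {c : Cmd} {s : St} (h : ¬ a.eval s < b.eval s) : Run X (.wh a b c) s 1 s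

/-- variables modified -/
def Cmd.mv : Cmd → ℕ → Bool
  | .skip, _ => false
  | .set x _, y => decide (x = y)
  | .put _ _ _, _ => false
  | .seq c d, y => c.mv y || d.mv y
  | .ite _ _ c d, y => c.mv y || d.mv y
  | .wh _ _ c, y => c.mv y

/-- arrays modified -/
def Cmd.ma : Cmd → Fin 16 → Bool
  | .skip, _ => false
  | .set _ _, _ => false
  | .put a _ _, y => decide (a = y)
  | .seq c d, y => c.ma y || d.ma y
  | .ite _ _ c d, y => c.ma y || d.ma y
  | .wh _ _ c, y => c.ma y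

theorem Run.frame_v {X : ℤ} {c : Cmd} {s s' : St} {t : ℕ} (h : Run X c s t s') (y : ℕ)
    (hy : c.mv y = false) : s'.v y = s.v y := by
  induction h with
  | skip s => rfl
  | set s x e h =>
    simp only [Cmd.mv, decide_eq_false_iff_not] at hy
    simp [Ne.symm hy]
  | put s a i e h => rfl
  | seq h h' ih ih' =>
    simp only [Cmd.mv, Bool.or_eq_false_iff] at hy
    rw [ih' hy.2, ih hy.1]
  | iteT h h' ih =>
    simp only [Cmd.mv, Bool.or_eq_false_iff] at hy
    exact ih hy.1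
  | iteF h h' ih =>
    simp only [Cmd.mv, Bool.or_eq_false_iff] at hy
    exact ih hy.2
  | whT h h' h'' ih ih' =>
    rw [ih' hy]
    exact ih hy
  | whF h => rfl

theorem Run.frame_m {X : ℤ} {c : Cmd} {s s' : St} {t : ℕ} (h : Run X c s t s') (y : Fin 16)
    (hy : c.ma y = false) : s'.m y = s.m y := by
  induction h with
  | skip s => rfl
  | set s x e h => rfl
  | put s a i e h =>
    simp only [Cmd.ma, decide_eq_false_iff_not] at hy
    simp only [St.setm]
    rw [Function.update_of_ne (Ne.symm hy)]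
  | seq h h' ih ih' =>
    simp only [Cmd.ma, Bool.or_eq_false_iff] at hy
    rw [ih' hy.2, ih hy.1]
  | iteT h h' ih =>
    simp only [Cmd.ma, Bool.or_eq_false_iff] at hy
    exact ih hy.1
  | iteF h h' ih =>
    simp only [Cmd.ma, Bool.or_eq_false_iff] at hy
    exact ih hy.2
  | whT h h' h'' ih ih' =>
    rw [ih' hy]
    exact ih hy
  | whF h => rfl

/-- `c` started in `s` terminates within time `τ` in a state satisfying `Q`. -/
def Tr (X : ℤ) (c : Cmd) (s : St) (τ : ℕ) (Q : St → Prop) : Prop :=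
  ∃ t s', Run X c s t s' ∧ t ≤ τ ∧ Q s'

theorem Tr.mono {X : ℤ} {c : Cmd} {s : St} {τ τ' : ℕ} {Q Q' : St → Prop} (h : Tr X c s τ Q)
    (hτ : τ ≤ τ') (hQ : ∀ s', Q s' → Q' s') : Tr X c s τ' Q' := by
  obtain ⟨t, s', h1, h2, h3⟩ := h
  exact ⟨t, s', h1, h2.trans hτ, hQ s' h3⟩

/-- frame rule -/
theorem Tr.frame {X : ℤ} {c : Cmd} {s : St} {τ : ℕ} {Q : St → Prop} (h : Tr X c s τ Q) :
    Tr X c s τ (fun s' => Q s' ∧ (∀ y, c.mv y = false → s'.v y = s.v y) ∧
      (∀ y, c.ma y = false → s'.m y = s.m y)) := by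
  obtain ⟨t, s', h1, h2, h3⟩ := h
  exact ⟨t, s', h1, h2, h3, h1.frame_v, h1.frame_m⟩

theorem Tr.skip {X : ℤ} {s : St} {τ : ℕ} {Q : St → Prop} (h : Q s) : Tr X .skip s τ Q :=
  ⟨0, s, .skip s, Nat.zero_le _, h⟩

theorem Tr.set {X : ℤ} {s : St} {x : ℕ} {e : Expr} {τ : ℕ} {Q : St → Prop}
    (hb : |e.eval s| ≤ X) (hτ : 1 ≤ τ) (h : Q (s.setv x (e.eval s))) : Tr X (.set x e) s τ Q :=
  ⟨1, _, .set s x e hb, hτ, h⟩

theorem Tr.put {X : ℤ} {s : St} {a : Fin 16} {i e : Expr} {τ : ℕ} {Q : St → Prop}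
    (hb : |e.eval s| ≤ X) (hτ : 1 ≤ τ) (h : Q (s.setm a (i.eval s) (e.eval s))) :
    Tr X (.put a i e) s τ Q :=
  ⟨1, _, .put s a i e hb, hτ, h⟩

theorem Tr.seq {X : ℤ} {s : St} {c d : Cmd} {τ τ1 τ2 : ℕ} {Q : St → Prop}
    (h : Tr X c s τ1 (fun s' => Tr X d s' τ2 Q)) (hτ : τ1 + τ2 ≤ τ) : Tr X (.seq c d) s τ Q := by
  obtain ⟨t, s', h1, h2, t', s'', h3, h4, h5⟩ := h
  exact ⟨t + t', s'', .seq h1 h3, by omega, h5⟩

theorem Tr.ite {X : ℤ} {s : St} {a b : Expr} {c d : Cmd} {τ τ1 : ℕ} {Q : St → Prop}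
    (h1 : a.eval s < b.eval s → Tr X c s τ1 Q) (h2 : ¬ a.eval s < b.eval s → Tr X d s τ1 Q)
    (hτ : τ1 + 1 ≤ τ) : Tr X (.ite a b c d) s τ Q := by
  by_cases h : a.eval s < b.eval s
  · obtain ⟨t, s', e1, e2, e3⟩ := h1 h
    exact ⟨t + 1, s', .iteT h e1, by omega, e3⟩
  · obtain ⟨t, s', e1, e2, e3⟩ := h2 h
    exact ⟨t + 1, s', .iteF h e1, by omega, e3⟩

/-- `for x in [x, y) do c` -/
def Cmd.for_ (x y : ℕ) (c : Cmd) : Cmd :=
  .wh (.var x) (.var y) (.seq c (.set x (.add (.var x) (.cst 1))))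

/-- rule for counting loops with variable cost; `cost k` bounds the cost of iteration `k` -/
theorem Tr.for_ {X : ℤ} {x y : ℕ} {c : Cmd} (hx : c.mv x = false) (hy : c.mv y = false)
    (hxy : x ≠ y) (I : ℕ → St → Prop) (cost : ℕ → ℕ) (lo hi : ℕ) (hlohi : lo ≤ hi)
    (hhX : (hi : ℤ) ≤ X) {s : St} (hsx : s.v x = lo) (hsy : s.v y = hi) (h0 : I lo s)
    (hstep : ∀ (k : ℕ) (s : St), lo ≤ k → k < hi → s.v x = (k : ℤ) → s.v y = (hi : ℤ) → I k s →
      Tr X c s (cost k) (fun s' => I (k + 1) (s'.setv x ((k + 1 : ℕ) : ℤ))))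
    {τ : ℕ} (hτ : ∑ k ∈ Finset.Ico lo hi, (cost k + 2) + 1 ≤ τ) {Q : St → Prop}
    (hQ : ∀ s' : St, I hi s' → s'.v x = (hi : ℤ) → s'.v y = (hi : ℤ) → Q s') :
    Tr X (Cmd.for_ x y c) s τ Q := by
  have main : ∀ (m k : ℕ) (s : St), lo ≤ k → k + m = hi → s.v x = (k : ℤ) → s.v y = (hi : ℤ) → I k s →
      Tr X (Cmd.for_ x y c) s (∑ k ∈ Finset.Ico k hi, (cost k + 2) + 1)
        (fun s' => I hi s' ∧ s'.v x = (hi : ℤ) ∧ s'.v y = (hi : ℤ)) := by
    intro m
    induction m with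
    | zero =>
      intro k s hk hm hsx hsy hI
      have : k = hi := by omega
      subst this
      refine ⟨1, s, .whF ?_, by omega, hI, hsx, hsy⟩
      simp [Expr.eval, hsx, hsy]
    | succ m ih =>
      intro k s hk hm hsx hsy hI
      obtain ⟨t1, s1, r1, b1, q1⟩ := hstep k s hk (by omega) hsx hsy hI
      have f1 := r1.frame_v x hx
      have f2 := r1.frame_v y hy
      have hev : (Expr.add (.var x) (.cst 1)).eval s1 = ((k + 1 : ℕ) : ℤ) := by
        simp [Expr.eval, f1, hsx]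
      have r2 : Run X (.set x (.add (.var x) (.cst 1))) s1 1 (s1.setv x ((k + 1 : ℕ) : ℤ)) := by
        rw [← hev]
        refine .set _ _ _ ?_
        rw [hev, abs_of_nonneg (by positivity)]
        have : ((k + 1 : ℕ) : ℤ) ≤ hi := by exact_mod_cast (by omega : k + 1 ≤ hi)
        omega
      obtain ⟨t2, s2, r3, b3, q3⟩ := ih (k + 1) (s1.setv x ((k + 1 : ℕ) : ℤ)) (by omega) (by omega)
        (by simp) (by rw [St.setv_v, if_neg (Ne.symm hxy), f2, hsy]) q1
      refine ⟨t1 + 1 + 1 + t2, s2, ?_, ?_, q3⟩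
      · refine .whT ?_ (.seq r1 r2) r3
        simp only [Expr.eval, hsx, hsy]
        exact_mod_cast (by omega : k < hi)
      · rw [Finset.sum_eq_sum_Ico_succ_bot (by omega)]
        omega
  obtain ⟨m, hm⟩ : ∃ m, lo + m = hi := ⟨hi - lo, by omega⟩
  exact (main m lo s le_rfl hm hsx hsy h0).mono hτ fun s' h => hQ s' h.1 h.2.1 h.2.2

/-- rule for counting loops with constant cost -/
theorem Tr.forc {X : ℤ} {x y : ℕ} {c : Cmd} (hx : c.mv x = false) (hy : c.mv y = false)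
    (hxy : x ≠ y) (I : ℕ → St → Prop) (cost : ℕ) (lo hi : ℕ) (hlohi : lo ≤ hi)
    (hhX : (hi : ℤ) ≤ X) {s : St} (hsx : s.v x = lo) (hsy : s.v y = hi) (h0 : I lo s)
    (hstep : ∀ (k : ℕ) (s : St), lo ≤ k → k < hi → s.v x = (k : ℤ) → s.v y = (hi : ℤ) → I k s →
      Tr X c s cost (fun s' => I (k + 1) (s'.setv x ((k + 1 : ℕ) : ℤ))))
    {τ : ℕ} (hτ : (hi - lo) * (cost + 2) + 1 ≤ τ) {Q : St → Prop}
    (hQ : ∀ s' : St, I hi s' → s'.v x = (hi : ℤ) → s'.v y = (hi : ℤ) → Q s') :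
    Tr X (Cmd.for_ x y c) s τ Q := by
  refine Tr.for_ hx hy hxy I (fun _ => cost) lo hi hlohi hhX hsx hsy h0 hstep ?_ hQ
  simpa using hτ

end Pool.Agent.Lib_helper87.UM
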