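import Pool.Agent.Lib_helper87.Window
set_option autoImplicit false

namespace Pool.Agent.Lib_helper87.UM
open Finset

/-- keys of the two unit steps of a child with values `gm, g0, gp` -/
def K1 (gm g0 gp : ℤ) : ℤ := if 2 * (g0 - gm) < 2 * (gp - g0) then gp - gm else 2 * (g0 - gm)
def K2 (gm g0 gp : ℤ) : ℤ := if 2 * (g0 - gm) < 2 * (gp - g0) then gp - gm else 2 * (gp - g0)
/-- smallest and largest maximiser at price `κ` -/
def xlo (κ k1 k2 : ℤ) : ℤ := -1 + (if κ < k1 then 1 else 0) + (if κ < k2 then 1 else 0)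
def xhi (κ k1 k2 : ℤ) : ℤ := -1 + (if κ - 1 < k1 then 1 else 0) + (if κ - 1 < k2 then 1 else 0)

/-- an admissible table value -/
def VB (M s z : ℤ) : Prop := z = -M ∨ (-s ≤ z ∧ z ≤ s)

lemma xlo_range (κ k1 k2 : ℤ) : -1 ≤ xlo κ k1 k2 ∧ xlo κ k1 k2 ≤ 1 := by
  unfold xlo; split_ifs <;> omega
lemma xhi_range (κ k1 k2 : ℤ) : -1 ≤ xhi κ k1 k2 ∧ xhi κ k1 k2 ≤ 1 := by
  unfold xhi; split_ifs <;> omega
lemma xlo_le_xhi (κ k1 k2 : ℤ) : xlo κ k1 k2 ≤ xhi κ k1 k2 := by
  unfold xhi xlo; split_ifs <;> omega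

/-- the maximiser property -/
lemma key_arg {M s κ : ℤ} (_hs : 0 ≤ s) (hM : 8 * s + 8 < M) (hκ1 : -(4 * s + 2) ≤ κ)
    (hκ2 : κ ≤ 4 * s + 2) {G : ℤ → ℤ} (h1 : VB M s (G (-1))) (h2 : VB M s (G 0))
    (h3 : VB M s (G 1)) {b : ℤ}
    (hb : b = xlo κ (K1 (G (-1)) (G 0) (G 1)) (K2 (G (-1)) (G 0) (G 1)) ∨
      b = xhi κ (K1 (G (-1)) (G 0) (G 1)) (K2 (G (-1)) (G 0) (G 1))) :
    ∀ y, -1 ≤ y → y ≤ 1 → -M < G y → -M < G b ∧ 2 * G y - κ * y ≤ 2 * G b - κ * b := by
  have hbr : b = -1 ∨ b = 0 ∨ b = 1 := by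
    rcases hb with h | h
    · have := xlo_range κ (K1 (G (-1)) (G 0) (G 1)) (K2 (G (-1)) (G 0) (G 1)); omega
    · have := xhi_range κ (K1 (G (-1)) (G 0) (G 1)) (K2 (G (-1)) (G 0) (G 1)); omega
  unfold VB at h1 h2 h3
  unfold xlo xhi K1 K2 at hb
  intro y hy1 hy2 hyM
  have hy : y = -1 ∨ y = 0 ∨ y = 1 := by omega
  clear hy1 hy2
  have key : ∀ A B C : ℤ, (A = -M ∨ (-s ≤ A ∧ A ≤ s)) → (B = -M ∨ (-s ≤ B ∧ B ≤ s)) →
      (C = -M ∨ (-s ≤ C ∧ C ≤ s)) →
      (b = -1 + (if κ < (if 2 * (B - A) < 2 * (C - B) then C - A else 2 * (B - A)) then 1 else 0) +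
        (if κ < (if 2 * (B - A) < 2 * (C - B) then C - A else 2 * (C - B)) then 1 else 0) ∨
      b = -1 + (if κ - 1 < (if 2 * (B - A) < 2 * (C - B) then C - A else 2 * (B - A)) then 1 else 0) +
        (if κ - 1 < (if 2 * (B - A) < 2 * (C - B) then C - A else 2 * (C - B)) then 1 else 0)) →
      (b = -1 → (-M < B ∨ -M < C → -M < A) ∧ (-M < B → 2 * B ≤ 2 * A + κ) ∧
        (-M < C → 2 * C - κ ≤ 2 * A + κ)) ∧
      (b = 0 → (-M < A ∨ -M < C → -M < B) ∧ (-M < A → 2 * A + κ ≤ 2 * B) ∧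
        (-M < C → 2 * C - κ ≤ 2 * B)) ∧
      (b = 1 → (-M < A ∨ -M < B → -M < C) ∧ (-M < A → 2 * A + κ ≤ 2 * C - κ) ∧
        (-M < B → 2 * B ≤ 2 * C - κ)) := by
    intro A B C hA hB hC hb
    rcases hA with hA | hA <;> rcases hB with hB | hB <;> rcases hC with hC | hC <;>
      rcases hb with hb | hb <;> split_ifs at hb <;>
      (refine ⟨fun _ => ⟨fun _ => ?_, fun _ => ?_, fun _ => ?_⟩,
        fun _ => ⟨fun _ => ?_, fun _ => ?_, fun _ => ?_⟩,
        fun _ => ⟨fun _ => ?_, fun _ => ?_, fun _ => ?_⟩⟩ <;> omega)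
  obtain ⟨k1, k2, k3⟩ := key _ _ _ h1 h2 h3 hb
  rcases hbr with rfl | rfl | rfl <;> rcases hy with rfl | rfl | rfl
  · exact ⟨hyM, le_rfl⟩
  · obtain ⟨e1, e2, e3⟩ := k1 rfl
    exact ⟨e1 (Or.inl hyM), by linarith [e2 hyM]⟩
  · obtain ⟨e1, e2, e3⟩ := k1 rfl
    exact ⟨e1 (Or.inr hyM), by linarith [e3 hyM]⟩
  · obtain ⟨e1, e2, e3⟩ := k2 rfl
    exact ⟨e1 (Or.inl hyM), by linarith [e2 hyM]⟩
  · exact ⟨hyM, le_rfl⟩
  · obtain ⟨e1, e2, e3⟩ := k2 rfl
    exact ⟨e1 (Or.inr hyM), by linarith [e3 hyM]⟩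
  · obtain ⟨e1, e2, e3⟩ := k3 rfl
    exact ⟨e1 (Or.inl hyM), by linarith [e2 hyM]⟩
  · obtain ⟨e1, e2, e3⟩ := k3 rfl
    exact ⟨e1 (Or.inr hyM), by linarith [e3 hyM]⟩
  · exact ⟨hyM, le_rfl⟩

/-- clamped index of a key -/
def idx (s k : ℤ) : ℤ := max 0 (min (8 * s + 3) (k + (4 * s + 2)))

lemma idx_ge_iff {s k θ : ℤ} (h1 : 1 ≤ θ) (h2 : θ ≤ 8 * s + 3) :
    θ ≤ idx s k ↔ θ - (4 * s + 2) ≤ k := by
  unfold idx
  constructor
  · intro h
    rcases le_or_gt (min (8 * s + 3) (k + (4 * s + 2))) 0 with h0 | h0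
    · rw [max_eq_left h0] at h; omega
    · rw [max_eq_right h0.le] at h
      have := min_le_right (8 * s + 3) (k + (4 * s + 2))
      omega
  · intro h
    exact le_max_of_le_right (le_min h2 (by omega))

lemma idx_le {s k : ℤ} (hs : 0 ≤ s) : idx s k ≤ 8 * s + 3 := by
  unfold idx
  exact max_le (by omega) (min_le_left _ _)

lemma idx_nonneg {s k : ℤ} : 0 ≤ idx s k := le_max_left _ _

/-- remaining need while walking through the children -/
def needF (h lo : ℕ) (L H : ℕ → ℤ) (n0 : ℤ) : ℕ → ℤ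
  | 0 => n0
  | j + 1 => if lo + j = h then needF h lo L H n0 j
      else if 0 < needF h lo L H n0 j then needF h lo L H n0 j - (H (lo + j) - L (lo + j))
      else needF h lo L H n0 j

/-- the base selection -/
def baseF (h lo : ℕ) (L H : ℕ → ℤ) (n0 : ℤ) (c : ℕ) : ℤ :=
  if c = h then 0 else if 0 < needF h lo L H n0 (c - lo) then H c else L c

lemma needF_sum (h lo : ℕ) (L H : ℕ → ℤ) (n0 : ℤ) (j : ℕ) :
    ∑ c ∈ Ico lo (lo + j), baseF h lo L H n0 c =
      ∑ c ∈ Ico lo (lo + j), (if c = h then 0 else L c) + n0 - needF h lo L H n0 j := by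
  induction j with
  | zero => simp [needF]
  | succ j ih =>
    rw [← Nat.add_assoc, Finset.sum_Ico_succ_top (by omega), Finset.sum_Ico_succ_top (by omega), ih]
    simp only [baseF, needF, Nat.add_sub_cancel_left]
    split_ifs <;> ring

lemma needF_of_nonpos (h lo : ℕ) (L H : ℕ → ℤ) {n0 : ℤ} (hn : n0 ≤ 0) (j : ℕ) :
    needF h lo L H n0 j = n0 := by
  induction j with
  | zero => rfl
  | succ j ih =>
    simp only [needF, ih]
    split_ifs <;> first | rfl | omega

lemma needF_ge (h lo : ℕ) (L H : ℕ → ℤ) {n0 : ℤ} (hn : 0 ≤ n0) (j : ℕ)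
    (hLH : ∀ i < j, H (lo + i) - L (lo + i) ≤ 2) : -1 ≤ needF h lo L H n0 j := by
  induction j with
  | zero => simp [needF]; omega
  | succ j ih =>
    have e1 := ih fun i hi => hLH i (by omega)
    have e2 := hLH j (by omega)
    simp only [needF]
    split_ifs <;> omega

lemma needF_anti (h lo : ℕ) (L H : ℕ → ℤ) (n0 : ℤ) {i j : ℕ} (hij : i ≤ j)
    (hLH : ∀ i < j, L (lo + i) ≤ H (lo + i)) : needF h lo L H n0 j ≤ needF h lo L H n0 i := by
  induction j with
  | zero => have : i = 0 := by omega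
            subst this; exact le_rfl
  | succ j ih =>
    rcases Nat.lt_or_ge i (j + 1) with hlt | hge
    · have e1 := ih (by omega) fun i hi => hLH i (by omega)
      have e2 := hLH j (by omega)
      simp only [needF]
      split_ifs <;> omega
    · have : i = j + 1 := by omega
      subst this; exact le_rfl

/-- number of free unit steps with index at least `θ` -/
def cntN (lo hi h : ℕ) (s : ℤ) (k1 k2 : ℕ → ℤ) (θ : ℤ) : ℤ :=
  ∑ c ∈ Ico lo hi, (if c = h then 0 else
    ((if θ ≤ idx s (k1 c) then 1 else 0) + (if θ ≤ idx s (k2 c) then 1 else 0)))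

/-- number of free children -/
def numFree (lo hi h : ℕ) : ℤ := ∑ c ∈ Ico lo hi, (if c = h then (0 : ℤ) else 1)

lemma sum_xlo (lo hi h : ℕ) {s : ℤ} (k1 k2 : ℕ → ℤ) {θ : ℤ} (h1 : 1 ≤ θ)
    (h2 : θ ≤ 8 * s + 3) :
    ∑ c ∈ Ico lo hi, (if c = h then 0 else xlo (θ - (4 * s + 2) - 1) (k1 c) (k2 c)) =
      cntN lo hi h s k1 k2 θ - numFree lo hi h := by
  unfold cntN numFree
  rw [← Finset.sum_sub_distrib]
  apply Finset.sum_congr rfl
  intro c _
  by_cases hc : c = h
  · simp [hc]
  · rw [if_neg hc, if_neg hc, if_neg hc]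
    have e1 := idx_ge_iff (s := s) (k := k1 c) h1 h2
    have e2 := idx_ge_iff (s := s) (k := k2 c) h1 h2
    unfold xlo
    split_ifs <;> omega

lemma sum_xhi (lo hi h : ℕ) {s : ℤ} (k1 k2 : ℕ → ℤ) {θ : ℤ} (h1 : 1 ≤ θ)
    (h2 : θ ≤ 8 * s + 3) :
    ∑ c ∈ Ico lo hi, (if c = h then 0 else xhi (θ - (4 * s + 2)) (k1 c) (k2 c)) =
      cntN lo hi h s k1 k2 θ - numFree lo hi h := by
  rw [← sum_xlo lo hi h k1 k2 h1 h2]
  rfl

/-- the choice of the base, from the selected index -/
theorem baseOK_select (ex : Bool) (M s κi RR : ℤ) (lo hi h : ℕ) (hlohi : lo ≤ hi)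
    (g : ℕ → ℤ → ℤ)
    (hs : 0 ≤ s) (hM : 8 * s + 8 < M)
    (hVB : ∀ c ∈ Ico lo hi, c ≠ h → ∀ y, -1 ≤ y → y ≤ 1 → VB M s (g c y))
    (hRR : 8 * s + 3 < RR)
    (k1 k2 : ℕ → ℤ) (hk1 : ∀ c, k1 c = K1 (g c (-1)) (g c 0) (g c 1))
    (hk2 : ∀ c, k2 c = K2 (g c (-1)) (g c 0) (g c 1))
    (hsel1 : numFree lo hi h ≤ cntN lo hi h s k1 k2 κi) (hκ0 : 0 ≤ κi) (_hκRR : κi < RR)
    (hsel2 : cntN lo hi h s k1 k2 (κi + 1) < numFree lo hi h ∨ κi + 1 = RR)
    (κ : ℤ) (hκ : κ = if ex then κi - (4 * s + 2) else min (κi - (4 * s + 2)) 0)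
    (L H : ℕ → ℤ) (hL : ∀ c, L c = xlo κ (k1 c) (k2 c)) (hH : ∀ c, H c = xhi κ (k1 c) (k2 c))
    (n0 : ℤ) (hn0 : n0 = -∑ c ∈ Ico lo hi, (if c = h then 0 else L c)) :
    BaseOK ex M κ lo hi h g (baseF h lo L H n0) := by
  obtain ⟨j, rfl⟩ := Nat.exists_eq_add_of_le hlohi
  set b := baseF h lo L H n0 with hb
  have hbr : ∀ c ∈ Ico lo (lo + j), -1 ≤ b c ∧ b c ≤ 1 := by
    intro c _
    simp only [hb, baseF]
    split_ifs
    · omega
    · rw [hH]; exact xhi_range _ _ _
    · rw [hL]; exact xlo_range _ _ _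
  have hbh : h ∈ Ico lo (lo + j) → b h = 0 := by
    intro _
    simp [hb, baseF]
  have hsumb : ∑ c ∈ Ico lo (lo + j), b c = - needF h lo L H n0 j := by
    rw [hb, needF_sum, hn0]; ring
  have hLHle : ∀ i < j, L (lo + i) ≤ H (lo + i) := fun i _ => by
    rw [hL, hH]; exact xlo_le_xhi _ _ _
  have hLH2 : ∀ i < j, H (lo + i) - L (lo + i) ≤ 2 := fun i _ => by
    rw [hL, hH]
    have e1 := xlo_range κ (k1 (lo + i)) (k2 (lo + i))
    have e2 := xhi_range κ (k1 (lo + i)) (k2 (lo + i))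
    omega
  by_cases hfree : numFree lo (lo + j) h ≤ 0
  · -- no free children
    have hall : ∀ c ∈ Ico lo (lo + j), c = h := by
      intro c hc
      by_contra hne
      have h1 : (1 : ℤ) ≤ numFree lo (lo + j) h := by
        unfold numFree
        have := Finset.single_le_sum (f := fun c => if c = h then (0 : ℤ) else 1)
          (fun i _ => by split_ifs <;> norm_num) hc
        simpa [hne] using this
      omega
    have hsum0 : ∑ c ∈ Ico lo (lo + j), b c = 0 := by
      apply Finset.sum_eq_zero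
      intro c hc
      simp [hb, baseF, hall c hc]
    refine ⟨hbr, hbh, fun c hc hne => absurd (hall c hc) hne, ?_, Or.inl (by omega)⟩
    intro hex
    rw [hκ, hex]
    simp
  push Not at hfree
  have hκile : κi ≤ 8 * s + 3 := by
    by_contra hcon
    push Not at hcon
    have : cntN lo (lo + j) h s k1 k2 κi = 0 := by
      unfold cntN
      apply Finset.sum_eq_zero
      intro c _
      have e1 := idx_le (s := s) (k := k1 c) hs
      have e2 := idx_le (s := s) (k := k2 c) hs
      split_ifs <;> first | rfl | omega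
    omega
  have hκr : -(4 * s + 2) ≤ κ ∧ κ ≤ 4 * s + 2 := by
    rw [hκ]
    split_ifs
    · omega
    · rcases le_total (κi - (4 * s + 2)) 0 with h0 | h0
      · rw [min_eq_left h0]; omega
      · rw [min_eq_right h0]; omega
  have harg : ∀ c ∈ Ico lo (lo + j), c ≠ h → ∀ y, -1 ≤ y → y ≤ 1 → -M < g c y →
      -M < g c (b c) ∧ 2 * g c y - κ * y ≤ 2 * g c (b c) - κ * b c := by
    intro c hc hne
    refine key_arg hs hM hκr.1 hκr.2 (hVB c hc hne _ (by norm_num) (by norm_num))
      (hVB c hc hne _ (by norm_num) (by norm_num)) (hVB c hc hne _ (by norm_num) (by norm_num)) ?_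
    simp only [hb, baseF, if_neg hne]
    split_ifs
    · right; rw [hH, hk1, hk2]
    · left; rw [hL, hk1, hk2]
  have hκex : ex = false → κ ≤ 0 := by
    intro hex
    rw [hκ, hex]
    simp
  refine ⟨hbr, hbh, harg, hκex, ?_⟩
  rw [hsumb]
  -- total of `L` and `H`
  have hHall : 0 < needF h lo L H n0 j → ∑ c ∈ Ico lo (lo + j), b c =
      ∑ c ∈ Ico lo (lo + j), (if c = h then 0 else H c) := by
    intro hpos
    apply Finset.sum_congr rfl
    intro c hc
    simp only [Finset.mem_Ico] at hc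
    have := needF_anti h lo L H n0 (show c - lo ≤ j by omega) hLHle
    simp only [hb, baseF]
    rw [if_pos (show 0 < needF h lo L H n0 (c - lo) by omega)]
  by_cases hexκ : ex = false ∧ 0 < κi - (4 * s + 2)
  · -- price zero
    obtain ⟨hex, hpos⟩ := hexκ
    have hκz : κ = 0 := by
      rw [hκ, hex]
      simp only [Bool.false_eq_true, if_false]
      exact min_eq_right hpos.le
    have hLsum : 0 ≤ ∑ c ∈ Ico lo (lo + j), (if c = h then 0 else L c) := by
      have e1 := sum_xlo lo (lo + j) h (s := s) k1 k2 (θ := κi) (by omega) hκile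
      have e2 : ∑ c ∈ Ico lo (lo + j), (if c = h then 0 else xlo (κi - (4 * s + 2) - 1) (k1 c) (k2 c))
          ≤ ∑ c ∈ Ico lo (lo + j), (if c = h then 0 else L c) := by
        apply Finset.sum_le_sum
        intro c _
        split_ifs
        · exact le_rfl
        · rw [hL, hκz]
          unfold xlo
          split_ifs <;> omega
      omega
    have : needF h lo L H n0 j = n0 := needF_of_nonpos h lo L H (by omega) j
    right; right; right
    exact ⟨hex, hκz, by omega⟩
  · have hκe : κ = κi - (4 * s + 2) := by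
      rw [hκ]
      cases ex with
      | true => simp
      | false =>
        simp only [true_and, not_lt] at hexκ
        simp only [Bool.false_eq_true, if_false]
        exact min_eq_left hexκ
    have hLs : ∀ θ, θ = κi + 1 → θ ≤ 8 * s + 3 → ∑ c ∈ Ico lo (lo + j), (if c = h then 0 else L c) < 0 := by
      intro θ hθ hθ2
      have e1 := sum_xlo lo (lo + j) h (s := s) k1 k2 (θ := θ) (by omega) hθ2
      have e2 : θ - (4 * s + 2) - 1 = κ := by omega
      rw [e2] at e1
      have e3 : ∑ c ∈ Ico lo (lo + j), (if c = h then 0 else L c) =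
          ∑ c ∈ Ico lo (lo + j), (if c = h then 0 else xlo κ (k1 c) (k2 c)) :=
        Finset.sum_congr rfl fun c _ => by rw [hL]
      rw [e3, e1, hθ]
      rcases hsel2 with h | h
      · omega
      · omega
    have hHs : 1 ≤ κi → 0 ≤ ∑ c ∈ Ico lo (lo + j), (if c = h then 0 else H c) := by
      intro h1
      have e1 := sum_xhi lo (lo + j) h (s := s) k1 k2 (θ := κi) h1 hκile
      have e3 : ∑ c ∈ Ico lo (lo + j), (if c = h then 0 else H c) =
          ∑ c ∈ Ico lo (lo + j), (if c = h then 0 else xhi (κi - (4 * s + 2)) (k1 c) (k2 c)) :=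
        Finset.sum_congr rfl fun c _ => by rw [hH, hκe]
      rw [e3, e1]
      omega
    by_cases hLneg : ∑ c ∈ Ico lo (lo + j), (if c = h then 0 else L c) < 0
    · have hge := needF_ge h lo L H (n0 := n0) (by omega) j hLH2
      by_cases hfin : 0 < needF h lo L H n0 j
      · have e1 := hHall hfin
        rw [hsumb] at e1
        have hκ00 : κi = 0 := by
          by_contra hne
          have := hHs (by omega)
          omega
        right; right; left
        refine ⟨by omega, ?_⟩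
        intro c hc hne y hy1 hy2 hy
        have hκv : κ = -(4 * s + 2) := by omega
        have hbc : b c = xhi κ (k1 c) (k2 c) := by
          simp only [Finset.mem_Ico] at hc
          have := needF_anti h lo L H n0 (show c - lo ≤ j by omega) hLHle
          simp only [hb, baseF]
          rw [if_neg hne, if_pos (show 0 < needF h lo L H n0 (c - lo) by omega), hH]
        have v1 := hVB c hc hne (-1) (by norm_num) (by norm_num)
        have v2 := hVB c hc hne 0 (by norm_num) (by norm_num)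
        have v3 := hVB c hc hne 1 (by norm_num) (by norm_num)
        rw [hbc, hk1, hk2, hκv]
        generalize hA : g c (-1) = A at *
        generalize hB : g c 0 = B at *
        generalize hC : g c 1 = C at *
        have hyc : (y = -1 ∧ -M < A) ∨ (y = 0 ∧ -M < B) ∨ (y = 1 ∧ -M < C) := by
          have : y = -1 ∨ y = 0 ∨ y = 1 := by omega
          rcases this with rfl | rfl | rfl
          · left; exact ⟨rfl, hA ▸ hy⟩
          · right; left; exact ⟨rfl, hB ▸ hy⟩
          · right; right; exact ⟨rfl, hC ▸ hy⟩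
        clear hy hA hB hC e1
        unfold VB at v1 v2 v3
        unfold xhi K1 K2
        rcases v1 with v1 | v1 <;> rcases v2 with v2 | v2 <;> rcases v3 with v3 | v3 <;>
          split_ifs <;> omega
      · left
        omega
    · have hn : needF h lo L H n0 j = n0 := needF_of_nonpos h lo L H (by omega) j
      have hκtop : κi = 8 * s + 3 := by
        by_contra hne
        have := hLs _ rfl (by omega)
        exact hLneg this
      have hext : ex = true := by
        by_contra hf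
        have hf' : ex = false := by simpa using hf
        exact hexκ ⟨hf', by omega⟩
      right; left
      refine ⟨hext, by omega, ?_⟩
      intro c hc hne y hy1 hy2 hy
      have hκv : κ = 4 * s + 1 := by omega
      have hbc : b c = xlo κ (k1 c) (k2 c) := by
        have := needF_of_nonpos h lo L H (n0 := n0) (by omega) (c - lo)
        simp only [hb, baseF]
        rw [if_neg hne, if_neg (by omega), hL]
      have v1 := hVB c hc hne (-1) (by norm_num) (by norm_num)
      have v2 := hVB c hc hne 0 (by norm_num) (by norm_num)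
      have v3 := hVB c hc hne 1 (by norm_num) (by norm_num)
      rw [hbc, hk1, hk2, hκv]
      generalize hA : g c (-1) = A at *
      generalize hB : g c 0 = B at *
      generalize hC : g c 1 = C at *
      have hyc : (y = -1 ∧ -M < A) ∨ (y = 0 ∧ -M < B) ∨ (y = 1 ∧ -M < C) := by
        have : y = -1 ∨ y = 0 ∨ y = 1 := by omega
        rcases this with rfl | rfl | rfl
        · left; exact ⟨rfl, hA ▸ hy⟩
        · right; left; exact ⟨rfl, hB ▸ hy⟩
        · right; right; exact ⟨rfl, hC ▸ hy⟩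
      clear hy hA hB hC
      unfold VB at v1 v2 v3
      unfold xlo K1 K2
      rcases v1 with v1 | v1 <;> rcases v2 with v2 | v2 <;> rcases v3 with v3 | v3 <;>
        split_ifs <;> omega

end Pool.Agent.Lib_helper87.UM
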