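import Pool.Agent.Lib_helper87.Sl
import Pool.Agent.Lib_helper87.Select
set_option autoImplicit false

namespace Pool.Agent.Lib_helper87.UM
open Finset

/-- load the three table values of child `v12` for parent state `v21` and its two keys -/
def keysC : Cmd :=
  .seq (.set 32 (.ld 5 (.smul 18 (.var 12) + .var 21)))
  (.seq (.set 33 (.ld 5 (.smul 18 (.var 12) + .cst 6 + .var 21)))
  (.seq (.set 34 (.ld 5 (.smul 18 (.var 12) + .cst 12 + .var 21)))
  (.seq (.set 35 (.cond (.smul 2 (.var 33 - .var 32)) (.smul 2 (.var 34 - .var 33))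
    (.var 34 - .var 32) (.smul 2 (.var 33 - .var 32))))
    (.set 36 (.cond (.smul 2 (.var 33 - .var 32)) (.smul 2 (.var 34 - .var 33))
    (.var 34 - .var 32) (.smul 2 (.var 34 - .var 33)))))))

lemma keysC_exec (s : St) : keysC.exec s =
    ((((s.setv 32 (s.m 5 (18 * s.v 12 + s.v 21))).setv 33 (s.m 5 (18 * s.v 12 + 6 + s.v 21))).setv 34
      (s.m 5 (18 * s.v 12 + 12 + s.v 21))).setv 35
      (K1 (s.m 5 (18 * s.v 12 + s.v 21)) (s.m 5 (18 * s.v 12 + 6 + s.v 21))
        (s.m 5 (18 * s.v 12 + 12 + s.v 21)))).setv 36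
      (K2 (s.m 5 (18 * s.v 12 + s.v 21)) (s.m 5 (18 * s.v 12 + 6 + s.v 21))
        (s.m 5 (18 * s.v 12 + 12 + s.v 21))) := by
  simp [keysC, K1, K2]

lemma K1_abs {M a b c : ℤ} (ha : |a| ≤ M) (hb : |b| ≤ M) (hc : |c| ≤ M) :
    |K1 a b c| ≤ 4 * M ∧ |K2 a b c| ≤ 4 * M := by
  rw [abs_le] at ha hb hc
  unfold K1 K2
  constructor <;> split_ifs <;> rw [abs_le] <;> constructor <;> linarith

lemma keysC_bd {X M : ℤ} {s : St} (hM : 4 * M ≤ X)
    (h1 : |s.m 5 (18 * s.v 12 + s.v 21)| ≤ M) (h2 : |s.m 5 (18 * s.v 12 + 6 + s.v 21)| ≤ M)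
    (h3 : |s.m 5 (18 * s.v 12 + 12 + s.v 21)| ≤ M) : keysC.bd X s := by
  have hM0 := (abs_nonneg _).trans h1
  have h4 := K1_abs h1 h2 h3
  unfold K1 K2 at h4
  simp only [keysC, bd_seq, bd_set, exec_set, ev_ld, ev_add, ev_smul, ev_var, ev_cst, St.setv_v,
    St.setv_m, ev_cond, ev_sub]
  simp only [Nat.reduceEqDiff, if_true, if_false]
  exact ⟨h1.trans (by linarith), h2.trans (by linarith), h3.trans (by linarith),
    h4.1.trans hM, h4.2.trans hM⟩

/-- the clamped index of a key -/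
def idxE (k : Expr) : Expr :=
  .mx (.cst 0) (.cond (.smul 8 (.var 15) + .cst 3) (k + (.smul 4 (.var 15) + .cst 2))
    (.smul 8 (.var 15) + .cst 3) (k + (.smul 4 (.var 15) + .cst 2)))

lemma ite_lt_eq_min (a b : ℤ) : (if a < b then a else b) = min a b := by
  rcases lt_or_ge a b with h | h
  · rw [if_pos h, min_eq_left h.le]
  · rw [if_neg (not_lt.mpr h), min_eq_right h]

lemma idxE_eval (s : St) (k : Expr) : (idxE k).eval s = idx (s.v 15) (k.eval s) := by
  simp only [idxE, ev_mx, ev_cond, ev_add, ev_smul, ev_var, ev_cst, idx]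
  rw [ite_lt_eq_min]

/-- increment the histogram cell of key `k` -/
def bumpC (k : Expr) : Cmd :=
  .seq (.set 29 (.div (idxE k - .var 23) (.var 22)))
    (.ite (.cst (-1)) (.var 29)
      (.ite (.var 29) (.var 18) (.put 7 (.var 29) (.ld 7 (.var 29) + .cst 1)) .skip) .skip)

/-- digit of a key -/
def digit (S bs un k : ℤ) : ℤ := (idx S k - bs) / un

lemma bumpC_exec_m (s : St) (k : Expr) {j : ℤ} (h0 : 0 ≤ j) (hR : j < s.v 18) :
    ((bumpC k).exec s).m 7 j = s.m 7 j +
      if digit (s.v 15) (s.v 23) (s.v 22) (k.eval s) = j then 1 else 0 := by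
  simp only [bumpC, exec_seq, exec_set, ev_div, ev_sub, idxE_eval, ev_var, exec_ite, ev_cst,
    St.setv_v, St.setv_m, exec_put, ev_ld, ev_add, ev_cst, exec_skip]
  simp only [Nat.reduceEqDiff, if_true, if_false]
  have hq : (idx (s.v 15) (k.eval s) - s.v 23) / s.v 22 =
    digit (s.v 15) (s.v 23) (s.v 22) (k.eval s) := rfl
  rw [hq]
  split_ifs with h1 h2 h3 h3 h3 <;> simp only [St.setm_m, St.setv_m]
  · simp [h3]
  · rw [if_neg (fun h => h3 h.2.symm), add_zero]
  · omega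
  · rw [add_zero]
  · omega
  · rw [add_zero]

lemma bumpC_exec_v (s : St) (k : Expr) {y : ℕ} (h : y ≠ 29) : ((bumpC k).exec s).v y = s.v y := by
  simp only [bumpC, exec_seq, exec_set, exec_ite, exec_put, exec_skip]
  split_ifs <;> simp [h]

lemma bumpC_exec_ma (s : St) (k : Expr) {a : Fin 16} (h : a ≠ 7) :
    ((bumpC k).exec s).m a = s.m a := by
  funext i
  simp only [bumpC, exec_seq, exec_set, exec_ite, exec_put, exec_skip]
  split_ifs <;> simp [h]

lemma bumpC_bd {X : ℤ} (s : St) (k : Expr)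
    (h1 : |digit (s.v 15) (s.v 23) (s.v 22) (k.eval s)| ≤ X)
    (h2 : ∀ j, 0 ≤ j → j < s.v 18 → |s.m 7 j + 1| ≤ X) : (bumpC k).bd X s := by
  simp only [bumpC, bd_seq, bd_set, ev_div, ev_sub, idxE_eval, ev_var, exec_set, bd_ite, ev_cst,
    St.setv_v, bd_put, ev_add, ev_ld, ev_cst, bd_skip, St.setv_m]
  simp only [Nat.reduceEqDiff, if_true, if_false]
  refine ⟨h1, fun h3 => ⟨fun h4 => ?_, fun _ => trivial⟩, fun _ => trivial⟩
  exact h2 _ (by omega) h4

/-- counting function of a single value -/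
lemma digit_count {S bs un k j : ℤ} (hun : 0 < un) :
    (if digit S bs un k = j then (1 : ℤ) else 0) =
      (if bs + j * un ≤ idx S k then 1 else 0) - (if bs + (j + 1) * un ≤ idx S k then 1 else 0) := by
  unfold digit
  have key : (idx S k - bs) / un = j ↔ bs + j * un ≤ idx S k ∧ idx S k < bs + (j + 1) * un := by
    rw [Int.ediv_eq_iff_of_pos hun]
    constructor
    · rintro ⟨h1, h2⟩
      constructor <;> nlinarith
    · rintro ⟨h1, h2⟩
      constructor <;> nlinarith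
  by_cases h : (idx S k - bs) / un = j
  · obtain ⟨h1, h2⟩ := key.mp h
    rw [if_pos h, if_pos h1, if_neg (by omega)]; rfl
  · rw [if_neg h]
    by_cases h1 : bs + j * un ≤ idx S k
    · have h2 : bs + (j + 1) * un ≤ idx S k := by
        by_contra h2
        exact h (key.mpr ⟨h1, by omega⟩)
      rw [if_pos h1, if_pos h2]; rfl
    · have h2 : ¬ bs + (j + 1) * un ≤ idx S k := by
        intro h2
        apply h1
        nlinarith
      rw [if_neg h1, if_neg h2]; rfl

lemma digit_abs {S bs un k B : ℤ} (hS : 0 ≤ S) (hbs : 0 ≤ bs) (h1 : bs ≤ B)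
    (h2 : 8 * S + 3 ≤ B) : |digit S bs un k| ≤ B := by
  unfold digit
  have e1 := idx_nonneg (s := S) (k := k)
  have e2 := idx_le (s := S) (k := k) hS
  refine (Int.abs_ediv_le_abs _ _).trans ?_
  rw [abs_le]
  constructor <;> omega

lemma cntN_nonneg (lo hi h : ℕ) (s : ℤ) (k1 k2 : ℕ → ℤ) (θ : ℤ) : 0 ≤ cntN lo hi h s k1 k2 θ := by
  unfold cntN
  apply Finset.sum_nonneg
  intro c _
  split_ifs <;> norm_num

lemma cntN_le (lo hi h : ℕ) (s : ℤ) (k1 k2 : ℕ → ℤ) (θ : ℤ) :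
    cntN lo hi h s k1 k2 θ ≤ 2 * numFree lo hi h := by
  unfold cntN numFree
  rw [Finset.mul_sum]
  apply Finset.sum_le_sum
  intro c _
  split_ifs <;> norm_num

lemma numFree_le (lo hi h : ℕ) (hlohi : lo ≤ hi) : numFree lo hi h ≤ hi - lo := by
  unfold numFree
  have : ∑ c ∈ Ico lo hi, (if c = h then (0 : ℤ) else 1) ≤ ∑ c ∈ Ico lo hi, 1 := by
    apply Finset.sum_le_sum
    intro c _
    split_ifs <;> norm_num
  refine this.trans ?_
  simp only [Finset.sum_const, Nat.card_Ico]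
  rw [nsmul_eq_mul, mul_one, Nat.cast_sub hlohi]

lemma numFree_nonneg (lo hi h : ℕ) : 0 ≤ numFree lo hi h := by
  unfold numFree
  apply Finset.sum_nonneg
  intro c _
  split_ifs <;> norm_num

lemma cntN_succ {lo c : ℕ} (hlo : lo ≤ c) (h : ℕ) (s : ℤ) (k1 k2 : ℕ → ℤ) (θ : ℤ) :
    cntN lo (c + 1) h s k1 k2 θ = cntN lo c h s k1 k2 θ + if c = h then 0 else
    ((if θ ≤ idx s (k1 c) then 1 else 0) + (if θ ≤ idx s (k2 c) then 1 else 0)) := by
  unfold cntN
  rw [Finset.sum_Ico_succ_top hlo]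

lemma numFree_succ {lo c : ℕ} (hlo : lo ≤ c) (h : ℕ) :
    numFree lo (c + 1) h = numFree lo c h + if c = h then 0 else 1 := by
  unfold numFree
  rw [Finset.sum_Ico_succ_top hlo]

/-- keys read off the table -/
def gk1 (m5 : ℤ → ℤ) (σ : ℤ) (c : ℕ) : ℤ :=
  K1 (m5 (18 * (c : ℤ) + σ)) (m5 (18 * (c : ℤ) + 6 + σ)) (m5 (18 * (c : ℤ) + 12 + σ))
def gk2 (m5 : ℤ → ℤ) (σ : ℤ) (c : ℕ) : ℤ :=
  K2 (m5 (18 * (c : ℤ) + σ)) (m5 (18 * (c : ℤ) + 6 + σ)) (m5 (18 * (c : ℤ) + 12 + σ))

def fillB : Cmd :=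
  .ine (.var 12) (.var 16) (.seq keysC (.seq (bumpC (.var 35)) (bumpC (.var 36))))
def fillC : Cmd := .seq (.set 12 (.var 10)) (Cmd.for_ 12 11 fillB)

/-- bound on the tables of the children -/
def TabB (M : ℤ) (m5 : ℤ → ℤ) (σ : ℤ) (lo hi : ℕ) : Prop :=
  ∀ c ∈ Ico lo hi, |m5 (18 * (c : ℤ) + σ)| ≤ M ∧ |m5 (18 * (c : ℤ) + 6 + σ)| ≤ M ∧
    |m5 (18 * (c : ℤ) + 12 + σ)| ≤ M

theorem fillC_spec {X M : ℤ} {s : St} {lo hi h : ℕ} {S bs un R σ : ℤ} (hlohi : lo ≤ hi)
    (hX : (hi : ℤ) ≤ X) (hX2 : 2 * ((hi : ℤ) - lo) + 1 ≤ X) (hMX : 4 * M ≤ X)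
    (h10 : s.v 10 = lo) (h11 : s.v 11 = hi) (h16 : lo < hi → s.v 16 = h)
    (h15 : s.v 15 = S) (h23 : s.v 23 = bs) (h22 : s.v 22 = un) (h18 : s.v 18 = R)
    (h21 : s.v 21 = σ) (hS : 0 ≤ S) (hun : 0 < un) (hbs : 0 ≤ bs) (hbsX : bs ≤ X)
    (hSX : 8 * S + 3 ≤ X) (hT : TabB M (s.m 5) σ lo hi)
    (hH : ∀ j, 0 ≤ j → j < R → s.m 7 j = 0) :
    Tr X fillC s (22 * (hi - lo) + 2) (fun s' => ∀ j, 0 ≤ j → j < R →
      s'.m 7 j = cntN lo hi h S (gk1 (s.m 5) σ) (gk2 (s.m 5) σ) (bs + j * un) -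
        cntN lo hi h S (gk1 (s.m 5) σ) (gk2 (s.m 5) σ) (bs + (j + 1) * un)) := by
  have hloX : |(lo : ℤ)| ≤ X := by
    rw [abs_of_nonneg (by positivity)]
    have : (lo : ℤ) ≤ hi := by exact_mod_cast hlohi
    omega
  refine Tr.seq (τ1 := 1) (τ2 := 22 * (hi - lo) + 1) (Tr.set (by simpa [h10] using hloX) le_rfl ?_) (by omega)
  simp only [ev_var, h10]
  refine Tr.forFc (by rfl) (by rfl) (by norm_num) (fun c st => ∀ j, 0 ≤ j → j < R →
      st.m 7 j = cntN lo c h S (gk1 (s.m 5) σ) (gk2 (s.m 5) σ) (bs + j * un) -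
        cntN lo c h S (gk1 (s.m 5) σ) (gk2 (s.m 5) σ) (bs + (j + 1) * un)) 20 lo hi hlohi hX
    (by simp) (by simp [h11]) ?_ ?_ (by omega) ?_
  · intro j hj0 hjR
    simp [cntN, hH j hj0 hjR]
  · intro c st hc1 hc2 hvc hvh hfv hfm hI
    have f16 : st.v 16 = h := by rw [hfv 16 rfl (by norm_num)]; simp [h16 (by omega)]
    have f15 : st.v 15 = S := by rw [hfv 15 rfl (by norm_num)]; simp [h15]
    have f23 : st.v 23 = bs := by rw [hfv 23 rfl (by norm_num)]; simp [h23]
    have f22 : st.v 22 = un := by rw [hfv 22 rfl (by norm_num)]; simp [h22]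
    have f18 : st.v 18 = R := by rw [hfv 18 rfl (by norm_num)]; simp [h18]
    have f21 : st.v 21 = σ := by rw [hfv 21 rfl (by norm_num)]; simp [h21]
    have f5 : st.m 5 = s.m 5 := by rw [hfm 5 rfl]; simp
    obtain ⟨t1, t2, t3⟩ := hT c (Finset.mem_Ico.mpr ⟨hc1, hc2⟩)
    refine Tr.ine (τ1 := 18) ?_ ?_ (by norm_num)
    · intro hne
      have hch : c ≠ h := by
        intro heq
        apply hne
        simp [hvc, f16, heq]
      have hkb : keysC.bd X st := by
        refine keysC_bd hMX ?_ ?_ ?_ <;> rw [f5, hvc, f21]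
        · exact t1
        · exact t2
        · exact t3
      have e35 : (keysC.exec st).v 35 = gk1 (s.m 5) σ c := by
        rw [keysC_exec]; simp [f5, hvc, f21, gk1]
      have e36 : (keysC.exec st).v 36 = gk2 (s.m 5) σ c := by
        rw [keysC_exec]; simp [f5, hvc, f21, gk2]
      have ev : ∀ y, y < 32 → (keysC.exec st).v y = st.v y := by
        intro y hy
        rw [keysC_exec]
        simp only [St.setv_v]
        rw [if_neg (by omega), if_neg (by omega), if_neg (by omega), if_neg (by omega),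
          if_neg (by omega)]
      have em : (keysC.exec st).m = st.m := by rw [keysC_exec]; simp
      set s1 := keysC.exec st with hs1
      set s2 := (bumpC (.var 35)).exec s1 with hs2
      have g15 : s1.v 15 = S := by rw [ev 15 (by norm_num), f15]
      have g23 : s1.v 23 = bs := by rw [ev 23 (by norm_num), f23]
      have g22 : s1.v 22 = un := by rw [ev 22 (by norm_num), f22]
      have g18 : s1.v 18 = R := by rw [ev 18 (by norm_num), f18]
      have w15 : s2.v 15 = S := by rw [hs2, bumpC_exec_v _ _ (by norm_num), g15]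
      have w23 : s2.v 23 = bs := by rw [hs2, bumpC_exec_v _ _ (by norm_num), g23]
      have w22 : s2.v 22 = un := by rw [hs2, bumpC_exec_v _ _ (by norm_num), g22]
      have w18 : s2.v 18 = R := by rw [hs2, bumpC_exec_v _ _ (by norm_num), g18]
      have w36 : s2.v 36 = gk2 (s.m 5) σ c := by rw [hs2, bumpC_exec_v _ _ (by norm_num), e36]
      have hm1 : ∀ j, 0 ≤ j → j < R → s1.m 7 j = st.m 7 j := by intro j _ _; rw [em]
      have hm2 : ∀ j, 0 ≤ j → j < R → s2.m 7 j = st.m 7 j +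
          if digit S bs un (gk1 (s.m 5) σ c) = j then 1 else 0 := by
        intro j hj0 hjR
        rw [hs2, bumpC_exec_m _ _ hj0 (by rw [g18]; exact hjR), hm1 j hj0 hjR, g15, g23, g22,
          ev_var, e35]
      have hbnd : ∀ j, 0 ≤ j → j < R → 0 ≤ st.m 7 j + 2 ∧ |st.m 7 j + 1| ≤ X ∧ |st.m 7 j + 1 + 1| ≤ X := by
        intro j hj0 hjR
        rw [hI j hj0 hjR]
        have a1 := cntN_nonneg lo c h S (gk1 (s.m 5) σ) (gk2 (s.m 5) σ) (bs + j * un)
        have a2 := cntN_nonneg lo c h S (gk1 (s.m 5) σ) (gk2 (s.m 5) σ) (bs + (j + 1) * un)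
        have a3 := cntN_le lo c h S (gk1 (s.m 5) σ) (gk2 (s.m 5) σ) (bs + j * un)
        have a5 : cntN lo c h S (gk1 (s.m 5) σ) (gk2 (s.m 5) σ) (bs + (j + 1) * un) ≤
            cntN lo c h S (gk1 (s.m 5) σ) (gk2 (s.m 5) σ) (bs + j * un) := by
          unfold cntN
          apply Finset.sum_le_sum
          intro i _
          have : bs + j * un ≤ bs + (j + 1) * un := by nlinarith
          split_ifs <;> omega
        have a4 := numFree_le lo c h hc1
        have a6 : (c : ℤ) + 1 ≤ hi := by exact_mod_cast hc2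
        refine ⟨by omega, ?_, ?_⟩ <;> rw [abs_le] <;> constructor <;> omega
      refine Tr.sl ?_ (by decide) ?_
      · simp only [bd_seq]
        refine ⟨hkb, ?_, ?_⟩
        · refine bumpC_bd _ _ ?_ ?_
          · rw [← hs1, g15, g23, g22]
            exact digit_abs hS hbs hbsX hSX
          · intro j hj0 hjR
            rw [← hs1, g18] at hjR
            rw [← hs1, hm1 j hj0 hjR]
            exact (hbnd j hj0 hjR).2.1
        · refine bumpC_bd _ _ ?_ ?_
          · rw [← hs1, ← hs2, w15, w23, w22]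
            exact digit_abs hS hbs hbsX hSX
          · intro j hj0 hjR
            rw [← hs1, ← hs2, w18] at hjR
            rw [← hs1, ← hs2, hm2 j hj0 hjR]
            obtain ⟨b1, b2, b3⟩ := hbnd j hj0 hjR
            split_ifs
            · exact b3
            · rw [add_zero]; exact b2
      · intro j hj0 hjR
        simp only [exec_seq, St.setv_m]
        rw [← hs1, ← hs2, bumpC_exec_m _ _ hj0 (by rw [w18]; exact hjR), hm2 j hj0 hjR,
          w15, w23, w22, ev_var, w36, hI j hj0 hjR, cntN_succ hc1, cntN_succ hc1, if_neg hch, if_neg hch,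
          digit_count hun, digit_count hun]
        ring
    · intro heq
      have hch : c = h := by
        simp only [ev_var, hvc, f16] at heq
        exact_mod_cast heq
      intro j hj0 hjR
      simp only [St.setv_m]
      rw [hI j hj0 hjR, cntN_succ hc1, cntN_succ hc1, if_pos hch, if_pos hch]
      ring
  · intro s' hI _ _ _ j hj0 hjR
    exact hI j hj0 hjR

def clearC : Cmd := .seq (.set 28 (.cst 0)) (Cmd.for_ 28 18 (.put 7 (.var 28) (.cst 0)))

theorem clearC_spec {X : ℤ} {s : St} {R : ℕ} (hX : (R : ℤ) ≤ X) (h18 : s.v 18 = R) :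
    Tr X clearC s (3 * R + 2) (fun s' => ∀ j, 0 ≤ j → j < (R : ℤ) → s'.m 7 j = 0) := by
  have hX0 : (0 : ℤ) ≤ X := le_trans (by positivity) hX
  refine Tr.seq (τ1 := 1) (τ2 := 3 * R + 1) (Tr.set (by simpa using hX0) le_rfl ?_) (by omega)
  refine Tr.forFc (by rfl) (by rfl) (by norm_num)
    (fun c st => ∀ j, 0 ≤ j → j < (c : ℤ) → st.m 7 j = 0) 1 0 R (by omega) hX
    (by simp) (by simp [h18]) ?_ ?_ (by omega) ?_
  · intro j h1 h2
    simp at h2
    omega
  · intro c st hc1 hc2 hvc hvh hfv hfm hI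
    refine Tr.sl (by simpa using hX0) (by decide) ?_
    intro j h1 h2
    simp only [exec_put, ev_var, ev_cst, St.setv_m, St.setm_m, hvc]
    split_ifs with h
    · rfl
    · apply hI j h1
      push_cast at h2
      have : j ≠ c := fun h' => h ⟨trivial, h'⟩
      omega
  · intro s' hI _ _ _ j h1 h2
    exact hI j h1 h2

def scanB : Cmd :=
  .seq (.ite (.var 26) (.cst 1)
      (.ite (.var 24 + .ld 7 (.var 18 - .cst 1 - .var 28)) (.var 25)
        (.set 24 (.var 24 + .ld 7 (.var 18 - .cst 1 - .var 28)))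
        (.seq (.set 26 (.cst 1)) (.set 46 (.var 27)))) .skip)
    (.set 27 (.var 27 - .var 22))

def scanC : Cmd :=
  .seq (.set 26 (.cst 0)) (.seq (.set 27 (.var 45)) (.seq (.set 28 (.cst 0))
    (.seq (Cmd.for_ 28 18 scanB) (.set 23 (.var 46)))))

theorem scanC_spec {X : ℤ} {s : St} {R : ℕ} {bs un m RR : ℤ} {N : ℤ → ℤ} (hX : (R : ℤ) ≤ X)
    (h18 : s.v 18 = R) (hR : 1 ≤ R) (h22 : s.v 22 = un) (h25 : s.v 25 = m)
    (h45 : s.v 45 = bs + (R - 1) * un) (h24 : s.v 24 = N (bs + R * un)) (hun : 0 < un)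
    (hunX : un ≤ X)
    (hbs : 0 ≤ bs) (hRR : bs + R * un ≤ RR) (hRRX : RR ≤ X)
    (hH : ∀ j, 0 ≤ j → j < (R : ℤ) → s.m 7 j = N (bs + j * un) - N (bs + (j + 1) * un))
    (hN0 : ∀ θ, 0 ≤ N θ) (hNX : ∀ θ, N θ ≤ X) (hmN : m ≤ N bs)
    (hpre : N (bs + R * un) < m ∨ bs + R * un = RR) :
    Tr X scanC s (12 * R + 5) (fun s' => ∃ j, 0 ≤ j ∧ j < (R : ℤ) ∧ s'.v 23 = bs + j * un ∧
      s'.v 24 = N (s'.v 23 + un) ∧ m ≤ N (s'.v 23) ∧
      (N (s'.v 23 + un) < m ∨ s'.v 23 + un = RR)) := by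
  have hX0 : (1 : ℤ) ≤ X := le_trans (by exact_mod_cast hR) hX
  have hRZ : (1 : ℤ) ≤ R := by exact_mod_cast hR
  have hRun : (R : ℤ) ≤ R * un := by nlinarith
  have hRun2 : un ≤ R * un := by nlinarith
  refine Tr.setS (τ2 := 12 * R + 4) (by simp; omega) ?_ (by omega)
  refine Tr.setS (τ2 := 12 * R + 3) ?_ ?_ (by omega)
  · simp only [ev_var, St.setv_v]
    simp only [Nat.reduceEqDiff, if_false, h45]
    have : bs + (R - 1) * un = bs + R * un - un := by ring
    rw [abs_of_nonneg (by nlinarith)]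
    omega
  refine Tr.setS (τ2 := 12 * R + 2) (by simp; omega) ?_ (by omega)
  refine Tr.seq (τ1 := 12 * R + 1) (τ2 := 1) ?_ (by omega)
  simp only [ev_cst, ev_var, St.setv_v]
  simp only [Nat.reduceEqDiff, if_false, h45]
  set s0 : St := ((s.setv 26 0).setv 27 (bs + (R - 1) * un)).setv 28 0 with hs0
  refine Tr.forFc (by rfl) (by rfl) (by norm_num)
    (fun r st => st.v 27 = bs + (R - 1 - r) * un ∧
      (st.v 26 = 0 ∧ st.v 24 = N (bs + (R - r) * un) ∧
        (N (bs + (R - r) * un) < m ∨ bs + (R - r) * un = RR) ∨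
       st.v 26 = 1 ∧ ∃ j, 0 ≤ j ∧ j < (R : ℤ) ∧ st.v 46 = bs + j * un ∧
        st.v 24 = N (bs + j * un + un) ∧ m ≤ N (bs + j * un) ∧
        (N (bs + j * un + un) < m ∨ bs + j * un + un = RR))) 10 0 R (by omega) hX
    (by simp [hs0]) (by simp [hs0, h18]) ?_ ?_ (by omega) ?_
  · refine ⟨by simp [hs0], ?_⟩
    left
    refine ⟨by simp [hs0], ?_, ?_⟩
    · simp [hs0, h24]
    · simpa using hpre
  · intro r st _ hr hvr hvh hfv hfm hI
    have f18 : st.v 18 = R := hvh
    have f22 : st.v 22 = un := by rw [hfv 22 rfl (by norm_num)]; simp [hs0, h22]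
    have f25 : st.v 25 = m := by rw [hfv 25 rfl (by norm_num)]; simp [hs0, h25]
    have f7 : st.m 7 = s.m 7 := by rw [hfm 7 rfl]; simp [hs0]
    obtain ⟨h27, hcase⟩ := hI
    have hrZ : (r : ℤ) + 1 ≤ R := by exact_mod_cast hr
    have hr0 : (0 : ℤ) ≤ r := by positivity
    set j : ℤ := R - 1 - r with hj
    have hj0 : 0 ≤ j := by omega
    have hjR : j < R := by omega
    have hjun : 0 ≤ j * un := mul_nonneg hj0 hun.le
    have hjun2 : j * un + un ≤ R * un := by
      have : (j + 1) * un ≤ R * un := by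
        apply mul_le_mul_of_nonneg_right _ hun.le
        omega
      linarith
    have hpos27 : |bs + j * un - un| ≤ X := by
      rw [abs_le]; constructor <;> omega
    have hHj := hH j hj0 hjR
    have e1 : bs + (j + 1) * un = bs + j * un + un := by ring
    have e2 : ((R : ℤ) - r) = j + 1 := by omega
    have e3 : ((R : ℤ) - 1 - ((r + 1 : ℕ) : ℤ)) = j - 1 := by push_cast; omega
    have e4 : ((R : ℤ) - ((r + 1 : ℕ) : ℤ)) = j := by push_cast; omega
    rcases hcase with ⟨h26, h24', hpre'⟩ | ⟨h26, j', a1, a2, a3, a4, a5, a6⟩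
    · rw [e2, e1] at h24' hpre'
      have hsum : st.v 24 + st.m 7 (st.v 18 - 1 - st.v 28) = N (bs + j * un) := by
        rw [h24', f7, f18, hvr, ← hj, hHj, e1]; ring
      by_cases hlt : N (bs + j * un) < m
      · refine Tr.sl ?_ (by decide) ?_
        · simp only [scanB, bd_seq, bd_ite, ev_var, ev_cst, ev_add, ev_ld, ev_sub, bd_set, bd_skip,
            exec_ite, exec_seq, exec_set, exec_skip]
          rw [hsum, f25, h26, if_pos (by norm_num), if_pos hlt]
          refine ⟨⟨fun _ => ⟨fun _ => ?_, fun h => absurd hlt h⟩, fun _ => trivial⟩, ?_⟩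
          · rw [abs_of_nonneg (hN0 _)]; exact hNX _
          · simp only [St.setv_v]
            simp only [Nat.reduceEqDiff, if_false, h27, f22]
            exact hpos27
        · simp only [scanB, ev_var, ev_cst, ev_add, ev_ld, ev_sub,
            exec_ite, exec_seq, exec_set, exec_skip]
          rw [hsum, f25, h26, if_pos (by norm_num), if_pos hlt]
          simp only [St.setv_v]
          simp only [Nat.reduceEqDiff, if_false, if_true, h27, f22, e3, e4, h26]
          refine ⟨by ring, Or.inl ⟨trivial, trivial, Or.inl hlt⟩⟩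
      · refine Tr.sl ?_ (by decide) ?_
        · simp only [scanB, bd_seq, bd_ite, ev_var, ev_cst, ev_add, ev_ld, ev_sub, bd_set, bd_skip,
            exec_ite, exec_seq, exec_set, exec_skip]
          rw [hsum, f25, h26, if_pos (by norm_num), if_neg hlt]
          refine ⟨⟨fun _ => ⟨fun h => absurd h hlt, fun _ => ?_⟩, fun _ => trivial⟩, ?_⟩
          · simp only [St.setv_v]
            simp only [Nat.reduceEqDiff, if_false, h27]
            refine ⟨by rw [abs_of_nonneg (by norm_num)]; omega, ?_⟩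
            rw [abs_le]; constructor <;> omega
          · simp only [St.setv_v]
            simp only [Nat.reduceEqDiff, if_false, h27, f22]
            exact hpos27
        · simp only [scanB, ev_var, ev_cst, ev_add, ev_ld, ev_sub,
            exec_ite, exec_seq, exec_set, exec_skip]
          rw [hsum, f25, h26, if_pos (by norm_num), if_neg hlt]
          simp only [St.setv_v]
          simp only [Nat.reduceEqDiff, if_false, if_true, h27, f22, e3, e4]
          refine ⟨by ring, Or.inr ⟨trivial, j, hj0, hjR, rfl, ?_, by omega, hpre'⟩⟩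
          exact h24'
    · refine Tr.sl ?_ (by decide) ?_
      · simp only [scanB, bd_seq, bd_ite, ev_var, ev_cst, ev_add, ev_ld, ev_sub, bd_set, bd_skip,
            exec_ite, exec_seq, exec_set, exec_skip]
        rw [h26, if_neg (by norm_num)]
        refine ⟨⟨fun h => absurd h (by norm_num), fun _ => trivial⟩, ?_⟩
        rw [h27, f22]; exact hpos27
      · simp only [scanB, ev_var, ev_cst, ev_add, ev_ld, ev_sub,
            exec_ite, exec_seq, exec_set, exec_skip]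
        rw [h26, if_neg (by norm_num)]
        simp only [St.setv_v]
        simp only [Nat.reduceEqDiff, if_false, if_true, h27, f22, e3, h26]
        refine ⟨by ring, Or.inr ⟨trivial, j', a1, a2, a3, a4, a5, a6⟩⟩
  · intro s' hI _ _ _
    obtain ⟨_, hcase⟩ := hI
    have e5 : ((R : ℤ) - (R : ℕ)) = 0 := by ring
    rcases hcase with ⟨_, h24', hpre'⟩ | ⟨h26, j', a1, a2, a3, a4, a5, a6⟩
    · exfalso
      rw [e5, zero_mul, add_zero] at hpre'
      rcases hpre' with h | h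
      · omega
      · omega
    · have b1 : 0 ≤ j' * un := mul_nonneg a1 hun.le
      have b2 : j' * un + un ≤ R * un := by
        have : (j' + 1) * un ≤ R * un := by
          apply mul_le_mul_of_nonneg_right _ hun.le
          omega
        linarith
      refine Tr.set ?_ le_rfl ?_
      · rw [ev_var, a3, abs_le]; constructor <;> omega
      · simp only [ev_var, a3, St.setv_v]
        simp only [Nat.reduceEqDiff, if_false, if_true]
        exact ⟨j', a1, a2, rfl, a4, a5, a6⟩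

def levelC : Cmd := .seq clearC (.seq fillC scanC)

theorem levelC_spec {X M : ℤ} {s : St} {lo hi h R : ℕ} {S bs un σ m RR : ℤ} (hlohi : lo ≤ hi)
    (hX : (hi : ℤ) ≤ X) (hX2 : 2 * ((hi : ℤ) - lo) + 1 ≤ X) (hMX : 4 * M ≤ X)
    (h10 : s.v 10 = lo) (h11 : s.v 11 = hi) (h16 : lo < hi → s.v 16 = h)
    (h15 : s.v 15 = S) (h23 : s.v 23 = bs) (h22 : s.v 22 = un) (h18 : s.v 18 = R)
    (h21 : s.v 21 = σ) (hS : 0 ≤ S) (hun : 0 < un) (hunX : un ≤ X) (hbs : 0 ≤ bs)
    (hSX : 8 * S + 3 ≤ X) (hT : TabB M (s.m 5) σ lo hi)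
    (hR : 1 ≤ R) (h25 : s.v 25 = m) (h45 : s.v 45 = bs + (R - 1) * un)
    (h24 : s.v 24 = cntN lo hi h S (gk1 (s.m 5) σ) (gk2 (s.m 5) σ) (bs + R * un))
    (hRR : bs + R * un ≤ RR) (hRRX : RR ≤ X)
    (hmN : m ≤ cntN lo hi h S (gk1 (s.m 5) σ) (gk2 (s.m 5) σ) bs)
    (hpre : cntN lo hi h S (gk1 (s.m 5) σ) (gk2 (s.m 5) σ) (bs + R * un) < m ∨
      bs + R * un = RR) :
    Tr X levelC s (22 * (hi - lo) + 15 * R + 10) (fun s' => ∃ j, 0 ≤ j ∧ j < (R : ℤ) ∧
      s'.v 23 = bs + j * un ∧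
      s'.v 24 = cntN lo hi h S (gk1 (s.m 5) σ) (gk2 (s.m 5) σ) (s'.v 23 + un) ∧
      m ≤ cntN lo hi h S (gk1 (s.m 5) σ) (gk2 (s.m 5) σ) (s'.v 23) ∧
      (cntN lo hi h S (gk1 (s.m 5) σ) (gk2 (s.m 5) σ) (s'.v 23 + un) < m ∨
        s'.v 23 + un = RR)) := by
  have hRZ : (1 : ℤ) ≤ R := by exact_mod_cast hR
  have hRun : (R : ℤ) ≤ R * un := by nlinarith
  have hRX : (R : ℤ) ≤ X := by omega
  have hbsX : bs ≤ X := by nlinarith
  refine Tr.seqF (clearC_spec (X := X) hRX h18) (τ2 := 22 * (hi - lo) + 12 * R + 8) ?_ (by omega)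
  intro s1 q1 fv1 fm1
  have e5 : s1.m 5 = s.m 5 := fm1 5 rfl
  refine Tr.seqF (fillC_spec (X := X) (M := M) (s := s1) (lo := lo) (hi := hi) (h := h) (S := S)
    (bs := bs) (un := un) (R := R) (σ := σ) hlohi hX hX2 hMX (by rw [fv1 10 rfl, h10])
    (by rw [fv1 11 rfl, h11]) (fun hh => by rw [fv1 16 rfl, h16 hh]) (by rw [fv1 15 rfl, h15])
    (by rw [fv1 23 rfl, h23]) (by rw [fv1 22 rfl, h22]) (by rw [fv1 18 rfl, h18])
    (by rw [fv1 21 rfl, h21]) hS hun hbs hbsX hSX (by rw [e5]; exact hT) q1)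
    (τ2 := 12 * R + 5) ?_ (by omega)
  intro s2 q2 fv2 fm2
  rw [e5] at q2
  have key := scanC_spec (X := X) (s := s2) (R := R) (bs := bs) (un := un) (m := m) (RR := RR)
    (N := cntN lo hi h S (gk1 (s.m 5) σ) (gk2 (s.m 5) σ)) hRX
    (by rw [fv2 18 rfl, fv1 18 rfl, h18]) hR (by rw [fv2 22 rfl, fv1 22 rfl, h22])
    (by rw [fv2 25 rfl, fv1 25 rfl, h25]) (by rw [fv2 45 rfl, fv1 45 rfl, h45])
    (by rw [fv2 24 rfl, fv1 24 rfl, h24]) hun hunX hbs hRR hRRX q2
    (fun θ => cntN_nonneg _ _ _ _ _ _ θ)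
    (fun θ => by
      have e1 := cntN_le lo hi h S (gk1 (s.m 5) σ) (gk2 (s.m 5) σ) θ
      have e2 := numFree_le lo hi h hlohi
      omega) hmN hpre
  exact key

def selectC : Cmd :=
  .seq (.set 23 (.cst 0)) (.seq (.set 24 (.cst 0)) (.seq (.set 22 (.var 18))
  (.seq (.set 45 (.var 19 - .var 18)) (.seq levelC (.seq (.set 22 (.cst 1))
  (.seq (.set 45 (.var 23 + .var 18 - .cst 1)) levelC))))))

theorem selectC_spec {X M : ℤ} {s : St} {lo hi h R : ℕ} {S σ RR : ℤ} (hlohi : lo ≤ hi)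
    (hX : (hi : ℤ) ≤ X) (hX2 : 2 * ((hi : ℤ) - lo) + 1 ≤ X) (hMX : 4 * M ≤ X)
    (h10 : s.v 10 = lo) (h11 : s.v 11 = hi) (h16 : lo < hi → s.v 16 = h)
    (h15 : s.v 15 = S) (h18 : s.v 18 = R)
    (h21 : s.v 21 = σ) (hS : 0 ≤ S)
    (hT : TabB M (s.m 5) σ lo hi)
    (hR : 1 ≤ R) (h25 : s.v 25 = numFree lo hi h) (h19 : s.v 19 = RR)
    (hRR : RR = R * R) (hRRX : 2 * RR ≤ X) (hRRS : 8 * S + 3 < RR) :
    Tr X selectC s (44 * (hi - lo) + 30 * R + 26) (fun s' => 0 ≤ s'.v 23 ∧ s'.v 23 < RR ∧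
      numFree lo hi h ≤ cntN lo hi h S (gk1 (s.m 5) σ) (gk2 (s.m 5) σ) (s'.v 23) ∧
      (cntN lo hi h S (gk1 (s.m 5) σ) (gk2 (s.m 5) σ) (s'.v 23 + 1) < numFree lo hi h ∨
        s'.v 23 + 1 = RR)) := by
  have hRZ : (1 : ℤ) ≤ R := by exact_mod_cast hR
  have hRR1 : (R : ℤ) ≤ RR := by rw [hRR]; nlinarith
  have hRR0 : 0 ≤ RR := by omega
  have hN0 : cntN lo hi h S (gk1 (s.m 5) σ) (gk2 (s.m 5) σ) RR = 0 := by
    unfold cntN
    apply Finset.sum_eq_zero
    intro c _
    have e1 := idx_le (s := S) (k := gk1 (s.m 5) σ c) hS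
    have e2 := idx_le (s := S) (k := gk2 (s.m 5) σ c) hS
    split_ifs <;> first | rfl | omega
  have hNm : numFree lo hi h ≤ cntN lo hi h S (gk1 (s.m 5) σ) (gk2 (s.m 5) σ) 0 := by
    unfold cntN numFree
    apply Finset.sum_le_sum
    intro c _
    have e1 := idx_nonneg (s := S) (k := gk1 (s.m 5) σ c)
    have e2 := idx_nonneg (s := S) (k := gk2 (s.m 5) σ c)
    split_ifs <;> omega
  refine Tr.setS (τ2 := 44 * (hi - lo) + 30 * R + 25) (by simp; omega) ?_ (by omega)
  refine Tr.setS (τ2 := 44 * (hi - lo) + 30 * R + 24) (by simp; omega) ?_ (by omega)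
  refine Tr.setS (τ2 := 44 * (hi - lo) + 30 * R + 23) (by
    simp only [ev_var, St.setv_v]
    simp only [Nat.reduceEqDiff, if_false, h18]
    rw [abs_of_nonneg (by omega)]; omega) ?_ (by omega)
  refine Tr.setS (τ2 := 44 * (hi - lo) + 30 * R + 22) (by
    simp only [ev_var, ev_sub, St.setv_v]
    simp only [Nat.reduceEqDiff, if_false, h18, h19]
    rw [abs_of_nonneg (by omega)]; omega) ?_ (by omega)
  simp only [ev_var, ev_sub, ev_cst, St.setv_v]
  simp only [Nat.reduceEqDiff, if_false, h18, h19]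
  set s0 : St := ((((s.setv 23 0).setv 24 0).setv 22 R).setv 45 (RR - R)) with hs0
  have e5 : s0.m = s.m := by simp [hs0]
  refine Tr.seqF (levelC_spec (X := X) (M := M) (s := s0) (lo := lo) (hi := hi) (h := h) (R := R)
    (S := S) (bs := 0) (un := R) (σ := σ) (m := numFree lo hi h) (RR := RR) hlohi hX hX2 hMX
    (by simp [hs0, h10]) (by simp [hs0, h11]) (fun hh => by simp [hs0, h16 hh]) (by simp [hs0, h15])
    (by simp [hs0]) (by simp [hs0]) (by simp [hs0, h18]) (by simp [hs0, h21]) hS (by omega)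
    (by omega) le_rfl (by omega) (by rw [e5]; exact hT) hR (by simp [hs0, h25])
    (by simp [hs0, hRR]; ring) (by rw [e5, zero_add, ← hRR, hN0]; simp [hs0])
    (by rw [hRR]; omega) (by omega)
    (by rw [e5]; exact hNm) (Or.inr (by rw [hRR]; ring)))
    (τ2 := 22 * (hi - lo) + 15 * R + 12) ?_ (by omega)
  intro s1 q1 fv1 fm1
  rw [e5] at q1
  obtain ⟨j, j0, jR, q23, q24, qm, qpre⟩ := q1
  rw [zero_add] at q23
  have hjR : j * R + R ≤ RR := by
    rw [hRR]
    have : (j + 1) * R ≤ R * R := by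
      apply mul_le_mul_of_nonneg_right _ (by omega)
      omega
    linarith
  have hj0 : 0 ≤ j * R := mul_nonneg j0 (by omega)
  have g18 : s1.v 18 = R := by rw [fv1 18 rfl]; simp [hs0, h18]
  refine Tr.setS (τ2 := 22 * (hi - lo) + 15 * R + 11) (by simp; omega) ?_ (by omega)
  refine Tr.setS (τ2 := 22 * (hi - lo) + 15 * R + 10) (by
    simp only [ev_var, ev_sub, ev_add, ev_cst, St.setv_v]
    simp only [Nat.reduceEqDiff, if_false, q23, g18]
    rw [abs_of_nonneg (by omega)]; omega) ?_ (by omega)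
  simp only [ev_var, ev_sub, ev_add, ev_cst, St.setv_v]
  simp only [Nat.reduceEqDiff, if_false, g18]
  rw [q23] at q24 qm qpre
  rw [q23]
  set s2 : St := (s1.setv 22 1).setv 45 (j * R + R - 1) with hs2
  have e52 : s2.m 5 = s.m 5 := by
    have : s2.m = s1.m := by simp [hs2]
    rw [this, fm1 5 rfl, e5]
  have gv : ∀ y, y ≠ 22 → y ≠ 45 → s2.v y = s1.v y := by
    intro y h1 h2
    simp [hs2, h1, h2]
  refine (levelC_spec (X := X) (M := M) (s := s2) (lo := lo) (hi := hi) (h := h) (R := R)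
    (S := S) (bs := j * R) (un := 1) (σ := σ) (m := numFree lo hi h) (RR := RR) hlohi hX hX2 hMX
    (by rw [gv 10 (by norm_num) (by norm_num), fv1 10 rfl]; simp [hs0, h10])
    (by rw [gv 11 (by norm_num) (by norm_num), fv1 11 rfl]; simp [hs0, h11])
    (fun hh => by rw [gv 16 (by norm_num) (by norm_num), fv1 16 rfl]; simp [hs0, h16 hh])
    (by rw [gv 15 (by norm_num) (by norm_num), fv1 15 rfl]; simp [hs0, h15])
    (by rw [gv 23 (by norm_num) (by norm_num), q23]) (by simp [hs2])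
    (by rw [gv 18 (by norm_num) (by norm_num), g18])
    (by rw [gv 21 (by norm_num) (by norm_num), fv1 21 rfl]; simp [hs0, h21]) hS (by omega)
    (by omega) hj0 (by omega) (by rw [e52]; exact hT) hR
    (by rw [gv 25 (by norm_num) (by norm_num), fv1 25 rfl]; simp [hs0, h25])
    (by simp [hs2]; ring) (by rw [e52, gv 24 (by norm_num) (by norm_num), q24, mul_one])
    (by omega) (by omega)
    (by rw [e52]; exact qm) (by rw [e52, mul_one]; exact qpre)).mono le_rfl ?_
  intro s' hs'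
  rw [e52] at hs'
  obtain ⟨j', j0', jR', r23, r24, rm, rpre⟩ := hs'
  refine ⟨by omega, by omega, rm, rpre⟩

end Pool.Agent.Lib_helper87.UM
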