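import Pool.Agent.Lib_helper87.Child
set_option autoImplicit false

namespace Pool.Agent.Lib_helper87.UM
open Finset

def vertB : Cmd :=
  .seq (.set 9 (.var 0 - .cst 1 - .var 8)) (.seq (.set 10 (.ld 3 (.var 9)))
    (.seq (.set 11 (.ld 3 (.var 9 + .cst 1))) (.seq childC (.seq (.put 4 (.var 9) (.var 17))
    (.seq (.set 18 (.ld 12 (.var 15))) (.seq (.set 19 (.ld 13 (.var 15)))
    (.seq (.set 25 (.mx (.var 11 - .var 10 - .cst 1) (.cst 0))) sixC)))))))

/-- the invariant of the main loop when the vertices `k, ..., n - 1` have been treated -/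
structure MI (M : ℤ) (n : ℕ) (F : ℕ → ℕ) (sz : ℕ → ℤ) (k : ℕ) (m4 m5 m6 : ℤ → ℤ) : Prop where
  size : ∀ j : ℕ, k ≤ j → j < n → m4 j = sz j
  loc : ∀ j : ℕ, k ≤ j → j < n → LocalOK M (F j) (F (j + 1)) (tabE m6) (tabD m5) j
  ch : ChOK M k n sz m5 m6

lemma numFree_eq {lo hi h : ℕ} (hh : h ∈ Ico lo hi) : numFree lo hi h = max ((hi : ℤ) - lo - 1) 0 := by
  have hh' := hh
  rw [Finset.mem_Ico] at hh'
  have h1 : numFree lo hi h = ∑ c ∈ Ico lo hi, ((1 : ℤ) - if c = h then 1 else 0) := by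
    unfold numFree
    apply Finset.sum_congr rfl
    intro c _
    split_ifs <;> norm_num
  rw [h1, Finset.sum_sub_distrib, Finset.sum_ite_eq', if_pos hh]
  simp only [Finset.sum_const, Nat.card_Ico, nsmul_eq_mul, mul_one]
  rw [Nat.cast_sub (by omega), max_eq_left (by omega)]

theorem vertB_spec {X : ℤ} {n : ℕ} {F par : ℕ → ℕ} (S : Seq n F par) (hX : 100 * (n : ℤ) ≤ X)
    {sz : ℕ → ℤ} (hsz : ∀ i < n, sz i = 1 + ∑ c ∈ Ico (F i) (F (i + 1)), sz c)
    {i : ℕ} (hi : i < n) {s : St} (h0 : s.v 0 = n) (h8 : s.v 8 = n - 1 - i) (h50 : s.v 50 = -(16 * n))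
    (h3 : ∀ j : ℕ, j ≤ n → s.m 3 j = F j)
    (hsq : ∀ z : ℕ, z < n → ∃ R : ℕ, SqOK R z ∧ s.m 12 z = R ∧ s.m 13 z = (R : ℤ) * R)
    (hI : MI (16 * n) n F sz (i + 1) (s.m 4) (s.m 5) (s.m 6)) :
    Tr X vertB s (1846 * (F (i + 1) - F i) + 180 * Rb F sz i + 4512) (fun s' =>
      MI (16 * n) n F sz i (s'.m 4) (s'.m 5) (s'.m 6)) := by
  have hn := S.pos
  have hnZ : (1 : ℤ) ≤ n := by exact_mod_cast hn
  have hinZ : (i : ℤ) < n := by exact_mod_cast hi
  have hi0 : (0 : ℤ) ≤ i := by positivity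
  have hlo := S.lt i hi
  have hlohi := S.mono i hi
  have hhin := S.le_n (show i + 1 ≤ n by omega)
  have hloZ : (F i : ℤ) ≤ F (i + 1) := by exact_mod_cast hlohi
  have hhiZ : (F (i + 1) : ℤ) ≤ n := by exact_mod_cast hhin
  have hF0 : (0 : ℤ) ≤ F i := by positivity
  refine Tr.setS (τ2 := 1846 * (F (i + 1) - F i) + 180 * Rb F sz i + 4511) ?_ ?_ (by omega)
  · simp only [ev_sub, ev_var, ev_cst, h0, h8]
    rw [abs_le]; constructor <;> linarith
  simp only [ev_sub, ev_var, ev_cst, h0, h8]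
  rw [show (n : ℤ) - 1 - (n - 1 - i) = i by ring]
  refine Tr.setS (τ2 := 1846 * (F (i + 1) - F i) + 180 * Rb F sz i + 4510) ?_ ?_ (by omega)
  · simp only [ev_ld, ev_var, St.setv_v, St.setv_m, if_true, h3 i hi.le]
    rw [abs_le]; constructor <;> linarith
  simp only [ev_ld, ev_var, St.setv_v, St.setv_m, if_true, h3 i hi.le]
  have e1 : (i : ℤ) + 1 = ((i + 1 : ℕ) : ℤ) := by push_cast; rfl
  refine Tr.setS (τ2 := 1846 * (F (i + 1) - F i) + 180 * Rb F sz i + 4509) ?_ ?_ (by omega)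
  · simp only [ev_ld, ev_var, ev_add, ev_cst, St.setv_v, St.setv_m]
    simp only [Nat.reduceEqDiff, if_false, if_true]
    rw [e1, h3 (i + 1) hi, abs_le]; constructor <;> linarith
  simp only [ev_ld, ev_var, ev_add, ev_cst, St.setv_v, St.setv_m]
  simp only [Nat.reduceEqDiff, if_false, if_true]
  rw [e1, h3 (i + 1) hi]
  set s1 := ((s.setv 9 (i : ℤ)).setv 10 (F i : ℤ)).setv 11 (F (i + 1) : ℤ) with hs1
  have v1 (y : ℕ) (h1 : y ≠ 9) (h2 : y ≠ 10) (h3 : y ≠ 11) : s1.v y = s.v y := by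
    simp [hs1, h1, h2, h3]
  have m1 : s1.m = s.m := by simp [hs1]
  have hsz1 : ∀ c ∈ Ico (F i) (F (i + 1)), 1 ≤ sz c := fun c hc =>
    (S.size_le hsz (S.child_lt hi hc).2).1
  have hszi := S.size_le hsz hi
  have hsum : ∑ c ∈ Ico (F i) (F (i + 1)), sz c < n := by
    have := hsz i hi
    linarith
  refine Tr.seqF (childC_spec (X := X) (lo := F i) (hi := F (i + 1)) (sz := sz) hlohi
    (by simp [hs1]) (by simp [hs1]) (by linarith) (by linarith)
    (fun c hc => by rw [m1]; exact hI.size c (S.child_lt hi hc).1 (S.child_lt hi hc).2)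
    hsz1 (by linarith))
    (τ2 := 1836 * (F (i + 1) - F i) + 180 * Rb F sz i + 4504) ?_ (by omega)
  rintro s2 ⟨q17, q1, q2, q15, qP, qH⟩ fv2 fm2
  have g9 : s2.v 9 = i := by rw [fv2 9 rfl]; simp [hs1]
  have g10 : s2.v 10 = F i := by rw [fv2 10 rfl]; simp [hs1]
  have g11 : s2.v 11 = F (i + 1) := by rw [fv2 11 rfl]; simp [hs1]
  have g50 : s2.v 50 = -(16 * n) := by
    rw [fv2 50 rfl, v1 50 (by norm_num) (by norm_num) (by norm_num), h50]
  have f3 (a : Fin 16) : s2.m a = s.m a := by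
    rw [fm2 a (by simp [childC, childB, Cmd.for_, Cmd.ma]), m1]
  obtain ⟨p1, p2, p3, p4, p5⟩ := qP
  obtain ⟨z, hz⟩ : ∃ z : ℕ, (z : ℤ) = q2 := ⟨q2.toNat, Int.toNat_of_nonneg p1⟩
  have hzn : z < n := by
    have : (z : ℤ) < n := by linarith
    exact_mod_cast this
  obtain ⟨R, hR1, hR2, hR3⟩ := hsq z hzn
  have hRb : R ≤ Rb F sz i := le_Rb (hsz i hi) ⟨p1, p2, p3, p4, p5⟩ (by rw [← hz]; exact hR1)
  have hR1' := hR1
  obtain ⟨u1, u2, u3⟩ := hR1'
  have hRX := hR1.two_le (by positivity) (by exact_mod_cast hzn)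
  have u1' : (4 : ℤ) ≤ R := by exact_mod_cast u1
  have hRRR : (R : ℤ) ≤ (R : ℤ) * R := by nlinarith
  refine Tr.seq (τ1 := 1) (τ2 := 1836 * (F (i + 1) - F i) + 180 * Rb F sz i + 4503) ?_ (by omega)
  refine Tr.put ?_ le_rfl ?_
  · simp only [ev_var, q17]
    rw [abs_le]; constructor <;> linarith [p2.trans p3]
  simp only [ev_var, g9, q17]
  rw [← hsz i hi]
  refine Tr.setS (τ2 := 1836 * (F (i + 1) - F i) + 180 * Rb F sz i + 4502) ?_ ?_ (by omega)
  · simp only [ev_ld, ev_var, St.setm_v, q15, ← hz]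
    simp only [St.setm_m]
    rw [if_neg (by simp), f3, hR2, abs_le]
    constructor <;> linarith
  have w18 : (Expr.ld 12 (.var 15)).eval (s2.setm 4 (i : ℤ) (sz i)) = R := by
    simp only [ev_ld, ev_var, St.setm_v, q15, ← hz]
    simp only [St.setm_m]
    rw [if_neg (by simp), f3, hR2]
  rw [w18]
  have w19 : (Expr.ld 13 (.var 15)).eval ((s2.setm 4 (i : ℤ) (sz i)).setv 18 (R : ℤ)) =
      (R : ℤ) * R := by
    simp only [ev_ld, ev_var, St.setm_v, St.setv_v, St.setv_m]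
    simp only [Nat.reduceEqDiff, if_false, q15, ← hz, St.setm_m]
    rw [if_neg (by simp), f3, hR3]
  refine Tr.setS (τ2 := 1836 * (F (i + 1) - F i) + 180 * Rb F sz i + 4501) ?_ ?_ (by omega)
  · rw [w19, abs_le]
    constructor <;> linarith
  rw [w19]
  have hnf : ((max ((F (i + 1) : ℤ) - F i - 1) 0 : ℤ)) ≤ n ∧ 0 ≤ max ((F (i + 1) : ℤ) - F i - 1) 0 := by
    refine ⟨max_le (by linarith) (by linarith), le_max_right _ _⟩
  have w25 : (Expr.mx (.var 11 - .var 10 - .cst 1) (.cst 0)).eval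
      (((s2.setm 4 (i : ℤ) (sz i)).setv 18 (R : ℤ)).setv 19 ((R : ℤ) * R)) =
      max ((F (i + 1) : ℤ) - F i - 1) 0 := by
    simp only [ev_mx, ev_sub, ev_var, ev_cst, St.setv_v, St.setm_v]
    simp only [Nat.reduceEqDiff, if_false, g10, g11]
  refine Tr.setS (τ2 := 1836 * (F (i + 1) - F i) + 180 * Rb F sz i + 4500) ?_ ?_ (by omega)
  · rw [w25, abs_le]
    constructor <;> linarith [hnf.1, hnf.2]
  rw [w25]
  set s3 := (((s2.setm 4 (i : ℤ) (sz i)).setv 18 (R : ℤ)).setv 19 ((R : ℤ) * R)).setv 25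
    (max ((F (i + 1) : ℤ) - F i - 1) 0) with hs3
  have v3 (y : ℕ) (h1 : y ≠ 18) (h2 : y ≠ 19) (h3 : y ≠ 25) : s3.v y = s2.v y := by
    simp [hs3, h1, h2, h3]
  have m3 (a : Fin 16) (ha : a ≠ 4) : s3.m a = s.m a := by
    rw [← f3 a]
    ext p
    simp [hs3, ha]
  -- the heavy child
  obtain ⟨h, hh16, hhnf, hhsz⟩ : ∃ h : ℕ, (F i < F (i + 1) → s2.v 16 = h) ∧
      max ((F (i + 1) : ℤ) - F i - 1) 0 = numFree (F i) (F (i + 1)) h ∧
      ∀ c ∈ Ico (F i) (F (i + 1)), c ≠ h → sz c ≤ q2 := by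
    rcases Nat.lt_or_ge (F i) (F (i + 1)) with hlt | hge
    · obtain ⟨h, w1, w2, w3, w4⟩ := qH.2 hlt
      exact ⟨h, fun _ => w2, (numFree_eq w1).symm, w4⟩
    · have heq : F (i + 1) = F i := le_antisymm hge hlohi
      refine ⟨0, fun hlt => absurd hlt (by omega), ?_, ?_⟩
      · rw [heq]
        unfold numFree
        simp
      · intro c hc
        rw [heq] at hc
        simp at hc
  have ctx : VCtx X (16 * n) n (F i) (F (i + 1)) h R q2 sz s3 := {
    lohi := hlohi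
    hin := hhin
    hX := hX
    hn := hn
    hM := rfl
    v10 := by rw [v3 10 (by norm_num) (by norm_num) (by norm_num), g10]
    v11 := by rw [v3 11 (by norm_num) (by norm_num) (by norm_num), g11]
    v16 := fun hlt => by rw [v3 16 (by norm_num) (by norm_num) (by norm_num), hh16 hlt]
    v15 := by rw [v3 15 (by norm_num) (by norm_num) (by norm_num), q15]
    v18 := by simp [hs3]
    v19 := by simp [hs3]
    v25 := by rw [← hhnf]; simp [hs3]
    v50 := by rw [v3 50 (by norm_num) (by norm_num) (by norm_num), g50]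
    hS0 := p1
    hSn := by linarith
    hR := by omega
    hRR := by rw [← hz]; linarith
    hRX := by linarith
    sz0 := fun c hc => by have := hsz1 c hc; linarith
    szS := hhsz
    szn := hsum }
  have hch : ChOK (16 * n) (F i) (F (i + 1)) sz (s3.m 5) (s3.m 6) := by
    intro c hc
    rw [m3 5 (by decide), m3 6 (by decide)]
    have := S.child_lt hi hc
    exact hI.ch c (Finset.mem_Ico.mpr ⟨this.1, this.2⟩)
  refine (sixC_spec ctx (i := i) (by rw [v3 9 (by norm_num) (by norm_num) (by norm_num), g9]) hlo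
    hch).frame.mono (by omega) ?_
  rintro s' ⟨⟨r1, r2, r3⟩, fv', fm'⟩
  have g4 : s'.m 4 = s3.m 4 := fm' 4 (by rfl)
  rw [m3 5 (by decide), m3 6 (by decide)] at r3
  have htab : ∀ c, c ≠ i → ∀ x a, -1 ≤ x → x ≤ 1 → -1 ≤ a → a ≤ 1 →
      tabE (s'.m 6) c x a = tabE (s.m 6) c x a ∧
      ∀ e, e = 0 ∨ e = 1 → tabD (s'.m 5) c x a e = tabD (s.m 5) c x a e :=
    fun c hc x a h1 h2 h3 h4 => r3.tab hc h1 h2 h3 h4
  constructor
  · intro j hj1 hj2
    rw [g4]
    simp only [hs3, St.setv_m, St.setm_m]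
    rcases Nat.lt_or_ge i j with h | h
    · rw [if_neg (by rintro ⟨_, hh⟩; omega), f3]
      exact hI.size j h hj2
    · have : j = i := by omega
      subst this
      simp
  · intro j hj1 hj2
    rcases Nat.lt_or_ge i j with h | h
    · refine (hI.loc j h hj2).congr ?_ ?_
      · intro c hc x a h1 h2 h3 h4
        have hci : c ≠ i := by
          rcases hc with rfl | hc
          · omega
          · have := (S.child_lt hj2 hc).1
            omega
        exact (htab c hci x a h1 h2 h3 h4).1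
      · intro c hc x a e h1 h2 h3 h4 he
        have hci : c ≠ i := by
          rcases hc with rfl | hc
          · omega
          · have := (S.child_lt hj2 hc).1
            omega
        exact (htab c hci x a h1 h2 h3 h4).2 e he
    · have : j = i := by omega
      subst this
      exact r1
  · intro c hc x a h1 h2 h3 h4
    rw [Finset.mem_Ico] at hc
    rcases Nat.lt_or_ge i c with h | h
    · obtain ⟨t1, t2⟩ := htab c (by omega) x a h1 h2 h3 h4
      obtain ⟨u1, u2⟩ := hI.ch c (Finset.mem_Ico.mpr ⟨h, hc.2⟩) x a h1 h2 h3 h4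
      refine ⟨by rw [t1]; exact u1, fun e he => by rw [t2 e he]; exact u2 e he⟩
    · have : c = i := by omega
      subst this
      obtain ⟨u1, u2⟩ := r2 x a h1 h2 h3 h4
      have e2 : sz c = ∑ c' ∈ Ico (F c) (F (c + 1)), sz c' + 1 := by rw [hsz c hi]; ring
      rw [e2]
      exact ⟨u1, u2⟩

def mainC : Cmd := .seq (.set 50 (.smul (-16) (.var 0))) (.seq sqC (.seq (.set 8 (.cst 0))
  (.seq (Cmd.for_ 8 0 vertB) (.set 0 (.mx (.ld 5 (.cst 2)) (.mx (.ld 5 (.cst 8)) (.ld 5 (.cst 14))))))))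

lemma sum_reflect' (f : ℕ → ℕ) (n : ℕ) : ∑ k ∈ Ico 0 n, f (n - 1 - k) = ∑ i ∈ range n, f i := by
  rw [← Finset.range_eq_Ico]
  exact Finset.sum_range_reflect f n

lemma Seq.sum_deg {n : ℕ} {F par : ℕ → ℕ} (S : Seq n F par) :
    ∀ k, k ≤ n → ∑ i ∈ range k, (F (i + 1) - F i) + 1 = F k := by
  intro k
  induction k with
  | zero => intro _; rw [S.zero]; simp
  | succ k ih =>
    intro hk
    have h1 := ih (by omega)
    have h2 := S.mono k (by omega)
    rw [Finset.sum_range_succ]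
    omega

theorem mainC_spec {X : ℤ} {n : ℕ} {F par : ℕ → ℕ} (S : Seq n F par) (hX : 100 * (n : ℤ) ≤ X)
    {s : St} (h0 : s.v 0 = n) (h3 : ∀ j : ℕ, j ≤ n → s.m 3 j = F j)
    (hex : ∃ f, ValidF n F par f) :
    Tr X mainC s (8200 * n) (fun s' => IsGreatest
      {w : ℤ | ∃ f, ValidF n F par f ∧ w = ∑ i ∈ range n, f i} (s'.v 0)) := by
  have hn := S.pos
  have hnZ : (1 : ℤ) ≤ n := by exact_mod_cast hn
  obtain ⟨sz, hsz⟩ := S.exists_sub fun _ => 1
  refine Tr.setS (τ2 := 8199 * n) ?_ ?_ (by omega)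
  · simp only [ev_smul, ev_var, h0]
    rw [abs_le]; constructor <;> linarith
  simp only [ev_smul, ev_var, h0]
  refine Tr.seqF (sqC_spec (n := n) hX hn (by simp [h0])) (τ2 := 8187 * n) ?_ (by omega)
  intro s1 q1 fv1 fm1
  have g0 : s1.v 0 = n := by rw [fv1 0 rfl]; simp [h0]
  have g50 : s1.v 50 = -(16 * n) := by rw [fv1 50 rfl]; simp
  have g3 : s1.m 3 = s.m 3 := by rw [fm1 3 rfl]; simp
  refine Tr.setS (τ2 := 8186 * n) ?_ ?_ (by omega)
  · simp only [ev_cst, abs_zero]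
    linarith
  simp only [ev_cst]
  set s2 := s1.setv 8 0 with hs2
  have hcost : ∑ k ∈ Ico 0 n, ((1846 * (F (n - 1 - k + 1) - F (n - 1 - k)) +
      180 * Rb F sz (n - 1 - k) + 4512) + 2) + 1 ≤ 8185 * n := by
    rw [sum_reflect' (fun i => 1846 * (F (i + 1) - F i) + 180 * Rb F sz i + 4512 + 2) n]
    have e1 := S.sum_Rb hsz
    have e2 := S.sum_deg n le_rfl
    rw [S.last] at e2
    have e3 : ∑ i ∈ range n, (1846 * (F (i + 1) - F i) + 180 * Rb F sz i + 4512 + 2) =
        1846 * ∑ i ∈ range n, (F (i + 1) - F i) + 180 * ∑ i ∈ range n, Rb F sz i + 4514 * n := by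
      rw [Finset.mul_sum, Finset.mul_sum, ← Finset.sum_add_distrib]
      have : ∀ i ∈ range n, 1846 * (F (i + 1) - F i) + 180 * Rb F sz i + 4512 + 2 =
          (1846 * (F (i + 1) - F i) + 180 * Rb F sz i) + 4514 := fun i _ => by ring
      rw [Finset.sum_congr rfl this, Finset.sum_add_distrib]
      simp [mul_comm]
    rw [e3]
    have e4 : ∑ i ∈ range n, (F (i + 1) - F i) + 1 = n := e2
    generalize ∑ i ∈ range n, (F (i + 1) - F i) = A at e4 ⊢
    generalize ∑ i ∈ range n, Rb F sz i = B at e1 ⊢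
    omega
  refine Tr.seq (τ1 := 8185 * n) (τ2 := 1) ?_ (by omega)
  refine Tr.forF (by rfl) (by rfl) (by norm_num) (fun q st =>
    MI (16 * n) n F sz (n - q) (st.m 4) (st.m 5) (st.m 6))
    (fun k => 1846 * (F (n - 1 - k + 1) - F (n - 1 - k)) + 180 * Rb F sz (n - 1 - k) + 4512) 0 n
    (by omega) (by linarith) (by simp [hs2]) (by simp [hs2, g0]) ?_ ?_ hcost ?_
  · constructor
    · intro j h1 h2; omega
    · intro j h1 h2; omega
    · intro c hc
      rw [Finset.mem_Ico] at hc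
      omega
  · intro q st _ hq hvq hv0 hfv hfm hI
    have hqi : n - q = (n - 1 - q) + 1 := by omega
    rw [hqi] at hI
    have f50 : st.v 50 = -(16 * n) := by
      rw [hfv 50 rfl (by norm_num), hs2]
      simp [g50]
    have f3 : st.m 3 = s.m 3 := by rw [hfm 3 rfl, hs2]; simp [g3]
    have f12 : st.m 12 = s1.m 12 := by rw [hfm 12 rfl, hs2]; simp
    have f13 : st.m 13 = s1.m 13 := by rw [hfm 13 rfl, hs2]; simp
    have hqZ : ((n - 1 - q : ℕ) : ℤ) = n - 1 - q := by omega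
    refine (vertB_spec (X := X) S hX hsz (i := n - 1 - q) (by omega) hv0 (by rw [hqZ, hvq]; ring)
      f50 (fun j hj => by rw [f3]; exact h3 j hj)
      (fun z hz => by rw [f12, f13]; exact q1 z hz) hI).mono le_rfl ?_
    intro s' h'
    have : n - (q + 1) = n - 1 - q := by omega
    rw [this]
    simpa using h'
  · intro s' hI _ hfv hfm
    rw [Nat.sub_self] at hI
    have hloc : ∀ i < n, LocalOK (16 * (n : ℤ)) (F i) (F (i + 1)) (tabE (s'.m 6)) (tabD (s'.m 5)) i :=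
      fun i hi => hI.loc i (Nat.zero_le _) hi
    have hvb : ∀ a, -1 ≤ a → a ≤ 1 → |tabD (s'.m 5) 0 a 0 0| ≤ 16 * n := by
      intro a h1 h2
      have := (hI.ch 0 (Finset.mem_Ico.mpr ⟨le_rfl, hn⟩) a 0 h1 h2 (by norm_num) (by norm_num)).2 0
        (Or.inl rfl)
      have hs0 := (S.size_le hsz hn).2
      push_cast at hs0
      exact vb_abs (by linarith) (by linarith) this
    have t1 : s'.m 5 2 = tabD (s'.m 5) 0 (-1) 0 0 := by unfold tabD; norm_num
    have t2 : s'.m 5 8 = tabD (s'.m 5) 0 0 0 0 := by unfold tabD; norm_num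
    have t3 : s'.m 5 14 = tabD (s'.m 5) 0 1 0 0 := by unfold tabD; norm_num
    have b1 := hvb (-1) (by norm_num) (by norm_num)
    have b2 := hvb 0 (by norm_num) (by norm_num)
    have b3 := hvb 1 (by norm_num) (by norm_num)
    refine Tr.set ?_ le_rfl ?_
    · simp only [ev_mx, ev_ld, ev_cst, t1, t2, t3]
      rw [abs_le] at b1 b2 b3 ⊢
      refine ⟨?_, max_le ?_ (max_le ?_ ?_)⟩
      · exact (by linarith : -X ≤ tabD (s'.m 5) 0 (-1) 0 0).trans (le_max_left _ _)
      · linarith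
      · linarith
      · linarith
    simp only [ev_mx, ev_ld, ev_cst, t1, t2, t3, St.setv_v, if_true]
    set m := max (tabD (s'.m 5) 0 (-1) 0 0) (max (tabD (s'.m 5) 0 0 0 0) (tabD (s'.m 5) 0 1 0 0))
      with hm
    have hle : ∀ a, -1 ≤ a → a ≤ 1 → tabD (s'.m 5) 0 a 0 0 ≤ m := by
      intro a h1 h2
      have : a = -1 ∨ a = 0 ∨ a = 1 := by omega
      rcases this with rfl | rfl | rfl
      · exact le_max_left _ _
      · exact (le_max_left _ _).trans (le_max_right _ _)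
      · exact (le_max_right _ _).trans (le_max_right _ _)
    have hup : ∀ f, ValidF n F par f → ∑ i ∈ range n, f i ≤ m := by
      intro f hf
      have h1 := dp_upper S (M := 16 * n) (by linarith) hloc hf
      have h2 := hf.range 0 hn
      exact h1.trans (hle _ h2.1 h2.2)
    have hmem : ∃ a, -1 ≤ a ∧ a ≤ 1 ∧ m = tabD (s'.m 5) 0 a 0 0 := by
      rcases max_choice (tabD (s'.m 5) 0 (-1) 0 0)
        (max (tabD (s'.m 5) 0 0 0 0) (tabD (s'.m 5) 0 1 0 0)) with h | h
      · exact ⟨-1, by norm_num, by norm_num, by rw [hm, h]⟩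
      · rcases max_choice (tabD (s'.m 5) 0 0 0 0) (tabD (s'.m 5) 0 1 0 0) with h' | h'
        · exact ⟨0, by norm_num, by norm_num, by rw [hm, h, h']⟩
        · exact ⟨1, by norm_num, by norm_num, by rw [hm, h, h']⟩
    constructor
    · obtain ⟨a, a1, a2, a3⟩ := hmem
      obtain ⟨f, hf⟩ := hex
      have h1 := hup f hf
      have h2 : -(n : ℤ) ≤ ∑ i ∈ range n, f i := by
        have : ∑ i ∈ range n, (-1 : ℤ) ≤ ∑ i ∈ range n, f i :=
          Finset.sum_le_sum fun i hi => (hf.range i (Finset.mem_range.mp hi)).1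
        simpa using this
      obtain ⟨g, g1, g2⟩ := dp_attained S hloc a1 a2 (by rw [← a3]; linarith)
      exact ⟨g, g1, by rw [g2, a3]⟩
    · rintro w ⟨f, hf, rfl⟩
      exact hup f hf

end Pool.Agent.Lib_helper87.UM
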