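import Pool.Agent.Lib_helper87.Block
set_option autoImplicit false

namespace Pool.Agent.Lib_helper87.UM
open Finset

def EOKr (M : ℤ) (lo hi : ℕ) (m5 : ℤ → ℤ) (a : ℤ) (ei : ℤ → ℤ) : Prop :=
  ∀ b, -1 ≤ b → b ≤ 1 →
    (∀ x, Sel M lo hi (fun c y => tabD m5 c y a 1) x → ∑ c ∈ Ico lo hi, x c = 1 - a - b →
      a + ∑ c ∈ Ico lo hi, tabD m5 c (x c) a 1 ≤ ei b) ∧
    (-M < ei b → ∃ x, Sel M lo hi (fun c y => tabD m5 c y a 1) x ∧
      ∑ c ∈ Ico lo hi, x c = 1 - a - b ∧ ei b = a + ∑ c ∈ Ico lo hi, tabD m5 c (x c) a 1)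

def DOKr (M : ℤ) (lo hi : ℕ) (m5 m6 : ℤ → ℤ) (a : ℤ) (ei : ℤ → ℤ) (di : ℤ → ℤ → ℤ) : Prop :=
  ∀ b, -1 ≤ b → b ≤ 1 → ∀ e, e = 0 ∨ e = 1 → ei b ≤ di b e ∧
    (a = -1 ∨ e = 1 → ∀ x, Sel M lo hi (fun c y => tabD m5 c y a 0) x →
      1 - a - b ≤ ∑ c ∈ Ico lo hi, x c → a + ∑ c ∈ Ico lo hi, tabD m5 c (x c) a 0 ≤ di b e) ∧
    (¬ (a = -1 ∨ e = 1) → ∀ c0 ∈ Ico lo hi, ∀ x,
      Sel M lo hi (gg (fun c y => tabD m5 c y a 0) (fun c y => tabE m6 c y a) c0) x →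
      1 - a - b ≤ ∑ c ∈ Ico lo hi, x c → a + ∑ c ∈ Ico lo hi,
        gg (fun c y => tabD m5 c y a 0) (fun c y => tabE m6 c y a) c0 c (x c) ≤ di b e) ∧
    (-M < di b e → di b e = ei b ∨
      ((a = -1 ∨ e = 1) ∧ ∃ x, Sel M lo hi (fun c y => tabD m5 c y a 0) x ∧
        1 - a - b ≤ ∑ c ∈ Ico lo hi, x c ∧ di b e = a + ∑ c ∈ Ico lo hi, tabD m5 c (x c) a 0) ∨
      ∃ c0 ∈ Ico lo hi, ∃ x,
        Sel M lo hi (gg (fun c y => tabD m5 c y a 0) (fun c y => tabE m6 c y a) c0) x ∧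
        1 - a - b ≤ ∑ c ∈ Ico lo hi, x c ∧ di b e = a + ∑ c ∈ Ico lo hi,
          gg (fun c y => tabD m5 c y a 0) (fun c y => tabE m6 c y a) c0 c (x c))

lemma localOK_of {M : ℤ} {lo hi : ℕ} {m5 m6 : ℤ → ℤ} {i : ℕ}
    (h : ∀ a, -1 ≤ a → a ≤ 1 → EOKr M lo hi m5 a (fun b => tabE m6 i a b) ∧
      DOKr M lo hi m5 m6 a (fun b => tabE m6 i a b) (fun b e => tabD m5 i a b e)) :
    LocalOK M lo hi (tabE m6) (tabD m5) i where
  e_up a b a1 a2 b1 b2 x hx hs := ((h a a1 a2).1 b b1 b2).1 x hx hs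
  e_at a b a1 a2 b1 b2 hlt := ((h a a1 a2).1 b b1 b2).2 hlt
  d_e a b e a1 a2 b1 b2 he := ((h a a1 a2).2 b b1 b2 e he).1
  d_up0 a b e a1 a2 b1 b2 he hae x hx hs := ((h a a1 a2).2 b b1 b2 e he).2.1 hae x hx hs
  d_up1 a b e a1 a2 b1 b2 he hae c0 hc0 x hx hs :=
    ((h a a1 a2).2 b b1 b2 e he).2.2.1 hae c0 hc0 x hx hs
  d_at a b e a1 a2 b1 b2 he hlt := ((h a a1 a2).2 b b1 b2 e he).2.2.2 hlt

/-- a table reading gives optimal exact values -/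
lemma eok_of_read {M κ nd : ℤ} {lo hi h : ℕ} {m5 : ℤ → ℤ} {b : ℕ → ℤ} {A : ℤ → ℤ} {a : ℤ}
    {ei : ℤ → ℤ} {sz : ℕ → ℤ} (hlohi : lo ≤ hi) (ha1 : -1 ≤ a) (ha2 : a ≤ 1)
    (hb : BaseOK true M κ lo hi h (fun c y => tabD m5 c y a 1) b)
    (hsum : ∑ c ∈ Ico lo hi, b c = -nd)
    (hA : Inv0 M lo hi (fun c y => tabD m5 c y a 1) b A)
    (hsz : ∑ c ∈ Ico lo hi, sz c < M)
    (hg : ∀ c ∈ Ico lo hi, ∀ y, -1 ≤ y → y ≤ 1 → VB M (sz c) (tabD m5 c y a 1))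
    (hei : ∀ b, -1 ≤ b → b ≤ 1 → ei b = fin M a (A (1 - a - b + nd))) :
    EOKr M lo hi m5 a ei := by
  intro b' hb1 hb2
  obtain ⟨r1, r2⟩ := read_exact (k := 1 - a - b') hlohi hb hA ⟨by omega, by omega⟩
  rw [hsum, sub_neg_eq_add] at r1 r2
  rw [hei b' hb1 hb2]
  constructor
  · intro x hx hs
    have e1 := r1 x hx hs
    have e2 := sel_sum_bound (G := fun c y => tabD m5 c y a 1) hg hx
    rw [abs_le] at e2
    unfold fin
    rw [if_pos (by omega)]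
    omega
  · intro hlt
    unfold fin at hlt ⊢
    split_ifs at hlt ⊢ with hA'
    · obtain ⟨x, h1, h2, h3⟩ := r2 hA'
      exact ⟨x, h1, h2, by rw [← h3]; ring⟩
    · omega

lemma dok_of_read {M κ nd : ℤ} {lo hi h : ℕ} {m5 m6 : ℤ → ℤ} {b : ℕ → ℤ} {A0 A1 : ℤ → ℤ} {a : ℤ}
    {ei : ℤ → ℤ} {di : ℤ → ℤ → ℤ} {sz : ℕ → ℤ} (hlohi : lo ≤ hi) (ha1 : -1 ≤ a) (ha2 : a ≤ 1)
    (hb : BaseOK false M κ lo hi h (fun c y => tabD m5 c y a 0) b)
    (hsum : ∑ c ∈ Ico lo hi, b c = -nd)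
    (hA0 : Inv0 M lo hi (fun c y => tabD m5 c y a 0) b A0)
    (hA1 : Inv1 M lo hi (fun c y => tabD m5 c y a 0) (fun c y => tabE m6 c y a) b A1)
    (hsz : ∑ c ∈ Ico lo hi, sz c < M)
    (hg : ∀ c ∈ Ico lo hi, ∀ y, -1 ≤ y → y ≤ 1 → VB M (sz c) (tabD m5 c y a 0))
    (hw : ∀ c ∈ Ico lo hi, ∀ y, -1 ≤ y → y ≤ 1 → VB M (sz c) (tabE m6 c y a))
    (hdi : ∀ b, -1 ≤ b → b ≤ 1 → ∃ V0 V1, MxP M A0 (1 - a - b + nd) V0 ∧
      MxP M A1 (1 - a - b + nd) V1 ∧ di b 0 = max (ei b) (fin M a (if a < 0 then V0 else V1)) ∧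
      di b 1 = max (ei b) (fin M a V0)) :
    DOKr M lo hi m5 m6 a ei di := by
  intro b' hb1 hb2 e he
  obtain ⟨V0, V1, ⟨v1, v2⟩, ⟨w1, w2⟩, d0, d1⟩ := hdi b' hb1 hb2
  obtain ⟨r1, r2⟩ := read_ge0 (k := 1 - a - b') hlohi hb hA0 ⟨by omega, by omega⟩
  obtain ⟨s1, s2⟩ := read_ge1 (k := 1 - a - b') hb hA1 ⟨by omega, by omega⟩
  rw [hsum, sub_neg_eq_add] at r1 r2 s1 s2
  have hde : di b' e = max (ei b') (fin M a (if a = -1 ∨ e = 1 then V0 else V1)) := by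
    rcases he with rfl | rfl
    · rw [d0]
      congr 2
      by_cases h : a < 0
      · rw [if_pos h, if_pos (Or.inl (by omega))]
      · rw [if_neg h, if_neg (by omega)]
    · rw [d1, if_pos (Or.inr rfl)]
  refine ⟨by rw [hde]; exact le_max_left _ _, ?_, ?_, ?_⟩
  · intro hae x hx hs
    obtain ⟨o, ho1, ho2, ho3⟩ := r1 x hx hs
    have e1 := v1 o ho1 ho2
    have e2 := sel_sum_bound (G := fun c y => tabD m5 c y a 0) hg hx
    rw [abs_le] at e2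
    rw [hde, if_pos hae]
    apply le_max_of_le_right
    unfold fin
    rw [if_pos (by omega)]
    omega
  · intro hae c0 hc0 x hx hs
    obtain ⟨o, ho1, ho2, ho3⟩ := s1 c0 hc0 x hx hs
    have e1 := w1 o ho1 ho2
    have e2 := sel_sum_bound (gg_vb (g := fun c y => tabD m5 c y a 0) (w := fun c y => tabE m6 c y a)
      hg hw c0) hx
    rw [abs_le] at e2
    rw [hde, if_neg hae]
    apply le_max_of_le_right
    unfold fin
    rw [if_pos (by omega)]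
    omega
  · intro hlt
    rw [hde] at hlt ⊢
    rcases max_cases (ei b') (fin M a (if a = -1 ∨ e = 1 then V0 else V1)) with ⟨h1, _⟩ | ⟨h1, _⟩
    · left; exact h1
    · rw [h1] at hlt ⊢
      right
      by_cases hae : a = -1 ∨ e = 1
      · rw [if_pos hae] at hlt ⊢
        left
        refine ⟨hae, ?_⟩
        unfold fin at hlt ⊢
        split_ifs at hlt ⊢ with hV
        · obtain ⟨o, ho1, ho2, ho3⟩ := v2 hV
          obtain ⟨x, x1, x2, x3⟩ := r2 o ho2 (by rw [← ho3]; exact hV)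
          exact ⟨x, x1, x2, by rw [x3, ho3]; ring⟩
        · omega
      · rw [if_neg hae] at hlt ⊢
        right
        unfold fin at hlt ⊢
        split_ifs at hlt ⊢ with hV
        · obtain ⟨o, ho1, ho2, ho3⟩ := w2 hV
          obtain ⟨c0, hc0, x, x1, x2, x3⟩ := s2 o ho2 (by rw [← ho3]; exact hV)
          exact ⟨c0, hc0, x, x1, x2, by rw [x3, ho3]; ring⟩
        · omega

def blockC : Cmd :=
  .seq (.seq (.set 21 (.cst 5 - .var 20)) (.seq (.set 47 (.div (.var 21) (.cst 2)))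
    (.set 48 (.var 21 - .smul 2 (.var 47)))))
  (.seq coreC (.ite (.var 48) (.cst 1) outDC outEC))

lemma VCtx.transport {X M : ℤ} {n lo hi h R : ℕ} {S : ℤ} {sz : ℕ → ℤ} {s s' : St}
    (ctx : VCtx X M n lo hi h R S sz s)
    (hv : ∀ y, y = 10 ∨ y = 11 ∨ y = 16 ∨ y = 15 ∨ y = 18 ∨ y = 19 ∨ y = 25 ∨ y = 50 →
      s'.v y = s.v y) : VCtx X M n lo hi h R S sz s' := by
  obtain ⟨lohi, hin, hX, hn, hM, v10, v11, v16, v15, v18, v19, v25, v50, hS0, hSn, hR, hRR, hRX, sz0,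
    szS, szn⟩ := ctx
  refine ⟨lohi, hin, hX, hn, hM, ?_, ?_, ?_, ?_, ?_, ?_, ?_, ?_, hS0, hSn, hR, hRR, hRX, sz0,
    szS, szn⟩
  · rw [hv 10 (by norm_num), v10]
  · rw [hv 11 (by norm_num), v11]
  · intro hh; rw [hv 16 (by norm_num), v16 hh]
  · rw [hv 15 (by norm_num), v15]
  · rw [hv 18 (by norm_num), v18]
  · rw [hv 19 (by norm_num), v19]
  · rw [hv 25 (by norm_num), v25]
  · rw [hv 50 (by norm_num), v50]

/-- tables of the children are admissible -/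
def ChOK (M : ℤ) (lo hi : ℕ) (sz : ℕ → ℤ) (m5 m6 : ℤ → ℤ) : Prop :=
  ∀ c ∈ Ico lo hi, ∀ x a, -1 ≤ x → x ≤ 1 → -1 ≤ a → a ≤ 1 → VB M (sz c) (tabE m6 c x a) ∧
    ∀ e, e = 0 ∨ e = 1 → VB M (sz c) (tabD m5 c x a e)

theorem blockE_spec {X M : ℤ} {n lo hi h R i : ℕ} {S : ℤ} {sz : ℕ → ℤ} {s : St}
    (ctx : VCtx X M n lo hi h R S sz s) {a : ℤ} (ha1 : -1 ≤ a) (ha2 : a ≤ 1)
    (h20 : s.v 20 = 5 - (2 * (a + 1) + 1)) (h9 : s.v 9 = i)
    (hch : ChOK M lo hi sz (s.m 5) (s.m 6)) :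
    Tr X blockC s (306 * (hi - lo) + 30 * R + 730) (fun s' =>
      EOKr M lo hi (s.m 5) a (fun b => tabE (s'.m 6) i a b) ∧
      (∀ b, -1 ≤ b → b ≤ 1 → VB M (∑ c ∈ Ico lo hi, sz c + 1) (tabE (s'.m 6) i a b)) ∧
      s'.m 5 = s.m 5 ∧
      ∀ p, (∀ b, -1 ≤ b → b ≤ 1 → p ≠ 9 * (i : ℤ) + 3 * (a + 1) + (b + 1)) → s'.m 6 p = s.m 6 p) := by
  have hn := ctx.hn
  have hX := ctx.hX
  have hM := ctx.hM
  have hnZ : (1 : ℤ) ≤ n := by exact_mod_cast hn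
  have hszn := ctx.szn
  have hZ0 : 0 ≤ ∑ c ∈ Ico lo hi, sz c := Finset.sum_nonneg ctx.sz0
  have hd : (2 * (a + 1) + 1) / 2 = a + 1 := by omega
  refine Tr.seq (τ1 := 3) (τ2 := 306 * (hi - lo) + 30 * R + 727) ?_ (by omega)
  refine Tr.sl ?_ (by decide) ?_
  · simp only [bd_seq, bd_set, exec_set, ev_sub, ev_cst, ev_var, ev_div, ev_smul, St.setv_v]
    simp only [Nat.reduceEqDiff, if_false, if_true, h20]
    rw [show 5 - (5 - (2 * (a + 1) + 1)) = 2 * (a + 1) + 1 by ring, hd]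
    refine ⟨?_, ?_, ?_⟩ <;> rw [abs_le] <;> constructor <;> omega
  simp only [exec_seq, exec_set, ev_sub, ev_cst, ev_var, ev_div, ev_smul, St.setv_v]
  simp only [Nat.reduceEqDiff, if_false, if_true, h20]
  rw [show 5 - (5 - (2 * (a + 1) + 1)) = 2 * (a + 1) + 1 by ring, hd,
    show 2 * (a + 1) + 1 - 2 * (a + 1) = 1 by ring]
  set s1 := ((s.setv 21 (2 * (a + 1) + 1)).setv 47 (a + 1)).setv 48 1 with hs1
  have ev (y : ℕ) (h1 : y ≠ 21) (h2 : y ≠ 47) (h3 : y ≠ 48) : s1.v y = s.v y := by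
    simp [hs1, h1, h2, h3]
  have em : s1.m = s.m := by simp [hs1]
  have ctx1 : VCtx X M n lo hi h R S sz s1 := ctx.transport (by
    intro y hy
    apply ev <;> omega)
  have hgD : gF (s.m 5) (2 * (a + 1) + 1) = fun c y => tabD (s.m 5) c y a 1 := gF_eq_tabD _ _ _
  have hwE : wF (s.m 6) (a + 1) = fun c y => tabE (s.m 6) c y a := wF_eq_tabE _ _
  refine Tr.seqF (core_spec ctx1 (σ := 2 * (a + 1) + 1) (a1 := a + 1) (e := 1) (by simp [hs1])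
    (by simp [hs1]) (by simp [hs1]) true (by norm_num)
    (by rw [em, hgD]; exact fun c hc y h1 h2 => (hch c hc y a h1 h2 ha1 ha2).2 1 (Or.inr rfl))
    (by rw [em, hwE]; exact fun c hc y h1 h2 => (hch c hc y a h1 h2 ha1 ha2).1))
    (τ2 := 541) ?_ (by omega)
  intro s2 q2 fv2 fm2
  rw [em, hgD, hwE] at q2
  obtain ⟨κ, b, b1, b2, b3, b4, b5, b6, b7, b8, b9⟩ := q2
  have g48 : s2.v 48 = 1 := by rw [fv2 48 rfl]; simp [hs1]
  refine Tr.ite (τ1 := 540) (fun hlt => ?_) (fun _ => ?_) (by norm_num)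
  · simp only [ev_var, ev_cst, g48] at hlt
    omega
  have m5 : s2.m 5 = s.m 5 := by rw [fm2 5 rfl, em]
  have m6 : s2.m 6 = s.m 6 := by rw [fm2 6 rfl, em]
  refine (outEC_spec (X := X) (M := M) (Z := ∑ c ∈ Ico lo hi, sz c) (a := a) (nd := s2.v 31)
    (i := i) (s := s2) (by omega) (by omega) (by omega)
    (by rw [fv2 9 rfl, ev 9 (by norm_num) (by norm_num) (by norm_num), h9])
    (by rw [fv2 47 rfl]; simp [hs1]) rfl
    (by rw [fv2 50 rfl, ev 50 (by norm_num) (by norm_num) (by norm_num), ctx.v50]) ha1 ha2 b5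
    (by omega) b7).frame.mono (by norm_num) ?_
  rintro s3 ⟨⟨r1, r2⟩, fv3, fm3⟩
  refine ⟨?_, ?_, by rw [fm3 5 rfl, m5], ?_⟩
  · exact eok_of_read ctx.lohi ha1 ha2 b1 b2 b3 (by omega)
      (fun c hc y h1 h2 => (hch c hc y a h1 h2 ha1 ha2).2 1 (Or.inr rfl))
      (fun b' h1 h2 => r1 b' h1 h2)
  · intro b' h1 h2
    rw [r1 b' h1 h2]
    exact fin_vb (b7 _) ha1 ha2
  · intro p hp
    rw [r2 p hp, m6]

theorem blockD_spec {X M : ℤ} {n lo hi h R i : ℕ} {S : ℤ} {sz : ℕ → ℤ} {s : St}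
    (ctx : VCtx X M n lo hi h R S sz s) {a : ℤ} (ha1 : -1 ≤ a) (ha2 : a ≤ 1)
    (h20 : s.v 20 = 5 - 2 * (a + 1)) (h9 : s.v 9 = i)
    (hch : ChOK M lo hi sz (s.m 5) (s.m 6))
    (hEi : ∀ b, -1 ≤ b → b ≤ 1 → VB M (∑ c ∈ Ico lo hi, sz c + 1) (tabE (s.m 6) i a b)) :
    Tr X blockC s (306 * (hi - lo) + 30 * R + 730) (fun s' =>
      DOKr M lo hi (s.m 5) (s.m 6) a (fun b => tabE (s.m 6) i a b)
        (fun b e => tabD (s'.m 5) i a b e) ∧
      (∀ b, -1 ≤ b → b ≤ 1 → ∀ e, e = 0 ∨ e = 1 →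
        VB M (∑ c ∈ Ico lo hi, sz c + 1) (tabD (s'.m 5) i a b e)) ∧
      s'.m 6 = s.m 6 ∧
      ∀ p, (∀ b e, -1 ≤ b → b ≤ 1 → e = 0 ∨ e = 1 →
        p ≠ 18 * (i : ℤ) + 6 * (a + 1) + 2 * (b + 1) + e) → s'.m 5 p = s.m 5 p) := by
  have hn := ctx.hn
  have hX := ctx.hX
  have hM := ctx.hM
  have hnZ : (1 : ℤ) ≤ n := by exact_mod_cast hn
  have hszn := ctx.szn
  have hZ0 : 0 ≤ ∑ c ∈ Ico lo hi, sz c := Finset.sum_nonneg ctx.sz0
  have hd : (2 * (a + 1)) / 2 = a + 1 := by omega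
  refine Tr.seq (τ1 := 3) (τ2 := 306 * (hi - lo) + 30 * R + 727) ?_ (by omega)
  refine Tr.sl ?_ (by decide) ?_
  · simp only [bd_seq, bd_set, exec_set, ev_sub, ev_cst, ev_var, ev_div, ev_smul, St.setv_v]
    simp only [Nat.reduceEqDiff, if_false, if_true, h20]
    rw [show 5 - (5 - 2 * (a + 1)) = 2 * (a + 1) by ring, hd]
    refine ⟨?_, ?_, ?_⟩ <;> rw [abs_le] <;> constructor <;> omega
  simp only [exec_seq, exec_set, ev_sub, ev_cst, ev_var, ev_div, ev_smul, St.setv_v]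
  simp only [Nat.reduceEqDiff, if_false, if_true, h20]
  rw [show 5 - (5 - 2 * (a + 1)) = 2 * (a + 1) by ring, hd,
    show 2 * (a + 1) - 2 * (a + 1) = 0 by ring]
  set s1 := ((s.setv 21 (2 * (a + 1))).setv 47 (a + 1)).setv 48 0 with hs1
  have ev (y : ℕ) (h1 : y ≠ 21) (h2 : y ≠ 47) (h3 : y ≠ 48) : s1.v y = s.v y := by
    simp [hs1, h1, h2, h3]
  have em : s1.m = s.m := by simp [hs1]
  have ctx1 : VCtx X M n lo hi h R S sz s1 := ctx.transport (by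
    intro y hy
    apply ev <;> omega)
  have hgD : gF (s.m 5) (2 * (a + 1)) = fun c y => tabD (s.m 5) c y a 0 := by
    have := gF_eq_tabD (s.m 5) a 0
    rwa [add_zero] at this
  have hwE : wF (s.m 6) (a + 1) = fun c y => tabE (s.m 6) c y a := wF_eq_tabE _ _
  refine Tr.seqF (core_spec ctx1 (σ := 2 * (a + 1)) (a1 := a + 1) (e := 0) (by simp [hs1])
    (by simp [hs1]) (by simp [hs1]) false (by norm_num)
    (by rw [em, hgD]; exact fun c hc y h1 h2 => (hch c hc y a h1 h2 ha1 ha2).2 0 (Or.inl rfl))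
    (by rw [em, hwE]; exact fun c hc y h1 h2 => (hch c hc y a h1 h2 ha1 ha2).1))
    (τ2 := 541) ?_ (by omega)
  intro s2 q2 fv2 fm2
  rw [em, hgD, hwE] at q2
  obtain ⟨κ, b, b1, b2, b3, b4, b5, b6, b7, b8, b9⟩ := q2
  have g48 : s2.v 48 = 0 := by rw [fv2 48 rfl]; simp [hs1]
  refine Tr.ite (τ1 := 540) (fun _ => ?_) (fun hlt => ?_) (by norm_num)
  swap
  · simp only [ev_var, ev_cst, g48] at hlt
    omega
  have m5 : s2.m 5 = s.m 5 := by rw [fm2 5 rfl, em]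
  have m6 : s2.m 6 = s.m 6 := by rw [fm2 6 rfl, em]
  refine (outDC_spec (X := X) (M := M) (Z := ∑ c ∈ Ico lo hi, sz c) (a := a) (nd := s2.v 31)
    (i := i) (s := s2) (by omega) (by omega) (by omega)
    (by rw [fv2 9 rfl, ev 9 (by norm_num) (by norm_num) (by norm_num), h9])
    (by rw [fv2 47 rfl]; simp [hs1]) rfl
    (by rw [fv2 50 rfl, ev 50 (by norm_num) (by norm_num) (by norm_num), ctx.v50]) (by omega)
    ha1 ha2 hZ0 (by omega) (by rw [m6]; exact hEi) b7 b8).frame.mono (by norm_num) ?_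
  rintro s3 ⟨⟨r1, r2⟩, fv3, fm3⟩
  rw [m6] at r1
  refine ⟨?_, ?_, by rw [fm3 6 rfl, m6], ?_⟩
  · exact dok_of_read ctx.lohi ha1 ha2 b1 b2 b3 b4 (by omega)
      (fun c hc y h1 h2 => (hch c hc y a h1 h2 ha1 ha2).2 0 (Or.inl rfl))
      (fun c hc y h1 h2 => (hch c hc y a h1 h2 ha1 ha2).1)
      (fun b' h1 h2 => by
        obtain ⟨V0, V1, u1, u2, u3, u4, u5, u6⟩ := r1 b' h1 h2
        exact ⟨V0, V1, u1, u2, u3, u4⟩)
  · intro b' h1 h2 e he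
    obtain ⟨V0, V1, u1, u2, u3, u4, u5, u6⟩ := r1 b' h1 h2
    rcases he with rfl | rfl
    · exact u5
    · exact u6
  · intro p hp
    rw [r2 p hp, m5]

lemma EOKr.congr {M : ℤ} {lo hi : ℕ} {m5 m5' : ℤ → ℤ} {a : ℤ} {ei ei' : ℤ → ℤ}
    (h : EOKr M lo hi m5 a ei)
    (hc : ∀ c ∈ Ico lo hi, ∀ y, -1 ≤ y → y ≤ 1 → tabD m5' c y a 1 = tabD m5 c y a 1)
    (he : ∀ b, -1 ≤ b → b ≤ 1 → ei' b = ei b) : EOKr M lo hi m5' a ei' := by
  intro b hb1 hb2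
  obtain ⟨h1, h2⟩ := h b hb1 hb2
  rw [he b hb1 hb2]
  constructor
  · intro x hx hs
    obtain ⟨g1, g2⟩ := hx.congr hc
    rw [g2]
    exact h1 x g1 hs
  · intro hlt
    obtain ⟨x, hx, hs, h3⟩ := h2 hlt
    obtain ⟨g1, g2⟩ := hx.congr (fun c hc' y y1 y2 => (hc c hc' y y1 y2).symm)
    exact ⟨x, g1, hs, by rw [h3, g2]⟩

lemma DOKr.congr {M : ℤ} {lo hi : ℕ} {m5 m5' m6 m6' : ℤ → ℤ} {a : ℤ} {ei ei' : ℤ → ℤ}
    {di di' : ℤ → ℤ → ℤ}
    (h : DOKr M lo hi m5 m6 a ei di)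
    (hc : ∀ c ∈ Ico lo hi, ∀ y, -1 ≤ y → y ≤ 1 → tabD m5' c y a 0 = tabD m5 c y a 0)
    (hc6 : ∀ c ∈ Ico lo hi, ∀ y, -1 ≤ y → y ≤ 1 → tabE m6' c y a = tabE m6 c y a)
    (he : ∀ b, -1 ≤ b → b ≤ 1 → ei' b = ei b)
    (hd : ∀ b, -1 ≤ b → b ≤ 1 → ∀ e, e = 0 ∨ e = 1 → di' b e = di b e) :
    DOKr M lo hi m5' m6' a ei' di' := by
  have hgg : ∀ c0, ∀ c ∈ Ico lo hi, ∀ y, -1 ≤ y → y ≤ 1 →
      gg (fun c y => tabD m5' c y a 0) (fun c y => tabE m6' c y a) c0 c y =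
      gg (fun c y => tabD m5 c y a 0) (fun c y => tabE m6 c y a) c0 c y := by
    intro c0 c hc' y y1 y2
    unfold gg
    split_ifs
    · exact hc6 c hc' y y1 y2
    · exact hc c hc' y y1 y2
  intro b hb1 hb2 e he01
  obtain ⟨h1, h2, h3, h4⟩ := h b hb1 hb2 e he01
  rw [he b hb1 hb2, hd b hb1 hb2 e he01]
  refine ⟨h1, ?_, ?_, ?_⟩
  · intro hae x hx hs
    obtain ⟨g1, g2⟩ := hx.congr hc
    rw [g2]
    exact h2 hae x g1 hs
  · intro hae c0 hc0 x hx hs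
    obtain ⟨g1, g2⟩ := hx.congr (hgg c0)
    rw [g2]
    exact h3 hae c0 hc0 x g1 hs
  · intro hlt
    rcases h4 hlt with h' | ⟨hae, x, hx, hs, h'⟩ | ⟨c0, hc0, x, hx, hs, h'⟩
    · exact Or.inl h'
    · right; left
      obtain ⟨g1, g2⟩ := hx.congr (fun c hc' y y1 y2 => (hc c hc' y y1 y2).symm)
      exact ⟨hae, x, g1, hs, by rw [h', g2]⟩
    · right; right
      obtain ⟨g1, g2⟩ := hx.congr (fun c hc' y y1 y2 => (hgg c0 c hc' y y1 y2).symm)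
      exact ⟨c0, hc0, x, g1, hs, by rw [h', g2]⟩

def sixC : Cmd := .seq (.set 20 (.cst 0)) (.seq (.set 56 (.cst 6)) (Cmd.for_ 20 56 blockC))

/-- agreement of the tables outside of vertex `i` -/
def OffI (i : ℕ) (m5 m6 m5' m6' : ℤ → ℤ) : Prop :=
  (∀ p, p < 18 * (i : ℤ) ∨ 18 * (i : ℤ) + 18 ≤ p → m5' p = m5 p) ∧
  (∀ p, p < 9 * (i : ℤ) ∨ 9 * (i : ℤ) + 9 ≤ p → m6' p = m6 p)

lemma OffI.tab {i : ℕ} {m5 m6 m5' m6' : ℤ → ℤ} (h : OffI i m5 m6 m5' m6') {c : ℕ} (hc : c ≠ i)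
    {x a : ℤ} (hx1 : -1 ≤ x) (hx2 : x ≤ 1) (ha1 : -1 ≤ a) (ha2 : a ≤ 1) :
    tabE m6' c x a = tabE m6 c x a ∧ ∀ e, e = 0 ∨ e = 1 → tabD m5' c x a e = tabD m5 c x a e := by
  have hcZ : (c : ℤ) < i ∨ (i : ℤ) < c := by
    rcases Nat.lt_or_gt_of_ne hc with h | h
    · left; exact_mod_cast h
    · right; exact_mod_cast h
  refine ⟨?_, fun e he => ?_⟩
  · unfold tabE
    apply h.2
    omega
  · unfold tabD
    apply h.1
    omega

theorem sixC_spec {X M : ℤ} {n lo hi h R i : ℕ} {S : ℤ} {sz : ℕ → ℤ} {s : St}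
    (ctx : VCtx X M n lo hi h R S sz s) (h9 : s.v 9 = i) (hilo : i < lo)
    (hch : ChOK M lo hi sz (s.m 5) (s.m 6)) :
    Tr X sixC s (1836 * (hi - lo) + 180 * R + 4500) (fun s' =>
      LocalOK M lo hi (tabE (s'.m 6)) (tabD (s'.m 5)) i ∧
      (∀ a b, -1 ≤ a → a ≤ 1 → -1 ≤ b → b ≤ 1 →
        VB M (∑ c ∈ Ico lo hi, sz c + 1) (tabE (s'.m 6) i a b) ∧
        ∀ e, e = 0 ∨ e = 1 → VB M (∑ c ∈ Ico lo hi, sz c + 1) (tabD (s'.m 5) i a b e)) ∧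
      OffI i (s.m 5) (s.m 6) (s'.m 5) (s'.m 6)) := by
  have hn := ctx.hn
  have hX := ctx.hX
  have hnZ : (1 : ℤ) ≤ n := by exact_mod_cast hn
  have hcne : ∀ c ∈ Ico lo hi, c ≠ i := by
    intro c hc
    rw [Finset.mem_Ico] at hc
    omega
  refine Tr.setS (τ2 := 1836 * (hi - lo) + 180 * R + 4499) (by simp; omega) ?_ (by omega)
  refine Tr.setS (τ2 := 1836 * (hi - lo) + 180 * R + 4498) (by simp; omega) ?_ (by omega)
  simp only [ev_cst]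
  set s0 := (s.setv 20 0).setv 56 6 with hs0
  have em0 : s0.m = s.m := by simp [hs0]
  refine Tr.forFc (by rfl) (by rfl) (by norm_num) (fun q st =>
    (∀ a, -1 ≤ a → a ≤ 1 → 5 - (q : ℤ) < 2 * (a + 1) + 1 →
      EOKr M lo hi (s.m 5) a (fun b => tabE (st.m 6) i a b) ∧
      ∀ b, -1 ≤ b → b ≤ 1 → VB M (∑ c ∈ Ico lo hi, sz c + 1) (tabE (st.m 6) i a b)) ∧
    (∀ a, -1 ≤ a → a ≤ 1 → 5 - (q : ℤ) < 2 * (a + 1) →
      DOKr M lo hi (s.m 5) (s.m 6) a (fun b => tabE (st.m 6) i a b)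
        (fun b e => tabD (st.m 5) i a b e) ∧
      ∀ b, -1 ≤ b → b ≤ 1 → ∀ e, e = 0 ∨ e = 1 →
        VB M (∑ c ∈ Ico lo hi, sz c + 1) (tabD (st.m 5) i a b e)) ∧
    OffI i (s.m 5) (s.m 6) (st.m 5) (st.m 6)) (306 * (hi - lo) + 30 * R + 730) 0 6 (by norm_num)
    (by push_cast; omega) (by simp [hs0]) (by simp [hs0]) ?_ ?_ (by omega) ?_
  · refine ⟨fun a h1 h2 h3 => ?_, fun a h1 h2 h3 => ?_, ?_⟩
    · push_cast at h3; omega
    · push_cast at h3; omega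
    · rw [em0]; exact ⟨fun _ _ => rfl, fun _ _ => rfl⟩
  · intro q st _ hq hvq _ hfv hfm hI
    obtain ⟨i1, i2, i3⟩ := hI
    have fv (y : ℕ) (hy : blockC.mv y = false) (hy' : y ≠ 20) (h'' : y ≠ 56) : st.v y = s.v y := by
      rw [hfv y hy hy']; simp [hs0, hy', h'']
    have ctxq : VCtx X M n lo hi h R S sz st := ctx.transport (by
      intro y hy
      rcases hy with rfl | rfl | rfl | rfl | rfl | rfl | rfl | rfl
      · exact fv 10 rfl (by norm_num) (by norm_num)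
      · exact fv 11 rfl (by norm_num) (by norm_num)
      · exact fv 16 rfl (by norm_num) (by norm_num)
      · exact fv 15 rfl (by norm_num) (by norm_num)
      · exact fv 18 rfl (by norm_num) (by norm_num)
      · exact fv 19 rfl (by norm_num) (by norm_num)
      · exact fv 25 rfl (by norm_num) (by norm_num)
      · exact fv 50 rfl (by norm_num) (by norm_num))
    have f9 : st.v 9 = i := by rw [fv 9 rfl (by norm_num) (by norm_num), h9]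
    have hch' : ChOK M lo hi sz (st.m 5) (st.m 6) := by
      intro c hc x a h1 h2 h3 h4
      obtain ⟨t1, t2⟩ := i3.tab (hcne c hc) h1 h2 h3 h4
      rw [t1]
      obtain ⟨u1, u2⟩ := hch c hc x a h1 h2 h3 h4
      exact ⟨u1, fun e he => by rw [t2 e he]; exact u2 e he⟩
    have hq6 : (q : ℤ) < 6 := by exact_mod_cast hq
    have hq0 : (0 : ℤ) ≤ q := by positivity
    rcases Int.emod_two_eq_zero_or_one (5 - (q : ℤ)) with hpar | hpar
    · -- D block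
      set a : ℤ := (5 - (q : ℤ)) / 2 - 1 with ha
      have haq : 5 - (q : ℤ) = 2 * (a + 1) := by omega
      have ha1 : -1 ≤ a := by omega
      have ha2 : a ≤ 1 := by omega
      obtain ⟨_, j2⟩ := i1 a ha1 ha2 (by omega)
      refine (blockD_spec ctxq ha1 ha2 (by rw [hvq]; omega) f9 hch' j2).mono le_rfl ?_
      rintro s' ⟨r1, r2, r3, r4⟩
      simp only [St.setv_m]
      rw [r3]
      have hother : ∀ a', -1 ≤ a' → a' ≤ 1 → a' ≠ a → ∀ b, -1 ≤ b → b ≤ 1 → ∀ e, e = 0 ∨ e = 1 →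
          tabD (s'.m 5) i a' b e = tabD (st.m 5) i a' b e := by
        intro a' h1 h2 hne b h3 h4 e he
        unfold tabD
        apply r4
        intro b' e' h5 h6 h7
        omega
      refine ⟨?_, ?_, ?_, ?_⟩
      · intro a' h1 h2 h3
        push_cast at h3
        exact i1 a' h1 h2 (by omega)
      · intro a' h1 h2 h3
        push_cast at h3
        rcases eq_or_ne a' a with h | h
        · subst h
          refine ⟨?_, r2⟩
          exact r1.congr (fun c hc y y1 y2 =>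
            ((i3.tab (hcne c hc) y1 y2 ha1 ha2).2 0 (Or.inl rfl)).symm)
            (fun c hc y y1 y2 => ((i3.tab (hcne c hc) y1 y2 ha1 ha2).1).symm)
            (fun _ _ _ => rfl) (fun _ _ _ _ _ => rfl)
        · obtain ⟨u1, u2⟩ := i2 a' h1 h2 (by omega)
          refine ⟨u1.congr (fun _ _ _ _ _ => rfl) (fun _ _ _ _ _ => rfl) (fun _ _ _ => rfl)
            (fun b b1 b2 e he => hother a' h1 h2 h b b1 b2 e he), ?_⟩
          intro b b1 b2 e he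
          rw [hother a' h1 h2 h b b1 b2 e he]
          exact u2 b b1 b2 e he
      · intro p hp
        rw [r4 p (by intro b e h1 h2 h3; omega)]
        exact i3.1 p hp
      · exact i3.2
    · -- E block
      set a : ℤ := (5 - (q : ℤ) - 1) / 2 - 1 with ha
      have haq : 5 - (q : ℤ) = 2 * (a + 1) + 1 := by omega
      have ha1 : -1 ≤ a := by omega
      have ha2 : a ≤ 1 := by omega
      refine (blockE_spec ctxq ha1 ha2 (by rw [hvq]; omega) f9 hch').mono le_rfl ?_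
      rintro s' ⟨r1, r2, r3, r4⟩
      simp only [St.setv_m]
      rw [r3]
      have hother : ∀ a', -1 ≤ a' → a' ≤ 1 → a' ≠ a → ∀ b, -1 ≤ b → b ≤ 1 →
          tabE (s'.m 6) i a' b = tabE (st.m 6) i a' b := by
        intro a' h1 h2 hne b h3 h4
        unfold tabE
        apply r4
        intro b' h5 h6
        omega
      refine ⟨?_, ?_, ?_, ?_⟩
      · intro a' h1 h2 h3
        push_cast at h3
        rcases eq_or_ne a' a with h | h
        · subst h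
          refine ⟨?_, r2⟩
          exact r1.congr (fun c hc y y1 y2 =>
            ((i3.tab (hcne c hc) y1 y2 ha1 ha2).2 1 (Or.inr rfl)).symm) (fun _ _ _ => rfl)
        · obtain ⟨u1, u2⟩ := i1 a' h1 h2 (by omega)
          refine ⟨u1.congr (fun _ _ _ _ _ => rfl) (fun b b1 b2 => hother a' h1 h2 h b b1 b2), ?_⟩
          intro b b1 b2
          rw [hother a' h1 h2 h b b1 b2]
          exact u2 b b1 b2
      · intro a' h1 h2 h3
        push_cast at h3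
        have hne : a' ≠ a := by omega
        obtain ⟨u1, u2⟩ := i2 a' h1 h2 (by omega)
        exact ⟨u1.congr (fun _ _ _ _ _ => rfl) (fun _ _ _ _ _ => rfl)
          (fun b b1 b2 => hother a' h1 h2 hne b b1 b2) (fun _ _ _ _ _ => rfl), u2⟩
      · exact i3.1
      · intro p hp
        rw [r4 p (by intro b h1 h2; omega)]
        exact i3.2 p hp
  · intro s' hI _ _ _
    obtain ⟨i1, i2, i3⟩ := hI
    push_cast at i1 i2
    refine ⟨?_, ?_, i3⟩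
    · apply localOK_of
      intro a ha1 ha2
      obtain ⟨u1, u2⟩ := i1 a ha1 ha2 (by omega)
      obtain ⟨w1, w2⟩ := i2 a ha1 ha2 (by omega)
      refine ⟨u1.congr (fun c hc y y1 y2 => (i3.tab (hcne c hc) y1 y2 ha1 ha2).2 1 (Or.inr rfl))
        (fun _ _ _ => rfl), ?_⟩
      exact w1.congr (fun c hc y y1 y2 => (i3.tab (hcne c hc) y1 y2 ha1 ha2).2 0 (Or.inl rfl))
        (fun c hc y y1 y2 => (i3.tab (hcne c hc) y1 y2 ha1 ha2).1) (fun _ _ _ => rfl)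
        (fun _ _ _ _ _ => rfl)
    · intro a b a1 a2 b1 b2
      exact ⟨(i1 a a1 a2 (by omega)).2 b b1 b2, (i2 a a1 a2 (by omega)).2 b b1 b2⟩

end Pool.Agent.Lib_helper87.UM
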