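import Mathlib
set_option autoImplicit false

namespace Pool.Agent.Lib_helper87.UM
open Finset

/-- Reverting changes: a selection can be replaced by one in which no nonempty set of changed
positions can be reverted without violating `cond`. -/
lemma exists_reduced (A : Finset ℕ) (g : ℕ → ℤ → ℤ) (b : ℕ → ℤ) (κ M : ℤ) (cond : ℤ → Prop)
    (hb : ∀ c ∈ A, -1 ≤ b c ∧ b c ≤ 1)
    (harg : ∀ c ∈ A, ∀ y, -1 ≤ y → y ≤ 1 → -M < g c y →
      -M < g c (b c) ∧ 2 * g c y - κ * y ≤ 2 * g c (b c) - κ * b c)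
    (x : ℕ → ℤ)
    (hx : ∀ c ∈ A, -1 ≤ x c ∧ x c ≤ 1 ∧ -M < g c (x c)) (hc : cond (∑ c ∈ A, x c)) :
    ∃ x' : ℕ → ℤ, (∀ c ∈ A, -1 ≤ x' c ∧ x' c ≤ 1 ∧ -M < g c (x' c)) ∧ cond (∑ c ∈ A, x' c) ∧
      ∑ c ∈ A, g c (x c) ≤ ∑ c ∈ A, g c (x' c) ∧
      ∀ S ⊆ A, S.Nonempty → (∀ c ∈ S, x' c ≠ b c) → κ * ∑ c ∈ S, (x' c - b c) ≤ 0 →
        ¬ cond (∑ c ∈ A, x' c - ∑ c ∈ S, (x' c - b c)) := by
  induction' hn : (A.filter (fun c => x c ≠ b c)).card using Nat.strong_induction_on with n ih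
    generalizing x
  by_cases h : ∀ S ⊆ A, S.Nonempty → (∀ c ∈ S, x c ≠ b c) → κ * ∑ c ∈ S, (x c - b c) ≤ 0 →
        ¬ cond (∑ c ∈ A, x c - ∑ c ∈ S, (x c - b c))
  · exact ⟨x, hx, hc, le_rfl, h⟩
  · push Not at h
    obtain ⟨S, hSA, hSne, hch, hk, hcond⟩ := h
    set y : ℕ → ℤ := fun c => if c ∈ S then b c else x c with hy
    have hysum : ∑ c ∈ A, y c = ∑ c ∈ A, x c - ∑ c ∈ S, (x c - b c) := by
      have h1 : ∑ c ∈ S, (x c - b c) = ∑ c ∈ A, (if c ∈ S then (x c - b c) else 0) := by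
        rw [Finset.sum_ite_mem, Finset.inter_eq_right.mpr hSA]
      rw [h1, ← Finset.sum_sub_distrib]
      apply Finset.sum_congr rfl
      intro c _
      simp only [hy]
      split_ifs <;> ring
    have hyg : ∑ c ∈ A, g c (x c) ≤ ∑ c ∈ A, g c (y c) := by
      have h1 : ∑ c ∈ A, g c (y c) = ∑ c ∈ A, g c (x c) + ∑ c ∈ S, (g c (b c) - g c (x c)) := by
        have h2 : ∑ c ∈ S, (g c (b c) - g c (x c)) =
            ∑ c ∈ A, (if c ∈ S then (g c (b c) - g c (x c)) else 0) := by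
          rw [Finset.sum_ite_mem, Finset.inter_eq_right.mpr hSA]
        rw [h2, ← Finset.sum_add_distrib]
        apply Finset.sum_congr rfl
        intro c _
        simp only [hy]
        split_ifs <;> ring
      have h3 : -(κ * ∑ c ∈ S, (x c - b c)) ≤ 2 * ∑ c ∈ S, (g c (b c) - g c (x c)) := by
        rw [Finset.mul_sum, Finset.mul_sum, ← Finset.sum_neg_distrib]
        apply Finset.sum_le_sum
        intro c hcS
        have h4 := hx c (hSA hcS)
        have h5 := (harg c (hSA hcS) (x c) h4.1 h4.2.1 h4.2.2).2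
        linarith [mul_sub κ (x c) (b c)]
      rw [h1]
      omega
    have hyx : ∀ c ∈ A, -1 ≤ y c ∧ y c ≤ 1 ∧ -M < g c (y c) := by
      intro c hcA
      simp only [hy]
      split_ifs with hcS
      · have h4 := hx c hcA
        exact ⟨(hb c hcA).1, (hb c hcA).2, (harg c hcA (x c) h4.1 h4.2.1 h4.2.2).1⟩
      · exact hx c hcA
    have hcard : (A.filter (fun c => y c ≠ b c)).card < n := by
      rw [← hn]
      apply Finset.card_lt_card
      rw [Finset.ssubset_iff_of_subset]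
      · obtain ⟨c, hcS⟩ := hSne
        refine ⟨c, ?_, ?_⟩
        · simp [hSA hcS, hch c hcS]
        · simp [hy, hcS]
      · intro c hc
        simp only [Finset.mem_filter, hy] at hc ⊢
        refine ⟨hc.1, ?_⟩
        by_cases hcS : c ∈ S
        · simp [hcS] at hc
        · simpa [hcS] using hc.2
    obtain ⟨x', h1, h2, h3, h4⟩ := ih _ hcard y hyx (by rw [hysum]; exact hcond) rfl
    exact ⟨x', h1, h2, hyg.trans h3, h4⟩

/-- positive part total -/
lemma exists_pos {A : Finset ℕ} {d : ℕ → ℤ} (hd : ∀ c ∈ A, d c ≤ 2)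
    (hP : 2 ≤ ∑ c ∈ A, max (d c) 0) :
    (∃ c ∈ A, d c = 2) ∨ ∃ c ∈ A, ∃ c' ∈ A, c ≠ c' ∧ d c = 1 ∧ d c' = 1 := by
  by_cases h : ∃ c ∈ A, d c = 2
  · exact Or.inl h
  · right
    push Not at h
    have h1 : ∑ c ∈ A, max (d c) 0 = ((A.filter (fun c => d c = 1)).card : ℤ) := by
      rw [Finset.card_filter]
      push_cast
      apply Finset.sum_congr rfl
      intro c hc
      have := h c hc
      have := hd c hc
      split_ifs with h2
      · rw [h2]; rfl
      · rw [max_eq_right (by omega)]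
    rw [h1] at hP
    have h2 : 1 < (A.filter (fun c => d c = 1)).card := by omega
    obtain ⟨c, hc, c', hc', hne⟩ := Finset.one_lt_card.mp h2
    simp only [Finset.mem_filter] at hc hc'
    exact ⟨c, hc.1, c', hc'.1, hne, hc.2, hc'.2⟩

lemma exists_single {A : Finset ℕ} {d : ℕ → ℤ} (hP : 1 ≤ ∑ c ∈ A, max (d c) 0) :
    ∃ c ∈ A, 0 < d c := by
  by_contra h
  push Not at h
  have : ∑ c ∈ A, max (d c) 0 = 0 := by
    apply Finset.sum_eq_zero
    intro c hc
    exact max_eq_right (h c hc)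
  omega

/-- If no changed set has zero sum then the positive or the negative part is at most one. -/
lemma min_le_one {A : Finset ℕ} {d : ℕ → ℤ} (hd : ∀ c ∈ A, -2 ≤ d c ∧ d c ≤ 2)
    (hz : ∀ S ⊆ A, S.Nonempty → (∀ c ∈ S, d c ≠ 0) → ∑ c ∈ S, d c ≠ 0) :
    ∑ c ∈ A, max (d c) 0 ≤ 1 ∨ ∑ c ∈ A, max (-d c) 0 ≤ 1 := by
  by_contra hcon
  push Not at hcon
  obtain ⟨hP, hN⟩ := hcon
  have e2 : ∀ c ∈ A, ∀ c' ∈ A, c ≠ c' → d c ≠ 0 → d c' ≠ 0 → d c + d c' ≠ 0 := by
    intro c hc c' hc' hne h1 h2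
    have := hz {c, c'} (by intro a; simp; rintro (rfl | rfl) <;> assumption) (by simp)
      (by intro a; simp; rintro (rfl | rfl) <;> assumption)
    rwa [Finset.sum_pair hne] at this
  have e3 : ∀ c ∈ A, ∀ c' ∈ A, ∀ c'' ∈ A, c ≠ c' → c ≠ c'' → c' ≠ c'' → d c ≠ 0 → d c' ≠ 0 →
      d c'' ≠ 0 → d c + (d c' + d c'') ≠ 0 := by
    intro c hc c' hc' c'' hc'' h12 h13 h23 h1 h2 h3
    have := hz {c, c', c''} (by intro a; simp; rintro (rfl | rfl | rfl) <;> assumption) (by simp)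
      (by intro a; simp; rintro (rfl | rfl | rfl) <;> assumption)
    rwa [Finset.sum_insert (by simp [h12, h13]), Finset.sum_pair h23] at this
  rcases exists_pos (fun c hc => (hd c hc).2) (by omega) with ⟨c, hc, h1⟩ | ⟨c, hc, c', hc', hne, h1, h1'⟩
  · rcases exists_pos (d := fun c => -d c) (fun c hc => by have := (hd c hc).1; omega) (by omega) with
      ⟨a, ha, h2⟩ | ⟨a, ha, a', ha', hne, h2, h2'⟩
    · exact e2 c hc a ha (by rintro rfl; omega) (by omega) (by omega) (by omega)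
    · exact e3 c hc a ha a' ha' (by rintro rfl; omega) (by rintro rfl; omega) hne (by omega)
        (by omega) (by omega) (by omega)
  · rcases exists_pos (d := fun c => -d c) (fun c hc => by have := (hd c hc).1; omega) (by omega) with
      ⟨a, ha, h2⟩ | ⟨a, ha, a', ha', hne', h2, h2'⟩
    · exact e3 a ha c hc c' hc' (by rintro rfl; omega) (by rintro rfl; omega) hne (by omega)
        (by omega) (by omega) (by omega)
    · exact e2 c hc a ha (by rintro rfl; omega) (by omega) (by omega) (by omega)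

/-- the value function in which child `c0` must be usable as a witness -/
def gg (g w : ℕ → ℤ → ℤ) (c0 : ℕ) (i : ℕ) (y : ℤ) : ℤ := if i = c0 then w i y else g i y

/-- a finite selection of child values -/
def Sel (M : ℤ) (lo hi : ℕ) (G : ℕ → ℤ → ℤ) (x : ℕ → ℤ) : Prop :=
  ∀ i ∈ Ico lo hi, -1 ≤ x i ∧ x i ≤ 1 ∧ -M < G i (x i)

/-- the sum condition: exact or lower bound -/
def Cnd (ex : Bool) (k t : ℤ) : Prop := if ex then t = k else k ≤ t

/-- the required properties of the base selection -/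
def BaseOK (ex : Bool) (M κ : ℤ) (lo hi h : ℕ) (g : ℕ → ℤ → ℤ) (b : ℕ → ℤ) : Prop :=
  (∀ c ∈ Ico lo hi, -1 ≤ b c ∧ b c ≤ 1) ∧ (h ∈ Ico lo hi → b h = 0) ∧
  (∀ c ∈ Ico lo hi, c ≠ h → ∀ y, -1 ≤ y → y ≤ 1 → -M < g c y →
      -M < g c (b c) ∧ 2 * g c y - κ * y ≤ 2 * g c (b c) - κ * b c) ∧
  (ex = false → κ ≤ 0) ∧
  ((0 ≤ ∑ c ∈ Ico lo hi, b c ∧ ∑ c ∈ Ico lo hi, b c ≤ 1) ∨
   (ex = true ∧ 0 ≤ ∑ c ∈ Ico lo hi, b c ∧
      ∀ c ∈ Ico lo hi, c ≠ h → ∀ y, -1 ≤ y → y ≤ 1 → -M < g c y → b c ≤ y) ∨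
   (∑ c ∈ Ico lo hi, b c < 0 ∧
      ∀ c ∈ Ico lo hi, c ≠ h → ∀ y, -1 ≤ y → y ≤ 1 → -M < g c y → y ≤ b c) ∨
   (ex = false ∧ κ = 0 ∧ 0 ≤ ∑ c ∈ Ico lo hi, b c))

lemma sum_filter_split (s : Finset ℕ) (p : ℕ → Prop) [DecidablePred p] (f : ℕ → ℤ) :
    ∑ c ∈ s, f c = ∑ c ∈ s.filter p, f c + ∑ c ∈ s.filter (fun c => ¬ p c), f c :=
  (Finset.sum_filter_add_sum_filter_not s p f).symm

theorem window (ex : Bool) (M κ k : ℤ) (lo hi h c0 : ℕ) (g w : ℕ → ℤ → ℤ) (b x : ℕ → ℤ)
    (hbase : BaseOK ex M κ lo hi h g b)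
    (hk : -1 ≤ k ∧ k ≤ 3)
    (hx : Sel M lo hi (gg g w c0) x) (hsum : Cnd ex k (∑ c ∈ Ico lo hi, x c)) :
    ∃ x' : ℕ → ℤ, Sel M lo hi (gg g w c0) x' ∧ Cnd ex k (∑ c ∈ Ico lo hi, x' c) ∧
      ∑ c ∈ Ico lo hi, gg g w c0 c (x c) ≤ ∑ c ∈ Ico lo hi, gg g w c0 c (x' c) ∧
      ∀ c, c ≤ hi → |∑ i ∈ Ico lo c, (x' i - b i)| ≤ 12 := by
  obtain ⟨hb, hbh, harg, hκ, hcase⟩ := hbase
  set A := (Ico lo hi).filter (fun c => ¬ (c = h ∨ c = c0)) with hA
  set S := (Ico lo hi).filter (fun c => c = h ∨ c = c0) with hS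
  have hAmem : ∀ c ∈ A, c ∈ Ico lo hi ∧ c ≠ h ∧ c ≠ c0 := by
    intro c hc
    simp only [hA, Finset.mem_filter, not_or] at hc
    exact ⟨hc.1, hc.2.1, hc.2.2⟩
  set kA : ℤ := k - ∑ c ∈ S, x c with hkA
  have hcond0 : Cnd ex kA (∑ c ∈ A, x c) := by
    have := sum_filter_split (Ico lo hi) (fun c => c = h ∨ c = c0) x
    rw [this] at hsum
    unfold Cnd at hsum ⊢
    split_ifs at hsum ⊢
    · rw [hkA]; linarith
    · rw [hkA]; linarith
  obtain ⟨x1, h1, h2, h3, h4⟩ := exists_reduced A g b κ M (Cnd ex kA)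
    (fun c hc => hb c (hAmem c hc).1)
    (fun c hc => harg c (hAmem c hc).1 (hAmem c hc).2.1) x
    (fun c hc => by
      have := hx c (hAmem c hc).1
      simpa [gg, (hAmem c hc).2.2] using this) hcond0
  set x' : ℕ → ℤ := fun c => if c ∈ A then x1 c else x c with hx'
  have hxA : ∀ c ∈ A, x' c = x1 c := fun c hc => by simp [hx', hc]
  have hxS : ∀ c ∈ S, x' c = x c := fun c hc => by
    have : c ∉ A := by
      simp only [hS, hA, Finset.mem_filter] at hc ⊢
      tauto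
    simp [hx', this]
  have hsplit := fun f : ℕ → ℤ => sum_filter_split (Ico lo hi) (fun c => c = h ∨ c = c0) f
  have hselx' : Sel M lo hi (gg g w c0) x' := by
    intro i hi'
    by_cases hiA : i ∈ A
    · rw [hxA i hiA]
      have := h1 i hiA
      simpa [gg, (hAmem i hiA).2.2] using this
    · have hiS : i ∈ S := by
        simp only [hS, hA, Finset.mem_filter] at hiA ⊢
        tauto
      rw [hxS i hiS]
      exact hx i hi'
  have hsumA : ∑ c ∈ A, x' c = ∑ c ∈ A, x1 c := Finset.sum_congr rfl hxA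
  have hsumS : ∑ c ∈ S, x' c = ∑ c ∈ S, x c := Finset.sum_congr rfl hxS
  have hsumx' : ∑ c ∈ Ico lo hi, x' c = ∑ c ∈ S, x c + ∑ c ∈ A, x1 c := by
    rw [hsplit, hsumA, hsumS]
  -- deviations
  set d : ℕ → ℤ := fun c => x' c - b c with hd
  have hdle : ∀ c ∈ Ico lo hi, -2 ≤ d c ∧ d c ≤ 2 := by
    intro c hc
    have e1 := hselx' c hc
    have e2 := hb c hc
    simp only [hd]
    constructor <;> omega
  have hdh : ∀ c ∈ Ico lo hi, c = h → |d c| ≤ 1 := by
    intro c hc hch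
    have e1 := hselx' c hc
    have e2 := hbh (hch ▸ hc)
    subst hch
    simp only [hd, e2, sub_zero]
    rw [abs_le]
    exact ⟨e1.1, e1.2.1⟩
  have hSabs : ∑ c ∈ S, |d c| ≤ 3 := by
    calc ∑ c ∈ S, |d c| = ∑ c ∈ Ico lo hi, (if c = h ∨ c = c0 then |d c| else 0) := by
          rw [hS, Finset.sum_filter]
      _ ≤ ∑ c ∈ Ico lo hi, ((if c = h then 1 else 0) + (if c = c0 then 2 else 0) : ℤ) := by
          apply Finset.sum_le_sum
          intro c hc
          have e1 := hdle c hc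
          have e3 : |d c| ≤ 2 := abs_le.mpr e1
          by_cases hch : c = h
          · have e2 := hdh c hc hch
            by_cases hc0 : c = c0
            · simp only [hch, true_or, if_true]; split_ifs <;> rw [← hch] <;> omega
            · simp only [hch, true_or, if_true]; split_ifs <;> rw [← hch] <;> omega
          · by_cases hc0 : c = c0
            · rw [if_pos (Or.inr hc0), if_neg hch, if_pos hc0]; omega
            · rw [if_neg (by tauto), if_neg hch, if_neg hc0]; omega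
      _ ≤ 3 := by
          rw [Finset.sum_add_distrib, Finset.sum_ite_eq', Finset.sum_ite_eq']
          split_ifs <;> norm_num
  have hPN : ∑ c ∈ A, max (d c) 0 - ∑ c ∈ A, max (-d c) 0 = ∑ c ∈ A, d c := by
    rw [← Finset.sum_sub_distrib]
    apply Finset.sum_congr rfl
    intro c _
    rcases le_total (d c) 0 with h0 | h0
    · rw [max_eq_right h0, max_eq_left (by omega)]; ring
    · rw [max_eq_left h0, max_eq_right (by omega)]; ring
  have hP0 : 0 ≤ ∑ c ∈ A, max (d c) 0 := Finset.sum_nonneg fun c _ => le_max_right _ _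
  have hN0 : 0 ≤ ∑ c ∈ A, max (-d c) 0 := Finset.sum_nonneg fun c _ => le_max_right _ _
  have hdS : |∑ c ∈ S, d c| ≤ 3 := (Finset.abs_sum_le_sum_abs _ _).trans hSabs
  have hdA1 : ∀ c ∈ A, d c = x1 c - b c := fun c hc => by simp only [hd, hxA c hc]
  have hmin : ∑ c ∈ A, max (d c) 0 ≤ 1 ∨ ∑ c ∈ A, max (-d c) 0 ≤ 1 := by
    apply min_le_one (fun c hc => hdle c (hAmem c hc).1)
    intro S' hS' hne hnz hzero
    have e1 : ∑ c ∈ S', (x1 c - b c) = 0 := by
      rw [← hzero]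
      exact Finset.sum_congr rfl fun c hc => (hdA1 c (hS' hc)).symm
    refine h4 S' hS' hne ?_ ?_ ?_
    · intro c hc heq
      apply hnz c hc
      rw [hdA1 c (hS' hc), heq, sub_self]
    · rw [e1, mul_zero]
    · rw [e1, sub_zero]; exact h2
  have hsingle : ∀ c ∈ A, d c ≠ 0 → κ * d c ≤ 0 → ¬ Cnd ex kA (∑ c ∈ A, x1 c - d c) := by
    intro c hc hne hκd
    have := h4 {c} (by simpa using hc) (by simp) (by
      intro a ha
      rw [Finset.mem_singleton] at ha
      subst ha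
      intro heq
      apply hne
      rw [hdA1 a hc, heq, sub_self]) (by
      rw [Finset.sum_singleton, ← hdA1 c hc]; exact hκd)
    rwa [Finset.sum_singleton, ← hdA1 c hc] at this
  have hPpos : 1 ≤ ∑ c ∈ A, max (d c) 0 → ex = false → ∑ c ∈ A, x1 c ≤ kA + 1 := by
    intro hP hex
    obtain ⟨c, hc, hpos⟩ := exists_single hP
    have e1 := hsingle c hc (by omega) (mul_nonpos_of_nonpos_of_nonneg (hκ hex) hpos.le)
    unfold Cnd at e1
    rw [hex] at e1
    simp only [Bool.false_eq_true, if_false, not_le] at e1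
    have := (hdle c (hAmem c hc).1).2
    omega
  have hT : ∑ c ∈ A, d c = ∑ c ∈ A, x1 c + ∑ c ∈ S, x c - ∑ c ∈ Ico lo hi, b c - ∑ c ∈ S, d c := by
    have e1 := hsplit d
    have e2 : ∑ c ∈ Ico lo hi, d c = ∑ c ∈ Ico lo hi, x' c - ∑ c ∈ Ico lo hi, b c := by
      rw [← Finset.sum_sub_distrib]
    linarith
  rw [abs_le] at hdS
  have hbounds : ∑ c ∈ A, max (d c) 0 ≤ 8 ∧ ∑ c ∈ A, max (-d c) 0 ≤ 8 := by
    have hcnd : Cnd ex kA (∑ c ∈ A, x1 c) := h2
    have hge : kA ≤ ∑ c ∈ A, x1 c := by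
      unfold Cnd at hcnd
      split_ifs at hcnd <;> omega
    have hexle : ex = true → ∑ c ∈ A, x1 c = kA := by
      intro hex; unfold Cnd at hcnd; simpa [hex] using hcnd
    have hexb : ex = true ∨ ex = false := by cases ex <;> simp
    rcases hcase with hc | ⟨hex, hc1, hc2⟩ | ⟨hc1, hc2⟩ | ⟨hex, hκ0, hc1⟩
    · rcases hexb with hex | hex
      · have := hexle hex
        constructor <;> omega
      · have := fun hh => hPpos hh hex
        by_cases hPz : 1 ≤ ∑ c ∈ A, max (d c) 0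
        · have := this hPz
          constructor <;> omega
        · constructor <;> omega
    · have hN : ∑ c ∈ A, max (-d c) 0 = 0 := by
        apply Finset.sum_eq_zero
        intro c hc
        obtain ⟨m1, m2, m3⟩ := hAmem c hc
        have e1 := h1 c hc
        have := hc2 c m1 m2 (x1 c) e1.1 e1.2.1 e1.2.2
        have := hdA1 c hc
        exact max_eq_right (by omega)
      have := hexle hex
      constructor <;> omega
    · have hP : ∑ c ∈ A, max (d c) 0 = 0 := by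
        apply Finset.sum_eq_zero
        intro c hc
        obtain ⟨m1, m2, m3⟩ := hAmem c hc
        have e1 := h1 c hc
        have := hc2 c m1 m2 (x1 c) e1.1 e1.2.1 e1.2.2
        have := hdA1 c hc
        exact max_eq_right (by omega)
      constructor <;> omega
    · have hN : ∑ c ∈ A, max (-d c) 0 = 0 := by
        apply Finset.sum_eq_zero
        intro c hc
        apply max_eq_right
        by_contra hneg
        have e1 := hsingle c hc (by omega) (by rw [hκ0, zero_mul])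
        unfold Cnd at e1
        rw [hex] at e1
        simp only [Bool.false_eq_true, if_false, not_le] at e1
        omega
      have := fun hh => hPpos hh hex
      by_cases hPz : 1 ≤ ∑ c ∈ A, max (d c) 0
      · have := this hPz
        constructor <;> omega
      · constructor <;> omega
  refine ⟨x', hselx', ?_, ?_, ?_⟩
  · rw [hsumx']
    unfold Cnd at h2 ⊢
    split_ifs at h2 ⊢
    · rw [h2, hkA]; ring
    · rw [hkA] at h2; linarith
  · rw [hsplit (fun c => gg g w c0 c (x c)), hsplit (fun c => gg g w c0 c (x' c))]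
    have e1 : ∑ c ∈ S, gg g w c0 c (x c) = ∑ c ∈ S, gg g w c0 c (x' c) :=
      Finset.sum_congr rfl fun c hc => by rw [hxS c hc]
    have e2 : ∑ c ∈ A, gg g w c0 c (x c) = ∑ c ∈ A, g c (x c) :=
      Finset.sum_congr rfl fun c hc => by simp [gg, (hAmem c hc).2.2]
    have e3 : ∑ c ∈ A, gg g w c0 c (x' c) = ∑ c ∈ A, g c (x1 c) :=
      Finset.sum_congr rfl fun c hc => by simp [gg, (hAmem c hc).2.2, hxA c hc]
    show ∑ c ∈ S, gg g w c0 c (x c) + ∑ c ∈ A, gg g w c0 c (x c) ≤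
      ∑ c ∈ S, gg g w c0 c (x' c) + ∑ c ∈ A, gg g w c0 c (x' c)
    rw [e1, e2, e3]
    linarith
  · intro c hc
    have hsub : Ico lo c ⊆ Ico lo hi := Finset.Ico_subset_Ico_right hc
    have e0 := sum_filter_split (Ico lo c) (fun c => c = h ∨ c = c0) d
    show |∑ i ∈ Ico lo c, d i| ≤ 12
    rw [e0]
    have s1 : (Ico lo c).filter (fun c => c = h ∨ c = c0) ⊆ S := Finset.filter_subset_filter _ hsub
    have s2 : (Ico lo c).filter (fun c => ¬ (c = h ∨ c = c0)) ⊆ A := Finset.filter_subset_filter _ hsub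
    have e1 : |∑ i ∈ (Ico lo c).filter (fun c => c = h ∨ c = c0), d i| ≤ 3 := by
      refine (Finset.abs_sum_le_sum_abs _ _).trans (le_trans ?_ hSabs)
      exact Finset.sum_le_sum_of_subset_of_nonneg s1 fun _ _ _ => abs_nonneg _
    have e2 : ∑ i ∈ (Ico lo c).filter (fun c => ¬ (c = h ∨ c = c0)), d i ≤ ∑ c ∈ A, max (d c) 0 := by
      refine le_trans (Finset.sum_le_sum fun i _ => le_max_left (d i) 0) ?_
      exact Finset.sum_le_sum_of_subset_of_nonneg s2 fun _ _ _ => le_max_right _ _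
    have e3 : -∑ i ∈ (Ico lo c).filter (fun c => ¬ (c = h ∨ c = c0)), d i ≤
        ∑ c ∈ A, max (-d c) 0 := by
      rw [← Finset.sum_neg_distrib]
      refine le_trans (Finset.sum_le_sum fun i _ => le_max_left (-d i) 0) ?_
      exact Finset.sum_le_sum_of_subset_of_nonneg s2 fun _ _ _ => le_max_right _ _
    rw [abs_le] at e1 ⊢
    constructor <;> omega

end Pool.Agent.Lib_helper87.UM
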